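import Mathlib

set_option autoImplicit false

/-!
Embeddings of finite graphs in closed surfaces (orientable or not) through flags, and minor-minimal
obstructions for the non-orientable surfaces `N_k`.
-/

namespace Pool.Agent.H20.Hop

open SimpleGraph

/-- A flag of `G`: an oriented edge (dart), read as an incidence of its first vertex with the edge,
together with one of the two sides of the edge. -/
abbrev Flag {V : Type*} (G : SimpleGraph V) := G.Dart × Bool

/-- Move along the edge, staying on the same side of it. -/
def Flag.along {V : Type*} {G : SimpleGraph V} (f : Flag G) : Flag G := (f.1.symm, f.2)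

/-- Change the side of the edge, staying at the same vertex. -/
def Flag.across {V : Type*} {G : SimpleGraph V} (f : Flag G) : Flag G := (f.1, !f.2)

/-- A (generalised) rotation scheme of `G`, that is, up to equivalence a cellular embedding of every
connected component of `G` in a closed surface: a fixed point free involution `corner` of the flags
which pairs the flags that meet in a corner of a face. A corner is at one vertex (`fst`), and going
round a vertex, alternately across an edge and across a corner, one meets all flags at this vertex
(`cyclic`). -/
structure Scheme {V : Type*} (G : SimpleGraph V) where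
  /-- the other flag of the corner -/
  corner : Flag G → Flag G
  /-- `corner` is an involution -/
  invol : ∀ f, corner (corner f) = f
  /-- without fixed points -/
  ne : ∀ f, corner f ≠ f
  /-- a corner is at one vertex -/
  fst : ∀ f, (corner f).1.fst = f.1.fst
  /-- the flags at a vertex form one cycle -/
  cyclic : ∀ f g : Flag G, f.1.fst = g.1.fst →
    Relation.EqvGen (fun x y => y = Flag.across x ∨ y = corner x) f g

/-- The number of faces of the embedding: the number of classes of flags under moving along edges
and across corners, an isolated vertex having one face. -/
noncomputable def Scheme.numFaces {V : Type*} {G : SimpleGraph V} (S : Scheme G) : ℕ :=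
  Nat.card (Quot (fun x y : Flag G => y = Flag.along x ∨ y = S.corner x)) +
    Nat.card {v : V // ∀ w, ¬ G.Adj v w}

/-- The sum of the Euler genera of the embedded components is at most `g`: here
`2 - g_i = |V_i| - |E_i| + |F_i|` for the components. -/
def Scheme.EulerGenusLE {V : Type*} {G : SimpleGraph V} (S : Scheme G) (g : ℕ) : Prop :=
  2 * (Nat.card G.ConnectedComponent : ℤ) - g ≤
    (Nat.card V : ℤ) - Nat.card G.edgeSet + S.numFaces

/-- The embedding is in orientable surfaces: the flags can be given two signs such that moving along
an edge, across an edge and across a corner always changes the sign. -/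
def Scheme.Orientable {V : Type*} {G : SimpleGraph V} (S : Scheme G) : Prop :=
  ∃ o : Flag G → Bool, ∀ f, o (Flag.along f) = !(o f) ∧ o (Flag.across f) = !(o f) ∧
    o (S.corner f) = !(o f)

/-- The finite graph `G` embeds in the non-orientable surface `N_k` of genus `k ≥ 1`: it has a scheme
of Euler genus at most `k - 1`, or one of Euler genus at most `k` which is not orientable. -/
def EmbedsN {V : Type*} (G : SimpleGraph V) (k : ℕ) : Prop :=
  ∃ S : Scheme G, S.EulerGenusLE (k - 1) ∨ (S.EulerGenusLE k ∧ ¬ S.Orientable)

/-- `H` is a minor of `G`: there are disjoint nonempty connected vertex sets `B w` of `G`, one for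
every vertex `w` of `H`, such that `B w` and `B w'` are joined by an edge whenever `w` and `w'` are
adjacent in `H`. -/
def IsMinor {W V : Type*} (H : SimpleGraph W) (G : SimpleGraph V) : Prop :=
  ∃ B : W → Set V, (∀ w, (G.induce (B w)).Connected) ∧
    (∀ w w', w ≠ w' → Disjoint (B w) (B w')) ∧
    (∀ w w', H.Adj w w' → ∃ x ∈ B w, ∃ y ∈ B w', G.Adj x y)

/-- `G` is a minor-minimal obstruction for `N_k`: it does not embed in `N_k`, but every proper minor
of `G` does. -/
def IsObstruction {V : Type} (G : SimpleGraph V) (k : ℕ) : Prop :=
  ¬ EmbedsN G k ∧ ∀ (W : Type) (H : SimpleGraph W), Finite W → IsMinor H G → IsEmpty (H ≃g G) →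
    EmbedsN H k

end Pool.Agent.H20.Hop
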