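import Mathlib

set_option autoImplicit false

/-!
Classes of two fixed point free involutions, and how their number changes when one of the
involutions is switched on two pairs.
-/

namespace Pool.Agent.H20.Hop

variable {Ω : Type*}

/-- `a` is a fixed point free involution. -/
structure IsInv (a : Ω → Ω) : Prop where
  inv : ∀ x, a (a x) = x
  ne : ∀ x, a x ≠ x

/-- the equivalence relation generated by two maps -/
def Rel (a b : Ω → Ω) : Ω → Ω → Prop := Relation.EqvGen (fun x y => y = a x ∨ y = b x)

/-- the number of classes under two maps -/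
noncomputable def norb (a b : Ω → Ω) : ℕ := Nat.card (Quot (fun x y : Ω => y = a x ∨ y = b x))

/-- a proper sign for one map -/
def Flips (s : Ω → Bool) (a : Ω → Ω) : Prop := ∀ x, s (a x) = !(s x)

open Classical in
/-- `b` with the pairs `{p, b p}`, `{q, b q}` replaced by `{p, q}`, `{b p, b q}` -/
noncomputable def sw (b : Ω → Ω) (p q : Ω) : Ω → Ω := fun x =>
  if x = p then q else if x = q then p else if x = b p then b q else if x = b q then b p else b x

theorem rel_refl (a b : Ω → Ω) (x : Ω) : Rel a b x x := Relation.EqvGen.refl x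
theorem Rel.symm {a b : Ω → Ω} {x y : Ω} (h : Rel a b x y) : Rel a b y x :=
  Relation.EqvGen.symm _ _ h
theorem Rel.trans {a b : Ω → Ω} {x y z : Ω} (h : Rel a b x y) (h' : Rel a b y z) : Rel a b x z :=
  Relation.EqvGen.trans _ _ _ h h'
theorem rel_fst (a b : Ω → Ω) (x : Ω) : Rel a b x (a x) := Relation.EqvGen.rel _ _ (Or.inl rfl)
theorem rel_snd (a b : Ω → Ω) (x : Ω) : Rel a b x (b x) := Relation.EqvGen.rel _ _ (Or.inr rfl)

/-- induction: a set containing `x` and closed under `a` and `b` (involutions) contains the class. -/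
theorem Rel.mem_of_closed {a b : Ω → Ω} (ha : IsInv a) (hb : IsInv b) {C : Ω → Prop}
    (hca : ∀ x, C x → C (a x)) (hcb : ∀ x, C x → C (b x)) {x y : Ω} (h : Rel a b x y) (hx : C x) :
    C y := by
  have key : ∀ x y, Rel a b x y → (C x ↔ C y) := by
    intro x y h
    induction h with
    | rel x y h =>
      rcases h with h | h
      · subst h
        exact ⟨hca x, fun h => by have := hca _ h; rwa [ha.inv] at this⟩
      · subst h
        exact ⟨hcb x, fun h => by have := hcb _ h; rwa [hb.inv] at this⟩
    | refl x => exact Iff.rfl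
    | symm x y _ ih => exact ih.symm
    | trans x y z _ _ ih1 ih2 => exact ih1.trans ih2
  exact (key x y h).1 hx

private theorem sw_p (b : Ω → Ω) (p q : Ω) : sw b p q p = q := by simp [sw]

private theorem sw_q {b : Ω → Ω} {p q : Ω} (hpq : p ≠ q) : sw b p q q = p := by
  simp [sw, hpq.symm]

private theorem sw_bp {b : Ω → Ω} (hb : IsInv b) {p q : Ω} (hq : q ≠ b p) :
    sw b p q (b p) = b q := by
  simp [sw, hb.ne p, hq.symm]

private theorem sw_bq {b : Ω → Ω} (hb : IsInv b) {p q : Ω} (hpq : p ≠ q) (hq : q ≠ b p) :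
    sw b p q (b q) = b p := by
  have h3 : b q ≠ p := fun h => hq (by rw [← h, hb.inv])
  have h4 : b q ≠ b p := fun h => hpq (by rw [← hb.inv p, ← h, hb.inv])
  simp [sw, hb.ne q, h3, h4]

private theorem sw_other {b : Ω → Ω} {p q x : Ω} (h1 : x ≠ p) (h2 : x ≠ q) (h3 : x ≠ b p)
    (h4 : x ≠ b q) : sw b p q x = b x := by
  simp [sw, h1, h2, h3, h4]

/-- the switched map is a fixed point free involution -/
theorem sw_isInv {b : Ω → Ω} (hb : IsInv b) {p q : Ω} (hpq : p ≠ q) (hq : q ≠ b p) :
    IsInv (sw b p q) := by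
  have h3 : b q ≠ p := fun h => hq (by rw [← h, hb.inv])
  have h4 : b q ≠ b p := fun h => hpq (by rw [← hb.inv p, ← h, hb.inv])
  constructor
  · intro x
    by_cases x1 : x = p
    · rw [x1, sw_p, sw_q hpq]
    by_cases x2 : x = q
    · rw [x2, sw_q hpq, sw_p]
    by_cases x3 : x = b p
    · rw [x3, sw_bp hb hq, sw_bq hb hpq hq]
    by_cases x4 : x = b q
    · rw [x4, sw_bq hb hpq hq, sw_bp hb hq]
    rw [sw_other x1 x2 x3 x4, sw_other, hb.inv]
    · exact fun h => x3 (by rw [← h, hb.inv])
    · exact fun h => x4 (by rw [← h, hb.inv])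
    · exact fun h => x1 (by rw [← hb.inv x, h, hb.inv])
    · exact fun h => x2 (by rw [← hb.inv x, h, hb.inv])
  · intro x
    by_cases x1 : x = p
    · rw [x1, sw_p]
      exact hpq.symm
    by_cases x2 : x = q
    · rw [x2, sw_q hpq]
      exact hpq
    by_cases x3 : x = b p
    · rw [x3, sw_bp hb hq]
      exact h4
    by_cases x4 : x = b q
    · rw [x4, sw_bq hb hpq hq]
      exact h4.symm
    rw [sw_other x1 x2 x3 x4]
    exact hb.ne x

/-- switching back -/
theorem sw_sw {b : Ω → Ω} (hb : IsInv b) {p q : Ω} (hpq : p ≠ q) (hq : q ≠ b p) :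
    sw (sw b p q) p (b p) = b := by
  have h3 : b q ≠ p := fun h => hq (by rw [← h, hb.inv])
  have h4 : b q ≠ b p := fun h => hpq (by rw [← hb.inv p, ← h, hb.inv])
  have hb' := sw_isInv hb hpq hq
  have g1 : p ≠ b p := fun h => hb.ne p h.symm
  have g2 : b p ≠ sw b p q p := by
    rw [sw_p]
    exact hq.symm
  funext x
  by_cases x1 : x = p
  · rw [x1, sw_p]
  by_cases x3 : x = b p
  · rw [x3, sw_q g1, hb.inv]
  by_cases x2 : x = q
  · have e : x = sw b p q p := by rw [sw_p, x2]
    rw [e, sw_bp hb' g2, sw_bp hb hq, sw_p]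
  by_cases x4 : x = b q
  · have e : x = sw b p q (b p) := by rw [sw_bp hb hq, x4]
    rw [e, sw_bq hb' g1 g2, sw_p, sw_bp hb hq, hb.inv]
  rw [sw_other x1 x3 (by rw [sw_p]; exact x2) (by rw [sw_bp hb hq]; exact x4),
    sw_other x1 x2 x3 x4]

/-- the classes of a finer relation with the same number of classes are the same -/
theorem rel_of_norb_eq [Finite Ω] {a b a' b' : Ω → Ω} (h : ∀ x y, Rel a b x y → Rel a' b' x y)
    (hn : norb a b = norb a' b') {x y : Ω} (hxy : Rel a' b' x y) : Rel a b x y := by
  let r : Ω → Ω → Prop := fun x y => y = a x ∨ y = b x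
  let r' : Ω → Ω → Prop := fun x y => y = a' x ∨ y = b' x
  let f : Quot r → Quot r' := Quot.lift (fun x => Quot.mk r' x)
    (fun x y hxy => Quot.eq.2 (h x y (Relation.EqvGen.rel _ _ hxy)))
  have hs : Function.Surjective f := by
    intro q
    obtain ⟨z, rfl⟩ := Quot.exists_rep q
    exact ⟨Quot.mk r z, rfl⟩
  have hb := hs.bijective_of_nat_card_le (le_of_eq hn)
  have he : f (Quot.mk r x) = f (Quot.mk r y) := Quot.eq.2 hxy
  exact Quot.eq.1 (hb.1 he)

/-- classes on a disjoint union -/
theorem norb_sum {Ω' : Type*} [Finite Ω] [Finite Ω'] (a b : Ω → Ω) (a' b' : Ω' → Ω') :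
    norb (Sum.map a a') (Sum.map b b') = norb a b + norb a' b' := by
  let r : Ω → Ω → Prop := fun x y => y = a x ∨ y = b x
  let r' : Ω' → Ω' → Prop := fun x y => y = a' x ∨ y = b' x
  let R : Ω ⊕ Ω' → Ω ⊕ Ω' → Prop := fun x y => y = Sum.map a a' x ∨ y = Sum.map b b' x
  let e : Quot R ≃ Quot r ⊕ Quot r' :=
    { toFun := Quot.lift (Sum.elim (fun x => Sum.inl (Quot.mk r x))
        (fun x => Sum.inr (Quot.mk r' x))) (by
          rintro (x | x) (y | y) (h | h)
          · exact congrArg Sum.inl (Quot.sound (Or.inl (Sum.inl.inj h)))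
          · exact congrArg Sum.inl (Quot.sound (Or.inr (Sum.inl.inj h)))
          · cases h
          · cases h
          · cases h
          · cases h
          · exact congrArg Sum.inr (Quot.sound (Or.inl (Sum.inr.inj h)))
          · exact congrArg Sum.inr (Quot.sound (Or.inr (Sum.inr.inj h))))
      invFun := Sum.elim
        (Quot.lift (fun x => Quot.mk R (Sum.inl x)) (by
          rintro x y (h | h)
          · exact Quot.sound (Or.inl (congrArg Sum.inl h))
          · exact Quot.sound (Or.inr (congrArg Sum.inl h))))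
        (Quot.lift (fun x => Quot.mk R (Sum.inr x)) (by
          rintro x y (h | h)
          · exact Quot.sound (Or.inl (congrArg Sum.inr h))
          · exact Quot.sound (Or.inr (congrArg Sum.inr h))))
      left_inv := by
        intro q
        obtain ⟨z, rfl⟩ := Quot.exists_rep q
        rcases z with z | z <;> rfl
      right_inv := by
        rintro (q | q)
        · obtain ⟨z, rfl⟩ := Quot.exists_rep q
          rfl
        · obtain ⟨z, rfl⟩ := Quot.exists_rep q
          rfl }
  unfold norb
  rw [← Nat.card_sum]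
  exact Nat.card_congr e

theorem rel_sum_inl {Ω' : Type*} {a b : Ω → Ω} (a' b' : Ω' → Ω') {x y : Ω} (h : Rel a b x y) :
    Rel (Sum.map a a') (Sum.map b b') (Sum.inl x) (Sum.inl y) := by
  induction h with
  | rel x y h =>
    rcases h with h | h
    · exact Relation.EqvGen.rel _ _ (Or.inl (congrArg Sum.inl h))
    · exact Relation.EqvGen.rel _ _ (Or.inr (congrArg Sum.inl h))
  | refl x => exact rel_refl _ _ _
  | symm x y _ ih => exact ih.symm
  | trans x y z _ _ ih1 ih2 => exact ih1.trans ih2

theorem not_rel_sum {Ω' : Type*} (a b : Ω → Ω) (a' b' : Ω' → Ω') (x : Ω) (y : Ω') :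
    ¬ Rel (Sum.map a a') (Sum.map b b') (Sum.inl x) (Sum.inr y) := by
  have key : ∀ u w : Ω ⊕ Ω', Rel (Sum.map a a') (Sum.map b b') u w → u.isLeft = w.isLeft := by
    intro u w h
    induction h with
    | rel u w h =>
      rcases h with h | h <;> subst h <;> rcases u with u | u <;> rfl
    | refl u => rfl
    | symm u w _ ih => exact ih.symm
    | trans u w z _ _ ih1 ih2 => exact ih1.trans ih2
  intro h
  have := key _ _ h
  simp at this

/-- transport along an equivalence -/
theorem norb_equiv {Ω' : Type*} (e : Ω ≃ Ω') {a b : Ω → Ω} {a' b' : Ω' → Ω'}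
    (ha : ∀ x, e (a x) = a' (e x)) (hb : ∀ x, e (b x) = b' (e x)) : norb a b = norb a' b' := by
  unfold norb
  refine Nat.card_congr (Quot.congr e (fun x y => ?_))
  rw [← ha, ← hb, e.injective.eq_iff, e.injective.eq_iff]

theorem rel_equiv {Ω' : Type*} (e : Ω ≃ Ω') {a b : Ω → Ω} {a' b' : Ω' → Ω'}
    (ha : ∀ x, e (a x) = a' (e x)) (hb : ∀ x, e (b x) = b' (e x)) {x y : Ω} :
    Rel a b x y ↔ Rel a' b' (e x) (e y) := by
  constructor
  · intro h
    induction h with
    | rel x y h =>
      rcases h with h | h
      · exact Relation.EqvGen.rel _ _ (Or.inl (by rw [h, ha]))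
      · exact Relation.EqvGen.rel _ _ (Or.inr (by rw [h, hb]))
    | refl x => exact rel_refl _ _ _
    | symm x y _ ih => exact ih.symm
    | trans x y z _ _ ih1 ih2 => exact ih1.trans ih2
  · have key : ∀ u w : Ω', Rel a' b' u w → Rel a b (e.symm u) (e.symm w) := by
      intro u w h
      induction h with
      | rel u w h =>
        rcases h with h | h
        · exact Relation.EqvGen.rel _ _ (Or.inl (by
            rw [h, Equiv.symm_apply_eq, ha, Equiv.apply_symm_apply]))
        · exact Relation.EqvGen.rel _ _ (Or.inr (by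
            rw [h, Equiv.symm_apply_eq, hb, Equiv.apply_symm_apply]))
      | refl u => exact rel_refl _ _ _
      | symm u w _ ih => exact ih.symm
      | trans u w z _ _ ih1 ih2 => exact ih1.trans ih2
    intro h
    have := key _ _ h
    rwa [Equiv.symm_apply_apply, Equiv.symm_apply_apply] at this

/-- the four new flags of an edge: first coordinate the end, second the side -/
abbrev New := Bool × Bool

def New.end (x : New) : New := (!x.1, x.2)
def New.side (x : New) : New := (x.1, !x.2)

theorem norb_new_side : norb New.end New.side = 1 := by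
  unfold norb
  have hall : ∀ x : New, Rel New.end New.side (true, true) x := by
    rintro ⟨x1, x2⟩
    rcases x1 with _ | _ <;> rcases x2 with _ | _
    · exact (rel_fst New.end New.side (true, true)).trans
        (rel_snd New.end New.side (false, true))
    · exact rel_fst New.end New.side (true, true)
    · exact rel_snd New.end New.side (true, true)
    · exact rel_refl _ _ _
  rw [Nat.card_eq_one_iff_unique]
  refine ⟨⟨fun p q => ?_⟩, ⟨Quot.mk _ (true, true)⟩⟩
  obtain ⟨x, rfl⟩ := Quot.exists_rep p
  obtain ⟨y, rfl⟩ := Quot.exists_rep q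
  exact Quot.eq.2 ((hall x).symm.trans (hall y))

theorem norb_new_end : norb New.end New.end = 2 := by
  unfold norb
  let e : Quot (fun x y : New => y = New.end x ∨ y = New.end x) ≃ Bool :=
    { toFun := Quot.lift (fun x => x.2) (by
        rintro x y (h | h) <;> subst h <;> rfl)
      invFun := fun b => Quot.mk _ (true, b)
      left_inv := by
        intro q
        obtain ⟨⟨x1, x2⟩, rfl⟩ := Quot.exists_rep q
        rcases x1 with _ | _
        · exact Quot.sound (Or.inl rfl)
        · rfl
      right_inv := fun b => rfl }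
  rw [Nat.card_congr e, Nat.card_eq_fintype_card, Fintype.card_bool]

theorem norb_new_end_side : norb New.side New.side = 2 := by
  unfold norb
  let e : Quot (fun x y : New => y = New.side x ∨ y = New.side x) ≃ Bool :=
    { toFun := Quot.lift (fun x => x.1) (by
        rintro x y (h | h) <;> subst h <;> rfl)
      invFun := fun b => Quot.mk _ (b, true)
      left_inv := by
        intro q
        obtain ⟨⟨x1, x2⟩, rfl⟩ := Quot.exists_rep q
        rcases x2 with _ | _
        · exact Quot.sound (Or.inl rfl)
        · rfl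
      right_inv := fun b => rfl }
  rw [Nat.card_congr e, Nat.card_eq_fintype_card, Fintype.card_bool]

end Pool.Agent.H20.Hop
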