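import Mathlib
import Pool.Agent.H20.Hop.Orb

set_option autoImplicit false

/-!
How the number of classes of two fixed point free involutions changes when one of them is switched
on two pairs. Suggested proof: `φ = b ∘ a` as a permutation; `a` maps every cycle of `φ` to a
different cycle (if `a x = φ^j x` with `j = 2 i` then `φ^i x` is fixed by `a`, with `j = 2 i + 1`
then `a (φ^i x)` is fixed by `b`), which gives the sign (`s x` says whether `x` is in the `φ`-cycle
of the chosen representative of its class), and `norb a b` is half the number of cycles of `φ`, or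
the number of cycles on the elements of sign `true`. For `b' = sw b p q` one has
`b' ∘ a = swap (b p) q * swap (b q) p * (b ∘ a)`. Multiplying a permutation by a transposition `(x y)`
joins the cycles of `x` and `y` if they are different and splits the cycle if they are in one cycle
(for the number use `Equiv.Perm.sign_of_cycleType`, or a direct argument).
-/

namespace Pool.Agent.H20.Hop

variable {Ω : Type*}

/-! ### Auxiliary facts -/

/-- an involution as a permutation -/
private def toPerm {a : Ω → Ω} (ha : IsInv a) : Equiv.Perm Ω :=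
  ⟨a, a, ha.inv, ha.inv⟩

@[simp] private theorem toPerm_apply {a : Ω → Ω} (ha : IsInv a) (x : Ω) : toPerm ha x = a x := rfl

private theorem toPerm_mul_self {a : Ω → Ω} (ha : IsInv a) : toPerm ha * toPerm ha = 1 := by
  ext x
  simp [ha.inv]

private theorem toPerm_inv {a : Ω → Ω} (ha : IsInv a) : (toPerm ha)⁻¹ = toPerm ha :=
  inv_eq_of_mul_eq_one_left (toPerm_mul_self ha)

private theorem conj_eq {a b : Ω → Ω} (ha : IsInv a) (hb : IsInv b) (j : ℤ) (x : Ω) :
    a (((toPerm hb * toPerm ha) ^ j : Equiv.Perm Ω) x) =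
      ((toPerm hb * toPerm ha) ^ (-j) : Equiv.Perm Ω) (a x) := by
  have h1 : toPerm ha * (toPerm hb * toPerm ha) * (toPerm ha)⁻¹ = (toPerm hb * toPerm ha)⁻¹ := by
    rw [mul_inv_rev, toPerm_inv, toPerm_inv, mul_assoc, mul_assoc, toPerm_mul_self, mul_one]
  have h2 : toPerm ha * (toPerm hb * toPerm ha) ^ j * (toPerm ha)⁻¹ =
      (toPerm hb * toPerm ha) ^ (-j) := by
    rw [← conj_zpow, h1, inv_zpow, zpow_neg]
  have h3 := congrArg (fun σ : Equiv.Perm Ω => σ (a x)) h2
  simp only [Equiv.Perm.mul_apply, toPerm_inv, toPerm_apply, ha.inv] at h3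
  exact h3

private theorem not_same {a b : Ω → Ω} (ha : IsInv a) (hb : IsInv b) (x : Ω) :
    ¬ (toPerm hb * toPerm ha).SameCycle x (a x) := by
  rintro ⟨j, hj⟩
  rcases Int.even_or_odd' j with ⟨i, rfl | rfl⟩
  · have h1 := conj_eq ha hb i x
    rw [← hj, ← Equiv.Perm.mul_apply, ← zpow_add] at h1
    have h2 : -i + 2 * i = i := by ring
    rw [h2] at h1
    exact ha.ne _ h1
  · have h1 := conj_eq ha hb i x
    rw [← hj, ← Equiv.Perm.mul_apply, ← zpow_add] at h1
    have h2 : -i + (2 * i + 1) = 1 + i := by ring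
    rw [h2, zpow_add, zpow_one, Equiv.Perm.mul_apply, Equiv.Perm.mul_apply, toPerm_apply,
      toPerm_apply] at h1
    exact hb.ne _ h1.symm

private theorem rel_same {a b : Ω → Ω} (ha : IsInv a) (hb : IsInv b) {r x : Ω}
    (h : Rel a b r x) : (toPerm hb * toPerm ha).SameCycle r x ∨
      (toPerm hb * toPerm ha).SameCycle r (a x) := by
  refine Rel.mem_of_closed ha hb
    (C := fun y => (toPerm hb * toPerm ha).SameCycle r y ∨
      (toPerm hb * toPerm ha).SameCycle r (a y)) ?_ ?_ h (Or.inl (Equiv.Perm.SameCycle.refl _ _))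
  · rintro y (h | h)
    · right; rwa [ha.inv]
    · left; exact h
  · rintro y (h | h)
    · right
      have h1 : (toPerm hb * toPerm ha) (a (b y)) = y := by
        rw [Equiv.Perm.mul_apply, toPerm_apply, toPerm_apply, ha.inv, hb.inv]
      rw [← h1] at h
      exact Equiv.Perm.sameCycle_apply_right.1 h
    · left
      have h1 : (toPerm hb * toPerm ha) (a y) = b y := by
        rw [Equiv.Perm.mul_apply, toPerm_apply, toPerm_apply, ha.inv]
      rw [← h1]
      exact Equiv.Perm.sameCycle_apply_right.2 h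

/-- two fixed point free involutions of a finite set have a common sign -/
theorem exists_sign [Finite Ω] {a b : Ω → Ω} (ha : IsInv a) (hb : IsInv b) :
    ∃ s : Ω → Bool, Flips s a ∧ Flips s b := by
  classical
  let r : Ω → Ω → Prop := fun x y => y = a x ∨ y = b x
  let rep : Ω → Ω := fun x => (Quot.mk r x).out
  have hrep : ∀ x, Rel a b (rep x) x := fun x => by
    have : Quot.mk r (rep x) = Quot.mk r x := Quot.out_eq _
    exact Quot.eqvGen_exact this
  have hra : ∀ x, rep (a x) = rep x := fun x => by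
    have : Quot.mk r (a x) = Quot.mk r x :=
      (Quot.sound (show r x (a x) from Or.inl rfl)).symm
    simp only [rep, this]
  have hrb : ∀ x, rep (b x) = rep x := fun x => by
    have : Quot.mk r (b x) = Quot.mk r x :=
      (Quot.sound (show r x (b x) from Or.inr rfl)).symm
    simp only [rep, this]
  let s : Ω → Bool := fun x => decide ((toPerm hb * toPerm ha).SameCycle (rep x) x)
  have hsa : Flips s a := by
    intro x
    simp only [s, hra]
    rcases rel_same ha hb (hrep x) with h | h
    · have h2 : ¬ (toPerm hb * toPerm ha).SameCycle (rep x) (a x) := fun h' =>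
        not_same ha hb x (h.symm.trans h')
      simp [h, h2]
    · have h2 : ¬ (toPerm hb * toPerm ha).SameCycle (rep x) x := fun h' =>
        not_same ha hb x (h'.symm.trans h)
      simp [h, h2]
  refine ⟨s, hsa, fun x => ?_⟩
  rw [← hsa x]
  simp only [s, hra, hrb]
  have h1 : (toPerm hb * toPerm ha) (a x) = b x := by
    rw [Equiv.Perm.mul_apply, toPerm_apply, toPerm_apply, ha.inv]
  rw [← h1]
  congr 1
  exact propext Equiv.Perm.sameCycle_apply_right

/-- the same equivalence relation has the same number of classes -/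
private theorem card_same {r r' : Ω → Ω → Prop} (h1 : ∀ x y, r x y → Relation.EqvGen r' x y)
    (h2 : ∀ x y, r' x y → Relation.EqvGen r x y) :
    Nat.card (Quot r) = Nat.card (Quot r') := by
  refine Nat.card_congr ⟨Quot.lift (Quot.mk r') (fun x y h => Quot.eqvGen_sound (h1 x y h)),
    Quot.lift (Quot.mk r) (fun x y h => Quot.eqvGen_sound (h2 x y h)), ?_, ?_⟩
  · rintro ⟨x⟩; rfl
  · rintro ⟨x⟩; rfl

/-- joining two different classes -/
private theorem card_add [Finite Ω] (r : Ω → Ω → Prop) {p q : Ω}
    (h : ¬ Relation.EqvGen r p q) :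
    Nat.card (Quot (fun x y => r x y ∨ (x = p ∧ y = q))) + 1 = Nat.card (Quot r) := by
  classical
  have hne : (Quot.mk r p) ≠ Quot.mk r q := fun h' => h (Quot.eqvGen_exact h')
  let r2 : Ω → Ω → Prop := fun x y => r x y ∨ (x = p ∧ y = q)
  let f : Ω → {c : Quot r // c ≠ Quot.mk r q} := fun x =>
    if hx : Quot.mk r x = Quot.mk r q then ⟨Quot.mk r p, hne⟩ else ⟨Quot.mk r x, hx⟩
  have hf : ∀ x y, r2 x y → f x = f y := by
    rintro x y (hxy | ⟨rfl, rfl⟩)
    · have h1 : Quot.mk r x = Quot.mk r y := Quot.sound hxy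
      simp only [f, h1]
    · simp only [f, hne, dite_true, dite_false]
  have hmono : ∀ x y, r x y → Quot.mk r2 x = Quot.mk r2 y := fun x y hxy => Quot.sound (Or.inl hxy)
  let g : {c : Quot r // c ≠ Quot.mk r q} → Quot r2 := fun c =>
    Quot.lift (Quot.mk r2) hmono c.1
  have hpq2 : Quot.mk r2 p = Quot.mk r2 q := Quot.sound (Or.inr ⟨rfl, rfl⟩)
  have e : Quot r2 ≃ {c : Quot r // c ≠ Quot.mk r q} := by
    refine ⟨Quot.lift f hf, g, ?_, ?_⟩
    · rintro ⟨x⟩
      show g (f x) = Quot.mk r2 x
      by_cases hx : Quot.mk r x = Quot.mk r q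
      · have h1 : f x = ⟨Quot.mk r p, hne⟩ := by simp only [f, hx, dite_true]
        rw [h1]
        show Quot.mk r2 p = Quot.mk r2 x
        rw [hpq2]
        have h2 : Quot.lift (Quot.mk r2) hmono (Quot.mk r x) =
            Quot.lift (Quot.mk r2) hmono (Quot.mk r q) := by rw [hx]
        exact h2.symm
      · have h1 : f x = ⟨Quot.mk r x, hx⟩ := by simp only [f, hx, dite_false]
        rw [h1]
    · rintro ⟨⟨x⟩, hx⟩
      show f x = _
      have hx' : Quot.mk r x ≠ Quot.mk r q := hx
      simp only [f, hx', dite_false]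
  have h2 : Nat.card (Quot r) = Nat.card (Option {c : Quot r // c ≠ Quot.mk r q}) :=
    Nat.card_congr (Equiv.optionSubtypeNe (Quot.mk r q)).symm
  have h3 : Nat.card (Quot r2) = Nat.card {c : Quot r // c ≠ Quot.mk r q} := Nat.card_congr e
  rw [h2, Finite.card_option, ← h3]

private theorem sw_p (b : Ω → Ω) (p q : Ω) : sw b p q p = q := by simp [sw]

private theorem sw_q (b : Ω → Ω) (p q : Ω) : sw b p q q = p := by
  by_cases h : q = p
  · simp [sw, h]
  · simp [sw, h]

private theorem sw_bp {b : Ω → Ω} (hb : IsInv b) {p q : Ω} (hq : q ≠ b p) :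
    sw b p q (b p) = b q := by
  have h1 : b p ≠ p := hb.ne p
  have h2 : b p ≠ q := fun h => hq h.symm
  simp [sw, h1, h2]

private theorem sw_bq {b : Ω → Ω} (hb : IsInv b) {p q : Ω} (hpq : p ≠ q) (hq : q ≠ b p) :
    sw b p q (b q) = b p := by
  have h1 : b q ≠ p := fun h => hq (by rw [← h, hb.inv])
  have h2 : b q ≠ q := hb.ne q
  have h3 : b q ≠ b p := fun h => hpq (by rw [← hb.inv p, ← h, hb.inv])
  simp [sw, h1, h2, h3]

private theorem sw_ne {b : Ω → Ω} {p q x : Ω} (h1 : x ≠ p) (h2 : x ≠ q) (h3 : x ≠ b p)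
    (h4 : x ≠ b q) : sw b p q x = b x := by
  simp [sw, h1, h2, h3, h4]

/-- the pairs of `sw b p q` are related when `p`, `q` are related -/
private theorem rel_of_sw {a b : Ω → Ω} (hb : IsInv b) {p q : Ω} (hpq : p ≠ q) (hq : q ≠ b p)
    (h : Rel a b p q) (x : Ω) : Rel a b x (sw b p q x) := by
  by_cases h1 : x = p
  · subst h1; rw [sw_p]; exact h
  by_cases h2 : x = q
  · subst h2; rw [sw_q]; exact h.symm
  by_cases h3 : x = b p
  · subst h3; rw [sw_bp hb hq]
    exact ((rel_snd a b p).symm.trans h).trans (rel_snd a b q)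
  by_cases h4 : x = b q
  · subst h4; rw [sw_bq hb hpq hq]
    exact ((rel_snd a b q).symm.trans h.symm).trans (rel_snd a b p)
  rw [sw_ne h1 h2 h3 h4]
  exact rel_snd a b x

/-- the pairs of `b` are related under `sw b p q` when `p` and `b p` are -/
private theorem rel_sw_of {a b : Ω → Ω} (hb : IsInv b) {p q : Ω} (hq : q ≠ b p)
    (h : Rel a (sw b p q) p (b p)) (x : Ω) : Rel a (sw b p q) x (b x) := by
  have hpq' : Rel a (sw b p q) p q := by
    have := rel_snd a (sw b p q) p
    rwa [sw_p] at this
  have hbb : Rel a (sw b p q) (b p) (b q) := by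
    have := rel_snd a (sw b p q) (b p)
    rwa [sw_bp hb hq] at this
  have hqq : Rel a (sw b p q) q (b q) := (hpq'.symm.trans h).trans hbb
  by_cases h1 : x = p
  · subst h1; exact h
  by_cases h2 : x = q
  · subst h2; exact hqq
  by_cases h3 : x = b p
  · subst h3; rw [hb.inv]; exact h.symm
  by_cases h4 : x = b q
  · subst h4; rw [hb.inv]; exact hqq.symm
  have := rel_snd a (sw b p q) x
  rwa [sw_ne h1 h2 h3 h4] at this

private theorem ph_apply {a b : Ω → Ω} (ha : IsInv a) (hb : IsInv b) (x : Ω) :
    (toPerm hb * toPerm ha) x = b (a x) := rfl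

private theorem ph_succ {a b : Ω → Ω} (ha : IsInv a) (hb : IsInv b) (n : ℕ) (x : Ω) :
    ((toPerm hb * toPerm ha) ^ (n + 1)) x = b (a (((toPerm hb * toPerm ha) ^ n) x)) := by
  rw [pow_succ', Equiv.Perm.mul_apply]; rfl

private theorem rel_pow {a b : Ω → Ω} (ha : IsInv a) (hb : IsInv b) (n : ℕ) (x : Ω) :
    Rel a b x (((toPerm hb * toPerm ha) ^ n) x) := by
  induction n with
  | zero => exact rel_refl a b x
  | succ n ih =>
    rw [ph_succ]
    exact (ih.trans (rel_fst a b _)).trans (rel_snd a b _)

private theorem sign_pow {a b : Ω → Ω} (ha : IsInv a) (hb : IsInv b) {s : Ω → Bool}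
    (hsa : Flips s a) (hsb : Flips s b) (n : ℕ) (x : Ω) :
    s (((toPerm hb * toPerm ha) ^ n) x) = s x := by
  induction n with
  | zero => rfl
  | succ n ih => rw [ph_succ, hsb, hsa, ih, Bool.not_not]

/-- the class of `p` is split -/
private theorem split_core [Finite Ω] {a b : Ω → Ω} (ha : IsInv a) (hb : IsInv b) {s : Ω → Bool}
    (hsa : Flips s a) (hsb : Flips s b) {p q : Ω} (hq : q ≠ b p) (hs : s p ≠ s q)
    (h : Rel a b p q) : ¬ Rel a (sw b p q) p (b p) := by
  intro hcon
  have hpq : p ≠ q := fun h' => hs (by rw [h'])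
  have hbqp : b q ≠ p := fun h' => hq (by rw [← h', hb.inv])
  set φ : Equiv.Perm Ω := toPerm hb * toPerm ha with hφ
  have hsbq : s (b q) = s p := by
    rw [hsb]
    cases h1 : s p <;> cases h2 : s q <;> simp_all
  have hex : ∃ n : ℕ, (φ ^ n) p = b q := by
    rcases rel_same ha hb (h.trans (rel_snd a b q)) with h1 | h1
    · exact h1.exists_nat_pow_eq
    · exfalso
      obtain ⟨n, hn⟩ := h1.exists_nat_pow_eq
      have h2 := sign_pow ha hb hsa hsb n p
      rw [hn, hsa, hsbq] at h2
      cases h3 : s p <;> simp_all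
  classical
  let n := Nat.find hex
  have hn : (φ ^ n) p = b q := Nat.find_spec hex
  have hmin : ∀ m < n, (φ ^ m) p ≠ b q := fun m hm => Nat.find_min hex hm
  have hn0 : 0 < n := by
    rcases Nat.eq_zero_or_pos n with h0 | h0
    · exfalso; rw [h0, pow_zero] at hn; exact hbqp hn.symm
    · exact h0
  have hper : ∀ i, 0 < i → i ≤ n → (φ ^ i) p ≠ p := by
    intro i hi hin hp
    have h1 : (φ ^ (n - i)) p = b q := by
      rw [← hn]
      conv_rhs => rw [show n = (n - i) + i by omega, pow_add, Equiv.Perm.mul_apply, hp]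
    exact hmin (n - i) (by omega) h1
  let C : Ω → Prop := fun y => ∃ i < n, y = (φ ^ i) p ∨ y = a ((φ ^ i) p)
  have hsp : ∀ i, s ((φ ^ i) p) = s p := fun i => sign_pow ha hb hsa hsb i p
  have hsap : ∀ i, s (a ((φ ^ i) p)) = !(s p) := fun i => by rw [hsa, hsp]
  have hne_not : ∀ c : Bool, (!c) ≠ c := by decide
  have hCa : ∀ x, C x → C (a x) := by
    rintro x ⟨i, hi, rfl | rfl⟩
    · exact ⟨i, hi, Or.inr rfl⟩
    · exact ⟨i, hi, Or.inl (ha.inv _)⟩
  have hCb : ∀ x, C x → C (sw b p q x) := by
    rintro x ⟨i, hi, rfl | rfl⟩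
    · rcases i with _ | i
      · -- b' p = q = a (φ^(n-1) p)
        rw [pow_zero, Equiv.Perm.one_apply, sw_p]
        refine ⟨n - 1, by omega, Or.inr ?_⟩
        have h1 := ph_succ ha hb (n - 1) p
        rw [Nat.sub_add_cancel hn0, ← hφ, hn] at h1
        rw [← hb.inv q, h1, hb.inv]
      · have h1 : (φ ^ (i + 1)) p ≠ p := hper _ (by omega) (by omega)
        have h4 : (φ ^ (i + 1)) p ≠ b q := hmin _ hi
        have h2 : (φ ^ (i + 1)) p ≠ q := fun h' => hs (by rw [← h', hsp])
        have h3 : (φ ^ (i + 1)) p ≠ b p := fun h' => by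
          have h5 := hsp (i + 1)
          rw [h', hsb] at h5
          exact hne_not _ h5
        rw [sw_ne h1 h2 h3 h4]
        refine ⟨i, by omega, Or.inr ?_⟩
        rw [hφ, ph_succ, hb.inv]
    · have hsy := hsap i
      have h1 : a ((φ ^ i) p) ≠ p := fun h' => by
        rw [h'] at hsy; exact hne_not _ hsy.symm
      have h4 : a ((φ ^ i) p) ≠ b q := fun h' => by
        rw [h', hsbq] at hsy; exact hne_not _ hsy.symm
      have h3 : a ((φ ^ i) p) ≠ b p := fun h' => by
        have h5 := ph_succ ha hb i p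
        rw [← hφ, h', hb.inv] at h5
        exact hper (i + 1) (by omega) (by omega) h5
      by_cases h2 : a ((φ ^ i) p) = q
      · rw [h2, sw_q]
        exact ⟨0, hn0, Or.inl rfl⟩
      · rw [sw_ne h1 h2 h3 h4]
        have h5 := ph_succ ha hb i p
        rw [← hφ] at h5
        rw [← h5]
        have h6 : i + 1 ≠ n := fun h' => by
          rw [h', hn] at h5
          exact h2 (by rw [← hb.inv (a ((φ ^ i) p)), ← h5, hb.inv])
        exact ⟨i + 1, by omega, Or.inl rfl⟩
  have hfin : Rel a (sw b p q) p (b q) := by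
    refine hcon.trans ?_
    have := rel_snd a (sw b p q) (b p)
    rwa [sw_bp hb hq] at this
  obtain ⟨i, hi, h1 | h1⟩ :=
    Rel.mem_of_closed ha (sw_isInv hb hpq hq) hCa hCb hfin ⟨0, hn0, Or.inl rfl⟩
  · exact hmin i hi h1.symm
  · have h2 := hsap i
    rw [← h1, hsbq] at h2
    exact hne_not _ h2.symm

/-- the classes of `p` and `q` are joined -/
private theorem diff_core [Finite Ω] {a b : Ω → Ω} (ha : IsInv a) (hb : IsInv b) {p q : Ω}
    (h : ¬ Rel a b p q) : Rel a (sw b p q) p (b p) := by
  obtain ⟨s, hsa, hsb⟩ := exists_sign ha hb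
  set φ : Equiv.Perm Ω := toPerm hb * toPerm ha with hφ
  have hsp : ∀ i, s ((φ ^ i) p) = s p := fun i => sign_pow ha hb hsa hsb i p
  have hne_not : ∀ c : Bool, (!c) ≠ c := by decide
  have hex : ∃ n : ℕ, 0 < n ∧ (φ ^ n) p = p :=
    ⟨orderOf φ, orderOf_pos φ, by rw [pow_orderOf_eq_one]; rfl⟩
  classical
  let n := Nat.find hex
  obtain ⟨hn0, hn⟩ : 0 < n ∧ (φ ^ n) p = p := Nat.find_spec hex
  have hmin : ∀ m < n, 0 < m → (φ ^ m) p ≠ p := fun m hm hm0 hp =>
    Nat.find_min hex hm ⟨hm0, hp⟩
  have key : ∀ i < n, Rel a (sw b p q) p ((φ ^ i) p) := by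
    intro i
    induction i with
    | zero => intro _; exact rel_refl _ _ _
    | succ i ih =>
      intro hi
      have h0 := ih (by omega)
      have hy : Rel a b p (a ((φ ^ i) p)) := (rel_pow ha hb i p).trans (rel_fst a b _)
      have h1 : a ((φ ^ i) p) ≠ p := fun h' => by
        have h2 := hsa ((φ ^ i) p)
        rw [h', hsp] at h2
        exact hne_not _ h2.symm
      have h2 : a ((φ ^ i) p) ≠ q := fun h' => h (h' ▸ hy)
      have h4 : a ((φ ^ i) p) ≠ b q := fun h' => h ((h' ▸ hy).trans (rel_snd a b q).symm)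
      have h5 := ph_succ ha hb i p
      rw [← hφ] at h5
      have h3 : a ((φ ^ i) p) ≠ b p := fun h' => by
        rw [h', hb.inv] at h5
        exact hmin (i + 1) hi (by omega) h5
      have h6 := (h0.trans (rel_fst a (sw b p q) _)).trans (rel_snd a (sw b p q) _)
      rw [sw_ne h1 h2 h3 h4] at h6
      rwa [h5]
  have h7 := key (n - 1) (by omega)
  have h8 := ph_succ ha hb (n - 1) p
  rw [Nat.sub_add_cancel hn0, ← hφ, hn] at h8
  have h9 : a ((φ ^ (n - 1)) p) = b p :=
    (hb.inv _).symm.trans (congrArg b h8.symm)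
  have h10 := h7.trans (rel_fst a (sw b p q) _)
  rwa [h9] at h10

/-- switching two pairs in different classes joins the two classes -/
theorem rel_sw_diff [Finite Ω] {a b : Ω → Ω} (ha : IsInv a) (hb : IsInv b) {p q : Ω}
    (h : ¬ Rel a b p q) {x y : Ω} (hxy : Rel a b x y) : Rel a (sw b p q) x y := by
  have hq : q ≠ b p := fun h' => h (h' ▸ rel_snd a b p)
  have hcore := diff_core ha hb h
  induction hxy with
  | rel x y h' =>
    rcases h' with h' | h'
    · subst h'; exact rel_fst _ _ _
    · subst h'; exact rel_sw_of hb hq hcore x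
  | refl x => exact rel_refl _ _ _
  | symm x y _ ih => exact ih.symm
  | trans x y z _ _ ih1 ih2 => exact ih1.trans ih2

theorem norb_sw_diff [Finite Ω] {a b : Ω → Ω} (ha : IsInv a) (hb : IsInv b) {p q : Ω}
    (h : ¬ Rel a b p q) : norb a (sw b p q) + 1 = norb a b := by
  have hpq : p ≠ q := fun h' => h (h' ▸ rel_refl a b p)
  have hq : q ≠ b p := fun h' => h (h' ▸ rel_snd a b p)
  have h1 := card_add (fun x y : Ω => y = a x ∨ y = b x) h
  unfold norb
  rw [← h1]
  congr 1
  refine card_same ?_ ?_
  · rintro x y (h' | h')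
    · subst h'
      exact Relation.EqvGen.rel _ _ (Or.inl (Or.inl rfl))
    · have hp1 : ∀ z, Relation.EqvGen (fun x y => (y = a x ∨ y = b x) ∨ x = p ∧ y = q) z (b z) :=
        fun z => Relation.EqvGen.rel _ _ (Or.inl (Or.inr rfl))
      have hp2 : Relation.EqvGen (fun x y => (y = a x ∨ y = b x) ∨ x = p ∧ y = q) p q :=
        Relation.EqvGen.rel _ _ (Or.inr ⟨rfl, rfl⟩)
      subst h'
      by_cases h1 : x = p
      · subst h1; rw [sw_p]; exact hp2
      by_cases h2 : x = q
      · subst h2; rw [sw_q]; exact hp2.symm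
      by_cases h3 : x = b p
      · subst h3; rw [sw_bp hb hq]
        exact ((hp1 p).symm.trans _ _ _ hp2).trans _ _ _ (hp1 q)
      by_cases h4 : x = b q
      · subst h4; rw [sw_bq hb hpq hq]
        exact ((hp1 q).symm.trans _ _ _ hp2.symm).trans _ _ _ (hp1 p)
      rw [sw_ne h1 h2 h3 h4]
      exact hp1 x
  · rintro x y ((h' | h') | ⟨h', h''⟩)
    · subst h'; exact rel_fst _ _ _
    · subst h'; exact rel_sw_diff ha hb h (rel_snd a b x)
    · subst h'; subst h''
      have := rel_snd a (sw b x y) x
      rwa [sw_p] at this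

/-- in one class, with elements of different sign: the class is split -/
theorem norb_sw_split [Finite Ω] {a b : Ω → Ω} (ha : IsInv a) (hb : IsInv b) {s : Ω → Bool}
    (hsa : Flips s a) (hsb : Flips s b) {p q : Ω} (hq : q ≠ b p) (hs : s p ≠ s q)
    (h : Rel a b p q) : norb a (sw b p q) = norb a b + 1 := by
  have hpq : p ≠ q := fun h' => hs (by rw [h'])
  have hcore := split_core ha hb hsa hsb hq hs h
  have h1 := card_add (fun x y : Ω => y = a x ∨ y = sw b p q x) hcore
  unfold norb
  rw [← h1]
  congr 1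
  refine card_same ?_ ?_
  · rintro x y ((h' | h') | ⟨h', h''⟩)
    · subst h'; exact rel_fst _ _ _
    · subst h'; exact rel_of_sw hb hpq hq h x
    · subst h'; subst h''; exact rel_snd _ _ _
  · rintro x y (h' | h')
    · subst h'
      exact Relation.EqvGen.rel _ _ (Or.inl (Or.inl rfl))
    · have hp1 : ∀ z, Relation.EqvGen
          (fun x y => (y = a x ∨ y = sw b p q x) ∨ x = p ∧ y = b p) z (sw b p q z) :=
        fun z => Relation.EqvGen.rel _ _ (Or.inl (Or.inr rfl))
      have hp2 : Relation.EqvGen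
          (fun x y => (y = a x ∨ y = sw b p q x) ∨ x = p ∧ y = b p) p (b p) :=
        Relation.EqvGen.rel _ _ (Or.inr ⟨rfl, rfl⟩)
      have hp3 := hp1 p
      rw [sw_p] at hp3
      have hp4 := hp1 (b p)
      rw [sw_bp hb hq] at hp4
      have hp5 := (hp3.symm.trans _ _ _ hp2).trans _ _ _ hp4
      subst h'
      by_cases h1 : x = p
      · subst h1; exact hp2
      by_cases h2 : x = q
      · subst h2; exact hp5
      by_cases h3 : x = b p
      · subst h3; rw [hb.inv]; exact hp2.symm
      by_cases h4 : x = b q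
      · subst h4; rw [hb.inv]; exact hp5.symm
      have := hp1 x
      rwa [sw_ne h1 h2 h3 h4] at this

/-- in one class, with elements of the same sign: the number of classes does not change -/
theorem norb_sw_same [Finite Ω] {a b : Ω → Ω} (ha : IsInv a) (hb : IsInv b) {s : Ω → Bool}
    (hsa : Flips s a) (hsb : Flips s b) {p q : Ω} (hpq : p ≠ q) (hs : s p = s q)
    (h : Rel a b p q) : norb a (sw b p q) = norb a b := by
  classical
  have hne_not : ∀ c : Bool, (!c) ≠ c := by decide
  have hq : q ≠ b p := fun h' => by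
    have h1 := hsb p
    rw [← h', ← hs] at h1
    exact hne_not _ h1.symm
  have hb' := sw_isInv hb hpq hq
  have hcore : Rel a (sw b p q) p (b p) := by
    by_contra hcon
    obtain ⟨t, hta, htb⟩ := exists_sign ha hb'
    -- modify the sign on the class of `p`
    obtain ⟨t, hta, htb, htp⟩ : ∃ t : Ω → Bool, Flips t a ∧ Flips t (sw b p q) ∧
        t p ≠ t (b p) := by
      by_cases ht : t p = t (b p)
      · refine ⟨fun x => if Rel a (sw b p q) p x then !(t x) else t x, ?_, ?_, ?_⟩
        · intro x
          have h1 : Rel a (sw b p q) p (a x) ↔ Rel a (sw b p q) p x :=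
            ⟨fun h => h.trans (rel_fst _ _ _).symm, fun h => h.trans (rel_fst _ _ _)⟩
          simp only [h1, hta x]
          split_ifs <;> rfl
        · intro x
          have h1 : Rel a (sw b p q) p (sw b p q x) ↔ Rel a (sw b p q) p x :=
            ⟨fun h => h.trans (rel_snd _ _ _).symm, fun h => h.trans (rel_snd _ _ _)⟩
          simp only [h1, htb x]
          split_ifs <;> rfl
        · simp only [hcon, if_false, rel_refl, if_true, ← ht]
          exact hne_not _
      · exact ⟨t, hta, htb, ht⟩
    have htq : t q = !(t p) := by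
      have := htb p
      rwa [sw_p] at this
    have htbq : t (b q) = !(t (b p)) := by
      have := htb (b p)
      rwa [sw_bp hb hq] at this
    have htbp : t (b p) = !(t p) := by
      cases h1 : t p <;> cases h2 : t (b p) <;> simp_all
    have htb2 : Flips t b := by
      intro x
      by_cases h1 : x = p
      · subst h1; exact htbp
      by_cases h2 : x = q
      · subst h2; rw [htbq, htbp, htq]
      by_cases h3 : x = b p
      · subst h3; rw [hb.inv, htbp, Bool.not_not]
      by_cases h4 : x = b q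
      · subst h4; rw [hb.inv, htbq, htbp, htq, Bool.not_not]
      have := htb x
      rwa [sw_ne h1 h2 h3 h4] at this
    have h5 := Rel.mem_of_closed ha hb (C := fun y => (s p = s y ↔ t p = t y))
      (fun x hx => by
        rw [hsa, hta]
        cases h1 : s p <;> cases h2 : s x <;> cases h3 : t p <;> cases h4 : t x <;> simp_all)
      (fun x hx => by
        rw [hsb, htb2]
        cases h1 : s p <;> cases h2 : s x <;> cases h3 : t p <;> cases h4 : t x <;> simp_all)
      h (by simp)
    have h6 := h5.1 hs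
    rw [htq] at h6
    exact hne_not _ h6.symm
  unfold norb
  refine card_same ?_ ?_
  · rintro x y (h' | h')
    · subst h'; exact rel_fst _ _ _
    · subst h'; exact rel_of_sw hb hpq hq h x
  · rintro x y (h' | h')
    · subst h'; exact rel_fst _ _ _
    · subst h'; exact rel_sw_of hb hq hcore x

end Pool.Agent.H20.Hop
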