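import Mathlib
import Pool.Agent.H20.Hop.OrbSw

set_option autoImplicit false

/-!
Surgeries on abstract schemes: `Ω` is the set of flags, `a` moves along the edge, `g` changes the
side of the edge, `b` is the corner involution, `vtx` the vertex of a flag.
-/

namespace Pool.Agent.H20.Hop

variable {Ω V : Type*}

/-- an abstract scheme -/
structure Abs (g b : Ω → Ω) (vtx : Ω → V) : Prop where
  gi : IsInv g
  bi : IsInv b
  gv : ∀ x, vtx (g x) = vtx x
  bv : ∀ x, vtx (b x) = vtx x
  star : ∀ x y, vtx x = vtx y → Rel g b x y

/-- orientable: a common sign of the three involutions -/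
def Ori (a g b : Ω → Ω) : Prop := ∃ o : Ω → Bool, Flips o a ∧ Flips o g ∧ Flips o b

/-- classes of an abstract scheme under side and corner are the vertices -/
theorem Abs.vtx_eq {g b : Ω → Ω} {vtx : Ω → V} (h : Abs g b vtx) {x y : Ω} (hxy : Rel g b x y) :
    vtx x = vtx y := by
  induction hxy with
  | rel x y h' => rcases h' with h' | h' <;> subst h'
                  · exact (h.gv x).symm
                  · exact (h.bv x).symm
  | refl x => rfl
  | symm x y _ ih => exact ih.symm
  | trans x y z _ _ ih1 ih2 => exact ih1.trans ih2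

/-- the elementary moves of a switched map stay in the classes if `p`, `q` are in one class -/
private theorem rel_sw_step {a b : Ω → Ω} (_hb : IsInv b) {p q : Ω} (h : Rel a b p q) (x : Ω) :
    Rel a b x (sw b p q x) := by
  unfold sw
  split_ifs with h1 h2 h3 h4
  · subst h1; exact h
  · subst h2; exact h.symm
  · subst h3
    exact ((rel_snd a b p).symm.trans h).trans (rel_snd a b q)
  · subst h4
    exact ((rel_snd a b q).symm.trans h.symm).trans (rel_snd a b p)
  · exact rel_snd a b x

/-- the classes of a switched pair of maps are contained in the old classes if `p`, `q` are in one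
class -/
private theorem rel_of_rel_sw {a b : Ω → Ω} (hb : IsInv b) {p q : Ω} (h : Rel a b p q) {x y : Ω}
    (hxy : Rel a (sw b p q) x y) : Rel a b x y := by
  induction hxy with
  | rel x y h' =>
    rcases h' with h' | h'
    · subst h'; exact rel_fst a b x
    · subst h'; exact rel_sw_step hb h x
  | refl x => exact rel_refl a b x
  | symm x y _ ih => exact ih.symm
  | trans x y z _ _ ih1 ih2 => exact ih1.trans ih2

/-- the number of classes depends only on the classes -/
private theorem norb_congr {a b a' b' : Ω → Ω} (h : ∀ x y, Rel a b x y ↔ Rel a' b' x y) :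
    norb a b = norb a' b' := by
  unfold norb
  refine Nat.card_congr
    { toFun := Quot.lift (fun x => Quot.mk _ x) (fun x y hxy => ?_)
      invFun := Quot.lift (fun x => Quot.mk _ x) (fun x y hxy => ?_)
      left_inv := ?_
      right_inv := ?_ }
  · exact Quot.eqvGen_sound ((h x y).1 (Relation.EqvGen.rel _ _ hxy))
  · exact Quot.eqvGen_sound ((h x y).2 (Relation.EqvGen.rel _ _ hxy))
  · rintro ⟨x⟩
    rfl
  · rintro ⟨x⟩
    rfl

/-- Switching two corners at one vertex whose flags have the same sign around the vertex keeps the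
scheme property. (`norb_sw_same` and `rel_of_norb_eq`.) -/
theorem switch_vertex_sign [Finite Ω] {g b : Ω → Ω} {vtx : Ω → V} (hS : Abs g b vtx)
    {s : Ω → Bool} (hsg : Flips s g) (hsb : Flips s b) {p q : Ω} (hpq : p ≠ q) (hs : s p = s q)
    (hv : vtx p = vtx q) : Abs g (sw b p q) vtx := by
  have hq : q ≠ b p := by
    rintro rfl
    rw [hsb p] at hs
    cases h : s p <;> rw [h] at hs <;> simp at hs
  have hrel : Rel g b p q := hS.star p q hv
  refine ⟨hS.gi, sw_isInv hS.bi hpq hq, hS.gv, fun x => ?_, fun x y hxy => ?_⟩
  · exact (hS.vtx_eq (rel_sw_step hS.bi hrel x)).symm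
  · refine rel_of_norb_eq (a := g) (b := sw b p q) (a' := g) (b' := b)
      (fun x y h => rel_of_rel_sw hS.bi hrel h) ?_ (hS.star x y hxy)
    exact norb_sw_same hS.gi hS.bi hsg hsb hpq hs hrel

/-- One of the two ways to switch two corners at a vertex keeps the scheme property. -/
theorem switch_vertex [Finite Ω] {g b : Ω → Ω} {vtx : Ω → V} (hS : Abs g b vtx) {p q : Ω}
    (hpq : p ≠ q) (hq : q ≠ b p) (hv : vtx p = vtx q) :
    Abs g (sw b p q) vtx ∨ Abs g (sw b p (b q)) vtx := by
  obtain ⟨s, hsg, hsb⟩ := exists_sign hS.gi hS.bi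
  by_cases hs : s p = s q
  · exact Or.inl (switch_vertex_sign hS hsg hsb hpq hs hv)
  · right
    refine switch_vertex_sign hS hsg hsb ?_ ?_ ?_
    · rintro rfl
      exact hq (hS.bi.inv q).symm
    · rw [hsb q]
      cases h1 : s p <;> cases h2 : s q <;> simp_all
    · rw [hv, hS.bv q]

/-- A switch at a vertex that joins two faces makes the scheme non-orientable. Proof: let `o` be a
sign for `a, g, sw b p q =: b'`. As `b = sw b' p (b p)` and the numbers of `g,b`-classes and
`g,b'`-classes agree, `norb_sw_split` (for `g, b'`) gives `o p = o (b p)`; then `norb_sw_same` (for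
`a, b'`) gives `norb a b = norb a b'`, against `norb_sw_diff`. -/
theorem nonor_of_join [Finite Ω] {a g b : Ω → Ω} {vtx : Ω → V} (ha : IsInv a) (hS : Abs g b vtx)
    {p q : Ω} (hv : vtx p = vtx q) (hS' : Abs g (sw b p q) vtx) (h : ¬ Rel a b p q) :
    ¬ Ori a g (sw b p q) := by
  rintro ⟨o, hoa, hog, hob⟩
  have hpq : p ≠ q := by
    rintro rfl
    exact h (rel_refl a b p)
  have hq : q ≠ b p := by
    rintro rfl
    exact h (rel_snd a b p)
  have hback : sw (sw b p q) p (b p) = b := sw_sw hS.bi hpq hq
  have hb'p : sw b p q p = q := by simp [sw]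
  have hcard : norb g b = norb g (sw b p q) :=
    norb_congr (fun x y => ⟨fun hxy => hS'.star x y (hS.vtx_eq hxy),
      fun hxy => hS.star x y (hS'.vtx_eq hxy)⟩)
  have hne : b p ≠ sw b p q p := by
    rw [hb'p]
    exact hq.symm
  have ho : o p = o (b p) := by
    by_contra hne'
    have hr : Rel g (sw b p q) p (b p) := hS'.star _ _ (hS.bv p).symm
    have h1 := norb_sw_split hS'.gi hS'.bi hog hob hne hne' hr
    rw [hback] at h1
    omega
  have hr : Rel a (sw b p q) p (b p) := rel_sw_diff ha hS.bi h (rel_snd a b p)
  have h1 := norb_sw_same ha hS'.bi hoa hob (hS.bi.ne p).symm ho hr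
  rw [hback] at h1
  have h2 := norb_sw_diff ha hS.bi h
  omega

/-- the vertex map after adding an edge between the vertices `u` and `v` -/
def vtxAdd (vtx : Ω → V) (u v : V) : Ω ⊕ New → V := Sum.elim vtx (fun x => if x.1 then v else u)

/-- the vertex map after splitting the vertex `w`: flags in `A` stay at `w`, the other flags at `w`
go to the new vertex `none`, which is joined to `w` by a new edge -/
noncomputable def vtxSplit (vtx : Ω → V) (w : V) (A : Set Ω) : Ω ⊕ New → Option V := by
  classical
  exact Sum.elim (fun x => if vtx x = w ∧ x ∉ A then none else some (vtx x))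
    (fun x => if x.1 then none else some w)

end Pool.Agent.H20.Hop
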