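import Mathlib
import Pool.Agent.H20.Hop.Defs
import Pool.Agent.H20.Hop.Surg

set_option autoImplicit false

/-!
From abstract schemes to schemes of graphs, and reinserting a deleted edge.
-/

namespace Pool.Agent.H20.Hop

open SimpleGraph

variable {V : Type*} {G : SimpleGraph V}

theorem along_isInv : IsInv (Flag.along : Flag G → Flag G) := by
  refine ⟨fun x => ?_, fun x h => ?_⟩
  · simp [Flag.along]
  · exact x.1.symm_ne (congrArg Prod.fst h)

theorem across_isInv : IsInv (Flag.across : Flag G → Flag G) := by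
  refine ⟨fun x => ?_, fun x h => ?_⟩
  · simp [Flag.across]
  · have := congrArg Prod.snd h
    simp [Flag.across] at this

/-- the abstract scheme of a scheme -/
theorem Scheme.abs (S : Scheme G) : Abs Flag.across S.corner (fun f => f.1.fst) where
  gi := across_isInv
  bi := ⟨S.invol, S.ne⟩
  gv _ := rfl
  bv := S.fst
  star := S.cyclic

/-- two flags are in one face -/
def Scheme.SameFace (S : Scheme G) (x y : Flag G) : Prop := Rel Flag.along S.corner x y

theorem Scheme.numFaces_eq (S : Scheme G) :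
    S.numFaces = norb Flag.along S.corner + Nat.card {v : V // ∀ w, ¬ G.Adj v w} := rfl

/-- transport of an abstract scheme to a scheme of a graph -/
theorem scheme_of_equiv {Ω' V' : Type*} {a' g' b' : Ω' → Ω'} {vtx' : Ω' → V'}
    (e : Flag G ≃ Ω') (ν : V → V') (hν : Function.Injective ν)
    (ha : ∀ f : Flag G, e f.along = a' (e f)) (hg : ∀ f : Flag G, e f.across = g' (e f))
    (hv : ∀ f : Flag G, vtx' (e f) = ν f.1.fst) (h : Abs g' b' vtx') :
    ∃ S' : Scheme G, norb Flag.along S'.corner = norb a' b' ∧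
      (S'.Orientable → Ori a' g' b') := by
  have hb : ∀ f : Flag G, e (e.symm (b' (e f))) = b' (e f) := fun f => e.apply_symm_apply _
  refine ⟨⟨fun f => e.symm (b' (e f)), fun f => ?_, fun f hf => ?_, fun f => ?_, fun f g hfg => ?_⟩,
    ?_, ?_⟩
  · simp only [Equiv.apply_symm_apply, h.bi.inv, Equiv.symm_apply_apply]
  · apply h.bi.ne (e f)
    rw [← hb f, hf]
  · apply hν
    rw [← hv, ← hv, hb, h.bv]
  · have h1 : vtx' (e f) = vtx' (e g) := by rw [hv, hv, hfg]
    exact (rel_equiv e (a := Flag.across) (b := fun f => e.symm (b' (e f))) hg hb).2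
      (h.star _ _ h1)
  · exact norb_equiv e ha hb
  · rintro ⟨o, ho⟩
    refine ⟨fun x => o (e.symm x), fun x => ?_, fun x => ?_, fun x => ?_⟩
    · have h1 : e.symm (a' x) = (e.symm x).along := by
        rw [Equiv.symm_apply_eq, ha, Equiv.apply_symm_apply]
      change o (e.symm (a' x)) = !(o (e.symm x))
      rw [h1]
      exact (ho _).1
    · have h1 : e.symm (g' x) = (e.symm x).across := by
        rw [Equiv.symm_apply_eq, hg, Equiv.apply_symm_apply]
      change o (e.symm (g' x)) = !(o (e.symm x))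
      rw [h1]
      exact (ho _).2.1
    · have h1 := (ho (e.symm x)).2.2
      change o (e.symm (b' (e (e.symm x)))) = _ at h1
      rw [Equiv.apply_symm_apply] at h1
      exact h1

/-- flags in one face are at vertices of one component -/
theorem Scheme.SameFace.reachable {S : Scheme G} {x y : Flag G} (h : S.SameFace x y) :
    G.Reachable x.1.fst y.1.fst := by
  unfold Scheme.SameFace at h
  induction h with
  | rel x y h =>
    rcases h with h | h
    · rw [h]
      exact x.1.adj.reachable
    · rw [h, S.fst]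
  | refl x => exact Reachable.refl _
  | symm x y _ ih => exact ih.symm
  | trans x y z _ _ ih1 ih2 => exact ih1.trans ih2

/-- the edge `uv` -/
def delE (u v x y : V) : Prop := (x = u ∧ y = v) ∨ (x = v ∧ y = u)

theorem delE_symm {u v x y : V} (h : ¬ delE u v x y) : ¬ delE u v y x := by
  intro h1
  apply h
  rcases h1 with ⟨h1, h2⟩ | ⟨h1, h2⟩
  · exact Or.inr ⟨h2, h1⟩
  · exact Or.inl ⟨h2, h1⟩

theorem del_adj_iff {u v x y : V} :
    (G.deleteEdges {s(u, v)}).Adj x y ↔ G.Adj x y ∧ ¬ delE u v x y := by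
  rw [SimpleGraph.deleteEdges_adj]
  refine and_congr_right (fun _ => not_congr ?_)
  rw [Set.mem_singleton_iff, Sym2.eq_iff]
  rfl

open Classical in
/-- the map of the flags -/
noncomputable def delFlag (u v : V) (f : Flag G) :
    Flag (G.deleteEdges {s(u, v)}) ⊕ New :=
  if hn : delE u v f.1.fst f.1.snd then Sum.inr (decide (f.1.fst = v), f.2)
  else Sum.inl (⟨(f.1.fst, f.1.snd), del_adj_iff.2 ⟨f.1.adj, hn⟩⟩, f.2)

theorem delFlag_pos {u v : V} {f : Flag G} (hn : delE u v f.1.fst f.1.snd) :
    delFlag u v f = Sum.inr (by classical exact (decide (f.1.fst = v), f.2)) := by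
  unfold delFlag
  rw [dif_pos hn]

theorem delFlag_neg {u v : V} {f : Flag G} (hn : ¬ delE u v f.1.fst f.1.snd) :
    delFlag u v f =
      Sum.inl (⟨(f.1.fst, f.1.snd), del_adj_iff.2 ⟨f.1.adj, hn⟩⟩, f.2) := by
  unfold delFlag
  rw [dif_neg hn]

theorem del_dart_ext {W : Type*} {H : SimpleGraph W} {d d' : H.Dart} (h1 : d.fst = d'.fst)
    (h2 : d.snd = d'.snd) : d = d' := by
  apply SimpleGraph.Dart.ext
  exact Prod.ext h1 h2

theorem delFlag_injective {u v : V} (huv : G.Adj u v) :
    Function.Injective (delFlag (G := G) u v) := by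
  classical
  intro f f' h
  by_cases hn : delE u v f.1.fst f.1.snd
  · by_cases hn' : delE u v f'.1.fst f'.1.snd
    · rw [delFlag_pos hn, delFlag_pos hn'] at h
      have h1 := Sum.inr.inj h
      have h2 := congrArg Prod.snd h1
      have h3 := congrArg Prod.fst h1
      have h4 : (f.1.fst = v) ↔ (f'.1.fst = v) := decide_eq_decide.1 h3
      refine Prod.ext (del_dart_ext ?_ ?_) h2
      · rcases hn with ⟨h5, h6⟩ | ⟨h5, h6⟩ <;> rcases hn' with ⟨h7, h8⟩ | ⟨h7, h8⟩
        · rw [h5, h7]
        · exact absurd (h5.symm.trans (h4.2 h7)) huv.ne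
        · exact absurd (h7.symm.trans (h4.1 h5)) huv.ne
        · rw [h5, h7]
      · rcases hn with ⟨h5, h6⟩ | ⟨h5, h6⟩ <;> rcases hn' with ⟨h7, h8⟩ | ⟨h7, h8⟩
        · rw [h6, h8]
        · exact absurd (h5.symm.trans (h4.2 h7)) huv.ne
        · exact absurd (h7.symm.trans (h4.1 h5)) huv.ne
        · rw [h6, h8]
    · rw [delFlag_pos hn, delFlag_neg hn'] at h
      cases h
  · by_cases hn' : delE u v f'.1.fst f'.1.snd
    · rw [delFlag_neg hn, delFlag_pos hn'] at h
      cases h
    · rw [delFlag_neg hn, delFlag_neg hn'] at h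
      have h1 := Sum.inl.inj h
      have h2 := congrArg Prod.snd h1
      have h3 := congrArg Prod.fst h1
      have h4 : f.1.fst = f'.1.fst :=
        congrArg (fun d : (G.deleteEdges {s(u, v)}).Dart => d.fst) h3
      have h5 : f.1.snd = f'.1.snd :=
        congrArg (fun d : (G.deleteEdges {s(u, v)}).Dart => d.snd) h3
      exact Prod.ext (del_dart_ext h4 h5) h2

theorem delFlag_surjective {u v : V} (huv : G.Adj u v) :
    Function.Surjective (delFlag (G := G) u v) := by
  classical
  intro y
  rcases y with ⟨d, s⟩ | ⟨b, s⟩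
  · have hd := del_adj_iff.1 d.adj
    refine ⟨((⟨(d.fst, d.snd), hd.1⟩ : G.Dart), s), ?_⟩
    rw [delFlag_neg (f := ((⟨(d.fst, d.snd), hd.1⟩ : G.Dart), s)) hd.2]
  · cases b with
    | true =>
      refine ⟨((⟨(v, u), huv.symm⟩ : G.Dart), s), ?_⟩
      rw [delFlag_pos (f := ((⟨(v, u), huv.symm⟩ : G.Dart), s)) (Or.inr ⟨rfl, rfl⟩)]
      simp
    | false =>
      refine ⟨((⟨(u, v), huv⟩ : G.Dart), s), ?_⟩
      rw [delFlag_pos (f := ((⟨(u, v), huv⟩ : G.Dart), s)) (Or.inl ⟨rfl, rfl⟩)]
      simp [huv.ne]

/-- the flags of `G` are those of `G - uv` and four more -/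
theorem flagDel_exists {u v : V} (huv : G.Adj u v) :
    ∃ e : Flag G ≃ Flag (G.deleteEdges {s(u, v)}) ⊕ New,
      (∀ f : Flag G, e f.along = Sum.map Flag.along New.end (e f)) ∧
      (∀ f : Flag G, e f.across = Sum.map Flag.across New.side (e f)) ∧
      ∀ f : Flag G, vtxAdd (fun f : Flag (G.deleteEdges {s(u, v)}) => f.1.fst) u v (e f) =
        f.1.fst := by
  classical
  refine ⟨Equiv.ofBijective (delFlag u v) ⟨delFlag_injective huv, delFlag_surjective huv⟩,
    ?_, ?_, ?_⟩
  · intro f
    change delFlag u v f.along = Sum.map Flag.along New.end (delFlag u v f)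
    by_cases hn : delE u v f.1.fst f.1.snd
    · have hn' : delE u v f.along.1.fst f.along.1.snd := by
        rcases hn with ⟨h1, h2⟩ | ⟨h1, h2⟩
        · exact Or.inr ⟨h2, h1⟩
        · exact Or.inl ⟨h2, h1⟩
      rw [delFlag_pos hn, delFlag_pos hn']
      change Sum.inr (decide (f.1.snd = v), f.2) = Sum.inr (!decide (f.1.fst = v), f.2)
      rcases hn with ⟨h1, h2⟩ | ⟨h1, h2⟩
      · simp [h1, h2, huv.ne]
      · simp [h1, h2, huv.ne]
    · have hn' : ¬ delE u v f.along.1.fst f.along.1.snd := delE_symm hn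
      rw [delFlag_neg hn, delFlag_neg hn']
      rfl
  · intro f
    change delFlag u v f.across = Sum.map Flag.across New.side (delFlag u v f)
    by_cases hn : delE u v f.1.fst f.1.snd
    · have hn' : delE u v f.across.1.fst f.across.1.snd := hn
      rw [delFlag_pos hn, delFlag_pos hn']
      rfl
    · have hn' : ¬ delE u v f.across.1.fst f.across.1.snd := hn
      rw [delFlag_neg hn, delFlag_neg hn']
      rfl
  · intro f
    change vtxAdd _ _ _ (delFlag u v f) = _
    by_cases hn : delE u v f.1.fst f.1.snd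
    · rw [delFlag_pos hn]
      unfold vtxAdd
      rw [Sum.elim_inr]
      rcases hn with ⟨h1, _⟩ | ⟨h1, _⟩
      · simp [h1, huv.ne]
      · simp [h1]
    · rw [delFlag_neg hn]
      rfl

/-- deleting an edge which is not a bridge keeps the number of components -/
theorem card_comp_del {u v : V} (h : (G.deleteEdges {s(u, v)}).Reachable u v) :
    Nat.card G.ConnectedComponent = Nat.card (G.deleteEdges {s(u, v)}).ConnectedComponent := by
  have key : ∀ x y, G.Reachable x y → (G.deleteEdges {s(u, v)}).Reachable x y := by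
    intro x y hxy
    obtain ⟨p⟩ := hxy
    induction p with
    | nil => exact Reachable.refl _
    | @cons a b c hab p ih =>
      refine Reachable.trans ?_ ih
      by_cases hn : delE u v a b
      · rcases hn with ⟨h1, h2⟩ | ⟨h1, h2⟩
        · rw [h1, h2]
          exact h
        · rw [h1, h2]
          exact h.symm
      · exact (del_adj_iff.2 ⟨hab, hn⟩).reachable
  refine Nat.card_eq_of_bijective (Quot.lift
    (fun x => (G.deleteEdges {s(u, v)}).connectedComponentMk x)
    (fun x y h => ConnectedComponent.eq.2 (key x y h))) ⟨?_, ?_⟩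
  · intro a b
    refine Quot.inductionOn a (fun x => Quot.inductionOn b (fun y h => ?_))
    have h1 : (G.deleteEdges {s(u, v)}).Reachable x y := ConnectedComponent.eq.1 h
    exact ConnectedComponent.eq.2 (h1.mono (SimpleGraph.deleteEdges_le _))
  · intro b
    refine Quot.inductionOn b (fun y => ⟨Quot.mk _ y, rfl⟩)

theorem card_edge_del [Finite V] {u v : V} (huv : G.Adj u v) :
    Nat.card G.edgeSet = Nat.card (G.deleteEdges {s(u, v)}).edgeSet + 1 := by
  classical
  have hmem : s(u, v) ∈ G.edgeSet := huv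
  have h1 : (G.deleteEdges {s(u, v)}).edgeSet = G.edgeSet \ {s(u, v)} :=
    SimpleGraph.edgeSet_deleteEdges _
  have hfin : (G.edgeSet).Finite := Set.toFinite _
  rw [Nat.card_coe_set_eq, Nat.card_coe_set_eq, h1]
  exact (Set.ncard_sdiff_singleton_add_one hmem hfin).symm

end Pool.Agent.H20.Hop
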