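import Mathlib
import Pool.Agent.H20.Hop.Del

set_option autoImplicit false

/-!
Lengths of faces.
-/

namespace Pool.Agent.H20.Hop

open SimpleGraph

variable {V : Type*} {H : SimpleGraph V}

/-- walking along a face -/
def Scheme.next (S : Scheme H) (x : Flag H) : Flag H := S.corner x.along

/-- the number of flags of the face of `x` (twice its length) -/
noncomputable def Scheme.fsize (S : Scheme H) (x : Flag H) : ℕ := Set.ncard {y | S.SameFace x y}

theorem Scheme.sameFace_next (S : Scheme H) (x : Flag H) : S.SameFace x (S.next x) :=
  (rel_fst _ _ x).trans (rel_snd _ _ _)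

theorem Scheme.sameFace_iter (S : Scheme H) (x : Flag H) (k : ℕ) :
    S.SameFace x (S.next^[k] x) := by
  induction k with
  | zero => exact rel_refl _ _ _
  | succ n ih =>
    rw [Function.iterate_succ_apply']
    exact ih.trans (S.sameFace_next _)

/-- the next vertex is the end of the dart -/
theorem Scheme.next_fst (S : Scheme H) (x : Flag H) : (S.next x).1.fst = x.1.snd := by
  simpa [Scheme.next, Flag.along] using S.fst x.along

theorem Scheme.next_injective (S : Scheme H) : Function.Injective S.next := by
  intro x y h
  have := congrArg S.corner h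
  simp only [Scheme.next, S.invol] at this
  exact along_isInv.inv x ▸ along_isInv.inv y ▸ congrArg Flag.along this

private theorem flag_cases {x y : Flag H} (h : y.1 = x.1) : y = x ∨ y = Flag.across x := by
  rcases hb : y.2 with _ | _ <;> rcases hb' : x.2 with _ | _
  · exact Or.inl (Prod.ext h (by rw [hb, hb']))
  · exact Or.inr (Prod.ext h (by simp [Flag.across, hb, hb']))
  · exact Or.inr (Prod.ext h (by simp [Flag.across, hb, hb']))
  · exact Or.inl (Prod.ext h (by rw [hb, hb']))

private theorem across_across (x : Flag H) : Flag.across (Flag.across x) = x :=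
  across_isInv.inv x

/-- a corner is between different edges if the vertex has at least two neighbours -/
theorem Scheme.corner_dart_ne (S : Scheme H) {x : Flag H} {w : V} (hw : H.Adj x.1.fst w)
    (hne : w ≠ x.1.snd) : (S.corner x).1.snd ≠ x.1.snd := by
  intro he
  have hd : (S.corner x).1 = x.1 := SimpleGraph.Dart.ext _ _ (Prod.ext (S.fst x) he)
  have hc : S.corner x = Flag.across x := by
    rcases flag_cases hd with h | h
    · exact absurd h (S.ne x)
    · exact h
  have hc' : S.corner (Flag.across x) = x := by rw [← hc, S.invol]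
  have h := S.cyclic x (⟨(x.1.fst, w), hw⟩, true) rfl
  have h2 := Rel.mem_of_closed (a := Flag.across) (b := S.corner)
    (C := fun y => y = x ∨ y = Flag.across x) across_isInv ⟨S.invol, S.ne⟩
    (by
      rintro y (rfl | rfl)
      · exact Or.inr rfl
      · exact Or.inl (across_across x))
    (by
      rintro y (rfl | rfl)
      · exact Or.inr hc
      · exact Or.inl hc') h (Or.inl rfl)
  rcases h2 with h2 | h2
  · exact hne (congrArg (fun y : Flag H => y.1.snd) h2)
  · exact hne (congrArg (fun y : Flag H => y.1.snd) h2)

/-- the corners on the two sides of an edge at a vertex with at least three neighbours lead to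
different neighbours -/
theorem Scheme.corner_across_ne (S : Scheme H) {x : Flag H}
    (h3 : 3 ≤ (H.neighborSet x.1.fst).ncard) :
    (S.corner x).1.snd ≠ (S.corner x.across).1.snd := by
  intro he
  have hfst : (S.corner x).1.fst = (S.corner x.across).1.fst := by
    rw [S.fst, S.fst]
    rfl
  have hd : (S.corner x.across).1 = (S.corner x).1 :=
    SimpleGraph.Dart.ext _ _ (Prod.ext hfst.symm he.symm)
  have hc : S.corner x.across = Flag.across (S.corner x) := by
    rcases flag_cases hd with h | h
    · exfalso
      have h5 : x.across = x := by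
        rw [← S.invol x.across, h, S.invol]
      exact across_isInv.ne x h5
    · exact h
  have hc' : S.corner (Flag.across (S.corner x)) = x.across := by rw [← hc, S.invol]
  have hsub : H.neighborSet x.1.fst ⊆ {x.1.snd, (S.corner x).1.snd} := by
    intro w hw
    rw [mem_neighborSet] at hw
    have h := S.cyclic x (⟨(x.1.fst, w), hw⟩, true) rfl
    have h2 := Rel.mem_of_closed (a := Flag.across) (b := S.corner)
      (C := fun y => y = x ∨ y = Flag.across x ∨ y = S.corner x ∨ y = Flag.across (S.corner x))
      across_isInv ⟨S.invol, S.ne⟩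
      (by
        rintro y (rfl | rfl | rfl | rfl)
        · exact Or.inr (Or.inl rfl)
        · exact Or.inl (across_across x)
        · exact Or.inr (Or.inr (Or.inr rfl))
        · exact Or.inr (Or.inr (Or.inl (across_across _))))
      (by
        rintro y (rfl | rfl | rfl | rfl)
        · exact Or.inr (Or.inr (Or.inl rfl))
        · exact Or.inr (Or.inr (Or.inr hc))
        · exact Or.inl (S.invol x)
        · exact Or.inr (Or.inl hc')) h (Or.inl rfl)
    rcases h2 with h2 | h2 | h2 | h2
    · exact Or.inl (congrArg (fun y : Flag H => y.1.snd) h2)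
    · exact Or.inl (congrArg (fun y : Flag H => y.1.snd) h2)
    · exact Or.inr (congrArg (fun y : Flag H => y.1.snd) h2)
    · exact Or.inr (congrArg (fun y : Flag H => y.1.snd) h2)
  have h4 := Set.ncard_le_ncard hsub (Set.toFinite _)
  have h5 := Set.ncard_insert_le x.1.snd {(S.corner x).1.snd}
  rw [Set.ncard_singleton] at h5
  omega

private theorem Scheme.next_along_next (S : Scheme H) (z : Flag H) :
    S.next (Flag.along (S.next z)) = Flag.along z := by
  unfold Scheme.next
  rw [along_isInv.inv, S.invol]

private theorem Scheme.iter_along (S : Scheme H) (j : ℕ) :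
    ∀ y : Flag H, S.next^[j] (Flag.along (S.next^[j] y)) = Flag.along y := by
  induction j with
  | zero => intro y; rfl
  | succ j ih =>
    intro y
    rw [Function.iterate_succ_apply' S.next j y, Function.iterate_succ_apply, S.next_along_next]
    exact ih y

private theorem Scheme.iter_ne_along (S : Scheme H) (m : ℕ) (x : Flag H) :
    S.next^[m] x ≠ Flag.along x := by
  intro h
  have hinj : ∀ t, Function.Injective (S.next^[t]) := fun t => S.next_injective.iterate t
  rcases Nat.even_or_odd' m with ⟨t, ht | ht⟩
  · rw [ht, two_mul, Function.iterate_add_apply, ← S.iter_along t x] at h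
    have h2 := hinj t h
    exact along_isInv.ne _ h2.symm
  · have e : m = t + (t + 1) := by omega
    rw [e, Function.iterate_add_apply, ← S.iter_along t x] at h
    have h2 := hinj t h
    rw [Function.iterate_succ_apply'] at h2
    exact S.ne _ h2

/-- a face walk which does not close up before `k` steps has at least `2 * k` flags (use a sign of
`Flag.along` and `S.corner`) -/
theorem Scheme.two_mul_le_fsize [Finite V] (S : Scheme H) {x : Flag H} {k : ℕ}
    (h : ∀ j, 0 < j → j < k → S.next^[j] x ≠ x) : 2 * k ≤ S.fsize x := by
  classical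
  have : Finite H.Dart := by
    refine Finite.of_injective (fun e : H.Dart => e.toProd) ?_
    intro a b hab
    exact SimpleGraph.Dart.ext _ _ hab
  have hinj : ∀ t, Function.Injective (S.next^[t]) := fun t => S.next_injective.iterate t
  have hlt : ∀ i j, i < j → j < k → S.next^[i] x ≠ S.next^[j] x := by
    intro i j hij hjk he
    have e : j = i + (j - i) := by omega
    rw [e, Function.iterate_add_apply] at he
    exact h (j - i) (by omega) (by omega) (hinj i he).symm
  have hne : ∀ i j, i < k → j < k → S.next^[i] x = S.next^[j] x → i = j := by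
    intro i j hi hj he
    rcases lt_trichotomy i j with hij | hij | hij
    · exact absurd he (hlt i j hij hj)
    · exact hij
    · exact absurd he.symm (hlt j i hij hi)
  have hcross : ∀ i j, S.next^[i] x ≠ Flag.along (S.next^[j] x) := by
    intro i j he
    have h2 := congrArg (S.next^[j]) he
    rw [S.iter_along, ← Function.iterate_add_apply] at h2
    exact S.iter_ne_along _ _ h2
  let f : Fin k × Bool → Flag H := fun p =>
    if p.2 then Flag.along (S.next^[p.1.1] x) else S.next^[p.1.1] x
  have hf : Function.Injective f := by
    rintro ⟨i, b⟩ ⟨j, c⟩ he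
    rcases b with _ | _ <;> rcases c with _ | _
    · have h1 : S.next^[i.1] x = S.next^[j.1] x := by simpa [f] using he
      rw [Fin.ext (hne _ _ i.2 j.2 h1)]
    · have h1 : S.next^[i.1] x = Flag.along (S.next^[j.1] x) := by simpa [f] using he
      exact absurd h1 (hcross _ _)
    · have h1 : Flag.along (S.next^[i.1] x) = S.next^[j.1] x := by simpa [f] using he
      exact absurd h1.symm (hcross _ _)
    · have h1 : Flag.along (S.next^[i.1] x) = Flag.along (S.next^[j.1] x) := by
        simpa [f] using he
      have h2 : S.next^[i.1] x = S.next^[j.1] x := by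
        rw [← along_isInv.inv (S.next^[i.1] x), h1, along_isInv.inv]
      rw [Fin.ext (hne _ _ i.2 j.2 h2)]
  have hsub : Set.range f ⊆ {y | S.SameFace x y} := by
    rintro y ⟨⟨i, b⟩, rfl⟩
    rcases b with _ | _
    · exact S.sameFace_iter x i.1
    · exact (S.sameFace_iter x i.1).trans (rel_fst _ _ _)
  have h1 := Set.ncard_le_ncard hsub (Set.toFinite _)
  have h2 : (Set.range f).ncard = 2 * k := by
    rw [← Set.image_univ, Set.ncard_image_of_injective _ hf, Set.ncard_univ,
      Nat.card_eq_fintype_card, Fintype.card_prod, Fintype.card_fin, Fintype.card_bool, mul_comm]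
  rw [h2] at h1
  exact h1

theorem Scheme.iter_one_ne (S : Scheme H) (x : Flag H) : S.next^[1] x ≠ x := by
  intro h
  have h1 : S.next x = x := h
  have h2 := S.next_fst x
  rw [h1] at h2
  exact x.1.adj.ne h2

/-- no turning back -/
theorem Scheme.iter_two_fst_ne (S : Scheme H) (h2 : ∀ v, 2 ≤ (H.neighborSet v).ncard)
    (x : Flag H) : (S.next^[2] x).1.fst ≠ x.1.fst := by
  have e : (S.next^[2] x).1.fst = (S.next x).1.snd := S.next_fst (S.next x)
  rw [e]
  have hex : ∃ w, H.Adj x.1.snd w ∧ w ≠ x.1.fst := by
    by_contra hn
    push Not at hn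
    have : (H.neighborSet x.1.snd).ncard ≤ 1 := by
      refine le_trans (Set.ncard_le_ncard (t := {x.1.fst}) (fun z hz => hn z hz)) ?_
      simp
    have := h2 x.1.snd
    omega
  obtain ⟨w, hw, hne⟩ := hex
  exact S.corner_dart_ne (x := Flag.along x) (w := w) hw hne

/-- a face of length three is a triangle -/
theorem Scheme.triangle_of_iter_three (S : Scheme H) {x : Flag H} (h : S.next^[3] x = x) :
    H.Adj x.1.fst x.1.snd ∧ H.Adj x.1.snd (S.next x).1.snd ∧ H.Adj (S.next x).1.snd x.1.fst := by
  refine ⟨x.1.adj, ?_, ?_⟩
  · have h1 := (S.next x).1.adj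
    rw [S.next_fst] at h1
    exact h1
  · have h1 := (S.next (S.next x)).1.adj
    rw [S.next_fst] at h1
    have h2 : (S.next (S.next (S.next x))) = x := h
    have h3 := S.next_fst (S.next (S.next x))
    rw [h2] at h3
    rw [← h3] at h1
    exact h1

/-- faces have length at least four in a triangle-free graph of minimum degree two -/
theorem Scheme.eight_le_fsize [Finite V] (S : Scheme H) (h2 : ∀ v, 2 ≤ (H.neighborSet v).ncard)
    (htf : ∀ u v w, H.Adj u v → H.Adj v w → ¬ H.Adj w u) (x : Flag H) : 8 ≤ S.fsize x := by
  have h := S.two_mul_le_fsize (x := x) (k := 4) (fun j h0 h4 => by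
    have hj : j = 1 ∨ j = 2 ∨ j = 3 := by omega
    rcases hj with rfl | rfl | rfl
    · exact S.iter_one_ne x
    · exact fun he => S.iter_two_fst_ne h2 x (by rw [he])
    · intro he
      obtain ⟨a1, a2, a3⟩ := S.triangle_of_iter_three he
      exact htf _ _ _ a1 a2 a3)
  omega

/-- and at least five if they do not close up after four steps -/
theorem Scheme.ten_le_fsize [Finite V] (S : Scheme H) (h2 : ∀ v, 2 ≤ (H.neighborSet v).ncard)
    (htf : ∀ u v w, H.Adj u v → H.Adj v w → ¬ H.Adj w u) {x : Flag H} (h4 : S.next^[4] x ≠ x) :
    10 ≤ S.fsize x := by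
  have h := S.two_mul_le_fsize (x := x) (k := 5) (fun j h0 h5 => by
    have hj : j = 1 ∨ j = 2 ∨ j = 3 ∨ j = 4 := by omega
    rcases hj with rfl | rfl | rfl | rfl
    · exact S.iter_one_ne x
    · exact fun he => S.iter_two_fst_ne h2 x (by rw [he])
    · intro he
      obtain ⟨a1, a2, a3⟩ := S.triangle_of_iter_three he
      exact htf _ _ _ a1 a2 a3
    · exact h4)
  omega

end Pool.Agent.H20.Hop
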