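import Mathlib
import Pool.Agent.H20.Hop.Face

set_option autoImplicit false

/-!
Counting faces.
-/

namespace Pool.Agent.H20.Hop

open SimpleGraph

variable {V : Type*} {H : SimpleGraph V}

/-- the number of flags -/
theorem card_flag [Finite V] : Nat.card (Flag H) = 4 * Nat.card H.edgeSet := by
  classical
  have := Fintype.ofFinite V
  rw [Nat.card_prod, Nat.card_eq_fintype_card, Nat.card_eq_fintype_card, Fintype.card_bool,
    H.dart_card_eq_twice_card_edges, Nat.card_eq_fintype_card, ← edgeFinset_card]
  ring

/-- Counting over classes with weights. -/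
theorem count_weight {Ω : Type*} [Fintype Ω] (a b : Ω → Ω) (f : Ω → ℤ)
    (h : ∀ x, 8 + ∑ y, (open Classical in if Rel a b x y then f y else 0) ≤
      (Set.ncard {y | Rel a b x y} : ℤ)) :
    8 * (norb a b : ℤ) + ∑ y, f y ≤ Fintype.card Ω := by
  classical
  let r : Ω → Ω → Prop := fun x y => y = a x ∨ y = b x
  have : Fintype (Quot r) := Fintype.ofFinite _
  have hrel : ∀ x y, Quot.mk r x = Quot.mk r y ↔ Rel a b x y := fun x y => Quot.eq
  have h1 : (norb a b : ℤ) = ∑ _q : Quot r, (1 : ℤ) := by
    rw [Finset.sum_const, Finset.card_univ, nsmul_eq_mul, mul_one]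
    unfold norb
    rw [Nat.card_eq_fintype_card]
  have h2 : ∑ y, f y = ∑ q : Quot r, ∑ y ∈ Finset.univ.filter (fun y => Quot.mk r y = q), f y := by
    exact (Finset.sum_fiberwise Finset.univ (fun y => Quot.mk r y) f).symm
  have h3 : (Fintype.card Ω : ℤ) =
      ∑ q : Quot r, ((Finset.univ.filter (fun y => Quot.mk r y = q)).card : ℤ) := by
    have := Finset.card_eq_sum_card_fiberwise (s := (Finset.univ : Finset Ω))
      (t := (Finset.univ : Finset (Quot r))) (f := fun y => Quot.mk r y)
      (fun x _ => Finset.mem_coe.2 (Finset.mem_univ _))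
    rw [← Finset.card_univ, this]
    push_cast
    rfl
  rw [h1, h2, h3, Finset.mul_sum, ← Finset.sum_add_distrib]
  refine Finset.sum_le_sum (fun q _ => ?_)
  obtain ⟨x, rfl⟩ := Quot.exists_rep q
  have hx := h x
  have e1 : ∑ y, (open Classical in if Rel a b x y then f y else 0) =
      ∑ y ∈ Finset.univ.filter (fun y => Quot.mk r y = Quot.mk r x), f y := by
    rw [Finset.sum_filter]
    refine Finset.sum_congr rfl (fun y _ => ?_)
    have : (Quot.mk r y = Quot.mk r x) ↔ Rel a b x y := by
      rw [hrel]
      exact ⟨Rel.symm, Rel.symm⟩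
    simp only [this]
  have e2 : Set.ncard {y | Rel a b x y} =
      (Finset.univ.filter (fun y => Quot.mk r y = Quot.mk r x)).card := by
    rw [← Set.ncard_coe_finset]
    congr 1
    ext y
    simp only [Finset.coe_filter, Finset.mem_univ, true_and, Set.mem_ofPred_eq]
    rw [hrel]
    exact ⟨Rel.symm, Rel.symm⟩
  rw [e1, e2] at hx
  linarith

/-- faces of size at least eight, and at least ten for the elements of `T`, which are in different
faces -/
theorem Scheme.count_faces [Finite V] (S : Scheme H) (h8 : ∀ x, 8 ≤ S.fsize x)
    (T : Finset (Flag H)) (hT : ∀ x ∈ T, 10 ≤ S.fsize x)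
    (hT' : ∀ x ∈ T, ∀ y ∈ T, x ≠ y → ¬ S.SameFace x y) :
    8 * norb Flag.along S.corner + 2 * T.card ≤ 4 * Nat.card H.edgeSet := by
  classical
  have : Finite H.Dart := by
    refine Finite.of_injective (fun e : H.Dart => e.toProd) ?_
    intro a b hab
    exact SimpleGraph.Dart.ext _ _ hab
  have := Fintype.ofFinite (Flag H)
  have main := count_weight (Flag.along : Flag H → Flag H) S.corner
    (fun y => if y ∈ T then 2 else 0) (fun x => by
      have e1 : ∑ y, (if Rel Flag.along S.corner x y then (if y ∈ T then (2 : ℤ) else 0) else 0) =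
          2 * ((T.filter (fun y => Rel Flag.along S.corner x y)).card : ℤ) := by
        simp only [← ite_and]
        rw [← Finset.sum_filter, Finset.sum_const, nsmul_eq_mul, mul_comm]
        congr 3
        ext y
        simp only [Finset.mem_filter, Finset.mem_univ, true_and]
        exact and_comm
      rw [e1]
      have hcard : (T.filter (fun y => Rel Flag.along S.corner x y)).card ≤ 1 := by
        rw [Finset.card_le_one]
        intro y hy z hz
        rw [Finset.mem_filter] at hy hz
        by_contra hne
        exact hT' y hy.1 z hz.1 hne (hy.2.symm.trans hz.2)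
      have hsize : Set.ncard {y | Rel Flag.along S.corner x y} = S.fsize x := rfl
      rw [hsize]
      rcases Nat.eq_zero_or_pos (T.filter (fun y => Rel Flag.along S.corner x y)).card with h0 | h0
      · rw [h0]
        have := h8 x
        push_cast
        omega
      · obtain ⟨y, hy⟩ := Finset.card_pos.1 h0
        rw [Finset.mem_filter] at hy
        have h10 := hT y hy.1
        have hxy : S.fsize x = S.fsize y := by
          unfold Scheme.fsize
          congr 1
          ext z
          exact ⟨fun hz => hy.2.symm.trans hz, fun hz => hy.2.trans hz⟩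
        rw [hxy]
        omega)
  have e2 : ∑ y : Flag H, (if y ∈ T then (2 : ℤ) else 0) = 2 * (T.card : ℤ) := by
    rw [Finset.sum_ite_mem, Finset.univ_inter, Finset.sum_const, nsmul_eq_mul, mul_comm]
  rw [e2, ← Nat.card_eq_fintype_card, card_flag] at main
  exact_mod_cast main

end Pool.Agent.H20.Hop
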