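import Mathlib
import Pool.Agent.H20.Hop.Del

set_option autoImplicit false

/-!
Contraction of an edge and its reversal.
-/

namespace Pool.Agent.H20.Hop

open SimpleGraph

variable {V : Type*} {G : SimpleGraph V}

/-- The simple graph obtained by contracting the edge `uv` to the vertex `u`. -/
def contr (G : SimpleGraph V) (u v : V) : SimpleGraph {x : V // x ≠ v} where
  Adj x y := x ≠ y ∧ (G.Adj x.1 y.1 ∨ (x.1 = u ∧ G.Adj v y.1) ∨ (y.1 = u ∧ G.Adj v x.1))
  symm := ⟨by
    rintro x y ⟨h, h'⟩
    refine ⟨h.symm, ?_⟩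
    rcases h' with h' | h' | h'
    · exact Or.inl h'.symm
    · exact Or.inr (Or.inr h')
    · exact Or.inr (Or.inl h')⟩
  loopless := ⟨fun x h => h.1 rfl⟩

/-- the flags at the contracted vertex which come from `u` -/
def aSide (G : SimpleGraph V) (u v : V) : Set (Flag (contr G u v)) :=
  {f | f.1.fst.1 = u ∧ G.Adj u f.1.snd.1}

open Classical in
/-- vertices of `G` as vertices of the contracted graph or the new one -/
noncomputable def nu (v : V) (x : V) : Option {x : V // x ≠ v} :=
  if h : x = v then none else some ⟨x, h⟩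

theorem nu_self (v : V) : nu v v = none := by
  unfold nu
  rw [dif_pos rfl]

theorem nu_ne {v x : V} (h : x ≠ v) : nu v x = some ⟨x, h⟩ := by
  unfold nu
  rw [dif_neg h]

theorem nu_injective (v : V) : Function.Injective (nu v) := by
  intro x y h
  by_cases hx : x = v
  · by_cases hy : y = v
    · rw [hx, hy]
    · rw [hx, nu_self, nu_ne hy] at h
      cases h
  · by_cases hy : y = v
    · rw [hy, nu_self, nu_ne hx] at h
      cases h
    · rw [nu_ne hx, nu_ne hy] at h
      have h1 := Option.some.inj h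
      exact congrArg Subtype.val h1

open Classical in
/-- the projection of the vertices -/
noncomputable def conPr {u v : V} (huv : u ≠ v) (x : V) : {x : V // x ≠ v} :=
  if h : x = v then ⟨u, huv⟩ else ⟨x, h⟩

theorem conPr_self {u v : V} (huv : u ≠ v) : conPr huv v = ⟨u, huv⟩ := by
  unfold conPr
  rw [dif_pos rfl]

theorem conPr_ne {u v : V} (huv : u ≠ v) {x : V} (h : x ≠ v) : conPr huv x = ⟨x, h⟩ := by
  unfold conPr
  rw [dif_neg h]

theorem conPr_val {u v : V} (huv : u ≠ v) (x : {x : V // x ≠ v}) : conPr huv x.1 = x :=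
  conPr_ne huv x.2

/-- the edge `uv` -/
def isUV (u v x y : V) : Prop := (x = u ∧ y = v) ∨ (x = v ∧ y = u)

theorem isUV_symm {u v x y : V} (h : ¬ isUV u v x y) : ¬ isUV u v y x := by
  intro h1
  apply h
  rcases h1 with ⟨h1, h2⟩ | ⟨h1, h2⟩
  · exact Or.inr ⟨h2, h1⟩
  · exact Or.inl ⟨h2, h1⟩

theorem contr_adj_conPr {u v : V} (huv : G.Adj u v) {x y : V} (h : G.Adj x y)
    (hn : ¬ isUV u v x y) : (contr G u v).Adj (conPr huv.ne x) (conPr huv.ne y) := by
  by_cases hx : x = v
  · have hy : y ≠ v := fun h1 => h.ne (hx.trans h1.symm)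
    have hyu : y ≠ u := fun h1 => hn (Or.inr ⟨hx, h1⟩)
    have h2 : G.Adj v y := hx ▸ h
    rw [hx, conPr_self, conPr_ne _ hy]
    exact ⟨fun h1 => hyu (congrArg Subtype.val h1).symm, Or.inr (Or.inl ⟨rfl, h2⟩)⟩
  · by_cases hy : y = v
    · have hxu : x ≠ u := fun h1 => hn (Or.inl ⟨h1, hy⟩)
      have h2 : G.Adj v x := hy ▸ h.symm
      rw [hy, conPr_self, conPr_ne _ hx]
      exact ⟨fun h1 => hxu (congrArg Subtype.val h1), Or.inr (Or.inr ⟨rfl, h2⟩)⟩
    · rw [conPr_ne _ hx, conPr_ne _ hy]
      exact ⟨fun h1 => h.ne (congrArg Subtype.val h1), Or.inl h⟩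

/-- the projection of a dart which is not on `uv` -/
noncomputable def conDart {u v : V} (huv : G.Adj u v) (d : G.Dart)
    (hn : ¬ isUV u v d.fst d.snd) : (contr G u v).Dart :=
  ⟨(conPr huv.ne d.fst, conPr huv.ne d.snd), contr_adj_conPr huv d.adj hn⟩

open Classical in
/-- the map of the flags -/
noncomputable def conFlag {u v : V} (huv : G.Adj u v) (f : Flag G) :
    Flag (contr G u v) ⊕ New :=
  if hn : isUV u v f.1.fst f.1.snd then Sum.inr (decide (f.1.fst = v), f.2)
  else Sum.inl (conDart huv f.1 hn, f.2)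

theorem conFlag_pos {u v : V} (huv : G.Adj u v) {f : Flag G} (hn : isUV u v f.1.fst f.1.snd) :
    conFlag huv f = Sum.inr (by classical exact (decide (f.1.fst = v), f.2)) := by
  unfold conFlag
  rw [dif_pos hn]

theorem conFlag_neg {u v : V} (huv : G.Adj u v) {f : Flag G} (hn : ¬ isUV u v f.1.fst f.1.snd) :
    conFlag huv f = Sum.inl (conDart huv f.1 hn, f.2) := by
  unfold conFlag
  rw [dif_neg hn]

/-- the vertices of a projected dart determine the dart -/
theorem conPr_pair_inj {u v : V} (huv : G.Adj u v) (hno : ∀ z, G.Adj u z → ¬ G.Adj v z)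
    {x y x' y' : V} (h : G.Adj x y) (h' : G.Adj x' y') (hn : ¬ isUV u v x y)
    (hn' : ¬ isUV u v x' y') (hx : conPr huv.ne x = conPr huv.ne x')
    (hy : conPr huv.ne y = conPr huv.ne y') : x = x' := by
  by_contra hne
  have key : ∀ {a b a' b' : V}, G.Adj a b → G.Adj a' b' → ¬ isUV u v a b → ¬ isUV u v a' b' →
      conPr huv.ne b = conPr huv.ne b' → a = u → a' = v → False := by
    intro a b a' b' hab hab' hna hna' hb ha ha'
    have hbv : b ≠ v := fun h1 => hna (Or.inl ⟨ha, h1⟩)
    have hbv' : b' ≠ v := fun h1 => hab'.ne (ha'.trans h1.symm)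
    rw [conPr_ne _ hbv, conPr_ne _ hbv'] at hb
    have hbb : b = b' := congrArg Subtype.val hb
    rw [ha] at hab
    rw [ha', ← hbb] at hab'
    exact hno b hab hab'
  by_cases hxv : x = v
  · have hxv' : x' ≠ v := fun h1 => hne (hxv.trans h1.symm)
    rw [hxv, conPr_self, conPr_ne _ hxv'] at hx
    have hxu : x' = u := (congrArg Subtype.val hx).symm
    exact key h' h hn' hn hy.symm hxu hxv
  · by_cases hxv' : x' = v
    · rw [hxv', conPr_self, conPr_ne _ hxv] at hx
      have hxu : x = u := congrArg Subtype.val hx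
      exact key h h' hn hn' hy hxu hxv'
    · rw [conPr_ne _ hxv, conPr_ne _ hxv'] at hx
      exact hne (congrArg Subtype.val hx)

theorem dart_ext' {W : Type*} {H : SimpleGraph W} {d d' : H.Dart} (h1 : d.fst = d'.fst)
    (h2 : d.snd = d'.snd) : d = d' := by
  apply SimpleGraph.Dart.ext
  exact Prod.ext h1 h2

theorem conFlag_injective {u v : V} (huv : G.Adj u v) (hno : ∀ z, G.Adj u z → ¬ G.Adj v z) :
    Function.Injective (conFlag huv) := by
  classical
  intro f f' h
  by_cases hn : isUV u v f.1.fst f.1.snd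
  · by_cases hn' : isUV u v f'.1.fst f'.1.snd
    · rw [conFlag_pos huv hn, conFlag_pos huv hn'] at h
      have h1 := Sum.inr.inj h
      have h2 := congrArg Prod.snd h1
      have h3 := congrArg Prod.fst h1
      have h4 : (f.1.fst = v) ↔ (f'.1.fst = v) := decide_eq_decide.1 h3
      refine Prod.ext (dart_ext' ?_ ?_) h2
      · rcases hn with ⟨h5, h6⟩ | ⟨h5, h6⟩ <;> rcases hn' with ⟨h7, h8⟩ | ⟨h7, h8⟩
        · rw [h5, h7]
        · exact absurd (h5.symm.trans (h4.2 h7)) huv.ne
        · exact absurd (h7.symm.trans (h4.1 h5)) huv.ne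
        · rw [h5, h7]
      · rcases hn with ⟨h5, h6⟩ | ⟨h5, h6⟩ <;> rcases hn' with ⟨h7, h8⟩ | ⟨h7, h8⟩
        · rw [h6, h8]
        · exact absurd (h5.symm.trans (h4.2 h7)) huv.ne
        · exact absurd (h7.symm.trans (h4.1 h5)) huv.ne
        · rw [h6, h8]
    · rw [conFlag_pos huv hn, conFlag_neg huv hn'] at h
      cases h
  · by_cases hn' : isUV u v f'.1.fst f'.1.snd
    · rw [conFlag_neg huv hn, conFlag_pos huv hn'] at h
      cases h
    · rw [conFlag_neg huv hn, conFlag_neg huv hn'] at h
      have h1 := Sum.inl.inj h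
      have h2 := congrArg Prod.snd h1
      have h3 := congrArg Prod.fst h1
      have h4 : conPr huv.ne f.1.fst = conPr huv.ne f'.1.fst :=
        congrArg (fun d : (contr G u v).Dart => d.fst) h3
      have h5 : conPr huv.ne f.1.snd = conPr huv.ne f'.1.snd :=
        congrArg (fun d : (contr G u v).Dart => d.snd) h3
      refine Prod.ext (dart_ext' ?_ ?_) h2
      · exact conPr_pair_inj huv hno f.1.adj f'.1.adj hn hn' h4 h5
      · exact conPr_pair_inj huv hno f.1.adj.symm f'.1.adj.symm (isUV_symm hn) (isUV_symm hn')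
          h5 h4

theorem conFlag_surj_aux {u v : V} (huv : G.Adj u v) {x y : V} (h : G.Adj x y)
    (hn : ¬ isUV u v x y) (s : Bool) (d : (contr G u v).Dart) (hx : conPr huv.ne x = d.fst)
    (hy : conPr huv.ne y = d.snd) : conFlag huv ((⟨(x, y), h⟩ : G.Dart), s) = Sum.inl (d, s) := by
  rw [conFlag_neg huv (f := ((⟨(x, y), h⟩ : G.Dart), s)) hn]
  congr 1
  exact Prod.ext (dart_ext' hx hy) rfl

theorem conFlag_surjective {u v : V} (huv : G.Adj u v) :
    Function.Surjective (conFlag huv) := by
  classical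
  intro y
  rcases y with ⟨d, s⟩ | ⟨b, s⟩
  · have hd := d.adj
    have hne : d.fst ≠ d.snd := hd.1
    rcases hd.2 with h | ⟨h1, h⟩ | ⟨h1, h⟩
    · refine ⟨_, conFlag_surj_aux huv h ?_ s d (conPr_val _ _) (conPr_val _ _)⟩
      rintro (⟨_, h2⟩ | ⟨h2, _⟩)
      · exact d.snd.2 h2
      · exact d.fst.2 h2
    · refine ⟨_, conFlag_surj_aux huv h ?_ s d ?_ (conPr_val _ _)⟩
      · rintro (⟨h2, _⟩ | ⟨_, h2⟩)
        · exact huv.ne h2.symm
        · exact hne (Subtype.ext (h1.trans h2.symm))
      · rw [conPr_self]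
        exact (Subtype.ext h1).symm
    · refine ⟨_, conFlag_surj_aux huv h.symm ?_ s d (conPr_val _ _) ?_⟩
      · rintro (⟨h2, _⟩ | ⟨h2, _⟩)
        · exact hne (Subtype.ext (h2.trans h1.symm))
        · exact d.fst.2 h2
      · rw [conPr_self]
        exact (Subtype.ext h1).symm
  · cases b with
    | true =>
      refine ⟨((⟨(v, u), huv.symm⟩ : G.Dart), s), ?_⟩
      rw [conFlag_pos huv (f := ((⟨(v, u), huv.symm⟩ : G.Dart), s)) (Or.inr ⟨rfl, rfl⟩)]
      simp
    | false =>
      refine ⟨((⟨(u, v), huv⟩ : G.Dart), s), ?_⟩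
      rw [conFlag_pos huv (f := ((⟨(u, v), huv⟩ : G.Dart), s)) (Or.inl ⟨rfl, rfl⟩)]
      simp [huv.ne]

/-- the flags of `G` are those of the contracted graph and four more, if `u` and `v` have no common
neighbour -/
theorem flagCon_exists {u v : V} (huv : G.Adj u v) (hno : ∀ z, G.Adj u z → ¬ G.Adj v z) :
    ∃ e : Flag G ≃ Flag (contr G u v) ⊕ New,
      (∀ f : Flag G, e f.along = Sum.map Flag.along New.end (e f)) ∧
      (∀ f : Flag G, e f.across = Sum.map Flag.across New.side (e f)) ∧
      ∀ f : Flag G, vtxSplit (fun f : Flag (contr G u v) => f.1.fst) ⟨u, huv.ne⟩ (aSide G u v)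
        (e f) = nu v f.1.fst := by
  classical
  refine ⟨Equiv.ofBijective (conFlag huv) ⟨conFlag_injective huv hno, conFlag_surjective huv⟩,
    ?_, ?_, ?_⟩
  · intro f
    change conFlag huv f.along = Sum.map Flag.along New.end (conFlag huv f)
    by_cases hn : isUV u v f.1.fst f.1.snd
    · have hn' : isUV u v f.along.1.fst f.along.1.snd := by
        rcases hn with ⟨h1, h2⟩ | ⟨h1, h2⟩
        · exact Or.inr ⟨h2, h1⟩
        · exact Or.inl ⟨h2, h1⟩
      rw [conFlag_pos huv hn, conFlag_pos huv hn']
      change Sum.inr (decide (f.1.snd = v), f.2) = Sum.inr (!decide (f.1.fst = v), f.2)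
      rcases hn with ⟨h1, h2⟩ | ⟨h1, h2⟩
      · simp [h1, h2, huv.ne]
      · simp [h1, h2, huv.ne]
    · have hn' : ¬ isUV u v f.along.1.fst f.along.1.snd := isUV_symm hn
      rw [conFlag_neg huv hn, conFlag_neg huv hn']
      rfl
  · intro f
    change conFlag huv f.across = Sum.map Flag.across New.side (conFlag huv f)
    by_cases hn : isUV u v f.1.fst f.1.snd
    · have hn' : isUV u v f.across.1.fst f.across.1.snd := hn
      rw [conFlag_pos huv hn, conFlag_pos huv hn']
      rfl
    · have hn' : ¬ isUV u v f.across.1.fst f.across.1.snd := hn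
      rw [conFlag_neg huv hn, conFlag_neg huv hn']
      rfl
  · intro f
    change vtxSplit _ _ _ (conFlag huv f) = _
    by_cases hn : isUV u v f.1.fst f.1.snd
    · rw [conFlag_pos huv hn]
      unfold vtxSplit
      rw [Sum.elim_inr]
      rcases hn with ⟨h1, _⟩ | ⟨h1, _⟩
      · rw [h1, nu_ne huv.ne]
        simp [huv.ne]
      · rw [h1, nu_self]
        simp
    · rw [conFlag_neg huv hn]
      unfold vtxSplit
      rw [Sum.elim_inl]
      have hadj := f.1.adj
      by_cases hx : f.1.fst = v
      · have hyu : f.1.snd ≠ u := fun h1 => hn (Or.inr ⟨hx, h1⟩)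
        have hyv : f.1.snd ≠ v := fun h1 => hadj.ne (hx.trans h1.symm)
        refine (if_pos ⟨?_, ?_⟩).trans ?_
        rotate_left 1
        · change conPr huv.ne f.1.fst = _
          rw [hx, conPr_self]
        · rintro ⟨_, h2⟩
          have h3 : G.Adj u (conPr huv.ne f.1.snd).1 := h2
          rw [conPr_ne _ hyv] at h3
          have h4 : G.Adj v f.1.snd := hx ▸ hadj
          exact hno _ h3 h4
        rw [hx, nu_self]
      · have h5 : some (conPr huv.ne f.1.fst) = nu v f.1.fst := by
          rw [conPr_ne _ hx, nu_ne hx]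
        by_cases hxu : f.1.fst = u
        · have hyv : f.1.snd ≠ v := fun h1 => hn (Or.inl ⟨hxu, h1⟩)
          refine (if_neg ?_).trans h5
          rintro ⟨_, h2⟩
          apply h2
          refine ⟨?_, ?_⟩
          · change (conPr huv.ne f.1.fst).1 = u
            rw [conPr_ne _ hx]
            exact hxu
          · change G.Adj u (conPr huv.ne f.1.snd).1
            rw [conPr_ne _ hyv]
            exact hxu ▸ hadj
        · refine (if_neg ?_).trans h5
          rintro ⟨h2, _⟩
          have h6 : conPr huv.ne f.1.fst = ⟨u, huv.ne⟩ := h2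
          rw [conPr_ne _ hx] at h6
          exact hxu (congrArg Subtype.val h6)

theorem reach_con {u v : V} (huv : G.Adj u v) {x y : V} (h : G.Reachable x y) :
    (contr G u v).Reachable (conPr huv.ne x) (conPr huv.ne y) := by
  obtain ⟨p⟩ := h
  induction p with
  | nil => exact Reachable.refl _
  | @cons a b c hab p ih =>
    refine Reachable.trans ?_ ih
    by_cases hn : isUV u v a b
    · have h1 : conPr huv.ne a = conPr huv.ne b := by
        rcases hn with ⟨h1, h2⟩ | ⟨h1, h2⟩
        · rw [h1, h2, conPr_self, conPr_ne _ huv.ne]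
        · rw [h1, h2, conPr_self, conPr_ne _ huv.ne]
      rw [h1]
    · exact (contr_adj_conPr huv hab hn).reachable

theorem reach_of_con {u v : V} (huv : G.Adj u v) {x y : {x : V // x ≠ v}}
    (h : (contr G u v).Reachable x y) : G.Reachable x.1 y.1 := by
  obtain ⟨p⟩ := h
  induction p with
  | nil => exact Reachable.refl _
  | @cons a b c hab p ih =>
    refine Reachable.trans ?_ ih
    rcases hab.2 with h | ⟨h1, h⟩ | ⟨h1, h⟩
    · exact h.reachable
    · rw [h1]
      exact huv.reachable.trans h.reachable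
    · rw [h1]
      exact h.symm.reachable.trans huv.symm.reachable

theorem card_comp_con {u v : V} (huv : G.Adj u v) :
    Nat.card G.ConnectedComponent = Nat.card (contr G u v).ConnectedComponent := by
  refine Nat.card_eq_of_bijective (Quot.lift
    (fun x => (contr G u v).connectedComponentMk (conPr huv.ne x))
    (fun x y h => ConnectedComponent.eq.2 (reach_con huv h))) ⟨?_, ?_⟩
  · intro a b
    refine Quot.inductionOn a (fun x => Quot.inductionOn b (fun y h => ?_))
    have h1 : (contr G u v).Reachable (conPr huv.ne x) (conPr huv.ne y) :=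
      ConnectedComponent.eq.1 h
    have h2 := reach_of_con huv h1
    have h3 : ∀ z : V, G.Reachable z (conPr huv.ne z).1 := by
      intro z
      by_cases hz : z = v
      · rw [hz, conPr_self]
        exact huv.symm.reachable
      · rw [conPr_ne _ hz]
    exact ConnectedComponent.eq.2 ((h3 x).trans (h2.trans (h3 y).symm))
  · intro b
    refine Quot.inductionOn b (fun y => ⟨Quot.mk _ y.1, ?_⟩)
    change (contr G u v).connectedComponentMk (conPr huv.ne y.1) = _
    rw [conPr_val]
    rfl

private theorem card_flag_con [Finite V] (H : SimpleGraph V) :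
    Nat.card (Flag H) = 4 * Nat.card H.edgeSet := by
  classical
  have := Fintype.ofFinite V
  have h1 : Nat.card H.Dart = 2 * Nat.card H.edgeSet := by
    rw [Nat.card_eq_fintype_card, Nat.card_eq_fintype_card, H.dart_card_eq_twice_card_edges,
      ← SimpleGraph.edgeFinset_card]
  rw [Nat.card_prod, h1, Nat.card_eq_fintype_card (α := Bool), Fintype.card_bool]
  ring

theorem card_edge_con [Finite V] {u v : V} (huv : G.Adj u v)
    (hno : ∀ z, G.Adj u z → ¬ G.Adj v z) :
    Nat.card G.edgeSet = Nat.card (contr G u v).edgeSet + 1 := by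
  classical
  obtain ⟨e, -, -, -⟩ := flagCon_exists huv hno
  have h1 := Nat.card_congr e
  have : Finite (Flag (contr G u v)) := by
    have := Fintype.ofFinite V
    infer_instance
  rw [Nat.card_sum, card_flag_con, card_flag_con, Nat.card_eq_fintype_card (α := New)] at h1
  have h2 : Fintype.card New = 4 := rfl
  omega

theorem card_vert_con [Finite V] (v : V) : Nat.card V = Nat.card {x : V // x ≠ v} + 1 := by
  classical
  rw [← Nat.card_congr (Equiv.optionSubtypeNe v), Finite.card_option]

end Pool.Agent.H20.Hop
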