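import Mathlib
import Pool.Agent.H20.Hop.Surg

set_option autoImplicit false

/-!
Adding an edge to an abstract scheme.
-/

namespace Pool.Agent.H20.Hop

variable {Ω V : Type*}

theorem SurgAdd.isInv_end : IsInv New.end := by
  constructor
  · rintro ⟨x, y⟩
    simp [New.end]
  · rintro ⟨x, y⟩
    simp [New.end]

theorem SurgAdd.isInv_side : IsInv New.side := by
  constructor
  · rintro ⟨x, y⟩
    simp [New.side]
  · rintro ⟨x, y⟩
    simp [New.side]

theorem SurgAdd.isInv_sum {Ω' : Type*} {a : Ω → Ω} {a' : Ω' → Ω'} (ha : IsInv a)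
    (ha' : IsInv a') : IsInv (Sum.map a a') := by
  constructor
  · rintro (x | x)
    · simp [ha.inv]
    · simp [ha'.inv]
  · rintro (x | x)
    · simp [ha.ne]
    · simp [ha'.ne]

/-- switching keeps invariant functions -/
theorem SurgAdd.sw_vtx {W : Type*} {b : Ω → Ω} {f : Ω → W} (hb : ∀ x, f (b x) = f x) {p q : Ω}
    (h : f p = f q) (x : Ω) : f (sw b p q x) = f x := by
  unfold sw
  split_ifs with h1 h2 h3 h4
  · rw [h1, h]
  · rw [h2, h]
  · rw [h3, hb, hb, h]
  · rw [h4, hb, hb, h]
  · exact hb x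

theorem SurgAdd.sw_fst (b : Ω → Ω) (p q : Ω) : sw b p q p = q := by
  simp [sw]

theorem SurgAdd.flips_of_sw {b : Ω → Ω} (hb : IsInv b) {p q : Ω} (hpq : p ≠ q) (hq : q ≠ b p)
    {o : Ω → Bool} (ho : Flips o (sw b p q)) (h : o (b q) = !(o q)) : Flips o b := by
  have e1 : sw b p q p = q := SurgAdd.sw_fst b p q
  have hbpq : b p ≠ q := fun h => hq h.symm
  have hbpp : b p ≠ p := hb.ne p
  have hbqp : b q ≠ p := fun h => hbpq (by rw [← h, hb.inv])
  have e2 : sw b p q (b p) = b q := by
    unfold sw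
    rw [if_neg hbpp, if_neg hbpq, if_pos rfl]
  have o1 : o q = !(o p) := by
    have := ho p
    rwa [e1] at this
  have o2 : o (b q) = !(o (b p)) := by
    have := ho (b p)
    rwa [e2] at this
  intro x
  by_cases h1 : x = p
  · subst h1
    rw [o2] at h
    rw [o1] at h
    simpa using h
  by_cases h2 : x = q
  · subst h2
    exact h
  by_cases h3 : x = b p
  · subst h3
    rw [hb.inv]
    rw [o2, o1] at h
    simp at h
    rw [h]
    simp
  by_cases h4 : x = b q
  · subst h4
    rw [hb.inv, h]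
    simp
  have e3 : sw b p q x = b x := by
    unfold sw
    rw [if_neg h1, if_neg h2, if_neg h3, if_neg h4]
  have := ho x
  rwa [e3] at this

/-- the switched corner map after adding a pendant edge at the flag `p` -/
noncomputable def SurgAdd.b1 (b : Ω → Ω) (p : Ω) : Ω ⊕ New → Ω ⊕ New :=
  sw (Sum.map b New.side) (Sum.inl p) (Sum.inr (false, true))

theorem SurgAdd.b1_inv {b : Ω → Ω} (hb : IsInv b) (p : Ω) : IsInv (SurgAdd.b1 b p) :=
  sw_isInv (SurgAdd.isInv_sum hb SurgAdd.isInv_side) (by simp) (by simp)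

theorem SurgAdd.b1_true (b : Ω → Ω) (p : Ω) (t : Bool) :
    SurgAdd.b1 b p (Sum.inr (true, t)) = Sum.inr (true, !t) := by
  unfold SurgAdd.b1 sw
  rw [if_neg (by simp), if_neg (by simp), if_neg (by simp), if_neg (by simp [New.side])]
  simp [New.side]

theorem SurgAdd.b1_inl {b : Ω → Ω} {p q : Ω} (h1 : q ≠ p) (h2 : q ≠ b p) :
    SurgAdd.b1 b p (Sum.inl q) = Sum.inl (b q) := by
  unfold SurgAdd.b1 sw
  rw [if_neg (by simpa using h1), if_neg (by simp), if_neg (by simpa using h2), if_neg (by simp)]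
  simp

theorem SurgAdd.rel_b1 [Finite Ω] {a b : Ω → Ω} {e : New → New} (ha : IsInv a) (he : IsInv e)
    (hb : IsInv b) (p : Ω) {x y : Ω ⊕ New} (h : Rel (Sum.map a e) (Sum.map b New.side) x y) :
    Rel (Sum.map a e) (SurgAdd.b1 b p) x y :=
  rel_sw_diff (SurgAdd.isInv_sum ha he) (SurgAdd.isInv_sum hb SurgAdd.isInv_side)
    (not_rel_sum a b e New.side p (false, true)) h

theorem SurgAdd.rel_b1_inl [Finite Ω] {a b : Ω → Ω} {e : New → New} (ha : IsInv a)
    (he : IsInv e) (hb : IsInv b) (p : Ω) {x y : Ω} (h : Rel a b x y) :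
    Rel (Sum.map a e) (SurgAdd.b1 b p) (Sum.inl x) (Sum.inl y) :=
  SurgAdd.rel_b1 ha he hb p (rel_sum_inl e New.side h)

theorem SurgAdd.rel_b1_new {a b : Ω → Ω} {e : New → New} (p : Ω) :
    Rel (Sum.map a e) (SurgAdd.b1 b p) (Sum.inl p) (Sum.inr (false, true)) := by
  have := rel_snd (Sum.map a e) (SurgAdd.b1 b p) (Sum.inl p)
  have e1 : SurgAdd.b1 b p (Sum.inl p) = Sum.inr (false, true) := SurgAdd.sw_fst _ _ _
  rwa [e1] at this

theorem SurgAdd.norb_b1 [Finite Ω] {a b : Ω → Ω} (ha : IsInv a) (hb : IsInv b) (p : Ω) :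
    norb (Sum.map a New.end) (SurgAdd.b1 b p) = norb a b := by
  have h := norb_sw_diff (SurgAdd.isInv_sum ha SurgAdd.isInv_end)
    (SurgAdd.isInv_sum hb SurgAdd.isInv_side) (not_rel_sum a b New.end New.side p (false, true))
  rw [norb_sum, norb_new_side] at h
  unfold SurgAdd.b1
  omega

theorem SurgAdd.ori_b1 {a g b : Ω → Ω} (hb : IsInv b) (p : Ω) {o : Ω ⊕ New → Bool}
    (hoa : Flips o (Sum.map a New.end)) (hog : Flips o (Sum.map g New.side))
    (hob : Flips o (SurgAdd.b1 b p)) : Ori a g b := by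
  have h0 : Flips o (Sum.map b New.side) := by
    refine SurgAdd.flips_of_sw (SurgAdd.isInv_sum hb SurgAdd.isInv_side) (p := Sum.inl p)
      (q := Sum.inr (false, true)) (by simp) (by simp) hob ?_
    have := hog (Sum.inr (false, true))
    simpa using this
  refine ⟨fun x => o (Sum.inl x), fun x => ?_, fun x => ?_, fun x => ?_⟩
  · have := hoa (Sum.inl x)
    simpa using this
  · have := hog (Sum.inl x)
    simpa using this
  · have := h0 (Sum.inl x)
    simpa using this

/-- Adding an edge inside a face: one more face. Proof: `b0 = Sum.map b New.side`,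
`b1 = sw b0 (inl p) (inr (false, true))` (joins), `b2 = sw b1 (inl q) (inr (true, t))` with the `t`
for which this splits. -/
theorem addEdge_abs [Finite Ω] {a g b : Ω → Ω} {vtx : Ω → V} (ha : IsInv a) (hS : Abs g b vtx)
    {p q : Ω} (hpq : vtx p ≠ vtx q) (h : Rel a b p q) :
    ∃ b' : Ω ⊕ New → Ω ⊕ New, Abs (Sum.map g New.side) b' (vtxAdd vtx (vtx p) (vtx q)) ∧
      norb (Sum.map a New.end) b' = norb a b + 1 ∧
      (Ori (Sum.map a New.end) (Sum.map g New.side) b' → Ori a g b) := by
  have hb := hS.bi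
  have hqp : q ≠ p := fun e => hpq (by rw [e])
  have hqbp : q ≠ b p := fun e => hpq (by rw [e, hS.bv])
  have hI := SurgAdd.b1_inv hb p
  have hA := SurgAdd.isInv_sum ha SurgAdd.isInv_end
  have hG := SurgAdd.isInv_sum hS.gi SurgAdd.isInv_side
  obtain ⟨s, hsa, hsb⟩ := exists_sign hA hI
  obtain ⟨t, ht⟩ : ∃ t : Bool, s (Sum.inl q) ≠ s (Sum.inr (true, t)) := by
    have h1 := hsb (Sum.inr (true, true))
    rw [SurgAdd.b1_true] at h1
    by_cases h2 : s (Sum.inl q) = s (Sum.inr (true, true))
    · refine ⟨false, ?_⟩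
      rw [h2]
      simp only [Bool.not_true] at h1
      rw [h1]
      simp
    · exact ⟨true, h2⟩
  set b1 := SurgAdd.b1 b p with hb1
  have hne : (Sum.inr (true, t) : Ω ⊕ New) ≠ b1 (Sum.inl q) := by
    rw [hb1, SurgAdd.b1_inl hqp hqbp]
    simp
  refine ⟨sw b1 (Sum.inl q) (Sum.inr (true, t)), ?_, ?_, ?_⟩
  · -- the scheme property
    have hnr : ¬ Rel (Sum.map g New.side) b1 (Sum.inl q) (Sum.inr (true, t)) := by
      intro hr
      have := Rel.mem_of_closed hG hI (C := fun x => ∃ t', x = Sum.inr (true, t'))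
        (by rintro _ ⟨t', rfl⟩; exact ⟨!t', by simp [New.side]⟩)
        (by rintro _ ⟨t', rfl⟩; exact ⟨!t', SurgAdd.b1_true b p t'⟩) hr.symm ⟨t, rfl⟩
      obtain ⟨t', ht'⟩ := this
      simp at ht'
    have hmono : ∀ {x y : Ω ⊕ New}, Rel (Sum.map g New.side) b1 x y →
        Rel (Sum.map g New.side) (sw b1 (Sum.inl q) (Sum.inr (true, t))) x y :=
      fun h => rel_sw_diff hG hI hnr h
    have hv1 : ∀ x, vtxAdd vtx (vtx p) (vtx q) (b1 x) = vtxAdd vtx (vtx p) (vtx q) x := by
      refine fun x => SurgAdd.sw_vtx ?_ ?_ x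
      · rintro (x | x)
        · simpa [vtxAdd] using hS.bv x
        · simp [vtxAdd, New.side]
      · simp [vtxAdd]
    refine ⟨hG, sw_isInv hI (by simp) hne, ?_, ?_, ?_⟩
    · rintro (x | x)
      · simpa [vtxAdd] using hS.gv x
      · simp [vtxAdd, New.side]
    · refine fun x => SurgAdd.sw_vtx hv1 ?_ x
      simp [vtxAdd]
    · have key : ∀ x, ∃ x', vtx x' = vtxAdd vtx (vtx p) (vtx q) x ∧
          Rel (Sum.map g New.side) (sw b1 (Sum.inl q) (Sum.inr (true, t))) x (Sum.inl x') := by
        have side : ∀ e s s', Rel (Sum.map g New.side)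
            (sw b1 (Sum.inl q) (Sum.inr (true, t))) (Sum.inr (e, s)) (Sum.inr (e, s')) := by
          intro e s s'
          by_cases hss : s = s'
          · subst hss
            exact rel_refl _ _ _
          · have := rel_fst (Sum.map g New.side) (sw b1 (Sum.inl q) (Sum.inr (true, t)))
              (Sum.inr (e, s))
            have e1 : s' = !s := by
              cases s <;> cases s' <;> simp_all
            rw [e1]
            exact this
        rintro (x | ⟨e, s'⟩)
        · exact ⟨x, rfl, rel_refl _ _ _⟩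
        · cases e
          · refine ⟨p, by simp [vtxAdd], ?_⟩
            refine (side false s' true).trans ?_
            exact (hmono (SurgAdd.rel_b1_new (a := g) (b := b) (e := New.side) p)).symm
          · refine ⟨q, by simp [vtxAdd], ?_⟩
            refine (side true s' t).trans ?_
            have := rel_snd (Sum.map g New.side) (sw b1 (Sum.inl q) (Sum.inr (true, t)))
              (Sum.inl q)
            rw [SurgAdd.sw_fst] at this
            exact this.symm
      intro x y hxy
      obtain ⟨x', hx', hrx⟩ := key x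
      obtain ⟨y', hy', hry⟩ := key y
      refine hrx.trans (Rel.trans ?_ hry.symm)
      exact hmono (SurgAdd.rel_b1_inl hS.gi SurgAdd.isInv_side hb p
        (hS.star x' y' (by rw [hx', hy', hxy])))
  · -- the number of faces
    have hr : Rel (Sum.map a New.end) b1 (Sum.inl q) (Sum.inr (true, t)) := by
      refine (SurgAdd.rel_b1_inl ha SurgAdd.isInv_end hb p h.symm).trans ?_
      refine (SurgAdd.rel_b1_new (a := a) (b := b) (e := New.end) p).trans ?_
      have h1 := rel_fst (Sum.map a New.end) b1 (Sum.inr (false, true))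
      have e1 : (Sum.map a New.end (Sum.inr (false, true)) : Ω ⊕ New) = Sum.inr (true, true) := by
        simp [New.end]
      rw [e1] at h1
      refine h1.trans ?_
      cases t
      · have h2 := rel_snd (Sum.map a New.end) b1 (Sum.inr (true, true))
        rw [hb1, SurgAdd.b1_true] at h2
        exact h2
      · exact rel_refl _ _ _
    rw [norb_sw_split hA hI hsa hsb hne ht hr, SurgAdd.norb_b1 ha hb p]
  · rintro ⟨o, hoa, hog, hob⟩
    refine SurgAdd.ori_b1 hb p hoa hog ?_
    refine SurgAdd.flips_of_sw hI (by simp) hne hob ?_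
    rw [hb1, SurgAdd.b1_true]
    have := hog (Sum.inr (true, t))
    simpa [New.side] using this

/-- Reinserting an edge when its ends share a face-neighbour: at most one crosscap. Proof: if
`Rel a b p q` use `addEdge_abs`. Otherwise `z1, z2` are in different faces, `switch_vertex` at
`z1, z2` joins them (`norb_sw_diff`, `rel_sw_diff`), the result is non-orientable
(`nonor_of_join`), and `addEdge_abs` applies. -/
theorem reinsert_abs [Finite Ω] {a g b : Ω → Ω} {vtx : Ω → V} (ha : IsInv a) (hS : Abs g b vtx)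
    {p q z1 z2 : Ω} (hpq : vtx p ≠ vtx q) (hz : vtx z1 = vtx z2) (h1 : Rel a b p z1)
    (h2 : Rel a b q z2) :
    ∃ b' : Ω ⊕ New → Ω ⊕ New, Abs (Sum.map g New.side) b' (vtxAdd vtx (vtx p) (vtx q)) ∧
      norb a b ≤ norb (Sum.map a New.end) b' ∧
      (norb a b + 1 ≤ norb (Sum.map a New.end) b' ∨
        ¬ Ori (Sum.map a New.end) (Sum.map g New.side) b') := by
  by_cases hr : Rel a b p q
  · obtain ⟨b', hA, hn, -⟩ := addEdge_abs ha hS hpq hr
    exact ⟨b', hA, by omega, Or.inl (by omega)⟩
  · have hzz : ¬ Rel a b z1 z2 := fun h => hr (h1.trans (h.trans h2.symm))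
    have hz12 : z1 ≠ z2 := by
      rintro rfl
      exact hzz (rel_refl _ _ _)
    have hz2b : z2 ≠ b z1 := by
      rintro rfl
      exact hzz (rel_snd _ _ _)
    have key : ∀ w, vtx z1 = vtx w → Rel a b w z2 → Abs g (sw b z1 w) vtx →
        ∃ b' : Ω ⊕ New → Ω ⊕ New, Abs (Sum.map g New.side) b' (vtxAdd vtx (vtx p) (vtx q)) ∧
          norb a b ≤ norb (Sum.map a New.end) b' ∧
          (norb a b + 1 ≤ norb (Sum.map a New.end) b' ∨
            ¬ Ori (Sum.map a New.end) (Sum.map g New.side) b') := by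
      intro w hw hwz hAbs
      have hnr : ¬ Rel a b z1 w := fun h => hzz (h.trans hwz)
      have hno := nonor_of_join ha hS hw hAbs hnr
      have hn := norb_sw_diff ha hS.bi hnr
      have hmono : ∀ {x y : Ω}, Rel a b x y → Rel a (sw b z1 w) x y :=
        fun h => rel_sw_diff ha hS.bi hnr h
      have hz1w : Rel a (sw b z1 w) z1 w := by
        have := rel_snd a (sw b z1 w) z1
        rwa [SurgAdd.sw_fst] at this
      have hr' : Rel a (sw b z1 w) p q :=
        (hmono h1).trans (hz1w.trans (hmono (hwz.trans h2.symm)))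
      obtain ⟨b', hA', hn', ho'⟩ := addEdge_abs ha hAbs hpq hr'
      exact ⟨b', hA', by omega, Or.inr fun h => hno (ho' h)⟩
    rcases switch_vertex hS hz12 hz2b hz with h | h
    · exact key z2 hz (rel_refl _ _ _) h
    · exact key (b z2) (by rw [hS.bv, hz]) (rel_snd a b z2).symm h

/-- Splitting off a new vertex of degree one. Proof: `b' = sw (Sum.map b New.side) (inl p)
(inr (false, true))`. -/
theorem pendant_abs [Finite Ω] {a g b : Ω → Ω} {vtx : Ω → V} (ha : IsInv a) (hS : Abs g b vtx)
    {w : V} {A : Set Ω} (hA : ∀ x, x ∈ A ↔ vtx x = w) {p : Ω} (hp : p ∈ A) :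
    ∃ b' : Ω ⊕ New → Ω ⊕ New, Abs (Sum.map g New.side) b' (vtxSplit vtx w A) ∧
      norb (Sum.map a New.end) b' = norb a b ∧
      (Ori (Sum.map a New.end) (Sum.map g New.side) b' → Ori a g b) := by
  have hb := hS.bi
  have hG := SurgAdd.isInv_sum hS.gi SurgAdd.isInv_side
  have hinl : ∀ x, vtxSplit vtx w A (Sum.inl x) = some (vtx x) := by
    intro x
    simp [vtxSplit, hA]
  have hinr : ∀ e s, vtxSplit vtx w A (Sum.inr (e, s)) = if e then none else some w := by
    intro e s
    simp [vtxSplit]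
  have hpw : vtx p = w := (hA p).1 hp
  refine ⟨SurgAdd.b1 b p, ?_, SurgAdd.norb_b1 ha hb p, ?_⟩
  · refine ⟨hG, SurgAdd.b1_inv hb p, ?_, ?_, ?_⟩
    · rintro (x | ⟨e, s⟩)
      · simp [hinl, hS.gv]
      · simp [hinr, New.side]
    · refine fun x => SurgAdd.sw_vtx ?_ ?_ x
      · rintro (x | ⟨e, s⟩)
        · simp [hinl, hS.bv]
        · simp [hinr, New.side]
      · rw [hinl, hinr, hpw]
        simp
    · have side : ∀ e s s', Rel (Sum.map g New.side) (SurgAdd.b1 b p) (Sum.inr (e, s))
          (Sum.inr (e, s')) := by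
        intro e s s'
        by_cases hss : s = s'
        · subst hss
          exact rel_refl _ _ _
        · have := rel_fst (Sum.map g New.side) (SurgAdd.b1 b p) (Sum.inr (e, s))
          have e1 : s' = !s := by
            cases s <;> cases s' <;> simp_all
          rw [e1]
          exact this
      have key : ∀ x, (∃ s, x = Sum.inr (true, s)) ∨
          ∃ x', some (vtx x') = vtxSplit vtx w A x ∧
          Rel (Sum.map g New.side) (SurgAdd.b1 b p) x (Sum.inl x') := by
        rintro (x | ⟨e, s⟩)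
        · exact Or.inr ⟨x, (hinl x).symm, rel_refl _ _ _⟩
        · cases e
          · refine Or.inr ⟨p, by rw [hinr, hpw]; simp, ?_⟩
            exact (side false s true).trans
              (SurgAdd.rel_b1_new (a := g) (b := b) (e := New.side) p).symm
          · exact Or.inl ⟨s, rfl⟩
      intro x y hxy
      rcases key x with ⟨s, rfl⟩ | ⟨x', hx', hrx⟩
      · rcases key y with ⟨s', rfl⟩ | ⟨y', hy', hry⟩
        · exact side true s s'
        · rw [← hy', hinr] at hxy
          simp at hxy
      · rcases key y with ⟨s', rfl⟩ | ⟨y', hy', hry⟩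
        · rw [← hx', hinr] at hxy
          simp at hxy
        · rw [← hx', ← hy'] at hxy
          have hvv : vtx x' = vtx y' := by simpa using hxy
          exact hrx.trans ((SurgAdd.rel_b1_inl hS.gi SurgAdd.isInv_side hb p
            (hS.star x' y' hvv)).trans hry.symm)
  · rintro ⟨o, hoa, hog, hob⟩
    exact SurgAdd.ori_b1 hb p hoa hog hob

end Pool.Agent.H20.Hop
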