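import Mathlib
import Pool.Agent.H20.Hop.Surg

set_option autoImplicit false

/-!
Splitting a vertex of an abstract scheme.
-/

namespace Pool.Agent.H20.Hop

variable {Ω V : Type*}

/-! ### Auxiliary facts -/

private theorem sw_p' {Θ : Type*} (b : Θ → Θ) (p q : Θ) : sw b p q p = q := by simp [sw]

private theorem sw_q' {Θ : Type*} (b : Θ → Θ) (p q : Θ) : sw b p q q = p := by
  by_cases h : q = p
  · simp [sw, h]
  · simp [sw, h]

private theorem sw_bp' {Θ : Type*} {b : Θ → Θ} (hb : IsInv b) {p q : Θ} (hq : q ≠ b p) :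
    sw b p q (b p) = b q := by
  have h1 : b p ≠ p := hb.ne p
  have h2 : b p ≠ q := fun h => hq h.symm
  simp [sw, h1, h2]

private theorem sw_bq' {Θ : Type*} {b : Θ → Θ} (hb : IsInv b) {p q : Θ} (hpq : p ≠ q)
    (hq : q ≠ b p) : sw b p q (b q) = b p := by
  have h1 : b q ≠ p := fun h => hq (by rw [← h, hb.inv])
  have h2 : b q ≠ q := hb.ne q
  have h3 : b q ≠ b p := fun h => hpq (by rw [← hb.inv p, ← h, hb.inv])
  simp [sw, h1, h2, h3]

private theorem sw_ne' {Θ : Type*} {b : Θ → Θ} {p q x : Θ} (h1 : x ≠ p) (h2 : x ≠ q)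
    (h3 : x ≠ b p) (h4 : x ≠ b q) : sw b p q x = b x := by
  simp [sw, h1, h2, h3, h4]

private theorem isInv_sum {Θ : Type*} {a : Ω → Ω} {a' : Θ → Θ} (ha : IsInv a) (ha' : IsInv a') :
    IsInv (Sum.map a a') := by
  refine ⟨?_, ?_⟩
  · rintro (x | x)
    · simp [ha.inv]
    · simp [ha'.inv]
  · rintro (x | x) h
    · exact ha.ne x (Sum.inl_injective h)
    · exact ha'.ne x (Sum.inr_injective h)

private theorem isInv_end : IsInv New.end := ⟨fun x => by simp [New.end], fun x h => by
  have := congrArg Prod.fst h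
  revert this
  simp [New.end]⟩

private theorem isInv_side : IsInv New.side := ⟨fun x => by simp [New.side], fun x h => by
  have := congrArg Prod.snd h
  revert this
  simp [New.side]⟩

private theorem vs_congr (vtx : Ω → V) (w : V) (A : Set Ω) {x y : Ω} (h : vtx x = vtx y)
    (hA : x ∈ A ↔ y ∈ A) : vtxSplit vtx w A (Sum.inl x) = vtxSplit vtx w A (Sum.inl y) := by
  by_cases h1 : vtx y = w
  · by_cases h2 : y ∈ A
    · simp [vtxSplit, h, h1, h2, hA]
    · simp [vtxSplit, h, h1, h2, hA]
  · simp [vtxSplit, h, h1]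

/-- Splitting a vertex at which the flags of `A` and the others form two blocks: the number of faces
does not change. Proof: for the faces `b' = sw (sw (Sum.map b New.end) (inl p) (inr (false, true)))
(inl q) (inr (false, false))`, two joins from `norb a b + 2`. For the vertices the same `b'` is
`sw (sw (Sum.map (sw b p q) New.side) (inl p) (inr (false, true))) (inl (b p)) (inr (true, true))`,
and under `g, sw b p q` both `A` and the rest of the star of `w` are single classes (closure
argument: the set of `x ∈ A` related to `p` together with the `y ∉ A` at `w` related to `b p` is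
closed under `g` and `b`). -/
theorem split_abs [Finite Ω] {a g b : Ω → Ω} {vtx : Ω → V} (ha : IsInv a) (hS : Abs g b vtx)
    {w : V} {A : Set Ω} (hA : ∀ x ∈ A, vtx x = w) (hAg : ∀ x ∈ A, g x ∈ A) {p q : Ω} (hp : p ∈ A)
    (hq : q ∈ A) (hpq : p ≠ q) (hbp : b p ∉ A) (hbq : b q ∉ A)
    (honly : ∀ x ∈ A, b x ∉ A → x = p ∨ x = q) :
    ∃ b' : Ω ⊕ New → Ω ⊕ New, Abs (Sum.map g New.side) b' (vtxSplit vtx w A) ∧
      norb (Sum.map a New.end) b' = norb a b ∧
      (Ori (Sum.map a New.end) (Sum.map g New.side) b' → Ori a g b) := by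
  have hb := hS.bi
  -- the first switch
  have hβ : IsInv (Sum.map b New.end) := isInv_sum hb isInv_end
  have hn1 : (Sum.inl p : Ω ⊕ New) ≠ Sum.inr (false, true) := by simp
  have hn2 : (Sum.inr (false, true) : Ω ⊕ New) ≠ Sum.map b New.end (Sum.inl p) := by simp
  set β1 : Ω ⊕ New → Ω ⊕ New := sw (Sum.map b New.end) (Sum.inl p) (Sum.inr (false, true))
    with hβ1d
  have hβ1 : IsInv β1 := sw_isInv hβ hn1 hn2
  have hqbp : q ≠ b p := fun h => hbp (h ▸ hq)
  have e1p : β1 (Sum.inl p) = Sum.inr (false, true) := sw_p' _ _ _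
  have e1bp : β1 (Sum.inl (b p)) = Sum.inr (true, true) := by
    have := sw_bp' hβ hn2
    simpa [New.end] using this
  have e1FT : β1 (Sum.inr (false, true)) = Sum.inl p := sw_q' _ _ _
  have e1TT : β1 (Sum.inr (true, true)) = Sum.inl (b p) := by
    have := sw_bq' hβ hn1 hn2
    simpa [New.end] using this
  have e1o : ∀ x : Ω, x ≠ p → x ≠ b p → β1 (Sum.inl x) = Sum.inl (b x) := by
    intro x h1 h2
    rw [hβ1d, sw_ne']
    · rfl
    · simpa using h1
    · simp
    · simpa using h2
    · simp
  have e1FF : β1 (Sum.inr (false, false)) = Sum.inr (true, false) := by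
    rw [hβ1d, sw_ne'] <;> simp [New.end]
  have e1TF : β1 (Sum.inr (true, false)) = Sum.inr (false, false) := by
    rw [hβ1d, sw_ne'] <;> simp [New.end]
  have e1q : β1 (Sum.inl q) = Sum.inl (b q) := e1o q hpq.symm hqbp
  -- the second switch
  have hn3 : (Sum.inl q : Ω ⊕ New) ≠ Sum.inr (false, false) := by simp
  have hn4 : (Sum.inr (false, false) : Ω ⊕ New) ≠ β1 (Sum.inl q) := by rw [e1q]; simp
  set β2 : Ω ⊕ New → Ω ⊕ New := sw β1 (Sum.inl q) (Sum.inr (false, false)) with hβ2d
  have hβ2 : IsInv β2 := sw_isInv hβ1 hn3 hn4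
  have hbqp : b q ≠ b p := fun h => hpq (by rw [← hb.inv p, ← h, hb.inv])
  have e2q : β2 (Sum.inl q) = Sum.inr (false, false) := sw_p' _ _ _
  have e2bq : β2 (Sum.inl (b q)) = Sum.inr (true, false) := by
    have := sw_bp' hβ1 hn4
    rwa [e1q, e1FF] at this
  have e2FF : β2 (Sum.inr (false, false)) = Sum.inl q := sw_q' _ _ _
  have e2TF : β2 (Sum.inr (true, false)) = Sum.inl (b q) := by
    have := sw_bq' hβ1 hn3 hn4
    rwa [e1q, e1FF] at this
  have e2p : β2 (Sum.inl p) = Sum.inr (false, true) := by
    rw [hβ2d, sw_ne', e1p]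
    · simpa using hpq
    · simp
    · rw [e1q]
      have : p ≠ b q := fun h => hbq (h ▸ hp)
      simpa using this
    · rw [e1FF]; simp
  have e2bp : β2 (Sum.inl (b p)) = Sum.inr (true, true) := by
    rw [hβ2d, sw_ne', e1bp]
    · simpa using hqbp.symm
    · simp
    · rw [e1q]; simpa using hbqp.symm
    · rw [e1FF]; simp
  have e2FT : β2 (Sum.inr (false, true)) = Sum.inl p := by
    rw [hβ2d, sw_ne', e1FT]
    · simp
    · simp
    · rw [e1q]; simp
    · rw [e1FF]; simp
  have e2TT : β2 (Sum.inr (true, true)) = Sum.inl (b p) := by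
    rw [hβ2d, sw_ne', e1TT]
    · simp
    · simp
    · rw [e1q]; simp
    · rw [e1FF]; simp
  have e2o : ∀ x : Ω, x ≠ p → x ≠ b p → x ≠ q → x ≠ b q → β2 (Sum.inl x) = Sum.inl (b x) := by
    intro x h1 h2 h3 h4
    rw [hβ2d, sw_ne', e1o x h1 h2]
    · simpa using h3
    · simp
    · rw [e1q]; simpa using h4
    · rw [e1FF]; simp
  -- membership facts
  have hAg' : ∀ x, g x ∈ A → x ∈ A := fun x h => by
    have := hAg _ h
    rwa [hS.gi.inv] at this
  have hout : ∀ x, x ∉ A → b x ∈ A → x = b p ∨ x = b q := by
    intro x hx hbx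
    rcases honly (b x) hbx (by rwa [hb.inv]) with h | h
    · left; rw [← h, hb.inv]
    · right; rw [← h, hb.inv]
  have hvp : vtx p = w := hA p hp
  have hvq : vtx q = w := hA q hq
  have hvbp : vtx (b p) = w := by rw [hS.bv, hvp]
  have hvbq : vtx (b q) = w := by rw [hS.bv, hvq]
  refine ⟨β2, ⟨isInv_sum hS.gi isInv_side, hβ2, ?_, ?_, ?_⟩, ?_, ?_⟩
  · -- vertices are kept by the side map
    rintro (x | x)
    · have h1 : g x ∈ A ↔ x ∈ A := ⟨hAg' x, hAg x⟩
      exact vs_congr vtx w A (hS.gv x) h1
    · simp [vtxSplit, New.side]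
  · -- vertices are kept by the corner map
    rintro (x | ⟨x1, x2⟩)
    · by_cases h1 : x = p
      · subst h1; rw [e2p]; simp [vtxSplit, hvp, hp]
      by_cases h2 : x = b p
      · subst h2; rw [e2bp]; simp [vtxSplit, hvbp, hbp]
      by_cases h3 : x = q
      · subst h3; rw [e2q]; simp [vtxSplit, hvq, hq]
      by_cases h4 : x = b q
      · subst h4; rw [e2bq]; simp [vtxSplit, hvbq, hbq]
      rw [e2o x h1 h2 h3 h4]
      have h5 : b x ∈ A ↔ x ∈ A := by
        constructor
        · intro h; by_contra h'
          rcases hout x h' h with h'' | h''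
          · exact h2 h''
          · exact h4 h''
        · intro h; by_contra h'
          rcases honly x h h' with h'' | h''
          · exact h1 h''
          · exact h3 h''
      exact vs_congr vtx w A (hS.bv x) h5
    · cases x1 <;> cases x2
      · rw [e2FF]; simp [vtxSplit, hvq, hq]
      · rw [e2FT]; simp [vtxSplit, hvp, hp]
      · rw [e2TF]; simp [vtxSplit, hvbq, hbq]
      · rw [e2TT]; simp [vtxSplit, hvbp, hbp]
  · -- the star
    have rg : ∀ x : Ω, Rel (Sum.map g New.side) β2 (Sum.inl x) (Sum.inl (g x)) := fun x =>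
      rel_fst (Sum.map g New.side) β2 (Sum.inl x)
    have rs : ∀ x : New, Rel (Sum.map g New.side) β2 (Sum.inr x) (Sum.inr x.side) := fun x =>
      rel_fst (Sum.map g New.side) β2 (Sum.inr x)
    have r1 : Rel (Sum.map g New.side) β2 (Sum.inl p) (Sum.inr (false, true)) := by
      have := rel_snd (Sum.map g New.side) β2 (Sum.inl p)
      rwa [e2p] at this
    have r2 : Rel (Sum.map g New.side) β2 (Sum.inr (false, true)) (Sum.inr (false, false)) :=
      rs (false, true)
    have r3 : Rel (Sum.map g New.side) β2 (Sum.inl q) (Sum.inr (false, false)) := by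
      have := rel_snd (Sum.map g New.side) β2 (Sum.inl q)
      rwa [e2q] at this
    have rpq : Rel (Sum.map g New.side) β2 (Sum.inl p) (Sum.inl q) := (r1.trans r2).trans r3.symm
    have r4 : Rel (Sum.map g New.side) β2 (Sum.inl (b p)) (Sum.inr (true, true)) := by
      have := rel_snd (Sum.map g New.side) β2 (Sum.inl (b p))
      rwa [e2bp] at this
    have r5 : Rel (Sum.map g New.side) β2 (Sum.inr (true, true)) (Sum.inr (true, false)) :=
      rs (true, true)
    have r6 : Rel (Sum.map g New.side) β2 (Sum.inl (b q)) (Sum.inr (true, false)) := by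
      have := rel_snd (Sum.map g New.side) β2 (Sum.inl (b q))
      rwa [e2bq] at this
    have rbpq : Rel (Sum.map g New.side) β2 (Sum.inl (b p)) (Sum.inl (b q)) :=
      (r4.trans r5).trans r6.symm
    have hstar : ∀ y, vtx y = w →
        (y ∈ A ∧ Rel (Sum.map g New.side) β2 (Sum.inl p) (Sum.inl y)) ∨
        (y ∉ A ∧ Rel (Sum.map g New.side) β2 (Sum.inl (b p)) (Sum.inl y)) := by
      intro y hy
      refine Rel.mem_of_closed hS.gi hb (C := fun y =>
        (y ∈ A ∧ Rel (Sum.map g New.side) β2 (Sum.inl p) (Sum.inl y)) ∨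
        (y ∉ A ∧ Rel (Sum.map g New.side) β2 (Sum.inl (b p)) (Sum.inl y))) ?_ ?_
        (hS.star p y (by rw [hvp, hy])) (Or.inl ⟨hp, rel_refl _ _ _⟩)
      · rintro x (⟨h1, h2⟩ | ⟨h1, h2⟩)
        · exact Or.inl ⟨hAg x h1, h2.trans (rg x)⟩
        · exact Or.inr ⟨fun h => h1 (hAg' x h), h2.trans (rg x)⟩
      · rintro x (⟨h1, h2⟩ | ⟨h1, h2⟩)
        · by_cases h3 : x = p
          · subst h3; exact Or.inr ⟨hbp, rel_refl _ _ _⟩
          by_cases h4 : x = q
          · subst h4; exact Or.inr ⟨hbq, rbpq⟩
          have h5 : b x ∈ A := by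
            by_contra h'
            rcases honly x h1 h' with h'' | h''
            · exact h3 h''
            · exact h4 h''
          have h6 : x ≠ b p := fun h => hbp (h ▸ h1)
          have h7 : x ≠ b q := fun h => hbq (h ▸ h1)
          have h8 := rel_snd (Sum.map g New.side) β2 (Sum.inl x)
          rw [e2o x h3 h6 h4 h7] at h8
          exact Or.inl ⟨h5, h2.trans h8⟩
        · by_cases h3 : x = b p
          · subst h3; rw [hb.inv]; exact Or.inl ⟨hp, rel_refl _ _ _⟩
          by_cases h4 : x = b q
          · subst h4; rw [hb.inv]; exact Or.inl ⟨hq, rpq⟩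
          have h5 : b x ∉ A := by
            intro h'
            rcases hout x h1 h' with h'' | h''
            · exact h3 h''
            · exact h4 h''
          have h6 : x ≠ p := fun h => h1 (h ▸ hp)
          have h7 : x ≠ q := fun h => h1 (h ▸ hq)
          have h8 := rel_snd (Sum.map g New.side) β2 (Sum.inl x)
          rw [e2o x h6 h3 h7 h4] at h8
          exact Or.inr ⟨h5, h2.trans h8⟩
    have hstar' : ∀ x y, vtx x = vtx y → vtx x ≠ w →
        Rel (Sum.map g New.side) β2 (Sum.inl x) (Sum.inl y) := by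
      intro x y hxy hxw
      have := Rel.mem_of_closed hS.gi hb (C := fun y => vtx y = vtx x ∧
        Rel (Sum.map g New.side) β2 (Sum.inl x) (Sum.inl y)) ?_ ?_
        (hS.star x y hxy) ⟨rfl, rel_refl _ _ _⟩
      · exact this.2
      · rintro z ⟨h1, h2⟩
        exact ⟨by rw [hS.gv, h1], h2.trans (rg z)⟩
      · rintro z ⟨h1, h2⟩
        have h8 := rel_snd (Sum.map g New.side) β2 (Sum.inl z)
        rw [e2o z (fun h => hxw (by rw [← h1, h, hvp])) (fun h => hxw (by rw [← h1, h, hvbp]))
          (fun h => hxw (by rw [← h1, h, hvq])) (fun h => hxw (by rw [← h1, h, hvbq]))] at h8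
        exact ⟨by rw [hS.bv, h1], h2.trans h8⟩
    -- every new flag is related to `p` or `b p` according to its end
    have hN : ∀ z : New, Rel (Sum.map g New.side) β2
        (Sum.inl (if z.1 then b p else p)) (Sum.inr z) := by
      rintro ⟨z1, z2⟩
      cases z1 <;> cases z2
      · exact r1.trans r2
      · exact r1
      · exact r4.trans r5
      · exact r4
    have hL : ∀ y : Ω, vtx y = w → Rel (Sum.map g New.side) β2
        (Sum.inl (if (vtxSplit vtx w A (Sum.inl y)) = none then b p else p)) (Sum.inl y) := by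
      intro y hy
      rcases hstar y hy with ⟨h1, h2⟩ | ⟨h1, h2⟩
      · simpa [vtxSplit, hy, h1] using h2
      · simpa [vtxSplit, hy, h1] using h2
    -- all flags at `w` or the new vertex
    have hAll : ∀ z : Ω ⊕ New, (vtxSplit vtx w A z = none ∨ vtxSplit vtx w A z = some w) →
        Rel (Sum.map g New.side) β2
          (Sum.inl (if (vtxSplit vtx w A z) = none then b p else p)) z := by
      rintro (y | z) hz
      · refine hL y ?_
        by_contra hy
        simp [vtxSplit, hy] at hz
      · have h1 := hN z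
        obtain ⟨z1, z2⟩ := z
        cases z1
        · simpa [vtxSplit] using h1
        · simpa [vtxSplit] using h1
    intro x y hxy
    by_cases hx : vtxSplit vtx w A x = none ∨ vtxSplit vtx w A x = some w
    · have hy : vtxSplit vtx w A y = none ∨ vtxSplit vtx w A y = some w := by rwa [← hxy]
      have h1 := hAll x hx
      have h2 := hAll y hy
      rw [← hxy] at h2
      exact h1.symm.trans h2
    · have hy : ¬ (vtxSplit vtx w A y = none ∨ vtxSplit vtx w A y = some w) := by rwa [← hxy]
      rcases x with x | ⟨x1, x2⟩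
      · rcases y with y | ⟨y1, y2⟩
        · have hxw : vtx x ≠ w := by
            intro h
            apply hx
            by_cases hxA : x ∈ A
            · right; simp [vtxSplit, h, hxA]
            · left; simp [vtxSplit, h, hxA]
          have hyw : vtx y ≠ w := by
            intro h
            apply hy
            by_cases hxA : y ∈ A
            · right; simp [vtxSplit, h, hxA]
            · left; simp [vtxSplit, h, hxA]
          refine hstar' x y ?_ hxw
          simpa [vtxSplit, hxw, hyw] using hxy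
        · exfalso; apply hy
          cases y1 <;> simp [vtxSplit]
      · exfalso; apply hx
        cases x1 <;> simp [vtxSplit]
  · -- faces
    have hsum : norb (Sum.map a New.end) (Sum.map b New.end) = norb a b + 2 := by
      rw [norb_sum, norb_new_end]
    have haE : IsInv (Sum.map a New.end) := isInv_sum ha isInv_end
    have s1 := norb_sw_diff haE hβ (p := Sum.inl p) (q := Sum.inr (false, true))
      (not_rel_sum _ _ _ _ _ _)
    rw [← hβ1d] at s1
    have hnr : ¬ Rel (Sum.map a New.end) β1 (Sum.inl q) (Sum.inr (false, false)) := by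
      intro h
      have h1 := Rel.mem_of_closed haE hβ1 (C := fun z =>
        z = Sum.inr (false, false) ∨ z = Sum.inr (true, false)) ?_ ?_ h.symm (Or.inl rfl)
      · simp at h1
      · rintro z (rfl | rfl)
        · right; rfl
        · left; rfl
      · rintro z (rfl | rfl)
        · right; exact e1FF
        · left; exact e1TF
    have s2 := norb_sw_diff haE hβ1 hnr
    rw [← hβ2d] at s2
    omega
  · -- orientability
    rintro ⟨o, ho1, ho2, ho3⟩
    refine ⟨fun x => o (Sum.inl x), fun x => ho1 (Sum.inl x), fun x => ho2 (Sum.inl x), ?_⟩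
    have hE : ∀ z : New, o (Sum.inr z.end) = !(o (Sum.inr z)) := fun z => ho1 (Sum.inr z)
    have f1 : o (Sum.inr (false, true)) = !(o (Sum.inl p)) := by
      have := ho3 (Sum.inl p); rwa [e2p] at this
    have f2 : o (Sum.inr (true, true)) = !(o (Sum.inl (b p))) := by
      have := ho3 (Sum.inl (b p)); rwa [e2bp] at this
    have f3 : o (Sum.inr (false, false)) = !(o (Sum.inl q)) := by
      have := ho3 (Sum.inl q); rwa [e2q] at this
    have f4 : o (Sum.inr (true, false)) = !(o (Sum.inl (b q))) := by
      have := ho3 (Sum.inl (b q)); rwa [e2bq] at this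
    have f5 : o (Sum.inr (true, true)) = !(o (Sum.inr (false, true))) := hE (false, true)
    have f6 : o (Sum.inr (true, false)) = !(o (Sum.inr (false, false))) := hE (false, false)
    have fp : o (Sum.inl (b p)) = !(o (Sum.inl p)) := by
      rw [f2, f1] at f5
      have := congrArg (fun c => !c) f5
      simpa using this
    have fq : o (Sum.inl (b q)) = !(o (Sum.inl q)) := by
      rw [f4, f3] at f6
      have := congrArg (fun c => !c) f6
      simpa using this
    intro x
    show o (Sum.inl (b x)) = !(o (Sum.inl x))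
    by_cases h1 : x = p
    · subst h1; exact fp
    by_cases h2 : x = b p
    · subst h2; rw [hb.inv, fp, Bool.not_not]
    by_cases h3 : x = q
    · subst h3; exact fq
    by_cases h4 : x = b q
    · subst h4; rw [hb.inv, fq, Bool.not_not]
    have := ho3 (Sum.inl x)
    rwa [e2o x h1 h2 h3 h4] at this

private theorem even_of_inv (s : Finset Ω) (f : Ω → Ω) (hf : ∀ x ∈ s, f x ∈ s)
    (h1 : ∀ x, f (f x) = x) (h2 : ∀ x, f x ≠ x) : Even s.card := by
  have h := Finset.sum_involution (s := s) (f := fun _ => (1 : ZMod 2)) (fun x _ => f x)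
    (fun x hx => by decide) (fun x hx _ => h2 x) (fun x hx => hf x hx) (fun x hx => h1 x)
  rw [Finset.sum_const, nsmul_eq_mul, mul_one] at h
  exact (ZMod.natCast_eq_zero_iff_even).1 h

/-- The number of flags of `A` whose corner partner is not in `A` is even. -/
theorem even_mixed [Finite Ω] {g b : Ω → Ω} (hg : IsInv g) (hb : IsInv b) {A : Set Ω}
    (hAg : ∀ x ∈ A, g x ∈ A) : Even (Set.ncard {x | x ∈ A ∧ b x ∉ A}) := by
  classical
  have := Fintype.ofFinite Ω
  have e1 : Even (Finset.univ.filter (fun x => x ∈ A)).card :=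
    even_of_inv _ g (fun x hx => by simpa using hAg x (by simpa using hx)) hg.inv hg.ne
  have e2 : Even (Finset.univ.filter (fun x => x ∈ A ∧ b x ∈ A)).card :=
    even_of_inv _ b (fun x hx => by
      have hx' : x ∈ A ∧ b x ∈ A := by simpa using hx
      simpa [hb.inv] using hx'.symm) hb.inv hb.ne
  have e3 : (Finset.univ.filter (fun x => x ∈ A ∧ b x ∈ A)).card +
      (Finset.univ.filter (fun x => x ∈ A ∧ b x ∉ A)).card =
      (Finset.univ.filter (fun x => x ∈ A)).card := by
    rw [← Finset.card_union_of_disjoint]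
    · congr 1
      ext x
      simp only [Finset.mem_union, Finset.mem_filter, Finset.mem_univ, true_and]
      tauto
    · rw [Finset.disjoint_left]
      intro x hx hx'
      simp only [Finset.mem_filter, Finset.mem_univ, true_and] at hx hx'
      exact hx'.2 hx.2
  have e4 : Set.ncard {x | x ∈ A ∧ b x ∉ A} =
      (Finset.univ.filter (fun x => x ∈ A ∧ b x ∉ A)).card := by
    rw [← Set.ncard_coe_finset]
    congr 1
    ext x
    simp
  rw [e4]
  rw [← e3] at e1
  exact (Nat.even_add.1 e1).1 e2

end Pool.Agent.H20.Hop
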