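import Mathlib
import Pool.Agent.H20.Hop.SurgAdd
import Pool.Agent.H20.Hop.SurgSplit

set_option autoImplicit false

/-!
The general splitting lemma for abstract schemes.
-/

namespace Pool.Agent.H20.Hop

variable {Ω V : Type*}

/-- Among the flags of `A` whose corner partner is outside `A` both signs are equally frequent. -/
private theorem ncard_sign [Finite Ω] {g b : Ω → Ω} (hg : IsInv g) (hb : IsInv b)
    {s : Ω → Bool} (hsg : Flips s g) (hsb : Flips s b) {A : Set Ω} (hAg : ∀ x ∈ A, g x ∈ A) :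
    Set.ncard {x | (x ∈ A ∧ b x ∉ A) ∧ s x = true} =
      Set.ncard {x | (x ∈ A ∧ b x ∉ A) ∧ s x = false} := by
  have h1 : Set.ncard {x | x ∈ A ∧ s x = true} = Set.ncard {x | x ∈ A ∧ s x = false} := by
    have : {x | x ∈ A ∧ s x = false} = g '' {x | x ∈ A ∧ s x = true} := by
      ext x
      constructor
      · rintro ⟨hx, hs⟩
        refine ⟨g x, ⟨hAg x hx, ?_⟩, hg.inv x⟩
        rw [hsg x, hs]
        rfl
      · rintro ⟨y, ⟨hy, hs⟩, rfl⟩
        refine ⟨hAg y hy, ?_⟩
        rw [hsg y, hs]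
        rfl
    rw [this, Set.ncard_image_of_injective]
    intro x y hxy
    rw [← hg.inv x, hxy, hg.inv y]
  have h2 : Set.ncard {x | (x ∈ A ∧ b x ∈ A) ∧ s x = true} =
      Set.ncard {x | (x ∈ A ∧ b x ∈ A) ∧ s x = false} := by
    have : {x | (x ∈ A ∧ b x ∈ A) ∧ s x = false} =
        b '' {x | (x ∈ A ∧ b x ∈ A) ∧ s x = true} := by
      ext x
      constructor
      · rintro ⟨⟨hx, hbx⟩, hs⟩
        refine ⟨b x, ⟨⟨hbx, by rw [hb.inv]; exact hx⟩, ?_⟩, hb.inv x⟩
        rw [hsb x, hs]
        rfl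
      · rintro ⟨y, ⟨⟨hy, hby⟩, hs⟩, rfl⟩
        refine ⟨⟨hby, by rw [hb.inv]; exact hy⟩, ?_⟩
        rw [hsb y, hs]
        rfl
    rw [this, Set.ncard_image_of_injective]
    intro x y hxy
    rw [← hb.inv x, hxy, hb.inv y]
  have h3 : ∀ c : Bool, Set.ncard {x | x ∈ A ∧ s x = c} =
      Set.ncard {x | (x ∈ A ∧ b x ∈ A) ∧ s x = c} +
      Set.ncard {x | (x ∈ A ∧ b x ∉ A) ∧ s x = c} := by
    intro c
    rw [← Set.ncard_union_eq]
    · congr 1
      ext x
      simp only [Set.mem_ofPred_eq, Set.mem_union]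
      tauto
    · rw [Set.disjoint_left]
      rintro x ⟨⟨_, h⟩, _⟩ ⟨⟨_, h'⟩, _⟩
      exact h' h
  have h4 := h3 true
  have h5 := h3 false
  omega

/-- The general splitting lemma: at most four flags of `A` have their corner partner outside `A`.
Proof: take a sign `s` of `g, b`; the flags `x ∈ A` with `b x ∉ A` have as many `true` as `false`
signs (sum the signs over `A`: `g` pairs all of `A`, `b` all but these flags). There are none only if
`A` is the whole star. If there are two, `split_abs`. If there are four, two of them, `p ≠ q`, have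
the same sign; `switch_vertex_sign` at `p, q`: the switched scheme has only two such flags; if
`¬ Rel a b p q` one face is lost and the scheme is non-orientable (`nonor_of_join`); if `Rel a b p q`
the number of faces does not decrease (`norb_sw_split` or `norb_sw_same` with a sign of `a, b`). -/
theorem contract_abs [Finite Ω] {a g b : Ω → Ω} {vtx : Ω → V} (ha : IsInv a) (hS : Abs g b vtx)
    {w : V} {A : Set Ω} (hA : ∀ x ∈ A, vtx x = w) (hAg : ∀ x ∈ A, g x ∈ A) (hne : A.Nonempty)
    (hM : Set.ncard {x | x ∈ A ∧ b x ∉ A} ≤ 4) :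
    ∃ b' : Ω ⊕ New → Ω ⊕ New, Abs (Sum.map g New.side) b' (vtxSplit vtx w A) ∧
      norb a b ≤ norb (Sum.map a New.end) b' + 1 ∧
      (norb a b ≤ norb (Sum.map a New.end) b' ∨
        ¬ Ori (Sum.map a New.end) (Sum.map g New.side) b') := by
  obtain ⟨s, hsg, hsb⟩ := exists_sign hS.gi hS.bi
  have hTF := ncard_sign hS.gi hS.bi hsg hsb hAg
  have hsum : Set.ncard {x | x ∈ A ∧ b x ∉ A} =
      Set.ncard {x | (x ∈ A ∧ b x ∉ A) ∧ s x = true} +
      Set.ncard {x | (x ∈ A ∧ b x ∉ A) ∧ s x = false} := by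
    rw [← Set.ncard_union_eq]
    · congr 1
      ext x
      simp only [Set.mem_ofPred_eq, Set.mem_union]
      cases s x <;> simp
    · rw [Set.disjoint_left]
      rintro x ⟨_, h⟩ ⟨_, h'⟩
      rw [h] at h'
      exact Bool.noConfusion h'
  have hle : Set.ncard {x | (x ∈ A ∧ b x ∉ A) ∧ s x = true} ≤ 2 := by omega
  have hmem : ∀ x, x ∈ A → b x ∉ A →
      x ∈ {x | (x ∈ A ∧ b x ∉ A) ∧ s x = true} ∨ x ∈ {x | (x ∈ A ∧ b x ∉ A) ∧ s x = false} := by
    intro x hx hbx
    cases hs : s x
    · exact Or.inr ⟨⟨hx, hbx⟩, hs⟩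
    · exact Or.inl ⟨⟨hx, hbx⟩, hs⟩
  rcases Nat.lt_or_ge (Set.ncard {x | (x ∈ A ∧ b x ∉ A) ∧ s x = true}) 1 with h0 | h0
  · -- no mixed flags: `A` is the whole star of `w`
    have hT : {x | (x ∈ A ∧ b x ∉ A) ∧ s x = true} = ∅ :=
      (Set.ncard_eq_zero (Set.toFinite _)).1 (by omega)
    have hF : {x | (x ∈ A ∧ b x ∉ A) ∧ s x = false} = ∅ :=
      (Set.ncard_eq_zero (Set.toFinite _)).1 (by omega)
    have hAb : ∀ x ∈ A, b x ∈ A := by
      intro x hx
      by_contra hbx
      rcases hmem x hx hbx with h | h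
      · rw [hT] at h
        exact h
      · rw [hF] at h
        exact h
    obtain ⟨p, hp⟩ := hne
    have hAll : ∀ x, x ∈ A ↔ vtx x = w := by
      intro x
      refine ⟨hA x, fun hx => ?_⟩
      have hr : Rel g b p x := hS.star p x (by rw [hA p hp, hx])
      exact Rel.mem_of_closed hS.gi hS.bi (C := fun x => x ∈ A) hAg hAb hr hp
    obtain ⟨b', hb', hn, _⟩ := pendant_abs ha hS hAll hp
    exact ⟨b', hb', by omega, Or.inl hn.ge⟩
  · rcases Nat.lt_or_ge (Set.ncard {x | (x ∈ A ∧ b x ∉ A) ∧ s x = true}) 2 with h1 | h1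
    · -- two mixed flags
      obtain ⟨p, hT⟩ := Set.ncard_eq_one.1 (show Set.ncard _ = 1 by omega :
        Set.ncard {x | (x ∈ A ∧ b x ∉ A) ∧ s x = true} = 1)
      obtain ⟨q, hF⟩ := Set.ncard_eq_one.1 (show Set.ncard _ = 1 by omega :
        Set.ncard {x | (x ∈ A ∧ b x ∉ A) ∧ s x = false} = 1)
      have hp : p ∈ {x | (x ∈ A ∧ b x ∉ A) ∧ s x = true} := by rw [hT]; rfl
      have hq : q ∈ {x | (x ∈ A ∧ b x ∉ A) ∧ s x = false} := by rw [hF]; rfl
      have hpq : p ≠ q := by
        rintro rfl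
        have h1 := hp.2
        rw [hq.2] at h1
        exact Bool.noConfusion h1
      obtain ⟨b', hb', hn, _⟩ := split_abs ha hS hA hAg hp.1.1 hq.1.1 hpq hp.1.2 hq.1.2
        (fun x hx hbx => by
          rcases hmem x hx hbx with h | h
          · rw [hT] at h
            exact Or.inl h
          · rw [hF] at h
            exact Or.inr h)
      exact ⟨b', hb', by omega, Or.inl hn.ge⟩
    · -- four mixed flags
      obtain ⟨p, q, hpq, hT⟩ := Set.ncard_eq_two.1 (show Set.ncard _ = 2 by omega :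
        Set.ncard {x | (x ∈ A ∧ b x ∉ A) ∧ s x = true} = 2)
      obtain ⟨p', q', hpq', hF⟩ := Set.ncard_eq_two.1 (show Set.ncard _ = 2 by omega :
        Set.ncard {x | (x ∈ A ∧ b x ∉ A) ∧ s x = false} = 2)
      have hp : p ∈ {x | (x ∈ A ∧ b x ∉ A) ∧ s x = true} := by rw [hT]; simp
      have hq : q ∈ {x | (x ∈ A ∧ b x ∉ A) ∧ s x = true} := by rw [hT]; simp
      have hp' : p' ∈ {x | (x ∈ A ∧ b x ∉ A) ∧ s x = false} := by rw [hF]; simp
      have hq' : q' ∈ {x | (x ∈ A ∧ b x ∉ A) ∧ s x = false} := by rw [hF]; simp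
      have hv : vtx p = vtx q := by rw [hA p hp.1.1, hA q hq.1.1]
      have hqb : q ≠ b p := by
        rintro rfl
        exact hp.1.2 hq.1.1
      have hS1 : Abs g (sw b p q) vtx :=
        switch_vertex_sign hS hsg hsb hpq (by rw [hp.2, hq.2]) hv
      have hsw : ∀ x ∈ A, x ≠ p → x ≠ q → sw b p q x = b x := by
        intro x hx hxp hxq
        unfold sw
        rw [if_neg hxp, if_neg hxq, if_neg, if_neg]
        · rintro rfl
          exact hq.1.2 hx
        · rintro rfl
          exact hp.1.2 hx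
      have hne1 : ∀ x ∈ {x | (x ∈ A ∧ b x ∉ A) ∧ s x = false}, x ≠ p ∧ x ≠ q := by
        intro x hx
        constructor
        · rintro rfl
          have h1 := hp.2
          rw [hx.2] at h1
          exact Bool.noConfusion h1
        · rintro rfl
          have h1 := hq.2
          rw [hx.2] at h1
          exact Bool.noConfusion h1
      obtain ⟨b', hb', hn, ho⟩ := split_abs ha hS1 hA hAg hp'.1.1 hq'.1.1 hpq'
        (by rw [hsw p' hp'.1.1 (hne1 p' hp').1 (hne1 p' hp').2]; exact hp'.1.2)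
        (by rw [hsw q' hq'.1.1 (hne1 q' hq').1 (hne1 q' hq').2]; exact hq'.1.2)
        (fun x hx hbx => by
          have hxp : x ≠ p := by
            rintro rfl
            apply hbx
            simpa [sw] using hq.1.1
          have hxq : x ≠ q := by
            rintro rfl
            apply hbx
            simpa [sw, hxp] using hp.1.1
          rw [hsw x hx hxp hxq] at hbx
          rcases hmem x hx hbx with h | h
          · rw [hT] at h
            rcases h with h | h
            · exact absurd h hxp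
            · exact absurd h hxq
          · rw [hF] at h
            exact h)
      refine ⟨b', hb', ?_⟩
      by_cases hr : Rel a b p q
      · obtain ⟨s', hsa', hsb'⟩ := exists_sign ha hS.bi
        have hle' : norb a b ≤ norb a (sw b p q) := by
          by_cases hss : s' p = s' q
          · exact (norb_sw_same ha hS.bi hsa' hsb' hpq hss hr).ge
          · have := norb_sw_split ha hS.bi hsa' hsb' hqb hss hr
            omega
        exact ⟨by omega, Or.inl (by omega)⟩
      · have h2 := norb_sw_diff ha hS.bi hr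
        exact ⟨by omega, Or.inr (fun h => nonor_of_join ha hS hv hS1 hr (ho h))⟩

end Pool.Agent.H20.Hop
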