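import Mathlib
import Pool.Agent.H20.Hop.Contr
import Pool.Agent.H20.Hop.SurgCon

set_option autoImplicit false

/-!
Undoing a contraction.
-/

namespace Pool.Agent.H20.Hop

open SimpleGraph

variable {V : Type*} {G : SimpleGraph V}

/-- `G` and the contracted graph have the same isolated vertices if `u` has another neighbour. -/
theorem card_iso_con {u v : V} (huv : G.Adj u v) (hu : ∃ z, z ≠ v ∧ G.Adj u z) :
    Nat.card {x : V // ∀ w, ¬ G.Adj x w} =
      Nat.card {x : {x : V // x ≠ v} // ∀ w, ¬ (contr G u v).Adj x w} := by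
  obtain ⟨z, hzv, huz⟩ := hu
  have hxv : ∀ x : V, (∀ w, ¬ G.Adj x w) → x ≠ v := fun x h h1 => h u (h1 ▸ huv.symm)
  have hxu : ∀ x : {x : V // x ≠ v}, (∀ w, ¬ (contr G u v).Adj x w) → x.1 ≠ u := by
    intro x h h1
    refine h ⟨z, hzv⟩ ⟨?_, Or.inl ?_⟩
    · intro h2
      exact huz.ne (h1.symm.trans (congrArg Subtype.val h2))
    · rw [h1]
      exact huz
  refine Nat.card_congr ⟨fun x => ⟨⟨x.1, hxv x.1 x.2⟩, ?_⟩, fun x => ⟨x.1.1, ?_⟩, ?_, ?_⟩
  · rintro w ⟨-, h | ⟨h, -⟩ | ⟨-, h⟩⟩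
    · exact x.2 _ h
    · exact x.2 v (by rw [show x.1 = u from h]; exact huv)
    · exact x.2 _ h.symm
  · intro w hw
    by_cases h : w = v
    · refine x.2 ⟨u, huv.ne⟩ ⟨fun h1 => hxu x.1 x.2 (congrArg Subtype.val h1), Or.inr (Or.inr ?_)⟩
      exact ⟨rfl, h ▸ hw.symm⟩
    · exact x.2 ⟨w, h⟩ ⟨fun h1 => hw.ne (congrArg Subtype.val h1), Or.inl hw⟩
  · intro x
    rfl
  · intro x
    rfl

/-- Undoing the contraction of `uv` if the flags of `u` and of `v` form at most four blocks around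
the contracted vertex: Euler genus at most one more. From `contract_abs`, `flagCon_exists`,
`scheme_of_equiv` (with `nu v`) and the cardinalities; `G` and the contracted graph have the same
isolated vertices (`u` has another neighbour, `v` is adjacent to `u`). -/
theorem uncontract [Finite V] {u v : V} (huv : G.Adj u v) (hno : ∀ z, G.Adj u z → ¬ G.Adj v z)
    (hu : ∃ z, z ≠ v ∧ G.Adj u z) (S : Scheme (contr G u v))
    (hM : Set.ncard {x | x ∈ aSide G u v ∧ S.corner x ∉ aSide G u v} ≤ 4) {k : ℕ}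
    (hS : S.EulerGenusLE k) : EmbedsN G (k + 1) := by
  classical
  have : Finite (Flag (contr G u v)) := by
    have := Fintype.ofFinite V
    infer_instance
  have hne : (aSide G u v).Nonempty := by
    obtain ⟨z, hzv, huz⟩ := hu
    have h1 : (contr G u v).Adj ⟨u, huv.ne⟩ ⟨z, hzv⟩ :=
      ⟨fun h => huz.ne (congrArg Subtype.val h), Or.inl huz⟩
    exact ⟨((⟨(⟨u, huv.ne⟩, ⟨z, hzv⟩), h1⟩ : (contr G u v).Dart), true), rfl, huz⟩
  have hA : ∀ x ∈ aSide G u v, x.1.fst = (⟨u, huv.ne⟩ : {x : V // x ≠ v}) := by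
    rintro x ⟨h, -⟩
    exact Subtype.ext h
  obtain ⟨b', hb', hle, hor⟩ := contract_abs (a := Flag.along) along_isInv S.abs hA
    (fun x hx => hx) hne hM
  obtain ⟨e, he1, he2, he3⟩ := flagCon_exists huv hno
  obtain ⟨S', hn, hO⟩ := scheme_of_equiv e (nu v) (nu_injective v) he1 he2 he3 hb'
  have hc := card_comp_con huv
  have hE := card_edge_con huv hno
  have hV := card_vert_con (V := V) v
  have hI := card_iso_con huv hu
  have hF := S.numFaces_eq
  have hF' := S'.numFaces_eq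
  unfold Scheme.EulerGenusLE at hS
  refine ⟨S', ?_⟩
  unfold Scheme.EulerGenusLE
  rcases hor with h | h
  · left
    push_cast
    omega
  · right
    refine ⟨?_, fun h1 => h (hO h1)⟩
    push_cast
    omega

end Pool.Agent.H20.Hop
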