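import Mathlib
import Pool.Agent.H20.Hop.Del
import Pool.Agent.H20.Hop.SurgAdd

set_option autoImplicit false

/-!
Reinserting a deleted edge.
-/

namespace Pool.Agent.H20.Hop

open SimpleGraph

variable {V : Type*} {G : SimpleGraph V}

private theorem adj_del_iff {u v x y : V} :
    (G.deleteEdges {s(u, v)}).Adj x y ↔ G.Adj x y ∧ s(x, y) ≠ s(u, v) := by
  rw [SimpleGraph.deleteEdges_adj, Set.mem_singleton_iff]

/-- Reinserting a deleted edge `uv` if some vertex shares a face with `u` and a face with `v`:
Euler genus at most one more. From `reinsert_abs`, `flagDel_exists`, `scheme_of_equiv`,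
`card_comp_del`, `card_edge_del`; `G` and `G - uv` have the same isolated vertices, as `p` and `q`
are flags of `G - uv` at `u` and `v`. -/
theorem reinsert [Finite V] {u v : V} (huv : G.Adj u v)
    (S : Scheme (G.deleteEdges {s(u, v)})) {p q z1 z2 : Flag (G.deleteEdges {s(u, v)})}
    (hp : p.1.fst = u) (hq : q.1.fst = v) (hz : z1.1.fst = z2.1.fst) (h1 : S.SameFace p z1)
    (h2 : S.SameFace q z2) {k : ℕ} (hS : S.EulerGenusLE k) : EmbedsN G (k + 1) := by
  have hfin : Finite (Flag (G.deleteEdges {s(u, v)})) := by
    have : Finite (G.deleteEdges {s(u, v)}).Dart := by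
      refine Finite.of_injective
        (fun d : (G.deleteEdges {s(u, v)}).Dart => d.toProd) ?_
      intro d d' h
      exact SimpleGraph.Dart.ext _ _ h
    infer_instance
  have hne : (fun f : Flag (G.deleteEdges {s(u, v)}) => f.1.fst) p ≠
      (fun f : Flag (G.deleteEdges {s(u, v)}) => f.1.fst) q := by
    simp only
    rw [hp, hq]
    exact huv.ne
  obtain ⟨b', hA, hn, hor⟩ := reinsert_abs along_isInv S.abs hne hz h1 h2
  simp only [hp, hq] at hA
  obtain ⟨e, ea, eg, ev⟩ := flagDel_exists huv
  obtain ⟨S', hS'n, hS'o⟩ := scheme_of_equiv e id Function.injective_id ea eg ev hA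
  have hreach : (G.deleteEdges {s(u, v)}).Reachable u v := by
    have r1 := h1.reachable
    have r2 := h2.reachable
    rw [hp] at r1
    rw [hq] at r2
    rw [hz] at r1
    exact r1.trans r2.symm
  have hc := card_comp_del hreach
  have he := card_edge_del huv
  have hiso : Nat.card {x : V // ∀ w, ¬ G.Adj x w} =
      Nat.card {x : V // ∀ w, ¬ (G.deleteEdges {s(u, v)}).Adj x w} := by
    refine Nat.card_congr (Equiv.subtypeEquivRight (fun x => ⟨fun h w hw => ?_, fun h w hw => ?_⟩))
    · exact h w (adj_del_iff.1 hw).1
    · by_cases hxw : s(x, w) = s(u, v)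
      · rw [Sym2.eq_iff] at hxw
        rcases hxw with ⟨rfl, rfl⟩ | ⟨rfl, rfl⟩
        · have := p.1.adj
          rw [hp] at this
          exact h _ this
        · have := q.1.adj
          rw [hq] at this
          exact h _ this
      · exact h w (adj_del_iff.2 ⟨hw, hxw⟩)
  refine ⟨S', ?_⟩
  unfold Scheme.EulerGenusLE at hS ⊢
  rw [S.numFaces_eq] at hS
  rw [S'.numFaces_eq, hS'n, hc, he, hiso]
  rcases hor with h | h
  · left
    push_cast at hS ⊢
    have h' : (norb Flag.along S.corner : ℤ) + 1 ≤
        (norb (Sum.map Flag.along New.end) b' : ℤ) := by exact_mod_cast h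
    linarith
  · right
    refine ⟨?_, fun ho => h (hS'o ho)⟩
    push_cast at hS ⊢
    have h' : (norb Flag.along S.corner : ℤ) ≤
        (norb (Sum.map Flag.along New.end) b' : ℤ) := by exact_mod_cast hn
    linarith

private theorem reach_isolated {H : SimpleGraph V} {x y : V} (hx : ∀ w, ¬ H.Adj x w)
    (h : H.Reachable x y) : x = y := by
  obtain ⟨p⟩ := h
  cases p with
  | nil => rfl
  | cons hadj _ => exact absurd hadj (hx _)

/-- components after deleting an isolated edge -/
private theorem card_comp_isolated_edge [Finite V] {u v : V} (huv : G.Adj u v)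
    (hu : ∀ w, ¬ (G.deleteEdges {s(u, v)}).Adj u w)
    (hv : ∀ w, ¬ (G.deleteEdges {s(u, v)}).Adj v w) :
    Nat.card (G.deleteEdges {s(u, v)}).ConnectedComponent =
      Nat.card G.ConnectedComponent + 1 := by
  classical
  set G' := G.deleteEdges {s(u, v)} with hG'
  have hle : G' ≤ G := SimpleGraph.deleteEdges_le _
  have hiso : ∀ x y, (x = u ∨ x = v) → G'.Reachable x y → x = y := by
    rintro x y (rfl | rfl) h
    · exact reach_isolated hu h
    · exact reach_isolated hv h
  have hreach : ∀ x y, G.Reachable x y → G'.Reachable x y ∨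
      ((x = u ∨ x = v) ∧ (y = u ∨ y = v)) := by
    rintro x y ⟨p⟩
    induction p with
    | nil => exact Or.inl (SimpleGraph.Reachable.refl _)
    | @cons x z y hadj p ih =>
      by_cases hxz : s(x, z) = s(u, v)
      · have hx : x = u ∨ x = v := by
          rw [Sym2.eq_iff] at hxz
          rcases hxz with h | h
          · exact Or.inl h.1
          · exact Or.inr h.1
        have hz : z = u ∨ z = v := by
          rw [Sym2.eq_iff] at hxz
          rcases hxz with h | h
          · exact Or.inr h.2
          · exact Or.inl h.2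
        rcases ih with ih | ih
        · right
          refine ⟨hx, ?_⟩
          rw [← hiso z y hz ih]
          exact hz
        · exact Or.inr ⟨hx, ih.2⟩
      · have h1 : G'.Adj x z := adj_del_iff.2 ⟨hadj, hxz⟩
        rcases ih with ih | ih
        · exact Or.inl (h1.reachable.trans ih)
        · have h2 := hiso z x ih.1 h1.symm.reachable
          subst h2
          exact absurd h1 (G'.loopless.irrefl _)
  have hfin : Finite G'.ConnectedComponent := inferInstance
  -- all components but the one of `v`
  let f : {C : G'.ConnectedComponent // C ≠ G'.connectedComponentMk v} → G.ConnectedComponent :=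
    fun C => C.1.map (SimpleGraph.Hom.ofLE hle)
  have hbij : Function.Bijective f := by
    constructor
    · rintro ⟨C, hC⟩ ⟨D, hD⟩ h
      induction C using SimpleGraph.ConnectedComponent.ind with
      | h x =>
        induction D using SimpleGraph.ConnectedComponent.ind with
        | h y =>
          have h' : G.Reachable x y := by
            have h0 : G.connectedComponentMk x = G.connectedComponentMk y := h
            exact SimpleGraph.ConnectedComponent.exact h0
          apply Subtype.ext
          simp only
          rcases hreach x y h' with h1 | ⟨h1, h2⟩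
          · exact SimpleGraph.ConnectedComponent.sound h1
          · have hx : x = u := by
              rcases h1 with h1 | h1
              · exact h1
              · exact absurd (by rw [h1]) hC
            have hy : y = u := by
              rcases h2 with h2 | h2
              · exact h2
              · exact absurd (by rw [h2]) hD
            rw [hx, hy]
    · intro C
      induction C using SimpleGraph.ConnectedComponent.ind with
      | h x =>
        by_cases hx : G'.connectedComponentMk x = G'.connectedComponentMk v
        · have hxv : v = x := hiso v x (Or.inr rfl) (SimpleGraph.ConnectedComponent.exact hx.symm)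
          refine ⟨⟨G'.connectedComponentMk u, fun h => ?_⟩, ?_⟩
          · exact huv.ne (hiso u v (Or.inl rfl) (SimpleGraph.ConnectedComponent.exact h))
          · change G.connectedComponentMk u = G.connectedComponentMk x
            rw [← hxv]
            exact SimpleGraph.ConnectedComponent.sound huv.reachable
        · exact ⟨⟨G'.connectedComponentMk x, hx⟩, rfl⟩
  rw [← Nat.card_congr (Equiv.ofBijective f hbij)]
  have h1 := Nat.card_congr (Equiv.sumCompl
    (fun C : G'.ConnectedComponent => C ≠ G'.connectedComponentMk v))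
  rw [Nat.card_sum] at h1
  rw [← h1]
  congr 1
  have : Unique {C : G'.ConnectedComponent // ¬ (C ≠ G'.connectedComponentMk v)} :=
    { default := ⟨G'.connectedComponentMk v, fun h => h rfl⟩
      uniq := fun C => Subtype.ext (by have := C.2; push Not at this; exact this) }
  exact Nat.card_unique

/-- isolated vertices after deleting an isolated edge -/
private theorem card_isolated_edge [Finite V] {u v : V} (huv : G.Adj u v)
    (hu : ∀ w, ¬ (G.deleteEdges {s(u, v)}).Adj u w)
    (hv : ∀ w, ¬ (G.deleteEdges {s(u, v)}).Adj v w) :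
    Nat.card {x : V // ∀ w, ¬ (G.deleteEdges {s(u, v)}).Adj x w} =
      Nat.card {x : V // ∀ w, ¬ G.Adj x w} + 2 := by
  classical
  have e : {x : V | ∀ w, ¬ (G.deleteEdges {s(u, v)}).Adj x w} =
      {x : V | ∀ w, ¬ G.Adj x w} ∪ {u, v} := by
    ext x
    simp only [Set.mem_ofPred_eq, Set.mem_union, Set.mem_insert_iff, Set.mem_singleton_iff]
    constructor
    · intro h
      by_cases hx : x = u ∨ x = v
      · exact Or.inr hx
      · left
        intro w hw
        refine h w (adj_del_iff.2 ⟨hw, fun h' => hx ?_⟩)
        rw [Sym2.eq_iff] at h'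
        rcases h' with h' | h'
        · exact Or.inl h'.1
        · exact Or.inr h'.1
    · rintro (h | rfl | rfl)
      · intro w hw
        exact h w (adj_del_iff.1 hw).1
      · exact hu
      · exact hv
  have h1 : Nat.card {x : V // ∀ w, ¬ (G.deleteEdges {s(u, v)}).Adj x w} =
      ({x : V | ∀ w, ¬ (G.deleteEdges {s(u, v)}).Adj x w}).ncard := rfl
  have h2 : Nat.card {x : V // ∀ w, ¬ G.Adj x w} = ({x : V | ∀ w, ¬ G.Adj x w}).ncard := rfl
  rw [h1, h2, e, Set.ncard_union_eq ?_ (Set.toFinite _) (Set.toFinite _), Set.ncard_pair huv.ne]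
  rw [Set.disjoint_right]
  rintro x hx hx'
  rcases hx with rfl | hx
  · exact hx' v huv
  · rw [Set.mem_singleton_iff] at hx
    subst hx
    exact hx' u huv.symm

/-- Adding an edge between two isolated vertices. The scheme is `Sum.map S.corner New.side` carried
over by `flagDel_exists`; one component less, one face less (two isolated vertices less, one class of
flags more), one edge more. -/
theorem embeds_of_isolated_edge [Finite V] {u v : V} (huv : G.Adj u v)
    (hu : ∀ w, ¬ (G.deleteEdges {s(u, v)}).Adj u w) (hv : ∀ w, ¬ (G.deleteEdges {s(u, v)}).Adj v w)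
    (S : Scheme (G.deleteEdges {s(u, v)})) {k : ℕ} (hS : S.EulerGenusLE k) :
    EmbedsN G (k + 1) := by
  have hfin : Finite (Flag (G.deleteEdges {s(u, v)})) := by
    have : Finite (G.deleteEdges {s(u, v)}).Dart := by
      refine Finite.of_injective
        (fun d : (G.deleteEdges {s(u, v)}).Dart => d.toProd) ?_
      intro d d' h
      exact SimpleGraph.Dart.ext _ _ h
    infer_instance
  have hA : Abs (Sum.map Flag.across New.side) (Sum.map S.corner New.side)
      (vtxAdd (fun f : Flag (G.deleteEdges {s(u, v)}) => f.1.fst) u v) := by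
    refine ⟨SurgAdd.isInv_sum across_isInv SurgAdd.isInv_side,
      SurgAdd.isInv_sum S.abs.bi SurgAdd.isInv_side, ?_, ?_, ?_⟩
    · rintro (x | x)
      · simp [vtxAdd, Flag.across]
      · simp [vtxAdd, New.side]
    · rintro (x | x)
      · simpa [vtxAdd] using S.fst x
      · simp [vtxAdd, New.side]
    · have hmix : ∀ (x : Flag (G.deleteEdges {s(u, v)})) (y : New),
          vtxAdd (fun f : Flag (G.deleteEdges {s(u, v)}) => f.1.fst) u v (Sum.inl x) ≠
          vtxAdd (fun f : Flag (G.deleteEdges {s(u, v)}) => f.1.fst) u v (Sum.inr y) := by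
        rintro x ⟨e, s'⟩ h
        have hadj := x.1.adj
        cases e
        · have h' : x.1.fst = u := by simpa [vtxAdd] using h
          rw [h'] at hadj
          exact hu _ hadj
        · have h' : x.1.fst = v := by simpa [vtxAdd] using h
          rw [h'] at hadj
          exact hv _ hadj
      rintro (x | x) (y | y) hxy
      · exact rel_sum_inl New.side New.side (S.abs.star x y (by simpa [vtxAdd] using hxy))
      · exact absurd hxy (hmix x y)
      · exact absurd hxy.symm (hmix y x)
      · obtain ⟨e, s1⟩ := x
        obtain ⟨e', s2⟩ := y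
        have hee : e = e' := by
          have hne := huv.ne
          cases e <;> cases e' <;> simp_all [vtxAdd]
        subst hee
        by_cases hss : s1 = s2
        · subst hss
          exact rel_refl _ _ _
        · have e1 : s2 = !s1 := by
            cases s1 <;> cases s2 <;> simp_all
          subst e1
          exact rel_fst (Sum.map Flag.across New.side) (Sum.map S.corner New.side)
            (Sum.inr (e, s1))
  obtain ⟨e, ea, eg, ev⟩ := flagDel_exists huv
  obtain ⟨S', hS'n, -⟩ := scheme_of_equiv e id Function.injective_id ea eg ev hA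
  refine ⟨S', Or.inl ?_⟩
  have hc := card_comp_isolated_edge huv hu hv
  have he := card_edge_del huv
  have hi := card_isolated_edge huv hu hv
  unfold Scheme.EulerGenusLE at hS ⊢
  rw [S.numFaces_eq, hc, hi] at hS
  rw [S'.numFaces_eq, hS'n, norb_sum, norb_new_side, he]
  push_cast at hS ⊢
  linarith

/-- Adding an isolated vertex. -/
theorem embeds_of_isolated [Finite V] {v : V} (hv : ∀ w, ¬ G.Adj v w) {k : ℕ}
    (h : EmbedsN (G.induce {x | x ≠ v}) k) : EmbedsN G k := by
  classical
  obtain ⟨S, hS⟩ := h
  have hv1 : ∀ {x y : V}, G.Adj x y → x ≠ v := by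
    rintro x y h rfl
    exact hv y h
  have hv2 : ∀ {x y : V}, G.Adj x y → y ≠ v := by
    rintro x y h rfl
    exact hv x h.symm
  -- the flags
  let e : Flag G ≃ Flag (G.induce {x | x ≠ v}) :=
    { toFun := fun f => (⟨(⟨f.1.fst, hv1 f.1.adj⟩, ⟨f.1.snd, hv2 f.1.adj⟩), f.1.adj⟩, f.2)
      invFun := fun f => (⟨(f.1.fst.1, f.1.snd.1), f.1.adj⟩, f.2)
      left_inv := fun f => rfl
      right_inv := fun f => rfl }
  have hA : Abs Flag.across S.corner
      (fun f : Flag (G.induce {x | x ≠ v}) => (f.1.fst : V)) := by
    refine ⟨S.abs.gi, S.abs.bi, fun x => rfl, fun x => ?_, fun x y hxy => ?_⟩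
    · exact congrArg Subtype.val (S.fst x)
    · exact S.abs.star x y (Subtype.ext hxy)
  obtain ⟨S', hS'n, hS'o⟩ := scheme_of_equiv (G := G) (a' := Flag.along) e id
    Function.injective_id (fun f => rfl) (fun f => rfl) (fun f => rfl) hA
  -- counting
  have hV : Nat.card V = Nat.card {x : V | x ≠ v} + 1 := by
    have h1 := Nat.card_congr (Equiv.sumCompl (fun x : V => x ≠ v))
    rw [Nat.card_sum] at h1
    rw [← h1]
    congr 1
    have : Unique {x : V // ¬ (x ≠ v)} :=
      { default := ⟨v, fun h => h rfl⟩
        uniq := fun x => Subtype.ext (by have := x.2; push Not at this; exact this) }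
    exact Nat.card_unique
  have hE : Nat.card G.edgeSet = Nat.card (G.induce {x | x ≠ v}).edgeSet := by
    symm
    refine Nat.card_congr (Equiv.ofBijective
      (SimpleGraph.Embedding.mapEdgeSet (SimpleGraph.Embedding.induce {x | x ≠ v})) ⟨?_, ?_⟩)
    · exact (SimpleGraph.Embedding.mapEdgeSet _).injective
    · rintro ⟨s, hs⟩
      induction s with
      | h x y =>
        have hxy : G.Adj x y := hs
        refine ⟨⟨s(⟨x, hv1 hxy⟩, ⟨y, hv2 hxy⟩), hxy⟩, ?_⟩
        apply Subtype.ext
        rfl
  have hI : Nat.card {x : V // ∀ w, ¬ G.Adj x w} =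
      Nat.card {x : {x : V | x ≠ v} // ∀ w, ¬ (G.induce {x | x ≠ v}).Adj x w} + 1 := by
    have h1 : {x : V | ∀ w, ¬ G.Adj x w} = insert v (Subtype.val ''
        {x : {x : V | x ≠ v} | ∀ w, ¬ (G.induce {x | x ≠ v}).Adj x w}) := by
      ext x
      simp only [Set.mem_ofPred_eq, Set.mem_insert_iff, Set.mem_image]
      constructor
      · intro h
        by_cases hx : x = v
        · exact Or.inl hx
        · exact Or.inr ⟨⟨x, hx⟩, fun w hw => h w.1 hw, rfl⟩
      · rintro (rfl | ⟨x, hx, rfl⟩)
        · exact hv
        · intro w hw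
          exact hx ⟨w, hv2 hw⟩ hw
    have h2 : Nat.card {x : V // ∀ w, ¬ G.Adj x w} = ({x : V | ∀ w, ¬ G.Adj x w}).ncard := rfl
    have h3 : Nat.card {x : {x : V | x ≠ v} // ∀ w, ¬ (G.induce {x | x ≠ v}).Adj x w} =
      ({x : {x : V | x ≠ v} | ∀ w, ¬ (G.induce {x | x ≠ v}).Adj x w}).ncard := rfl
    rw [h2, h3, h1, Set.ncard_insert_of_notMem ?_ (Set.toFinite _),
      Set.ncard_image_of_injective _ Subtype.val_injective]
    rintro ⟨x, -, hx⟩
    exact x.2 hx
  have hC : Nat.card G.ConnectedComponent =
      Nat.card (G.induce {x | x ≠ v}).ConnectedComponent + 1 := by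
    have hreach : ∀ x y, G.Reachable x y → ∀ hx : x ≠ v, ∃ hy : y ≠ v,
        (G.induce {x | x ≠ v}).Reachable ⟨x, hx⟩ ⟨y, hy⟩ := by
      rintro x y ⟨p⟩
      induction p with
      | nil => exact fun hx => ⟨hx, SimpleGraph.Reachable.refl _⟩
      | @cons x z y hadj p ih =>
        intro hx
        obtain ⟨hy, h1⟩ := ih (hv2 hadj)
        refine ⟨hy, SimpleGraph.Reachable.trans ?_ h1⟩
        have h2 : (G.induce {x | x ≠ v}).Adj ⟨x, hx⟩ ⟨z, hv2 hadj⟩ := hadj
        exact h2.reachable
    rw [← Finite.card_option]
    symm
    let f : Option (G.induce {x | x ≠ v}).ConnectedComponent → G.ConnectedComponent :=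
      fun C => C.elim (G.connectedComponentMk v)
        (fun C => C.map (SimpleGraph.Embedding.induce {x | x ≠ v}).toHom)
    have hv0 : ∀ x : {x : V | x ≠ v}, G.connectedComponentMk v ≠ G.connectedComponentMk x.1 := by
      intro x h
      exact x.2 (reach_isolated hv (SimpleGraph.ConnectedComponent.exact h)).symm
    refine Nat.card_congr (Equiv.ofBijective f ⟨?_, ?_⟩)
    · rintro (_ | C) (_ | D) h
      · rfl
      · exfalso
        induction D using SimpleGraph.ConnectedComponent.ind with
        | h y => exact hv0 y h
      · exfalso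
        induction C using SimpleGraph.ConnectedComponent.ind with
        | h y => exact hv0 y h.symm
      · congr 1
        induction C using SimpleGraph.ConnectedComponent.ind with
        | h x =>
          induction D using SimpleGraph.ConnectedComponent.ind with
          | h y =>
            have h' : G.Reachable x.1 y.1 := by
              have h0 : G.connectedComponentMk x.1 = G.connectedComponentMk y.1 := h
              exact SimpleGraph.ConnectedComponent.exact h0
            obtain ⟨_, h1⟩ := hreach x.1 y.1 h' x.2
            exact SimpleGraph.ConnectedComponent.sound h1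
    · intro C
      induction C using SimpleGraph.ConnectedComponent.ind with
      | h x =>
        by_cases hx : x = v
        · refine ⟨none, ?_⟩
          rw [hx]
          rfl
        · exact ⟨some ((G.induce {x | x ≠ v}).connectedComponentMk ⟨x, hx⟩), rfl⟩
  have key : ∀ g : ℕ, S.EulerGenusLE g → S'.EulerGenusLE g := by
    intro g hg
    unfold Scheme.EulerGenusLE at hg ⊢
    rw [S.numFaces_eq] at hg
    rw [S'.numFaces_eq, hS'n, hV, hE, hI, hC]
    push_cast at hg ⊢
    linarith
  refine ⟨S', ?_⟩
  rcases hS with h | ⟨h, ho⟩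
  · exact Or.inl (key _ h)
  · refine Or.inr ⟨key _ h, fun ho' => ho ?_⟩
    obtain ⟨o, h1, h2, h3⟩ := hS'o ho'
    exact ⟨o, fun f => ⟨h1 f, h2 f, h3 f⟩⟩

end Pool.Agent.H20.Hop
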