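import Mathlib
import Pool.Agent.H20.Hop.ContrB
import Pool.Agent.H20.Hop.DelB

set_option autoImplicit false

/-!
One step minors, and the data used of a common obstruction.
-/

namespace Pool.Agent.H20.Hop

open SimpleGraph

variable {V : Type*} {G : SimpleGraph V}

private theorem conn_singleton (G : SimpleGraph V) (w : V) : (G.induce {w}).Connected := by
  have : Nonempty ({w} : Set V) := ⟨⟨w, rfl⟩⟩
  refine ⟨fun a b => ?_⟩
  have hab : a = b := Subtype.ext (a.2.trans b.2.symm)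
  rw [hab]

theorem isMinor_del (u v : V) : IsMinor (G.deleteEdges {s(u, v)}) G := by
  refine ⟨fun w => {w}, fun w => conn_singleton G w, ?_, ?_⟩
  · intro w w' hw
    rw [Set.disjoint_singleton]
    exact hw
  · intro w w' hw
    exact ⟨w, rfl, w', rfl, (SimpleGraph.deleteEdges_adj.1 hw).1⟩

theorem not_iso_del [Finite V] {u v : V} (huv : G.Adj u v) :
    IsEmpty (G.deleteEdges {s(u, v)} ≃g G) := by
  refine ⟨fun e => ?_⟩
  have h1 := Nat.card_congr e.mapEdgeSet
  have h2 := card_edge_del huv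
  omega

theorem isMinor_contr {u v : V} (huv : G.Adj u v) : IsMinor (contr G u v) G := by
  classical
  have hsub : ∀ w : {x : V // x ≠ v}, ∀ y : ({y : V | y = w.1 ∨ (w.1 = u ∧ y = v)} : Set V),
      (G.induce {y : V | y = w.1 ∨ (w.1 = u ∧ y = v)}).Reachable ⟨w.1, Or.inl rfl⟩ y := by
    rintro w ⟨y, hy | ⟨hy1, hy2⟩⟩
    · have h0 : (⟨w.1, Or.inl rfl⟩ : ({y : V | y = w.1 ∨ (w.1 = u ∧ y = v)} : Set V)) =
          ⟨y, Or.inl hy⟩ := Subtype.ext hy.symm
      rw [h0]
    · apply SimpleGraph.Adj.reachable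
      rw [SimpleGraph.induce_adj]
      show G.Adj w.1 y
      rw [hy1, hy2]
      exact huv
  refine ⟨fun w => {y : V | y = w.1 ∨ (w.1 = u ∧ y = v)}, ?_, ?_, ?_⟩
  · intro w
    have : Nonempty ({y : V | y = w.1 ∨ (w.1 = u ∧ y = v)} : Set V) := ⟨⟨w.1, Or.inl rfl⟩⟩
    refine ⟨fun a b => ?_⟩
    exact (hsub w a).symm.trans (hsub w b)
  · intro w w' hw
    rw [Set.disjoint_left]
    rintro y hy hy'
    rcases hy with hy | ⟨hy1, hy2⟩ <;> rcases hy' with hy' | ⟨hy1', hy2'⟩
    · exact hw (Subtype.ext (hy.symm.trans hy'))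
    · exact w.2 (hy.symm.trans hy2')
    · exact w'.2 (hy'.symm.trans hy2)
    · exact hw (Subtype.ext (hy1.trans hy1'.symm))
  · intro w w' hw
    rcases hw.2 with h | ⟨h1, h⟩ | ⟨h1, h⟩
    · exact ⟨w.1, Or.inl rfl, w'.1, Or.inl rfl, h⟩
    · exact ⟨v, Or.inr ⟨h1, rfl⟩, w'.1, Or.inl rfl, h⟩
    · exact ⟨w.1, Or.inl rfl, v, Or.inr ⟨h1, rfl⟩, h.symm⟩

theorem not_iso_contr [Finite V] (u v : V) : IsEmpty (contr G u v ≃g G) := by
  refine ⟨fun e => ?_⟩
  have h1 := Nat.card_congr e.toEquiv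
  have h2 := card_vert_con (V := V) v
  omega

theorem isMinor_induce (v : V) : IsMinor (G.induce {x | x ≠ v}) G := by
  refine ⟨fun w => {w.1}, fun w => conn_singleton G w.1, ?_, ?_⟩
  · intro w w' hw
    rw [Set.disjoint_singleton]
    exact fun h => hw (Subtype.ext h)
  · intro w w' hw
    exact ⟨w.1, rfl, w'.1, rfl, hw⟩

theorem not_iso_induce [Finite V] (v : V) : IsEmpty (G.induce {x | x ≠ v} ≃g G) := by
  refine ⟨fun e => ?_⟩
  have h1 : Nat.card {x : V // x ≠ v} = Nat.card V := Nat.card_congr e.toEquiv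
  have h2 := card_vert_con (V := V) v
  omega

/-- what is used of a common obstruction for `N_k` and `N_{k+1}` -/
structure Hopper (G : SimpleGraph V) (k : ℕ) : Prop where
  notEmb : ¬ EmbedsN G (k + 1)
  del : ∀ u v, G.Adj u v → ∃ S : Scheme (G.deleteEdges {s(u, v)}), S.EulerGenusLE k
  con : ∀ u v, G.Adj u v → ∃ S : Scheme (contr G u v), S.EulerGenusLE k
  noIsol : ∀ v, ∃ w, G.Adj v w

theorem EmbedsN.exists_scheme {H : SimpleGraph V} {k : ℕ} (h : EmbedsN H k) :
    ∃ S : Scheme H, S.EulerGenusLE k := by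
  obtain ⟨S, hS | hS⟩ := h
  · refine ⟨S, ?_⟩
    unfold Scheme.EulerGenusLE at hS ⊢
    have h1 : ((k - 1 : ℕ) : ℤ) ≤ k := by
      exact_mod_cast Nat.sub_le k 1
    linarith
  · exact ⟨S, hS.1⟩

/-- a common obstruction is a hopper (`embeds_of_isolated` for `noIsol`) -/
theorem hopper_of_obstruction {V : Type} [Finite V] {G : SimpleGraph V} {k : ℕ}
    (h1 : IsObstruction G k) (h2 : IsObstruction G (k + 1)) : Hopper G k := by
  refine ⟨h2.1, ?_, ?_, ?_⟩
  · intro u v huv
    exact (h1.2 V (G.deleteEdges {s(u, v)}) inferInstance (isMinor_del u v)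
      (not_iso_del huv)).exists_scheme
  · intro u v huv
    exact (h1.2 {x : V // x ≠ v} (contr G u v) inferInstance (isMinor_contr huv)
      (not_iso_contr u v)).exists_scheme
  · intro v
    by_contra hcon
    push Not at hcon
    apply h1.1
    exact embeds_of_isolated hcon (h1.2 _ (G.induce {x | x ≠ v}) inferInstance
      (isMinor_induce v) (not_iso_induce v))

end Pool.Agent.H20.Hop
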