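import Mathlib
import Pool.Agent.H20.Hop.Minor

set_option autoImplicit false

/-!
Hoppers are triangle-free and have minimum degree four.
-/

namespace Pool.Agent.H20.Hop

open SimpleGraph

variable {V : Type*} {G : SimpleGraph V}

/-- no vertex shares a face with `u` and a face with `v` in an embedding of `G - uv` -/
theorem Hopper.noShare [Finite V] {k : ℕ} (h : Hopper G k) {u v : V} (huv : G.Adj u v)
    (S : Scheme (G.deleteEdges {s(u, v)})) (hS : S.EulerGenusLE k)
    {p q z1 z2 : Flag (G.deleteEdges {s(u, v)})}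
    (hp : p.1.fst = u) (hq : q.1.fst = v) (hz : z1.1.fst = z2.1.fst) (h1 : S.SameFace p z1)
    (h2 : S.SameFace q z2) : False :=
  h.notEmb (reinsert huv S hp hq hz h1 h2 hS)

/-- a hopper has no triangle -/
theorem Hopper.triangleFree [Finite V] {k : ℕ} (h : Hopper G k) {u v z : V} (huv : G.Adj u v)
    (huz : G.Adj u z) : ¬ G.Adj v z := by
  intro hvz
  obtain ⟨S, hS⟩ := h.del u v huv
  have a1 : (G.deleteEdges {s(u, v)}).Adj u z := by
    rw [deleteEdges_adj]
    refine ⟨huz, ?_⟩
    rw [Set.mem_singleton_iff, Sym2.eq_iff]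
    rintro (⟨_, h2⟩ | ⟨h1, _⟩)
    · exact hvz.ne h2.symm
    · exact huv.ne h1
  have a2 : (G.deleteEdges {s(u, v)}).Adj v z := by
    rw [deleteEdges_adj]
    refine ⟨hvz, ?_⟩
    rw [Set.mem_singleton_iff, Sym2.eq_iff]
    rintro (⟨h1, _⟩ | ⟨_, h2⟩)
    · exact huv.ne h1.symm
    · exact huz.ne h2.symm
  exact h.noShare huv S hS (p := (⟨(u, z), a1⟩, true)) (q := (⟨(v, z), a2⟩, true))
    (z1 := Flag.along (⟨(u, z), a1⟩, true)) (z2 := Flag.along (⟨(v, z), a2⟩, true))
    rfl rfl rfl (rel_fst _ _ _) (rel_fst _ _ _)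

private theorem outside_aSide {u v : V} {x : Flag (contr G u v)} (hx : x.1.fst.1 = u)
    (hA : x ∉ aSide G u v) : G.Adj v x.1.snd.1 ∧ x.1.snd.1 ≠ u := by
  obtain ⟨h1, h2⟩ := x.1.adj
  have hsu : x.1.snd.1 ≠ u := by
    intro h
    apply h1
    apply Subtype.ext
    rw [hx, h]
  refine ⟨?_, hsu⟩
  rcases h2 with h2 | h2 | h2
  · exfalso
    apply hA
    refine ⟨hx, ?_⟩
    rw [hx] at h2
    exact h2
  · exact h2.2
  · exact absurd h2.1 hsu

/-- the number of flags of `u` next to a flag of `v` around the contracted vertex -/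
theorem ncard_mixed_le [Finite V] {u v : V} (huv : G.Adj u v) (S : Scheme (contr G u v)) :
    Set.ncard {x | x ∈ aSide G u v ∧ S.corner x ∉ aSide G u v} ≤
      2 * ((G.neighborSet v).ncard - 1) := by
  classical
  have h1 : Set.ncard {x | x ∈ aSide G u v ∧ S.corner x ∉ aSide G u v} ≤
      ((G.neighborSet v \ {u}) ×ˢ (Set.univ : Set Bool)).ncard := by
    refine Set.ncard_le_ncard_of_injOn (fun x => ((S.corner x).1.snd.1, (S.corner x).2)) ?_ ?_
      (Set.toFinite _)
    · rintro x ⟨hx1, hx2⟩
      have h3 := outside_aSide (by rw [S.fst]; exact hx1.1) hx2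
      exact ⟨⟨h3.1, h3.2⟩, Set.mem_univ _⟩
    · rintro x ⟨hx1, _⟩ y ⟨hy1, _⟩ hxy
      obtain ⟨e1, e2⟩ := Prod.mk.inj hxy
      have e3 : (S.corner x).1.fst = (S.corner y).1.fst := by
        rw [S.fst, S.fst]
        exact Subtype.ext (by rw [hx1.1, hy1.1])
      have e4 : S.corner x = S.corner y :=
        Prod.ext (SimpleGraph.Dart.ext _ _ (Prod.ext e3 (Subtype.ext e1))) e2
      rw [← S.invol x, e4, S.invol]
  have h2 : (G.neighborSet v \ {u}).ncard + 1 = (G.neighborSet v).ncard :=
    Set.ncard_sdiff_singleton_add_one huv.symm (Set.toFinite _)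
  rw [Set.ncard_prod, Set.ncard_univ, Nat.card_eq_fintype_card, Fintype.card_bool] at h1
  omega

/-- a hopper has minimum degree at least four. Proof: if `v` has at most three neighbours, let `u` be
one of them. If `u` has another neighbour, `uncontract` with `ncard_mixed_le`. If `u` has no other
neighbour but `v` has one, `uncontract` for the edge `vu` (there are no flags outside `aSide`). If
both have no other neighbour, `embeds_of_isolated_edge`. -/
theorem Hopper.four_le [Finite V] {k : ℕ} (h : Hopper G k) (v : V) :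
    4 ≤ (G.neighborSet v).ncard := by
  by_contra hlt
  push Not at hlt
  obtain ⟨u, hvu⟩ := h.noIsol v
  have huv := hvu.symm
  by_cases hu : ∃ z, z ≠ v ∧ G.Adj u z
  · obtain ⟨S, hS⟩ := h.con u v huv
    refine h.notEmb (uncontract huv (fun z hz => h.triangleFree huv hz) hu S ?_ hS)
    have := ncard_mixed_le huv S
    omega
  · push Not at hu
    have hu1 : ∀ z, G.Adj u z → z = v := fun z hz => by
      by_contra hne
      exact hu z hne hz
    by_cases hv : ∃ z, z ≠ u ∧ G.Adj v z
    · obtain ⟨S, hS⟩ := h.con v u hvu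
      refine h.notEmb (uncontract hvu (fun z hz hz' => ?_) hv S ?_ hS)
      · rw [hu1 z hz'] at hz
        exact G.loopless.irrefl v hz
      · have h1 := ncard_mixed_le hvu S
        have h2 : (G.neighborSet u).ncard ≤ 1 := by
          refine le_trans (Set.ncard_le_ncard (t := {v}) (fun z hz => hu1 z hz)) ?_
          simp
        omega
    · push Not at hv
      have hv1 : ∀ z, G.Adj v z → z = u := fun z hz => by
        by_contra hne
        exact hv z hne hz
      obtain ⟨S, hS⟩ := h.del u v huv
      refine h.notEmb (embeds_of_isolated_edge huv ?_ ?_ S hS)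
      · intro w hw
        rw [deleteEdges_adj] at hw
        apply hw.2
        rw [hu1 w hw.1]
        exact Set.mem_singleton _
      · intro w hw
        rw [deleteEdges_adj] at hw
        apply hw.2
        rw [hv1 w hw.1, Sym2.eq_swap]
        exact Set.mem_singleton _

/-- around a contracted edge `uv` more than four flags of `u` are next to a flag of `v` -/
theorem Hopper.four_lt_mixed [Finite V] {k : ℕ} (h : Hopper G k) {u v : V} (huv : G.Adj u v)
    (S : Scheme (contr G u v)) (hS : S.EulerGenusLE k) :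
    4 < Set.ncard {x | x ∈ aSide G u v ∧ S.corner x ∉ aSide G u v} := by
  by_contra hle
  push Not at hle
  have h4 := h.four_le u
  have hu : ∃ z, z ≠ v ∧ G.Adj u z := by
    by_contra hn
    push Not at hn
    have : (G.neighborSet u).ncard ≤ 1 := by
      refine le_trans (Set.ncard_le_ncard (t := {v}) (fun z hz => ?_)) ?_
      · by_contra hne
        exact hn z hne hz
      · simp
    omega
  exact h.notEmb (uncontract huv (fun z hz => h.triangleFree huv hz) hu S hle hS)

end Pool.Agent.H20.Hop
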