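import Mathlib
import Pool.Agent.H20.Hop.MinorB
import Pool.Agent.H20.Hop.FaceB

set_option autoImplicit false

/-!
The vertices sharing a face with a given vertex, in an embedding of `G - uv`.
-/

namespace Pool.Agent.H20.Hop

open SimpleGraph

variable {V : Type*} {G : SimpleGraph V}

/-- the vertices which share a face with `u` -/
def Scheme.D {H : SimpleGraph V} (S : Scheme H) (u : V) : Set V :=
  {z | ∃ x y : Flag H, x.1.fst = u ∧ y.1.fst = z ∧ S.SameFace x y}

/-- the pairs `(a, b)` such that `u, a, b, v` is a 4-cycle through the edge `uv` -/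
def Pairs (G : SimpleGraph V) (u v : V) : Set (V × V) :=
  {c | G.Adj u c.1 ∧ c.1 ≠ v ∧ G.Adj v c.2 ∧ c.2 ≠ u ∧ G.Adj c.1 c.2}

theorem Hopper.disjoint_D [Finite V] {k : ℕ} (h : Hopper G k) {u v : V} (huv : G.Adj u v)
    (S : Scheme (G.deleteEdges {s(u, v)})) (hS : S.EulerGenusLE k) :
    Disjoint (S.D u) (S.D v) := by
  rw [Set.disjoint_left]
  rintro z ⟨x, y, hx, hy, hxy⟩ ⟨x', y', hx', hy', hxy'⟩
  exact h.noShare huv S hS hx hx' (hy.trans hy'.symm) hxy hxy'

/-- neighbours are in `D` -/
theorem mem_D_of_adj {H : SimpleGraph V} (S : Scheme H) {u a : V} (h : H.Adj u a) : a ∈ S.D u := by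
  refine ⟨(⟨(u, a), h⟩, false), Flag.along (⟨(u, a), h⟩, false), rfl, rfl, rel_fst _ _ _⟩

theorem self_mem_D {H : SimpleGraph V} (S : Scheme H) {u a : V} (h : H.Adj u a) : u ∈ S.D u := by
  refine ⟨(⟨(u, a), h⟩, false), (⟨(u, a), h⟩, false), rfl, rfl, rel_refl _ _ _⟩

namespace DsetAux

theorem outside_gen [Finite V] {H : SimpleGraph V} (S : Scheme H) {u a : V} (hua : H.Adj u a)
    (h3 : 3 ≤ (H.neighborSet a).ncard) :
    (H.neighborSet a \ S.D u).ncard + 3 ≤ (H.neighborSet a).ncard := by
  classical
  let x0 : Flag H := (⟨(a, u), hua.symm⟩, false)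
  have hx0 : x0.1.fst = a := rfl
  have hx0s : x0.1.snd = u := rfl
  have hxa0 : x0.across.1.fst = a := rfl
  have hxa0s : x0.across.1.snd = u := rfl
  let b1 : V := (S.corner x0).1.snd
  let b2 : V := (S.corner x0.across).1.snd
  have hf1 : (S.corner x0).1.fst = a := S.fst x0
  have hf2 : (S.corner x0.across).1.fst = a := S.fst x0.across
  have hb1 : b1 ∈ S.D u := by
    refine ⟨x0.along, (S.corner x0).along, rfl, rfl, ?_⟩
    have e1 : S.SameFace x0 x0.along := rel_fst _ _ _
    have e2 : S.SameFace x0 (S.corner x0) := rel_snd _ _ _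
    have e3 : S.SameFace (S.corner x0) (S.corner x0).along := rel_fst _ _ _
    exact (Rel.symm e1).trans (Rel.trans e2 e3)
  have hb2 : b2 ∈ S.D u := by
    refine ⟨x0.across.along, (S.corner x0.across).along, rfl, rfl, ?_⟩
    have e1 : S.SameFace x0.across x0.across.along := rel_fst _ _ _
    have e2 : S.SameFace x0.across (S.corner x0.across) := rel_snd _ _ _
    have e3 : S.SameFace (S.corner x0.across) (S.corner x0.across).along := rel_fst _ _ _
    exact (Rel.symm e1).trans (Rel.trans e2 e3)
  have hu : u ∈ S.D u := self_mem_D S hua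
  have hw : ∃ w, H.Adj a w ∧ w ≠ u := by
    by_contra hn
    push Not at hn
    have : (H.neighborSet a).ncard ≤ 1 := by
      refine le_trans (Set.ncard_le_ncard (t := {u}) (fun z hz => hn z hz)) ?_
      simp
    omega
  obtain ⟨w, hw, hwu⟩ := hw
  have hb1u : b1 ≠ u := S.corner_dart_ne (x := x0) hw hwu
  have hb2u : b2 ≠ u := S.corner_dart_ne (x := x0.across) hw hwu
  have hb12 : b1 ≠ b2 := S.corner_across_ne (x := x0) h3
  have hb1N : b1 ∈ H.neighborSet a := by
    have := (S.corner x0).1.adj
    rw [hf1] at this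
    exact this
  have hb2N : b2 ∈ H.neighborSet a := by
    have := (S.corner x0.across).1.adj
    rw [hf2] at this
    exact this
  have huN : u ∈ H.neighborSet a := hua.symm
  have hsub : insert u (insert b1 (insert b2 (H.neighborSet a \ S.D u))) ⊆ H.neighborSet a := by
    intro z hz
    rcases hz with rfl | rfl | rfl | hz
    · exact huN
    · exact hb1N
    · exact hb2N
    · exact hz.1
  have hle := Set.ncard_le_ncard hsub (Set.toFinite _)
  have n2 : b2 ∉ H.neighborSet a \ S.D u := fun hc => hc.2 hb2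
  have n1 : b1 ∉ insert b2 (H.neighborSet a \ S.D u) := by
    rintro (hc | hc)
    · exact hb12 hc
    · exact hc.2 hb1
  have n0 : u ∉ insert b1 (insert b2 (H.neighborSet a \ S.D u)) := by
    rintro (hc | hc | hc)
    · exact hb1u hc.symm
    · exact hb2u hc.symm
    · exact hc.2 hu
  rw [Set.ncard_insert_of_notMem n0, Set.ncard_insert_of_notMem n1,
    Set.ncard_insert_of_notMem n2] at hle
  omega

theorem adj_del {u v a b : V} (hab : G.Adj a b) (h : s(a, b) ≠ s(u, v)) :
    (G.deleteEdges {s(u, v)}).Adj a b := by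
  rw [SimpleGraph.deleteEdges_adj]
  exact ⟨hab, h⟩

theorem neighborSet_del {u v a : V} (hau : a ≠ u) (hav : a ≠ v) :
    (G.deleteEdges {s(u, v)}).neighborSet a = G.neighborSet a := by
  ext z
  simp only [SimpleGraph.mem_neighborSet]
  constructor
  · intro hz
    exact (SimpleGraph.deleteEdges_adj.1 hz).1
  · intro hz
    refine adj_del hz ?_
    intro he
    rw [Sym2.eq_iff] at he
    rcases he with he | he
    · exact hau he.1
    · exact hav he.1

/-- the common part of the two matching lemmas: `a` is a neighbour of `p`, where `p` is one of the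
two ends of the deleted edge -/
theorem at_most_one [Finite V] {u v p a b b' : V} (S : Scheme (G.deleteEdges {s(u, v)}))
    (hau : a ≠ u) (hav : a ≠ v) (hpa : (G.deleteEdges {s(u, v)}).Adj p a)
    (h4 : (G.neighborSet a).ncard = 4) (hb : G.Adj a b) (hb' : G.Adj a b') (hbD : b ∉ S.D p)
    (hbD' : b' ∉ S.D p) : b = b' := by
  have hN : (G.deleteEdges {s(u, v)}).neighborSet a = G.neighborSet a := neighborSet_del hau hav
  have h1 := outside_gen S hpa (by rw [hN]; omega)
  rw [hN, h4] at h1
  have h2 : (G.neighborSet a \ S.D p).ncard ≤ 1 := by omega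
  rw [Set.ncard_le_one (Set.toFinite _)] at h2
  exact h2 b ⟨hb, hbD⟩ b' ⟨hb', hbD'⟩

end DsetAux

open DsetAux in
/-- Of the neighbours of a neighbour `a` of `u` at least three are in `D u`: `u` itself and the two
neighbours next to `u` around `a` (`corner_across_ne`). -/
theorem Hopper.outside [Finite V] {k : ℕ} (h : Hopper G k) {u v a : V} (huv : G.Adj u v)
    (S : Scheme (G.deleteEdges {s(u, v)})) (ha : G.Adj u a) (hav : a ≠ v) :
    (G.neighborSet a \ S.D u).ncard + 3 ≤ (G.neighborSet a).ncard := by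
  have hN : (G.deleteEdges {s(u, v)}).neighborSet a = G.neighborSet a :=
    neighborSet_del ha.ne' hav
  have h4 := h.four_le a
  have hadj : (G.deleteEdges {s(u, v)}).Adj u a := by
    refine adj_del ha ?_
    intro he
    rw [Sym2.eq_iff] at he
    rcases he with he | he
    · exact hav he.2
    · exact huv.ne he.1
  have h1 := outside_gen S hadj (by rw [hN]; omega)
  rwa [hN] at h1

open DsetAux in
/-- a neighbour `a ≠ v` of `u` of degree four is in at most one 4-cycle through `uv` -/
theorem Hopper.match_left [Finite V] {k : ℕ} (h : Hopper G k) {u v a b b' : V} (huv : G.Adj u v)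
    (h4 : (G.neighborSet a).ncard = 4) (hb : (a, b) ∈ Pairs G u v) (hb' : (a, b') ∈ Pairs G u v) :
    b = b' := by
  obtain ⟨S, hS⟩ := h.del u v huv
  have hdis := h.disjoint_D huv S hS
  obtain ⟨h1, h2, h3, h5, h6⟩ := hb
  obtain ⟨-, -, h3', h5', h6'⟩ := hb'
  have key : ∀ c, G.Adj v c → c ≠ u → c ∉ S.D u := by
    intro c hc hcu hcD
    refine Set.disjoint_left.1 hdis hcD (mem_D_of_adj S (adj_del hc ?_))
    intro he
    rw [Sym2.eq_iff] at he
    rcases he with he | he
    · exact huv.ne he.1.symm
    · exact hcu he.2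
  have hadj : (G.deleteEdges {s(u, v)}).Adj u a := by
    refine adj_del h1 ?_
    intro he
    rw [Sym2.eq_iff] at he
    rcases he with he | he
    · exact h2 he.2
    · exact huv.ne he.1
  exact at_most_one S h1.ne' h2 hadj h4 h6 h6' (key b h3 h5) (key b' h3' h5')

theorem Hopper.match_right [Finite V] {k : ℕ} (h : Hopper G k) {u v a a' b : V} (huv : G.Adj u v)
    (h4 : (G.neighborSet b).ncard = 4) (hb : (a, b) ∈ Pairs G u v) (hb' : (a', b) ∈ Pairs G u v) :
    a = a' := by
  obtain ⟨h1, h2, h3, h5, h6⟩ := hb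
  obtain ⟨h1', h2', h3', h5', h6'⟩ := hb'
  exact h.match_left huv.symm h4 (b := a) (b' := a') ⟨h3, h5, h1, h2, h6.symm⟩
    ⟨h3', h5', h1', h2', h6'.symm⟩

open DsetAux in
/-- If `a`, `b` are neighbours of `u`, `v` of degree four, each of them in a 4-cycle through `uv`,
then `a` and `b` have no common neighbour besides `u` and `v`. (A common neighbour `y` is not in
both of `D u`, `D v`; if it is not in `D u`, it is the only neighbour of `a` outside `D u`, hence the
partner of `a` in the 4-cycle and so a neighbour of `v`, and `v, b, y` is a triangle or `y = b`.) -/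
theorem Hopper.no_common [Finite V] {k : ℕ} (h : Hopper G k) {u v a b a' b' y : V}
    (huv : G.Adj u v) (ha : (G.neighborSet a).ncard = 4) (hb : (G.neighborSet b).ncard = 4)
    (h1 : (a, b') ∈ Pairs G u v) (h2 : (a', b) ∈ Pairs G u v) (hyu : y ≠ u) (hyv : y ≠ v)
    (hya : G.Adj a y) (hyb : G.Adj b y) : False := by
  obtain ⟨S, hS⟩ := h.del u v huv
  have hdis := h.disjoint_D huv S hS
  obtain ⟨p1, p2, p3, p4, p5⟩ := h1
  obtain ⟨q1, q2, q3, q4, q5⟩ := h2
  have adjv : ∀ c, G.Adj v c → c ≠ u → (G.deleteEdges {s(u, v)}).Adj v c := by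
    intro c hc hcu
    refine adj_del hc ?_
    intro he
    rw [Sym2.eq_iff] at he
    rcases he with he | he
    · exact huv.ne he.1.symm
    · exact hcu he.2
  have adju : ∀ c, G.Adj u c → c ≠ v → (G.deleteEdges {s(u, v)}).Adj u c := by
    intro c hc hcv
    refine adj_del hc ?_
    intro he
    rw [Sym2.eq_iff] at he
    rcases he with he | he
    · exact hcv he.2
    · exact huv.ne he.1
  have hor : y ∉ S.D u ∨ y ∉ S.D v := by
    by_contra hn
    push Not at hn
    exact Set.disjoint_left.1 hdis hn.1 hn.2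
  rcases hor with hy | hy
  · -- `y` is the partner of `a`
    have hb'D : b' ∉ S.D u := fun hc =>
      Set.disjoint_left.1 hdis hc (mem_D_of_adj S (adjv b' p3 p4))
    have hyb' : y = b' := at_most_one S p1.ne' p2 (adju a p1 p2) ha hya p5 hy hb'D
    subst hyb'
    exact h.triangleFree q3 p3 hyb
  · have ha'D : a' ∉ S.D v := fun hc =>
      Set.disjoint_left.1 hdis (mem_D_of_adj S (adju a' q1 q2)) hc
    have hya' : y = a' := at_most_one S q4 q3.ne' (adjv b q3 q4) hb hyb q5.symm hy ha'D
    subst hya'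
    exact h.triangleFree p1 q1 hya

end Pool.Agent.H20.Hop
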