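import Mathlib
import Pool.Agent.H20.Hop.Dset

set_option autoImplicit false

/-!
Counting the faces around the contracted vertex.
-/

namespace Pool.Agent.H20.Hop

open SimpleGraph

variable {V : Type*} {G : SimpleGraph V}

/-- the pair of neighbours of `u` and `v` at the corner of the flag `x` of `u` -/
def Scheme.cp {u v : V} (S : Scheme (contr G u v)) (x : Flag (contr G u v)) : V × V :=
  (x.1.snd.1, (S.corner x).1.snd.1)

/-- the flags at the contracted vertex: those of `u` and those of `v` -/
theorem contr_adj_w {u v : V} (huv : G.Adj u v) {x : Flag (contr G u v)} (hx : x.1.fst.1 = u)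
    (hA : x ∉ aSide G u v) : G.Adj v x.1.snd.1 ∧ x.1.snd.1 ≠ u := by
  have hadj := x.1.adj
  obtain ⟨h1, h2⟩ := hadj
  have hsu : x.1.snd.1 ≠ u := by
    intro h
    apply h1
    apply Subtype.ext
    rw [hx, h]
  refine ⟨?_, hsu⟩
  rcases h2 with h2 | h2 | h2
  · exfalso
    apply hA
    refine ⟨hx, ?_⟩
    rw [hx] at h2
    exact h2
  · exact h2.2
  · exact absurd h2.1 hsu

private theorem finite_flag {W : Type*} [Finite W] (H : SimpleGraph W) : Finite (Flag H) := by
  have : Finite H.Dart := by
    refine Finite.of_injective (fun e : H.Dart => e.toProd) ?_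
    intro a b hab
    exact SimpleGraph.Dart.ext _ _ hab
  infer_instance

/-- all degrees of the contracted graph are at least four -/
theorem Hopper.contr_degree [Finite V] {k : ℕ} (h : Hopper G k) {u v : V} (huv : G.Adj u v)
    (x : {x : V // x ≠ v}) : 4 ≤ ((contr G u v).neighborSet x).ncard := by
  classical
  by_cases hx : x.1 = u
  · -- neighbours of `u` and one neighbour of `v`
    have h4u := h.four_le u
    have h4v := h.four_le v
    have hvz : ∃ z ∈ G.neighborSet v, z ≠ u := by
      by_contra hn
      push Not at hn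
      have : (G.neighborSet v).ncard ≤ 1 := by
        refine le_trans (Set.ncard_le_ncard (t := {u}) (fun z hz => hn z hz)) ?_
        simp
      omega
    obtain ⟨z, hz, hzu⟩ := hvz
    have hzv : z ≠ v := fun he => G.loopless.irrefl v (by rw [he] at hz; exact hz)
    let A : Set {x : V // x ≠ v} := {y | G.Adj u y.1}
    have hA : A.ncard + 1 = (G.neighborSet u).ncard := by
      have h1 : (Subtype.val '' A).ncard = A.ncard :=
        Set.ncard_image_of_injective _ Subtype.val_injective
      have h2 : insert v (Subtype.val '' A) = G.neighborSet u := by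
        ext y
        simp only [Set.mem_insert_iff, Set.mem_image, mem_neighborSet]
        constructor
        · rintro (rfl | ⟨y', hy', rfl⟩)
          · exact huv
          · exact hy'
        · intro hy
          by_cases hyv : y = v
          · exact Or.inl hyv
          · exact Or.inr ⟨⟨y, hyv⟩, hy, rfl⟩
      rw [← h2, Set.ncard_insert_of_notMem, h1]
      rintro ⟨y, _, hy⟩
      exact y.2 hy
    have hzA : (⟨z, hzv⟩ : {x : V // x ≠ v}) ∉ A := fun hzA => h.triangleFree huv hzA hz
    have hsub : insert (⟨z, hzv⟩ : {x : V // x ≠ v}) A ⊆ (contr G u v).neighborSet x := by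
      intro y hy
      rw [mem_neighborSet]
      rcases hy with hy | hy
      · subst hy
        refine ⟨fun he => hzu (by rw [← hx, he]), Or.inr (Or.inl ⟨hx, hz⟩)⟩
      · have hy' : G.Adj u y.1 := hy
        refine ⟨fun he => ?_, Or.inl (by rw [hx]; exact hy')⟩
        rw [← he, hx] at hy'
        exact G.loopless.irrefl u hy'
    have h5 := Set.ncard_le_ncard hsub (Set.toFinite _)
    rw [Set.ncard_insert_of_notMem hzA] at h5
    omega
  · have h4 := h.four_le x.1
    let f : V → {x : V // x ≠ v} := fun y => if hy : y = v then ⟨u, huv.ne⟩ else ⟨y, hy⟩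
    have hle : (G.neighborSet x.1).ncard ≤ ((contr G u v).neighborSet x).ncard := by
      refine Set.ncard_le_ncard_of_injOn f ?_ ?_ (Set.toFinite _)
      · intro y hy
        rw [mem_neighborSet] at hy ⊢
        by_cases hyv : y = v
        · have hfy : f y = ⟨u, huv.ne⟩ := by simp [f, hyv]
          rw [hfy]
          refine ⟨fun he => hx (by rw [he]), Or.inr (Or.inr ⟨rfl, ?_⟩)⟩
          rw [hyv] at hy
          exact hy.symm
        · have hfy : f y = ⟨y, hyv⟩ := by simp [f, hyv]
          rw [hfy]
          refine ⟨fun he => ?_, Or.inl hy⟩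
          rw [he] at hy
          exact G.loopless.irrefl _ hy
      · intro y hy y' hy' hyy
        rw [mem_neighborSet] at hy hy'
        have hkey : ∀ a b : V, G.Adj x.1 a → G.Adj x.1 b → a = v → b ≠ v → f a = f b → False := by
          intro a b ha hb hav hbv hab
          have hfa : f a = ⟨u, huv.ne⟩ := by simp [f, hav]
          have hfb : f b = ⟨b, hbv⟩ := by simp [f, hbv]
          rw [hfa, hfb] at hab
          have hbu : u = b := congrArg Subtype.val hab
          rw [hav] at ha
          rw [← hbu] at hb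
          exact h.triangleFree huv hb.symm ha.symm
        by_cases hyv : y = v
        · by_cases hyv' : y' = v
          · rw [hyv, hyv']
          · exact (hkey y y' hy hy' hyv hyv' hyy).elim
        · by_cases hyv' : y' = v
          · exact (hkey y' y hy' hy hyv' hyv hyy.symm).elim
          · have hfa : f y = ⟨y, hyv⟩ := by simp [f, hyv]
            have hfb : f y' = ⟨y', hyv'⟩ := by simp [f, hyv']
            rw [hfa, hfb] at hyy
            exact congrArg Subtype.val hyy
    omega

/-- adjacency away from the contracted vertex -/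
theorem contr_adj_iff {u v : V} {x y : {x : V // x ≠ v}} (hx : x.1 ≠ u) (hy : y.1 ≠ u) :
    (contr G u v).Adj x y ↔ G.Adj x.1 y.1 := by
  constructor
  · rintro ⟨_, h | h | h⟩
    · exact h
    · exact absurd h.1 hx
    · exact absurd h.1 hy
  · intro h
    exact ⟨fun he => h.ne (congrArg Subtype.val he), Or.inl h⟩

/-- counting flags at the contracted vertex by their second vertex and their side -/
private theorem ncard_flags_eq [Finite V] {u v : V} (huv : G.Adj u v)
    (A : Set (Flag (contr G u v))) (N : Set V)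
    (h1 : ∀ x, x ∈ A ↔ x.1.fst.1 = u ∧ x.1.snd.1 ∈ N)
    (h2 : ∀ y ∈ N, y ≠ v ∧ y ≠ u ∧ (G.Adj u y ∨ G.Adj v y)) : A.ncard = 2 * N.ncard := by
  classical
  have h3 : A.ncard = (N ×ˢ (Set.univ : Set Bool)).ncard := by
    refine Set.ncard_congr (fun x _ => (x.1.snd.1, x.2)) ?_ ?_ ?_
    · intro x hx
      exact ⟨((h1 x).1 hx).2, Set.mem_univ _⟩
    · intro x y hx hy hxy
      obtain ⟨e1, e2⟩ := Prod.mk.inj hxy
      have e3 : x.1.fst.1 = y.1.fst.1 := by rw [((h1 x).1 hx).1, ((h1 y).1 hy).1]
      refine Prod.ext (SimpleGraph.Dart.ext _ _ (Prod.ext (Subtype.ext e3) (Subtype.ext e1))) e2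
    · rintro ⟨y, b⟩ ⟨hy, _⟩
      obtain ⟨hyv, hyu, hadj⟩ := h2 y hy
      have hA : (contr G u v).Adj ⟨u, huv.ne⟩ ⟨y, hyv⟩ := by
        refine ⟨fun he => hyu (congrArg Subtype.val he).symm, ?_⟩
        rcases hadj with hadj | hadj
        · exact Or.inl hadj
        · exact Or.inr (Or.inl ⟨rfl, hadj⟩)
      refine ⟨(⟨(⟨u, huv.ne⟩, ⟨y, hyv⟩), hA⟩, b), ?_, rfl⟩
      rw [h1]
      exact ⟨rfl, hy⟩
  rw [h3, Set.ncard_prod, Set.ncard_univ, Nat.card_eq_fintype_card, Fintype.card_bool, mul_comm]

/-- the number of flags of `u` -/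
theorem Hopper.ncard_aSide [Finite V] {k : ℕ} (h : Hopper G k) {u v : V} (huv : G.Adj u v) :
    (aSide G u v).ncard + 2 = 2 * (G.neighborSet u).ncard := by
  have h1 := ncard_flags_eq huv (aSide G u v) (G.neighborSet u \ {v})
    (fun x => by
      constructor
      · rintro ⟨h1, h2⟩
        exact ⟨h1, h2, x.1.snd.2⟩
      · rintro ⟨h1, h2, _⟩
        exact ⟨h1, h2⟩)
    (fun y hy => ⟨hy.2, fun he => G.loopless.irrefl u (by
      have h0 : G.Adj u y := hy.1
      rwa [he] at h0), Or.inl hy.1⟩)
  have h2 : (G.neighborSet u \ {v}).ncard + 1 = (G.neighborSet u).ncard :=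
    Set.ncard_sdiff_singleton_add_one huv (Set.toFinite _)
  omega

/-- the number of flags of `v` -/
private theorem ncard_bSide [Finite V] {k : ℕ} (h : Hopper G k) {u v : V} (huv : G.Adj u v) :
    Set.ncard {x : Flag (contr G u v) | x.1.fst.1 = u ∧ x ∉ aSide G u v} + 2 =
      2 * (G.neighborSet v).ncard := by
  have h1 := ncard_flags_eq huv {x : Flag (contr G u v) | x.1.fst.1 = u ∧ x ∉ aSide G u v}
    (G.neighborSet v \ {u})
    (fun x => by
      constructor
      · rintro ⟨h1, h2⟩
        have h3 := contr_adj_w huv h1 h2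
        exact ⟨h1, h3.1, h3.2⟩
      · rintro ⟨h1, h2, _⟩
        exact ⟨h1, fun h3 => h.triangleFree huv h3.2 h2⟩)
    (fun y hy => ⟨fun he => G.loopless.irrefl v (by
      have h0 : G.Adj v y := hy.1
      rwa [he] at h0), hy.2, Or.inr hy.1⟩)
  have h2 : (G.neighborSet v \ {u}).ncard + 1 = (G.neighborSet v).ncard :=
    Set.ncard_sdiff_singleton_add_one huv.symm (Set.toFinite _)
  omega

/-- If `u` has degree four, every flag of `u` is in a corner with a flag of `v`. From
`Hopper.four_lt_mixed`, `even_mixed` and `ncard_aSide`. -/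
theorem Hopper.mixed [Finite V] {k : ℕ} (h : Hopper G k) {u v : V} (huv : G.Adj u v)
    (S : Scheme (contr G u v)) (hS : S.EulerGenusLE k) (hu : (G.neighborSet u).ncard = 4)
    {x : Flag (contr G u v)} (hx : x ∈ aSide G u v) : S.corner x ∉ aSide G u v := by
  have := finite_flag (contr G u v)
  have h1 := h.four_lt_mixed huv S hS
  have h2 : Even (Set.ncard {x | x ∈ aSide G u v ∧ S.corner x ∉ aSide G u v}) :=
    even_mixed (g := Flag.across) (b := S.corner) across_isInv ⟨S.invol, S.ne⟩
      (fun x hx => hx)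
  have h3 := h.ncard_aSide huv
  have hsub : {x | x ∈ aSide G u v ∧ S.corner x ∉ aSide G u v} ⊆ aSide G u v :=
    fun x hx => hx.1
  have h4 := Set.ncard_le_ncard hsub (Set.toFinite _)
  obtain ⟨m, hm⟩ := h2
  have h5 : (aSide G u v).ncard ≤
      Set.ncard {x | x ∈ aSide G u v ∧ S.corner x ∉ aSide G u v} := by omega
  have h6 := Set.eq_of_subset_of_ncard_le hsub h5 (Set.toFinite _)
  rw [← h6] at hx
  exact hx.2

/-- and every flag of `v` is in a corner with a flag of `u` (both have six flags) -/
theorem Hopper.mixed' [Finite V] {k : ℕ} (h : Hopper G k) {u v : V} (huv : G.Adj u v)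
    (S : Scheme (contr G u v)) (hS : S.EulerGenusLE k) (hu : (G.neighborSet u).ncard = 4)
    (hv : (G.neighborSet v).ncard = 4) {x : Flag (contr G u v)} (hx : x.1.fst.1 = u)
    (hA : x ∉ aSide G u v) : S.corner x ∈ aSide G u v := by
  have := finite_flag (contr G u v)
  have h3 := h.ncard_aSide huv
  have h4 := ncard_bSide h huv
  have hinj : Function.Injective S.corner := by
    intro a b hab
    rw [← S.invol a, hab, S.invol]
  have hsub : S.corner '' (aSide G u v) ⊆
      {x : Flag (contr G u v) | x.1.fst.1 = u ∧ x ∉ aSide G u v} := by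
    rintro y ⟨z, hz, rfl⟩
    exact ⟨by rw [S.fst]; exact hz.1, h.mixed huv S hS hu hz⟩
  have h5 : (S.corner '' (aSide G u v)).ncard = (aSide G u v).ncard :=
    Set.ncard_image_of_injective _ hinj
  have h6 := Set.eq_of_subset_of_ncard_le hsub (by omega) (Set.toFinite _)
  have h7 : x ∈ S.corner '' (aSide G u v) := by
    rw [h6]
    exact ⟨hx, hA⟩
  obtain ⟨z, hz, rfl⟩ := h7
  rwa [S.invol]

end Pool.Agent.H20.Hop
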