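import Mathlib
import Pool.Agent.H20.Hop.ContrCount

set_option autoImplicit false

/-!
Faces of length three and four at the contracted vertex.
-/

namespace Pool.Agent.H20.Hop

open SimpleGraph

variable {V : Type*} {G : SimpleGraph V}

private theorem snd_ne_u {u v : V} {x : Flag (contr G u v)} (hx : x.1.fst.1 = u) :
    x.1.snd.1 ≠ u := by
  intro h
  exact x.1.adj.ne (Subtype.ext (hx.trans h.symm))

private theorem corner_of_next {H : SimpleGraph V} (S : Scheme H) {w x : Flag H}
    (h : S.next w = x) : S.corner x = w.along := by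
  rw [← h]
  exact S.invol _

/-- a triangle face at a flag of `u` gives a 4-cycle through `uv` -/
theorem Hopper.pairs_of_triangle [Finite V] {k : ℕ} (h : Hopper G k) {u v : V} (huv : G.Adj u v)
    (S : Scheme (contr G u v)) {x : Flag (contr G u v)} (hx : x ∈ aSide G u v)
    (hx' : S.corner x ∉ aSide G u v) (h3 : S.next^[3] x = x) : S.cp x ∈ Pairs G u v := by
  obtain ⟨h1, h2, -⟩ := S.triangle_of_iter_three h3
  have hcx : (S.corner x).1.fst.1 = u := by rw [S.fst]; exact hx.1
  obtain ⟨h4, h5⟩ := contr_adj_w huv hcx hx'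
  have h6 : S.corner x = (S.next^[2] x).along := by
    apply corner_of_next
    rw [← Function.iterate_succ_apply' S.next 2 x]; exact h3
  have h7 : (S.corner x).1.snd = (S.next x).1.snd := by
    rw [h6]
    show (S.next^[2] x).1.fst = _
    exact S.next_fst (S.next x)
  refine ⟨hx.2, x.1.snd.2, h4, h5, ?_⟩
  rw [← h7] at h2
  exact (contr_adj_iff (snd_ne_u hx.1) h5).1 h2

/-- a quadrangle face at a flag of `u` gives a common neighbour -/
theorem Hopper.common_of_quad [Finite V] {k : ℕ} (h : Hopper G k) {u v : V} (huv : G.Adj u v)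
    (S : Scheme (contr G u v)) {x : Flag (contr G u v)} (hx : x ∈ aSide G u v)
    (hx' : S.corner x ∉ aSide G u v) (h4 : S.next^[4] x = x) :
    ∃ y, y ≠ u ∧ y ≠ v ∧ G.Adj (S.cp x).1 y ∧ G.Adj (S.cp x).2 y := by
  have hcx : (S.corner x).1.fst.1 = u := by rw [S.fst]; exact hx.1
  obtain ⟨h5, h6⟩ := contr_adj_w huv hcx hx'
  have h7 : S.corner x = (S.next^[3] x).along := by
    apply corner_of_next
    rw [← Function.iterate_succ_apply' S.next 3 x]; exact h4
  have h8 : (S.corner x).1.snd = (S.next^[2] x).1.snd := by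
    rw [h7]
    show (S.next^[3] x).1.fst = _
    rw [Function.iterate_succ_apply' S.next 2 x]
    exact S.next_fst _
  have h9 : (S.next^[2] x).1.fst = (S.next x).1.snd := S.next_fst (S.next x)
  have h10 : (S.next x).1.fst = x.1.snd := S.next_fst x
  have hdeg : ∀ w, 2 ≤ ((contr G u v).neighborSet w).ncard :=
    fun w => le_trans (by norm_num) (h.contr_degree huv w)
  have h11 := S.iter_two_fst_ne hdeg x
  have hy : (S.next x).1.snd.1 ≠ u := by
    intro hcon
    apply h11
    rw [h9]
    exact Subtype.ext (hcon.trans hx.1.symm)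
  refine ⟨(S.next x).1.snd.1, hy, (S.next x).1.snd.2, ?_, ?_⟩
  · have h12 := (S.next x).1.adj
    rw [h10] at h12
    exact (contr_adj_iff (snd_ne_u hx.1) hy).1 h12
  · have h12 := (S.next^[2] x).1.adj
    rw [h9, ← h8] at h12
    exact (contr_adj_iff h6 hy).1 h12.symm

/-- different flags of `u` have different pairs (otherwise the star of the contracted vertex would
have only four flags) -/
theorem Hopper.cp_injOn [Finite V] {k : ℕ} (h : Hopper G k) {u v : V} (huv : G.Adj u v)
    (S : Scheme (contr G u v)) (hmix : ∀ x ∈ aSide G u v, S.corner x ∉ aSide G u v) :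
    Set.InjOn S.cp (aSide G u v) := by
  intro x hx x' hx' hcp
  by_contra hne
  have hfst : x.1.fst = x'.1.fst := Subtype.ext (hx.1.trans hx'.1.symm)
  have hsnd : x.1.snd = x'.1.snd := Subtype.ext (congrArg Prod.fst hcp)
  have hcsnd : (S.corner x).1.snd = (S.corner x').1.snd := Subtype.ext (congrArg Prod.snd hcp)
  have hcfst : (S.corner x).1.fst = (S.corner x').1.fst := by rw [S.fst, S.fst]; exact hfst
  have hd : x'.1 = x.1 := SimpleGraph.Dart.ext _ _ (Prod.ext hfst.symm hsnd.symm)
  have hcd : (S.corner x').1 = (S.corner x).1 :=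
    SimpleGraph.Dart.ext _ _ (Prod.ext hcfst.symm hcsnd.symm)
  have hx2 : x' = x.across := by
    refine Prod.ext hd ?_
    show x'.2 = !x.2
    have : x'.2 ≠ x.2 := fun h2 => hne (Prod.ext hd h2).symm
    cases h1 : x'.2 <;> cases h2 : x.2 <;> simp_all
  have hcx2 : S.corner x.across = (S.corner x).across := by
    rw [← hx2]
    refine Prod.ext hcd ?_
    show (S.corner x').2 = !(S.corner x).2
    have : (S.corner x').2 ≠ (S.corner x).2 := by
      intro h2
      have h3 : S.corner x' = S.corner x := Prod.ext hcd h2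
      have h4 := congrArg S.corner h3
      rw [S.invol, S.invol] at h4
      exact hne h4.symm
    cases h1 : (S.corner x').2 <;> cases h2 : (S.corner x).2 <;> simp_all
  -- a third neighbour
  obtain ⟨w, hw, hw1, hw2⟩ : ∃ w ∈ (contr G u v).neighborSet x.1.fst, w ≠ x.1.snd ∧
      w ≠ (S.corner x).1.snd := by
    by_contra hcon
    push Not at hcon
    have h6 : (contr G u v).neighborSet x.1.fst ⊆ {x.1.snd, (S.corner x).1.snd} := by
      intro a ha
      by_cases h7 : a = x.1.snd
      · exact Or.inl h7
      · exact Or.inr (hcon a ha h7)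
    have h7 := Set.ncard_le_ncard h6 (Set.toFinite _)
    have h8 := Set.ncard_insert_le x.1.snd {(S.corner x).1.snd}
    rw [Set.ncard_singleton] at h8
    have h9 := h.contr_degree huv x.1.fst
    omega
  set f : Flag (contr G u v) := (⟨(x.1.fst, w), hw⟩, true) with hf
  have hrel : Rel Flag.across S.corner x f := S.cyclic x f rfl
  have hmem : f = x ∨ f = x.across ∨ f = S.corner x ∨ f = (S.corner x).across := by
    apply Rel.mem_of_closed across_isInv ⟨S.invol, S.ne⟩ (C := fun f =>
      f = x ∨ f = x.across ∨ f = S.corner x ∨ f = (S.corner x).across) _ _ hrel (Or.inl rfl)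
    · rintro z (rfl | rfl | rfl | rfl)
      · exact Or.inr (Or.inl rfl)
      · exact Or.inl (across_isInv.inv _)
      · exact Or.inr (Or.inr (Or.inr rfl))
      · exact Or.inr (Or.inr (Or.inl (across_isInv.inv _)))
    · rintro z (rfl | rfl | rfl | rfl)
      · exact Or.inr (Or.inr (Or.inl rfl))
      · exact Or.inr (Or.inr (Or.inr hcx2))
      · exact Or.inl (S.invol _)
      · refine Or.inr (Or.inl ?_)
        rw [← hcx2, S.invol]
  have hfs : f.1.snd = w := rfl
  rcases hmem with h1 | h1 | h1 | h1
  · exact hw1 (by rw [← hfs, h1])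
  · exact hw1 (by rw [← hfs, h1]; rfl)
  · exact hw2 (by rw [← hfs, h1])
  · exact hw2 (by rw [← hfs, h1]; rfl)

end Pool.Agent.H20.Hop
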