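import Mathlib
import Pool.Agent.H20.Hop.ContrCount

set_option autoImplicit false

/-!
The class inequality.
-/

namespace Pool.Agent.H20.Hop

open SimpleGraph

variable {V : Type*} {G : SimpleGraph V}

private theorem finite_flag' {W : Type*} [Finite W] (H : SimpleGraph W) : Finite (Flag H) := by
  have : Finite H.Dart := by
    apply Finite.of_injective (fun d : H.Dart => d.toProd)
    intro a b h
    exact SimpleGraph.Dart.ext _ _ h
  infer_instance

private theorem fsize_congr {H : SimpleGraph V} (S : Scheme H) {x y : Flag H}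
    (h : S.SameFace x y) : S.fsize x = S.fsize y := by
  unfold Scheme.fsize
  congr 1
  ext z
  exact ⟨fun hz => h.symm.trans hz, fun hz => h.trans hz⟩

/-- `W` a set of flags at one vertex `p` all in the face of `z` -/
private theorem three_mul_le {H : SimpleGraph V} [Finite V] (S : Scheme H)
    (h2 : ∀ v, 2 ≤ (H.neighborSet v).ncard) (z : Flag H) (p : V) (W : Set (Flag H))
    (hWp : ∀ w ∈ W, w.1.fst = p) (hWz : ∀ w ∈ W, S.SameFace z w) : 3 * W.ncard ≤ S.fsize z := by
  have := finite_flag' H
  have hai : Function.Injective (Flag.along : Flag H → Flag H) := by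
    intro x y h
    have := congrArg Flag.along h
    rwa [along_isInv.inv, along_isInv.inv] at this
  have hne : ∀ w : Flag H, w.1.snd ≠ w.1.fst := fun w => w.1.adj.ne'
  have hcorner : ∀ w : Flag H, (S.corner w.along).1.snd ≠ w.1.fst := by
    intro w
    have h3 := h2 w.1.snd
    have h5 : w.1.fst ∈ H.neighborSet w.1.snd := w.1.adj.symm
    have h4 : ∃ a ∈ H.neighborSet w.1.snd, a ≠ w.1.fst := by
      by_contra hcon
      push Not at hcon
      have h6 : H.neighborSet w.1.snd ⊆ {w.1.fst} := fun a ha => hcon a ha
      have h7 := Set.ncard_le_ncard h6 (Set.toFinite _)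
      rw [Set.ncard_singleton] at h7
      omega
    obtain ⟨a, ha, hane⟩ := h4
    exact S.corner_dart_ne (x := w.along) (w := a) ha hane
  have hd1 : Disjoint W (Flag.along '' W) := by
    rw [Set.disjoint_left]
    rintro w hw ⟨w', hw', rfl⟩
    have h3 := hWp _ hw
    have h4 := hWp _ hw'
    exact hne w' (h3.trans h4.symm)
  have hd2 : Disjoint (W ∪ Flag.along '' W) (S.next '' W) := by
    rw [Set.disjoint_left]
    rintro w hw ⟨w', hw', rfl⟩
    rcases hw with hw | ⟨w'', hw'', h3⟩
    · have h3 := hWp _ hw
      rw [S.next_fst] at h3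
      exact hne w' (h3.trans (hWp _ hw').symm)
    · have h4 : (S.next w').1.snd = w''.1.fst := by rw [← h3]; rfl
      exact hcorner w' (h4.trans ((hWp _ hw'').trans (hWp _ hw').symm))
  have hc : (W ∪ Flag.along '' W ∪ S.next '' W).ncard = 3 * W.ncard := by
    rw [Set.ncard_union_eq hd2 (Set.toFinite _) (Set.toFinite _),
      Set.ncard_union_eq hd1 (Set.toFinite _) (Set.toFinite _),
      Set.ncard_image_of_injective _ hai, Set.ncard_image_of_injective _ S.next_injective]
    ring
  rw [← hc]
  unfold Scheme.fsize
  apply Set.ncard_le_ncard _ (Set.toFinite _)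
  rintro w ((hw | ⟨w', hw', rfl⟩) | ⟨w', hw', rfl⟩)
  · exact hWz w hw
  · exact (hWz w' hw').trans (rel_fst _ _ _)
  · exact (hWz w' hw').trans (S.sameFace_next _)

private theorem contr_two [Finite V] {k : ℕ} (h : Hopper G k) {u v : V} (huv : G.Adj u v) :
    ∀ x, 2 ≤ ((contr G u v).neighborSet x).ncard :=
  fun x => le_trans (by norm_num) (h.contr_degree huv x)

/-- a face with `j` flags of `u` has at least `6 * j` flags (for a flag `x` of `u`: `x`, `x.along`,
`S.next x` and the same for `S.corner x`; no common neighbours of `u` and `v`) -/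
theorem Hopper.six_mul_le [Finite V] {k : ℕ} (h : Hopper G k) {u v : V} (huv : G.Adj u v)
    (S : Scheme (contr G u v)) (hmix : ∀ x ∈ aSide G u v, S.corner x ∉ aSide G u v)
    (z : Flag (contr G u v)) :
    6 * Set.ncard {x | x ∈ aSide G u v ∧ S.SameFace z x} ≤ S.fsize z := by
  have := finite_flag' (contr G u v)
  set A : Set (Flag (contr G u v)) := {x | x ∈ aSide G u v ∧ S.SameFace z x} with hA
  have hci : Function.Injective S.corner := by
    intro x y h
    have := congrArg S.corner h
    rwa [S.invol, S.invol] at this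
  have hd : Disjoint A (S.corner '' A) := by
    rw [Set.disjoint_left]
    rintro w hw ⟨w', hw', rfl⟩
    exact hmix w' hw'.1 hw.1
  have hW := three_mul_le S (contr_two h huv) z ⟨u, huv.ne⟩ (A ∪ S.corner '' A)
    (by
      rintro w (hw | ⟨w', hw', rfl⟩)
      · exact Subtype.ext hw.1.1
      · rw [S.fst]; exact Subtype.ext hw'.1.1)
    (by
      rintro w (hw | ⟨w', hw', rfl⟩)
      · exact hw.2
      · exact hw'.2.trans (rel_snd _ _ _))
  rw [Set.ncard_union_eq hd (Set.toFinite _) (Set.toFinite _),
    Set.ncard_image_of_injective _ hci] at hW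
  omega

private theorem small_steps [Finite V] {k : ℕ} (h : Hopper G k) {u v : V} (huv : G.Adj u v)
    (S : Scheme (contr G u v)) (z : Flag (contr G u v)) :
    S.next^[1] z ≠ z ∧ S.next^[2] z ≠ z := by
  refine ⟨S.iter_one_ne z, fun hcon => ?_⟩
  exact S.iter_two_fst_ne (contr_two h huv) z (by rw [hcon])

/-- a face without flags of `u` has at least eight flags (every flag at the contracted vertex is one
of `u` or in a corner with one, so the face does not meet the contracted vertex; a face of length
three would be a triangle of `G`) -/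
theorem Hopper.eight_le_of_none [Finite V] {k : ℕ} (h : Hopper G k) {u v : V} (huv : G.Adj u v)
    (S : Scheme (contr G u v))
    (hmix' : ∀ x : Flag (contr G u v), x.1.fst.1 = u → x ∉ aSide G u v → S.corner x ∈ aSide G u v)
    {z : Flag (contr G u v)} (hz : ∀ x ∈ aSide G u v, ¬ S.SameFace z x) : 8 ≤ S.fsize z := by
  have hnu : ∀ x, S.SameFace z x → x.1.fst.1 ≠ u := by
    intro x hx hxu
    by_cases hxA : x ∈ aSide G u v
    · exact hz x hxA hx
    · exact hz _ (hmix' x hxu hxA) (hx.trans (rel_snd _ _ _))
  have h3 : S.next^[3] z ≠ z := by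
    intro hcon
    obtain ⟨h1, h2, h3⟩ := S.triangle_of_iter_three hcon
    have ha : z.1.fst.1 ≠ u := hnu z (rel_refl _ _ _)
    have hb : z.1.snd.1 ≠ u := by
      have := hnu _ (S.sameFace_next z)
      rwa [S.next_fst] at this
    have hc : (S.next z).1.snd.1 ≠ u := by
      have := hnu _ ((S.sameFace_next z).trans (S.sameFace_next _))
      rwa [S.next_fst] at this
    rw [contr_adj_iff ha hb] at h1
    rw [contr_adj_iff hb hc] at h2
    rw [contr_adj_iff hc ha] at h3
    exact h.triangleFree h1 h3.symm h2
  apply S.two_mul_le_fsize (k := 4)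
  intro j hj0 hj4
  obtain ⟨h1, h2⟩ := small_steps h huv S z
  interval_cases j
  · exact h1
  · exact h2
  · exact h3

/-- the weight of a flag -/
noncomputable def Scheme.wt {u v : V} (S : Scheme (contr G u v)) (x : Flag (contr G u v)) : ℤ := by
  classical
  exact if x ∈ aSide G u v then (if S.next^[3] x = x then -2 else if S.next^[4] x = x then 0 else 2)
    else 0

/-- the class inequality for `count_weight` -/
theorem Hopper.class_ineq [Fintype V] [DecidableEq V] [DecidableRel G.Adj] {k : ℕ}
    (h : Hopper G k) {u v : V} (huv : G.Adj u v) [Fintype (Flag (contr G u v))]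
    (S : Scheme (contr G u v)) (hmix : ∀ x ∈ aSide G u v, S.corner x ∉ aSide G u v)
    (hmix' : ∀ x : Flag (contr G u v), x.1.fst.1 = u → x ∉ aSide G u v → S.corner x ∈ aSide G u v)
    (x : Flag (contr G u v)) :
    8 + ∑ y, (open Classical in if S.SameFace x y then S.wt y else 0) ≤ (S.fsize x : ℤ) := by
  classical
  set A : Finset (Flag (contr G u v)) :=
    Finset.univ.filter (fun y => y ∈ aSide G u v ∧ S.SameFace x y) with hA
  have hAc : Set.ncard {y | y ∈ aSide G u v ∧ S.SameFace x y} = A.card := by
    rw [← Set.ncard_coe_finset]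
    congr 1
    ext y; simp [hA]
  have h6 := h.six_mul_le huv S hmix x
  rw [hAc] at h6
  have hwt0 : ∀ y, y ∉ aSide G u v → S.wt y = 0 := by
    intro y hy
    simp only [Scheme.wt, if_neg hy]
  have hwt2 : ∀ y, S.wt y ≤ 2 := by
    intro y
    unfold Scheme.wt
    split_ifs <;> norm_num
  have hsum : ∑ y, (open Classical in if S.SameFace x y then S.wt y else 0) = ∑ y ∈ A, S.wt y := by
    rw [hA, Finset.sum_filter]
    refine Finset.sum_congr rfl (fun y _ => ?_)
    by_cases h1 : y ∈ aSide G u v
    · by_cases h2 : S.SameFace x y <;> simp [h1, h2]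
    · by_cases h2 : S.SameFace x y <;> simp [h1, h2, hwt0]
  rw [hsum]
  rcases Nat.lt_or_ge A.card 2 with hlt | hge
  · rcases Nat.lt_or_ge A.card 1 with h0 | h1
    · have hA0 : A = ∅ := Finset.card_eq_zero.1 (by omega)
      rw [hA0, Finset.sum_empty, add_zero]
      have h8 : 8 ≤ S.fsize x := by
        apply h.eight_le_of_none huv S hmix'
        intro y hy hxy
        have : y ∈ A := by rw [hA, Finset.mem_filter]; exact ⟨Finset.mem_univ _, hy, hxy⟩
        rw [hA0] at this
        exact absurd this (Finset.notMem_empty _)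
      exact_mod_cast h8
    · have hc1 : A.card = 1 := by omega
      obtain ⟨y, hy⟩ := Finset.card_eq_one.1 hc1
      rw [hy, Finset.sum_singleton]
      have hyA : y ∈ A := by rw [hy]; exact Finset.mem_singleton_self y
      rw [hA, Finset.mem_filter] at hyA
      obtain ⟨-, hyA, hxy⟩ := hyA
      have hfs : S.fsize x = S.fsize y := fsize_congr S hxy
      obtain ⟨s1, s2⟩ := small_steps h huv S y
      simp only [Scheme.wt, if_pos hyA]
      by_cases h3 : S.next^[3] y = y
      · rw [if_pos h3]
        have : (6 : ℤ) ≤ (S.fsize x : ℤ) := by exact_mod_cast (by omega : 6 ≤ S.fsize x)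
        linarith
      · rw [if_neg h3]
        by_cases h4 : S.next^[4] y = y
        · rw [if_pos h4]
          have h8 : 8 ≤ S.fsize y := by
            apply S.two_mul_le_fsize (k := 4)
            intro j hj0 hj4
            interval_cases j
            · exact s1
            · exact s2
            · exact h3
          rw [hfs]
          have : (8 : ℤ) ≤ (S.fsize y : ℤ) := by exact_mod_cast h8
          linarith
        · rw [if_neg h4]
          have h8 : 10 ≤ S.fsize y := by
            apply S.two_mul_le_fsize (k := 5)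
            intro j hj0 hj4
            interval_cases j
            · exact s1
            · exact s2
            · exact h3
            · exact h4
          rw [hfs]
          have : (10 : ℤ) ≤ (S.fsize y : ℤ) := by exact_mod_cast h8
          linarith
  · have h1 : ∑ y ∈ A, S.wt y ≤ ∑ y ∈ A, (2 : ℤ) := Finset.sum_le_sum (fun y _ => hwt2 y)
    rw [Finset.sum_const, nsmul_eq_mul] at h1
    have h2 : (6 * A.card : ℤ) ≤ (S.fsize x : ℤ) := by exact_mod_cast h6
    have h3 : (2 : ℤ) ≤ (A.card : ℤ) := by exact_mod_cast hge
    linarith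

end Pool.Agent.H20.Hop
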