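import Mathlib
import Pool.Agent.H20.Hop.CCB
import Pool.Agent.H20.Hop.CCC

set_option autoImplicit false

/-!
The count around the contracted vertex.
-/

namespace Pool.Agent.H20.Hop

open SimpleGraph

variable {V : Type*} {G : SimpleGraph V}

/-- The count: of the six flags of `u`, `T` are in triangle faces, `Q` in quadrangle faces and `r`
in longer faces. -/
theorem Hopper.contr_count [Finite V] {k : ℕ} (h : Hopper G k) {u v : V} (huv : G.Adj u v)
    (hu : (G.neighborSet u).ncard = 4) (hv : (G.neighborSet v).ncard = 4) :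
    ∃ (T Q : Finset (V × V)) (r : ℕ), (∀ c ∈ T, c ∈ Pairs G u v) ∧
      (∀ c ∈ Q, G.Adj u c.1 ∧ c.1 ≠ v ∧ G.Adj v c.2 ∧ c.2 ≠ u ∧
        ∃ y, y ≠ u ∧ y ≠ v ∧ G.Adj c.1 y ∧ G.Adj c.2 y) ∧
      T.card + Q.card + r = 6 ∧
      2 * Nat.card G.edgeSet + 10 + r ≤ 4 * Nat.card V + 4 * k + T.card := by
  classical
  obtain ⟨S, hS⟩ := h.con u v huv
  have hmix : ∀ x ∈ aSide G u v, S.corner x ∉ aSide G u v := fun x hx => h.mixed huv S hS hu hx
  have hmix' : ∀ x : Flag (contr G u v), x.1.fst.1 = u → x ∉ aSide G u v →
      S.corner x ∈ aSide G u v := fun x hx hA => h.mixed' huv S hS hu hv hx hA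
  have hfin : Finite (Flag (contr G u v)) := by
    have : Finite (contr G u v).Dart := by
      apply Finite.of_injective (fun d : (contr G u v).Dart => d.toProd)
      intro a b h
      exact SimpleGraph.Dart.ext _ _ h
    infer_instance
  let _ : Fintype V := Fintype.ofFinite V
  let _ : Fintype (Flag (contr G u v)) := Fintype.ofFinite _
  set A : Finset (Flag (contr G u v)) := Finset.univ.filter (fun y => y ∈ aSide G u v) with hA
  have hAmem : ∀ y, y ∈ A ↔ y ∈ aSide G u v := fun y => by simp [hA]
  have hAc : A.card = 6 := by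
    have h1 := h.ncard_aSide huv
    rw [hu] at h1
    have h2 : (aSide G u v).ncard = A.card := by
      rw [← Set.ncard_coe_finset]
      congr 1
      ext y; simp [hA]
    omega
  set A3 := A.filter (fun x => S.next^[3] x = x) with hA3
  set A' := A.filter (fun x => ¬ S.next^[3] x = x) with hA'
  set A4 := A'.filter (fun x => S.next^[4] x = x) with hA4
  set A5 := A'.filter (fun x => ¬ S.next^[4] x = x) with hA5
  have hc1 : A3.card + A'.card = A.card := Finset.card_filter_add_card_filter_not _
  have hc2 : A4.card + A5.card = A'.card := Finset.card_filter_add_card_filter_not _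
  have hinj := h.cp_injOn huv S hmix
  have hT : (A3.image S.cp).card = A3.card := by
    apply Finset.card_image_of_injOn
    intro x hx y hy hxy
    apply hinj _ _ hxy
    · rw [Finset.mem_coe, hA3, Finset.mem_filter, hAmem] at hx; exact hx.1
    · rw [Finset.mem_coe, hA3, Finset.mem_filter, hAmem] at hy; exact hy.1
  have hQ : (A4.image S.cp).card = A4.card := by
    apply Finset.card_image_of_injOn
    intro x hx y hy hxy
    apply hinj _ _ hxy
    · rw [Finset.mem_coe, hA4, Finset.mem_filter, hA', Finset.mem_filter, hAmem] at hx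
      exact hx.1.1
    · rw [Finset.mem_coe, hA4, Finset.mem_filter, hA', Finset.mem_filter, hAmem] at hy
      exact hy.1.1
  refine ⟨A3.image S.cp, A4.image S.cp, A5.card, ?_, ?_, by omega, ?_⟩
  · intro c hc
    obtain ⟨x, hx, rfl⟩ := Finset.mem_image.1 hc
    rw [hA3, Finset.mem_filter, hAmem] at hx
    exact h.pairs_of_triangle huv S hx.1 (hmix x hx.1) hx.2
  · intro c hc
    obtain ⟨x, hx, rfl⟩ := Finset.mem_image.1 hc
    rw [hA4, Finset.mem_filter, hA', Finset.mem_filter, hAmem] at hx
    obtain ⟨⟨hxA, h3⟩, h4⟩ := hx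
    have hcx : (S.corner x).1.fst.1 = u := by rw [S.fst]; exact hxA.1
    obtain ⟨h5, h6⟩ := contr_adj_w huv hcx (hmix x hxA)
    exact ⟨hxA.2, x.1.snd.2, h5, h6, h.common_of_quad huv S hxA (hmix x hxA) h4⟩
  · -- the weighted count
    have hcw := count_weight Flag.along S.corner S.wt (fun x => h.class_ineq huv S hmix hmix' x)
    have hcard : (Fintype.card (Flag (contr G u v)) : ℤ) =
        4 * (Nat.card (contr G u v).edgeSet : ℤ) := by
      rw [← Nat.card_eq_fintype_card, card_flag]; push_cast; ring
    have hwt : ∑ y, S.wt y = -2 * (A3.card : ℤ) + 2 * (A5.card : ℤ) := by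
      have h1 : ∑ y, S.wt y = ∑ y ∈ A, S.wt y := by
        rw [hA]
        symm
        apply Finset.sum_subset (Finset.subset_univ _)
        intro y _ hy
        rw [Finset.mem_filter] at hy
        have hy' : y ∉ aSide G u v := fun h => hy ⟨Finset.mem_univ _, h⟩
        simp only [Scheme.wt, if_neg hy']
      rw [h1, ← Finset.sum_filter_add_sum_filter_not A (fun x => S.next^[3] x = x),
        ← Finset.sum_filter_add_sum_filter_not (A.filter (fun x => ¬ S.next^[3] x = x))
          (fun x => S.next^[4] x = x)]
      have h2 : ∑ y ∈ A3, S.wt y = -2 * (A3.card : ℤ) := by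
        rw [Finset.sum_congr rfl (g := fun _ => (-2 : ℤ)), Finset.sum_const, nsmul_eq_mul]
        · ring
        · intro y hy
          rw [hA3, Finset.mem_filter, hAmem] at hy
          simp only [Scheme.wt, if_pos hy.1, if_pos hy.2]
      have h3 : ∑ y ∈ A4, S.wt y = 0 := by
        apply Finset.sum_eq_zero
        intro y hy
        rw [hA4, Finset.mem_filter, hA', Finset.mem_filter, hAmem] at hy
        simp only [Scheme.wt, if_pos hy.1.1, if_neg hy.1.2, if_pos hy.2]
      have h4 : ∑ y ∈ A5, S.wt y = 2 * (A5.card : ℤ) := by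
        rw [Finset.sum_congr rfl (g := fun _ => (2 : ℤ)), Finset.sum_const, nsmul_eq_mul]
        · ring
        · intro y hy
          rw [hA5, Finset.mem_filter, hA', Finset.mem_filter, hAmem] at hy
          simp only [Scheme.wt, if_pos hy.1.1, if_neg hy.1.2, if_neg hy.2]
      rw [h2, h3, h4]; ring
    have hiso : Nat.card {w : {x : V // x ≠ v} // ∀ z, ¬ (contr G u v).Adj w z} = 0 := by
      rw [Nat.card_eq_zero]
      left
      constructor
      rintro ⟨w, hw⟩
      have h1 := h.contr_degree huv w
      have h2 : (contr G u v).neighborSet w = ∅ := by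
        ext z; simp only [mem_neighborSet, Set.mem_empty_iff_false, iff_false]; exact hw z
      rw [h2, Set.ncard_empty] at h1
      omega
    have hcomp : 1 ≤ Nat.card (contr G u v).ConnectedComponent := by
      have : Nonempty (contr G u v).ConnectedComponent :=
        ⟨(contr G u v).connectedComponentMk ⟨u, huv.ne⟩⟩
      have : Finite (contr G u v).ConnectedComponent := by
        unfold SimpleGraph.ConnectedComponent
        infer_instance
      exact Nat.card_pos
    have hE : Nat.card G.edgeSet = Nat.card (contr G u v).edgeSet + 1 :=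
      card_edge_con huv (fun z hz hvz => h.triangleFree huv hz hvz)
    have hVc : Nat.card V = Nat.card {x : V // x ≠ v} + 1 := card_vert_con v
    have hS' := hS
    unfold Scheme.EulerGenusLE at hS'
    rw [S.numFaces_eq, hiso] at hS'
    rw [hcard, hwt] at hcw
    rw [hT]
    zify at hE hVc hcomp ⊢
    push_cast at hS'
    linarith

end Pool.Agent.H20.Hop
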