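import Mathlib
import Pool.Agent.H20.Hop.Dset

set_option autoImplicit false

/-!
Euler inequality for `G - uv`.
-/

namespace Pool.Agent.H20.Hop

open SimpleGraph

variable {V : Type*} {G : SimpleGraph V}

private theorem deg_del_ge [Finite V] {k : ℕ} (h : Hopper G k) (u v x : V) :
    3 ≤ ((G.deleteEdges {s(u, v)}).neighborSet x).ncard := by
  have h4 := h.four_le x
  have hsub : ∃ y, G.neighborSet x \ {y} ⊆ (G.deleteEdges {s(u, v)}).neighborSet x := by
    by_cases hx : x = u
    · refine ⟨v, ?_⟩
      rintro z ⟨hz, hzv⟩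
      rw [SimpleGraph.mem_neighborSet, SimpleGraph.deleteEdges_adj]
      refine ⟨hz, fun hc => ?_⟩
      rw [Set.mem_singleton_iff, Sym2.eq_iff] at hc
      rcases hc with ⟨_, h2⟩ | ⟨h1, h2⟩
      · exact hzv h2
      · exact (SimpleGraph.Adj.ne hz) (hx.trans h2.symm)
    · refine ⟨u, ?_⟩
      rintro z ⟨hz, hzu⟩
      rw [SimpleGraph.mem_neighborSet, SimpleGraph.deleteEdges_adj]
      refine ⟨hz, fun hc => ?_⟩
      rw [Set.mem_singleton_iff, Sym2.eq_iff] at hc
      rcases hc with ⟨h1, _⟩ | ⟨_, h2⟩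
      · exact hx h1
      · exact hzu h2
  obtain ⟨y, hy⟩ := hsub
  have h5 : (G.neighborSet x).ncard ≤ (G.neighborSet x \ {y}).ncard + 1 := by
    have := Set.ncard_le_ncard_sdiff_add_ncard (G.neighborSet x) {y} (Set.finite_singleton y)
    rwa [Set.ncard_singleton] at this
  have h6 := Set.ncard_le_ncard hy (Set.toFinite _)
  omega

private theorem euler_aux [Finite V] {k : ℕ} (h : Hopper G k) {H : SimpleGraph V} {u : V}
    (hle' : ∀ a b, H.Adj a b → G.Adj a b) (hd3 : ∀ x, 3 ≤ (H.neighborSet x).ncard)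
    (hedge : Nat.card G.edgeSet = Nat.card H.edgeSet + 1) (S : Scheme H) (hS : S.EulerGenusLE k)
    (T : Finset (Flag H)) (hT : ∀ x ∈ T, S.next^[4] x ≠ x)
    (hT' : ∀ x ∈ T, ∀ y ∈ T, x ≠ y → ¬ S.SameFace x y) :
    2 * Nat.card G.edgeSet + T.card + 6 ≤ 4 * Nat.card V + 4 * k := by
  classical
  have hd2 : ∀ x, 2 ≤ (H.neighborSet x).ncard := fun x => le_trans (by norm_num) (hd3 x)
  have hle : ∀ {a b : V}, H.Adj a b → G.Adj a b := fun {a b} hab => hle' a b hab
  have htf : ∀ a b c, H.Adj a b → H.Adj b c → ¬ H.Adj c a := by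
    intro a b c hab hbc hca
    exact h.triangleFree (hle hab) (hle hca).symm (hle hbc)
  have hcount := S.count_faces (fun x => S.eight_le_fsize hd2 htf x) T
    (fun x hx => S.ten_le_fsize hd2 htf (hT x hx)) hT'
  have hiso : Nat.card {x : V // ∀ w, ¬ H.Adj x w} = 0 := by
    rw [Nat.card_eq_zero]
    left
    constructor
    rintro ⟨x, hx⟩
    have h3 := hd3 x
    have h0 : H.neighborSet x = ∅ := by
      ext w
      simp only [SimpleGraph.mem_neighborSet, Set.mem_empty_iff_false, iff_false]
      exact hx w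
    rw [h0, Set.ncard_empty] at h3
    omega
  have hcomp : 1 ≤ Nat.card H.ConnectedComponent := by
    have : Nonempty H.ConnectedComponent := ⟨H.connectedComponentMk u⟩
    exact Nat.one_le_iff_ne_zero.2 Finite.card_pos.ne'
  have hS' := hS
  unfold Scheme.EulerGenusLE at hS'
  rw [S.numFaces_eq, hiso] at hS'
  push_cast at hS'
  omega

/-- The Euler inequality for `G - uv`: all faces have length at least four, and those of the
elements of `T` length at least five. From `count_faces` (all degrees of `G - uv` are at least three,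
so there are no isolated vertices) and `EulerGenusLE` with at least one component. -/
theorem Hopper.euler_del [Finite V] {k : ℕ} (h : Hopper G k) {u v : V} (huv : G.Adj u v)
    (S : Scheme (G.deleteEdges {s(u, v)})) (hS : S.EulerGenusLE k)
    (T : Finset (Flag (G.deleteEdges {s(u, v)}))) (hT : ∀ x ∈ T, S.next^[4] x ≠ x)
    (hT' : ∀ x ∈ T, ∀ y ∈ T, x ≠ y → ¬ S.SameFace x y) :
    2 * Nat.card G.edgeSet + T.card + 6 ≤ 4 * Nat.card V + 4 * k := by
  have hedge := card_edge_del huv
  exact euler_aux h (u := u) (fun a b hab => (SimpleGraph.deleteEdges_adj.1 hab).1)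
    (fun x => deg_del_ge h u v x) (by omega) S hS T hT hT'

/-- the handshake inequality -/
theorem Hopper.two_mul_card_le [Finite V] {k : ℕ} (h : Hopper G k) :
    2 * Nat.card V ≤ Nat.card G.edgeSet := by
  classical
  have := Fintype.ofFinite V
  have h1 := G.sum_degrees_eq_twice_card_edges
  have h2 : ∑ _x : V, 4 ≤ ∑ x : V, G.degree x := by
    refine Finset.sum_le_sum (fun x _ => ?_)
    have h3 := h.four_le x
    rw [← Nat.card_coe_set_eq, Nat.card_eq_fintype_card, G.card_neighborSet_eq_degree] at h3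
    exact h3
  rw [Finset.sum_const, Finset.card_univ, smul_eq_mul] at h2
  rw [Nat.card_eq_fintype_card, Nat.card_eq_fintype_card, ← edgeFinset_card]
  omega

end Pool.Agent.H20.Hop
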