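import Mathlib
import Pool.Agent.H20.Hop.CCD
import Pool.Agent.H20.Hop.DsetB

set_option autoImplicit false

/-!
No hopper for `k = 1, 2`.
-/

namespace Pool.Agent.H20.Hop

open SimpleGraph

variable {V : Type*} {G : SimpleGraph V}

/-- no hopper for `k = 1` (`euler_del` with `T = ∅` against `two_mul_card_le`; `G` has an edge: take
a vertex, if there is none then `G` has the empty scheme) -/
theorem Hopper.exists_adj [Finite V] {k : ℕ} (h : Hopper G k) : ∃ u v, G.Adj u v := by
  by_cases hV : Nonempty V
  · obtain ⟨v⟩ := hV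
    obtain ⟨w, hw⟩ := h.noIsol v
    exact ⟨v, w, hw⟩
  · exfalso
    have hE : IsEmpty V := not_nonempty_iff.1 hV
    have hF : IsEmpty (Flag G) := ⟨fun f => hE.false f.1.fst⟩
    have hC : IsEmpty G.ConnectedComponent := ⟨fun c => by
      obtain ⟨v, -⟩ := c.exists_rep
      exact hE.false v⟩
    refine h.notEmb ⟨⟨id, fun f => rfl, fun f => (hF.false f).elim, fun f => rfl,
      fun f => (hF.false f).elim⟩, Or.inl ?_⟩
    unfold Scheme.EulerGenusLE
    have h1 : Nat.card G.ConnectedComponent = 0 := Nat.card_of_isEmpty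
    have h2 : Nat.card V = 0 := Nat.card_of_isEmpty
    have h3 : Nat.card G.edgeSet = 0 := by
      have : IsEmpty G.edgeSet := ⟨fun e => by
        obtain ⟨e, he⟩ := e
        induction e with
        | _ x y => exact hE.false x⟩
      exact Nat.card_of_isEmpty
    rw [h1, h2, h3]
    push_cast
    have : (0 : ℤ) ≤ k := Int.natCast_nonneg k
    have h4 := Int.natCast_nonneg (Scheme.numFaces (G := G) ⟨id, fun f => rfl,
      fun f => (hF.false f).elim, fun f => rfl, fun f => (hF.false f).elim⟩)
    linarith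

theorem Hopper.two_le [Finite V] {k : ℕ} (h : Hopper G k) : 2 ≤ k := by
  obtain ⟨u, v, huv⟩ := h.exists_adj
  obtain ⟨S, hS⟩ := h.del u v huv
  have h1 := h.euler_del huv S hS ∅ (by simp) (by simp)
  have h2 := h.two_mul_card_le
  rw [Finset.card_empty] at h1
  omega

/-- for `k = 2` there are `2n` or `2n + 1` edges -/
theorem Hopper.card_edge_cases [Finite V] (h : Hopper G 2) :
    Nat.card G.edgeSet = 2 * Nat.card V ∨ Nat.card G.edgeSet = 2 * Nat.card V + 1 := by
  obtain ⟨u, v, huv⟩ := h.exists_adj
  obtain ⟨S, hS⟩ := h.del u v huv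
  have h1 := h.euler_del huv S hS ∅ (by simp) (by simp)
  have h2 := h.two_mul_card_le
  rw [Finset.card_empty] at h1
  omega

/-- with `2n` edges the graph is 4-regular -/
theorem Hopper.regular [Finite V] (h : Hopper G 2) (hm : Nat.card G.edgeSet = 2 * Nat.card V)
    (v : V) : (G.neighborSet v).ncard = 4 := by
  classical
  let _ : Fintype V := Fintype.ofFinite V
  have hd : ∀ w, G.degree w = (G.neighborSet w).ncard := fun w => by
    rw [← SimpleGraph.card_neighborSet_eq_degree, Set.ncard_eq_toFinset_card', Set.toFinset_card]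
  have hs := G.sum_degrees_eq_twice_card_edges
  have he : G.edgeFinset.card = Nat.card G.edgeSet := by
    rw [SimpleGraph.edgeFinset_card, Nat.card_eq_fintype_card]
  rw [he, hm, Nat.card_eq_fintype_card] at hs
  have h4 : ∀ w, 4 ≤ G.degree w := fun w => by rw [hd]; exact h.four_le w
  have hle : ∑ w : V, 4 ≤ ∑ w : V, G.degree w := Finset.sum_le_sum fun w _ => h4 w
  have heq : ∑ w : V, 4 = ∑ w : V, G.degree w := by
    rw [hs, Finset.sum_const, Finset.card_univ, smul_eq_mul]
    ring
  have := (Finset.sum_eq_sum_iff_of_le (fun w _ => h4 w)).1 heq v (Finset.mem_univ _)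
  rw [← hd, ← this]

/-- With `2n` edges every edge is in one or two 4-cycles. From `contr_count`: `r + 2 ≤ T.card`, so
there is a pair. If there were three pairs, then by `match_left`, `match_right` every neighbour of
`u` and of `v` is in a pair and there are exactly three, so `T.card ≤ 3`, and by `no_common`
`Q = ∅`; so `r ≥ 3` and `T.card ≥ 5`. -/
theorem Hopper.pairs_even [Finite V] (h : Hopper G 2)
    (hm : Nat.card G.edgeSet = 2 * Nat.card V) {u v : V} (huv : G.Adj u v) :
    (Pairs G u v).Nonempty ∧ (Pairs G u v).ncard ≤ 2 := by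
  classical
  have hreg := h.regular hm
  obtain ⟨T, Q, r, hT, hQ, hc, hE⟩ := h.contr_count huv (hreg u) (hreg v)
  have hr : r + 2 ≤ T.card := by omega
  refine ⟨?_, ?_⟩
  · obtain ⟨c, hcT⟩ := Finset.card_pos.1 (show 0 < T.card by omega)
    exact ⟨c, hT c hcT⟩
  · by_contra hgt
    push Not at hgt
    have hA : (G.neighborSet u \ {v}).ncard = 3 := by
      have h1 := Set.ncard_sdiff_singleton_add_one (a := v) (s := G.neighborSet u) huv
        (Set.toFinite _)
      have h2 := hreg u
      omega
    have hB : (G.neighborSet v \ {u}).ncard = 3 := by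
      have h1 := Set.ncard_sdiff_singleton_add_one (a := u) (s := G.neighborSet v) huv.symm
        (Set.toFinite _)
      have h2 := hreg v
      omega
    have injL : Set.InjOn Prod.fst (Pairs G u v) := by
      rintro ⟨a, b⟩ hab ⟨a', b'⟩ hab' (he : a = a')
      subst he
      rw [h.match_left huv (hreg a) hab hab']
    have injR : Set.InjOn Prod.snd (Pairs G u v) := by
      rintro ⟨a, b⟩ hab ⟨a', b'⟩ hab' (he : b = b')
      subst he
      rw [h.match_right huv (hreg b) hab hab']
    have hLc : (Prod.fst '' Pairs G u v).ncard = (Pairs G u v).ncard :=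
      injL.ncard_image
    have hRc : (Prod.snd '' Pairs G u v).ncard = (Pairs G u v).ncard :=
      injR.ncard_image
    have hLs : Prod.fst '' Pairs G u v ⊆ G.neighborSet u \ {v} := by
      rintro _ ⟨c, hcP, rfl⟩
      exact ⟨hcP.1, hcP.2.1⟩
    have hRs : Prod.snd '' Pairs G u v ⊆ G.neighborSet v \ {u} := by
      rintro _ ⟨c, hcP, rfl⟩
      exact ⟨hcP.2.2.1, hcP.2.2.2.1⟩
    have hLe : Prod.fst '' Pairs G u v = G.neighborSet u \ {v} :=
      Set.eq_of_subset_of_ncard_le hLs (by omega) (Set.toFinite _)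
    have hRe : Prod.snd '' Pairs G u v = G.neighborSet v \ {u} :=
      Set.eq_of_subset_of_ncard_le hRs (by omega) (Set.toFinite _)
    have hP3 : (Pairs G u v).ncard ≤ 3 := by
      rw [← hLc, hLe, hA]
    have hT3 : T.card ≤ 3 := by
      have : (T : Set (V × V)).ncard ≤ (Pairs G u v).ncard :=
        Set.ncard_le_ncard (fun c hc => hT c hc) (Set.toFinite _)
      rw [Set.ncard_coe_finset] at this
      omega
    have hQ0 : Q = ∅ := by
      rw [Finset.eq_empty_iff_forall_notMem]
      intro c hcQ
      obtain ⟨h1, h2, h3, h4, y, hyu, hyv, hy1, hy2⟩ := hQ c hcQ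
      have hL : c.1 ∈ Prod.fst '' Pairs G u v := by
        rw [hLe]; exact ⟨h1, h2⟩
      have hR : c.2 ∈ Prod.snd '' Pairs G u v := by
        rw [hRe]; exact ⟨h3, h4⟩
      obtain ⟨⟨a, b'⟩, hab, hae⟩ := hL
      obtain ⟨⟨a', b⟩, hab', hbe⟩ := hR
      simp only at hae hbe
      subst hae hbe
      exact h.no_common huv (hreg _) (hreg _) hab hab' hyu hyv hy1 hy2
    rw [hQ0, Finset.card_empty] at hc
    omega

end Pool.Agent.H20.Hop
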