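import Mathlib
import Pool.Agent.H20.Hop.CCD
import Pool.Agent.H20.Hop.DsetB
import Pool.Agent.H20.Hop.FinA

set_option autoImplicit false

/-!
Structure of a common obstruction for every `k`: few common neighbours, at least fourteen vertices,
at most `2 |V| + 2 k - 3` edges.
-/

namespace Pool.Agent.H20.Hop

open SimpleGraph

variable {V : Type*} {G : SimpleGraph V}

/-- a vertex of degree four has at most two common neighbours with any other vertex -/
theorem Hopper.common_le_two [Finite V] {k : ℕ} (h : Hopper G k) {a w : V} (haw : a ≠ w)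
    (h4 : (G.neighborSet a).ncard = 4) :
    (G.neighborSet a ∩ G.neighborSet w).ncard ≤ 2 := by
  by_contra hcon
  push Not at hcon
  obtain ⟨u, hu, b, hb, b', hb', h1, h2, h3⟩ := (Set.two_lt_ncard (Set.toFinite _)).1 hcon
  have hu1 : G.Adj a u := hu.1
  have hu2 : G.Adj w u := hu.2
  have hb1 : G.Adj a b := hb.1
  have hb2 : G.Adj w b := hb.2
  have hb1' : G.Adj a b' := hb'.1
  have hb2' : G.Adj w b' := hb'.2
  exact h3 (h.match_left (u := u) (v := w) (a := a) (b := b) (b' := b') hu2.symm h4
    ⟨hu1.symm, haw, hb2, h1.symm, hb1⟩ ⟨hu1.symm, haw, hb2', h2.symm, hb1'⟩)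

/-- the vertices which share a face with `u` besides `u` and its neighbours -/
theorem D_bound_gen [Finite V] {H : SimpleGraph V} (S : Scheme H) {u : V}
    (h3 : ∀ a, 3 ≤ (H.neighborSet a).ncard)
    (htf : ∀ p q, H.Adj u p → H.Adj u q → ¬ H.Adj p q) :
    ∃ Z : Set V, u ∉ Z ∧ (H.neighborSet u).ncard + 1 + Z.ncard = (S.D u).ncard ∧
      ∀ a, H.Adj u a → ∃ p q, p ≠ q ∧ p ∈ Z ∧ q ∈ Z ∧ H.Adj a p ∧ H.Adj a q := by
  classical
  have hne : ∃ a, H.Adj u a := by
    by_contra hn
    push Not at hn
    have h0 : H.neighborSet u = ∅ := by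
      ext w
      simp only [SimpleGraph.mem_neighborSet, Set.mem_empty_iff_false, iff_false]
      exact hn w
    have := h3 u
    rw [h0, Set.ncard_empty] at this
    omega
  obtain ⟨a0, ha0⟩ := hne
  have hsub : insert u (H.neighborSet u) ⊆ S.D u := by
    intro z hz
    rcases hz with rfl | hz
    · exact self_mem_D S ha0
    · exact mem_D_of_adj S hz
  refine ⟨S.D u \ insert u (H.neighborSet u), fun hc => hc.2 (Set.mem_insert _ _), ?_, ?_⟩
  · have h1 := Set.ncard_sdiff_add_ncard_of_subset hsub (Set.toFinite _)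
    have h2 : (insert u (H.neighborSet u)).ncard = (H.neighborSet u).ncard + 1 :=
      Set.ncard_insert_of_notMem (fun hc => (H.ne_of_adj hc) rfl) (Set.toFinite _)
    omega
  · intro a ha
    have h1 := DsetAux.outside_gen S ha (h3 a)
    have h2 : (H.neighborSet a \ S.D u).ncard + (H.neighborSet a ∩ S.D u).ncard =
        (H.neighborSet a).ncard := by
      rw [add_comm]
      exact Set.ncard_inter_add_ncard_sdiff_eq_ncard (H.neighborSet a) (S.D u) (Set.toFinite _)
    have h4 : 3 ≤ (H.neighborSet a ∩ S.D u).ncard := by omega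
    have h5 : 2 ≤ ((H.neighborSet a ∩ S.D u) \ {u}).ncard := by
      have := Set.ncard_sdiff_singleton_add_one (s := H.neighborSet a ∩ S.D u) (a := u)
        ⟨ha.symm, self_mem_D S ha⟩ (Set.toFinite _)
      omega
    obtain ⟨p, hp, q, hq, hpq⟩ :=
      (Set.one_lt_ncard (Set.toFinite _)).1 (lt_of_lt_of_le (by norm_num) h5)
    have key : ∀ z, z ∈ (H.neighborSet a ∩ S.D u) \ {u} →
        z ∈ S.D u \ insert u (H.neighborSet u) ∧ H.Adj a z := by
      rintro z ⟨⟨hz1, hz2⟩, hz3⟩
      refine ⟨⟨hz2, ?_⟩, hz1⟩
      rintro (rfl | hz)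
      · exact hz3 rfl
      · exact htf a z ha hz hz1
    exact ⟨p, q, hpq, (key p hp).1, (key q hq).1, (key p hp).2, (key q hq).2⟩

/-- the two bounds for the number of vertices sharing a face with `u` -/
theorem D_bound [Finite V] {k : ℕ} (h : Hopper G k) {H : SimpleGraph V} (S : Scheme H) {u : V}
    (hle : ∀ a b, H.Adj a b → G.Adj a b) (h3 : ∀ a, 3 ≤ (H.neighborSet a).ncard)
    (hu : (H.neighborSet u).ncard + 1 = (G.neighborSet u).ncard) :
    (G.neighborSet u).ncard + 2 ≤ (S.D u).ncard ∧ 7 ≤ (S.D u).ncard := by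
  classical
  obtain ⟨Z, huZ, hZ, hZa⟩ := D_bound_gen S (u := u) h3
    (fun p q hp hq hpq => h.triangleFree (hle _ _ hp) (hle _ _ hq) (hle _ _ hpq))
  have h3u := h3 u
  obtain ⟨a1, m1, a2, m2, a3, m3, n1, n2, n3⟩ :=
    (Set.two_lt_ncard (Set.toFinite (H.neighborSet u))).1 (by omega)
  obtain ⟨p, q, hpq, hp, hq, hap, haq⟩ := hZa a1 m1
  have hZ2 : 2 ≤ Z.ncard := by
    have h1 := Set.ncard_pair hpq
    have h2 : ({p, q} : Set V) ⊆ Z := by
      rintro z (rfl | rfl)
      · exact hp
      · exact hq
    have h5 := Set.ncard_le_ncard h2 (Set.toFinite _)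
    omega
  refine ⟨by omega, ?_⟩
  by_contra hlt
  have hZ2' : Z.ncard = 2 := by omega
  have h4 : (G.neighborSet u).ncard = 4 := by omega
  have hall : ∀ a, H.Adj u a → H.Adj a p := by
    intro a ha
    obtain ⟨p', q', hpq', hp', hq', hap', haq'⟩ := hZa a ha
    have hsub : ({p', q'} : Set V) ⊆ Z := by
      rintro z (rfl | rfl)
      · exact hp'
      · exact hq'
    have heq : ({p', q'} : Set V) = Z :=
      Set.eq_of_subset_of_ncard_le hsub (by rw [hZ2', Set.ncard_pair hpq']) (Set.toFinite _)
    have hpm : p ∈ ({p', q'} : Set V) := by rw [heq]; exact hp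
    rcases hpm with rfl | hpm
    · exact hap'
    · rw [Set.mem_singleton_iff] at hpm
      rw [hpm]
      exact haq'
  have hup : u ≠ p := fun hc => huZ (hc ▸ hp)
  have h5 := h.common_le_two hup h4
  have h6 : (H.neighborSet u) ⊆ G.neighborSet u ∩ G.neighborSet p := by
    intro a ha
    exact ⟨hle _ _ ha, (hle _ _ (hall a ha)).symm⟩
  have h7 := Set.ncard_le_ncard h6 (Set.toFinite _)
  omega

private theorem nbr_del_fst {u v : V} (huv : G.Adj u v) :
    ((G.deleteEdges {s(u, v)}).neighborSet u).ncard + 1 = (G.neighborSet u).ncard ∨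
      Infinite V := by
  by_cases hV : Finite V
  · left
    have nf : (G.deleteEdges {s(u, v)}).neighborSet u = G.neighborSet u \ {v} := by
      ext z
      simp only [mem_neighborSet, deleteEdges_adj, Set.mem_singleton_iff, Set.mem_sdiff]
      refine and_congr_right (fun hz => not_congr ?_)
      rw [Sym2.eq_iff]
      constructor
      · rintro (h | h)
        · exact h.2
        · exact absurd h.1 huv.ne
      · intro h; exact Or.inl ⟨rfl, h⟩
    rw [nf]
    exact Set.ncard_sdiff_singleton_add_one (s := G.neighborSet u) (a := v) huv (Set.toFinite _)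
  · right
    exact not_finite_iff_infinite.1 hV

private theorem card_del_fst [Finite V] {u v : V} (huv : G.Adj u v) :
    ((G.deleteEdges {s(u, v)}).neighborSet u).ncard + 1 = (G.neighborSet u).ncard := by
  rcases nbr_del_fst huv with h | h
  · exact h
  · exact absurd h (not_infinite_iff_finite.2 inferInstance)

private theorem card_del_snd [Finite V] {u v : V} (huv : G.Adj u v) :
    ((G.deleteEdges {s(u, v)}).neighborSet v).ncard + 1 = (G.neighborSet v).ncard := by
  rw [Sym2.eq_swap]
  exact card_del_fst huv.symm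

theorem Hopper.three_le_del [Finite V] {k : ℕ} (h : Hopper G k) {u v : V} (huv : G.Adj u v)
    (a : V) : 3 ≤ ((G.deleteEdges {s(u, v)}).neighborSet a).ncard := by
  have h4 := h.four_le a
  by_cases h1 : a = u
  · subst h1
    have := card_del_fst huv
    omega
  by_cases h2 : a = v
  · subst h2
    have := card_del_snd huv
    omega
  rw [DsetAux.neighborSet_del h1 h2]
  omega

/-- the number of vertices -/
theorem Hopper.card_ge [Finite V] {k : ℕ} (h : Hopper G k) {u v : V} (huv : G.Adj u v) :
    (G.neighborSet u).ncard + (G.neighborSet v).ncard + 4 ≤ Nat.card V ∧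
      (G.neighborSet u).ncard + 9 ≤ Nat.card V ∧ 14 ≤ Nat.card V := by
  classical
  obtain ⟨S, hS⟩ := h.del u v huv
  have hdis := h.disjoint_D huv S hS
  have hle : ∀ a b, (G.deleteEdges {s(u, v)}).Adj a b → G.Adj a b :=
    fun a b hab => (SimpleGraph.deleteEdges_adj.1 hab).1
  obtain ⟨b1, b2⟩ := D_bound h S hle (h.three_le_del huv) (card_del_fst huv)
  obtain ⟨b3, b4⟩ := D_bound h S hle (h.three_le_del huv) (card_del_snd huv)
  have hun := Set.ncard_union_eq hdis (Set.toFinite _) (Set.toFinite _)
  have huniv : (S.D u ∪ S.D v).ncard ≤ Nat.card V := by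
    rw [← Set.ncard_univ]
    exact Set.ncard_le_ncard (Set.subset_univ _) (Set.toFinite _)
  omega

/-- the number of edges -/
theorem Hopper.card_edge_le [Finite V] {k : ℕ} (h : Hopper G k) :
    Nat.card G.edgeSet + 3 ≤ 2 * Nat.card V + 2 * k := by
  obtain ⟨u, v, huv⟩ := h.exists_adj
  obtain ⟨S, hS⟩ := h.del u v huv
  have h1 := h.euler_del huv S hS ∅ (by simp) (by simp)
  simp only [Finset.card_empty] at h1
  omega

/-- the number of vertices of degree at least five -/
theorem Hopper.card_big [Finite V] {k : ℕ} (h : Hopper G k) :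
    {v | (G.neighborSet v).ncard ≠ 4}.ncard + 6 ≤ 4 * k := by
  classical
  have := Fintype.ofFinite V
  have hle := h.card_edge_le
  have h1 := G.sum_degrees_eq_twice_card_edges
  have hdeg : ∀ x, (G.neighborSet x).ncard = G.degree x := by
    intro x
    rw [← Nat.card_coe_set_eq, Nat.card_eq_fintype_card, G.card_neighborSet_eq_degree]
  have h2 : ∑ x : V, (4 + if G.degree x ≠ 4 then 1 else 0) ≤ ∑ x : V, G.degree x := by
    refine Finset.sum_le_sum (fun x _ => ?_)
    have h3 := h.four_le x
    rw [hdeg] at h3
    split_ifs with h5 <;> omega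
  rw [Finset.sum_add_distrib, Finset.sum_const, Finset.card_univ, smul_eq_mul,
    ← Finset.card_filter] at h2
  have h6 : {v | (G.neighborSet v).ncard ≠ 4}.ncard =
      (Finset.univ.filter (fun x => G.degree x ≠ 4)).card := by
    rw [← Set.ncard_coe_finset]
    congr 1
    ext x
    simp [hdeg]
  rw [Nat.card_eq_fintype_card, Nat.card_eq_fintype_card, ← edgeFinset_card] at hle
  omega

/-- counting classes with weights -/
theorem count_weight' {Ω : Type*} [Fintype Ω] (a b : Ω → Ω) (w : Ω → ℤ) (K : ℤ)
    (h : ∀ x, K ≤ ∑ y, (open Classical in if Rel a b x y then w y else 0)) :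
    K * (norb a b : ℤ) ≤ ∑ y, w y := by
  classical
  let r : Ω → Ω → Prop := fun x y => y = a x ∨ y = b x
  have : Fintype (Quot r) := Fintype.ofFinite _
  have hrel : ∀ x y, Quot.mk r x = Quot.mk r y ↔ Rel a b x y := fun x y => Quot.eq
  have h1 : (norb a b : ℤ) = ∑ _q : Quot r, (1 : ℤ) := by
    rw [Finset.sum_const, Finset.card_univ, nsmul_eq_mul, mul_one]
    unfold norb
    rw [Nat.card_eq_fintype_card]
  have h2 : ∑ y, w y = ∑ q : Quot r, ∑ y ∈ Finset.univ.filter (fun y => Quot.mk r y = q), w y := by
    exact (Finset.sum_fiberwise Finset.univ (fun y => Quot.mk r y) w).symm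
  rw [h1, h2, Finset.mul_sum]
  refine Finset.sum_le_sum (fun q _ => ?_)
  obtain ⟨x, rfl⟩ := Quot.exists_rep q
  have hx := h x
  have e1 : ∑ y, (open Classical in if Rel a b x y then w y else 0) =
      ∑ y ∈ Finset.univ.filter (fun y => Quot.mk r y = Quot.mk r x), w y := by
    rw [Finset.sum_filter]
    refine Finset.sum_congr rfl (fun y _ => ?_)
    have : (Quot.mk r y = Quot.mk r x) ↔ Rel a b x y := by
      rw [hrel]
      exact ⟨Rel.symm, Rel.symm⟩
    simp only [this]
  rw [e1] at hx
  linarith

/-- the closed walks `(a, b, c, d)` around a 4-cycle of `H` (eight for every 4-cycle) -/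
def FourCycles (H : SimpleGraph V) : Set (V × V × V × V) :=
  {p | H.Adj p.1 p.2.1 ∧ H.Adj p.2.1 p.2.2.1 ∧ H.Adj p.2.2.1 p.2.2.2 ∧ H.Adj p.2.2.2 p.1 ∧
    p.1 ≠ p.2.2.1 ∧ p.2.1 ≠ p.2.2.2}

/-- an embedding of a triangle-free graph of minimum degree three has many quadrangles -/
theorem Scheme.fourCycles [Finite V] {H : SimpleGraph V} (S : Scheme H)
    (h3 : ∀ v, 3 ≤ (H.neighborSet v).ncard)
    (htf : ∀ u v w, H.Adj u v → H.Adj v w → ¬ H.Adj w u) :
    40 * norb Flag.along S.corner ≤ 16 * Nat.card H.edgeSet + (FourCycles H).ncard := by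
  classical
  have h2 : ∀ v, 2 ≤ (H.neighborSet v).ncard := fun v => le_trans (by norm_num) (h3 v)
  have : Finite H.Dart := by
    refine Finite.of_injective (fun e : H.Dart => e.toProd) ?_
    intro a b hab
    exact SimpleGraph.Dart.ext _ _ hab
  have := Fintype.ofFinite (Flag H)
  have main := count_weight' (Flag.along : Flag H → Flag H) S.corner
    (fun y => 4 + if S.next^[4] y = y then 1 else 0) 40 (fun x => by
      have hset : (Finset.univ.filter (fun y => Rel Flag.along S.corner x y)).card = S.fsize x := by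
        unfold Scheme.fsize
        rw [← Set.ncard_coe_finset]
        congr 1
        ext y
        simp only [Finset.coe_filter, Finset.mem_univ, true_and, Set.mem_ofPred_eq]
        rfl
      rw [← Finset.sum_filter]
      by_cases hall : ∀ y, Rel Flag.along S.corner x y → S.next^[4] y = y
      · have e1 : ∑ y ∈ Finset.univ.filter (fun y => Rel Flag.along S.corner x y),
            ((4 : ℤ) + if S.next^[4] y = y then 1 else 0) =
            ∑ y ∈ Finset.univ.filter (fun y => Rel Flag.along S.corner x y), (5 : ℤ) := by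
          refine Finset.sum_congr rfl (fun y hy => ?_)
          rw [if_pos (hall y (Finset.mem_filter.1 hy).2)]
          norm_num
        rw [e1, Finset.sum_const, nsmul_eq_mul, hset]
        have := S.eight_le_fsize h2 htf x
        have : (8 : ℤ) ≤ (S.fsize x : ℤ) := by exact_mod_cast this
        linarith
      · push Not at hall
        obtain ⟨y, hy, hyn⟩ := hall
        have h10 := S.ten_le_fsize h2 htf hyn
        have hxy : S.fsize x = S.fsize y := by
          unfold Scheme.fsize
          congr 1
          ext z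
          exact ⟨fun hz => hy.symm.trans hz, fun hz => hy.trans hz⟩
        have e1 : ∑ y ∈ Finset.univ.filter (fun y => Rel Flag.along S.corner x y), (4 : ℤ) ≤
            ∑ y ∈ Finset.univ.filter (fun y => Rel Flag.along S.corner x y),
            ((4 : ℤ) + if S.next^[4] y = y then 1 else 0) := by
          refine Finset.sum_le_sum (fun y _ => ?_)
          split_ifs <;> norm_num
        rw [Finset.sum_const, nsmul_eq_mul, hset, hxy] at e1
        have : (10 : ℤ) ≤ (S.fsize y : ℤ) := by exact_mod_cast h10
        linarith)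
  rw [Finset.sum_add_distrib, Finset.sum_const, Finset.card_univ, nsmul_eq_mul,
    ← Finset.sum_filter, Finset.sum_const, nsmul_eq_mul, mul_one] at main
  have hcard : (Fintype.card (Flag H) : ℤ) = 4 * Nat.card H.edgeSet := by
    rw [← Nat.card_eq_fintype_card, card_flag]
    push_cast
    ring
  rw [hcard] at main
  -- the flags in quadrangles inject into the 4-cycles
  let g : Flag H → V × V × V × V := fun x =>
    (x.1.fst, x.1.snd, (S.next x).1.snd, (S.next (S.next x)).1.snd)
  have hg : (Finset.univ.filter (fun y => S.next^[4] y = y)).card ≤ (FourCycles H).ncard := by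
    rw [← Set.ncard_coe_finset]
    refine Set.ncard_le_ncard_of_injOn g ?_ ?_ (Set.toFinite _)
    · intro x hx
      rw [Finset.mem_coe, Finset.mem_filter] at hx
      have hx4 : S.next (S.next (S.next (S.next x))) = x := hx.2
      refine ⟨x.1.adj, ?_, ?_, ?_, ?_, ?_⟩
      · have h1 := (S.next x).1.adj
        rw [S.next_fst] at h1
        exact h1
      · have h1 := (S.next (S.next x)).1.adj
        rw [S.next_fst] at h1
        exact h1
      · have h1 := (S.next (S.next (S.next x))).1.adj
        rw [S.next_fst] at h1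
        have h5 := S.next_fst (S.next (S.next (S.next x)))
        rw [hx4] at h5
        rw [← h5] at h1
        exact h1
      · intro he
        have h5 := S.iter_two_fst_ne h2 x
        have h6 : (S.next^[2] x).1.fst = (S.next x).1.snd := S.next_fst (S.next x)
        rw [h6] at h5
        exact h5 he.symm
      · intro he
        have h5 := S.iter_two_fst_ne h2 (S.next x)
        have h6 : (S.next^[2] (S.next x)).1.fst = (S.next (S.next x)).1.snd :=
          S.next_fst (S.next (S.next x))
        rw [h6, S.next_fst] at h5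
        exact h5 he.symm
    · intro x _ y _ hxy
      have e1 : x.1.fst = y.1.fst := congrArg (fun p : V × V × V × V => p.1) hxy
      have e2 : x.1.snd = y.1.snd := congrArg (fun p : V × V × V × V => p.2.1) hxy
      have e3 : (S.next x).1.snd = (S.next y).1.snd :=
        congrArg (fun p : V × V × V × V => p.2.2.1) hxy
      have hd : x.1 = y.1 := SimpleGraph.Dart.ext _ _ (Prod.ext e1 e2)
      by_cases hb : x.2 = y.2
      · exact Prod.ext hd hb
      · exfalso
        have hy : y = Flag.across x := by
          refine Prod.ext hd.symm ?_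
          change y.2 = !x.2
          rcases h7 : x.2 with _ | _ <;> rcases h8 : y.2 with _ | _
          · exact absurd (h7.trans h8.symm) hb
          · rfl
          · rfl
          · exact absurd (h7.trans h8.symm) hb
        rw [hy] at e3
        have h9 := S.corner_across_ne (x := Flag.along x) (h3 _)
        exact h9 e3
  have hg' : ((Finset.univ.filter (fun y => S.next^[4] y = y)).card : ℤ) ≤
      ((FourCycles H).ncard : ℤ) := by exact_mod_cast hg
  have : (40 : ℤ) * (norb Flag.along S.corner : ℤ) ≤
      16 * (Nat.card H.edgeSet : ℤ) + ((FourCycles H).ncard : ℤ) := by linarith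
  exact_mod_cast this

/-- the number of 4-cycles avoiding an edge -/
theorem Hopper.fourCycles [Finite V] {k : ℕ} (h : Hopper G k) {u v : V} (huv : G.Adj u v) :
    8 * Nat.card V + 56 ≤ (FourCycles (G.deleteEdges {s(u, v)})).ncard + 40 * k := by
  classical
  obtain ⟨S, hS⟩ := h.del u v huv
  have hle : ∀ a b, (G.deleteEdges {s(u, v)}).Adj a b → G.Adj a b :=
    fun a b hab => (SimpleGraph.deleteEdges_adj.1 hab).1
  have h3 := h.three_le_del huv
  have htf : ∀ a b c, (G.deleteEdges {s(u, v)}).Adj a b → (G.deleteEdges {s(u, v)}).Adj b c →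
      ¬ (G.deleteEdges {s(u, v)}).Adj c a := by
    intro a b c hab hbc hca
    exact h.triangleFree (hle _ _ hab) (hle _ _ hca).symm (hle _ _ hbc)
  have h1 := S.fourCycles h3 htf
  have hiso : Nat.card {x : V // ∀ w, ¬ (G.deleteEdges {s(u, v)}).Adj x w} = 0 := by
    rw [Nat.card_eq_zero]
    left
    constructor
    rintro ⟨x, hx⟩
    have h3 := h3 x
    have h0 : (G.deleteEdges {s(u, v)}).neighborSet x = ∅ := by
      ext w
      simp only [SimpleGraph.mem_neighborSet, Set.mem_empty_iff_false, iff_false]
      exact hx w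
    rw [h0, Set.ncard_empty] at h3
    omega
  have hcomp : 1 ≤ Nat.card (G.deleteEdges {s(u, v)}).ConnectedComponent := by
    have : Nonempty (G.deleteEdges {s(u, v)}).ConnectedComponent :=
      ⟨(G.deleteEdges {s(u, v)}).connectedComponentMk u⟩
    exact Nat.one_le_iff_ne_zero.2 Finite.card_pos.ne'
  have hedge := card_edge_del huv
  have hvert := h.two_mul_card_le
  have hS' := hS
  unfold Scheme.EulerGenusLE at hS'
  rw [S.numFaces_eq, hiso] at hS'
  push_cast at hS'
  omega

end Pool.Agent.H20.Hop
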