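import Mathlib
import Pool.Agent.H20.Hop.Struct

set_option autoImplicit false

/-!
The corner map of an embedding of `G - uv`, read on the flags of `G`.
-/

namespace Pool.Agent.H20.Hop

open SimpleGraph

variable {V : Type*} {G : SimpleGraph V}

/-- the flag is on the edge `uv` -/
def OnE (u v : V) (x : Flag G) : Prop := delE u v x.1.fst x.1.snd

/-- from `G - uv` to `G` -/
def upF {u v : V} (x : Flag (G.deleteEdges {s(u, v)})) : Flag G :=
  (⟨(x.1.fst, x.1.snd), (del_adj_iff.1 x.1.adj).1⟩, x.2)

/-- from `G` to `G - uv` -/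
def downF {u v : V} (x : Flag G) (hn : ¬ OnE u v x) : Flag (G.deleteEdges {s(u, v)}) :=
  (⟨(x.1.fst, x.1.snd), del_adj_iff.2 ⟨x.1.adj, hn⟩⟩, x.2)

theorem not_onE_up {u v : V} (x : Flag (G.deleteEdges {s(u, v)})) : ¬ OnE u v (upF x : Flag G) :=
  (del_adj_iff.1 x.1.adj).2

theorem up_injective {u v : V} :
    Function.Injective (upF : Flag (G.deleteEdges {s(u, v)}) → Flag G) := by
  intro x y h
  have h1 : x.1.fst = y.1.fst := congrArg (fun z : Flag G => z.1.fst) h
  have h2 : x.1.snd = y.1.snd := congrArg (fun z : Flag G => z.1.snd) h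
  have h3 : x.2 = y.2 := congrArg (fun z : Flag G => z.2) h
  exact Prod.ext (del_dart_ext h1 h2) h3

theorem up_down {u v : V} (x : Flag G) (hn : ¬ OnE u v x) : upF (downF x hn) = x := rfl

open Classical in
/-- the corner map on all flags of `G` -/
noncomputable def tot {u v : V} (S : Scheme (G.deleteEdges {s(u, v)})) (x : Flag G) : Flag G :=
  if hn : OnE u v x then x.across else upF (S.corner (downF x hn))

theorem tot_on {u v : V} (S : Scheme (G.deleteEdges {s(u, v)})) {x : Flag G} (hn : OnE u v x) :
    tot S x = x.across := by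
  unfold tot
  rw [dif_pos hn]

theorem tot_off {u v : V} (S : Scheme (G.deleteEdges {s(u, v)})) {x : Flag G}
    (hn : ¬ OnE u v x) : tot S x = upF (S.corner (downF x hn)) := by
  unfold tot
  rw [dif_neg hn]

theorem tot_up {u v : V} (S : Scheme (G.deleteEdges {s(u, v)}))
    (x : Flag (G.deleteEdges {s(u, v)})) : tot S (upF x) = upF (S.corner x) :=
  tot_off S (not_onE_up x)

theorem onE_along {u v : V} {x : Flag G} : OnE u v x.along ↔ OnE u v x := by
  constructor
  · rintro (⟨h1, h2⟩ | ⟨h1, h2⟩)
    · exact Or.inr ⟨h2, h1⟩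
    · exact Or.inl ⟨h2, h1⟩
  · rintro (⟨h1, h2⟩ | ⟨h1, h2⟩)
    · exact Or.inr ⟨h2, h1⟩
    · exact Or.inl ⟨h2, h1⟩

theorem onE_across {u v : V} {x : Flag G} : OnE u v x.across ↔ OnE u v x := Iff.rfl

theorem onE_tot {u v : V} (S : Scheme (G.deleteEdges {s(u, v)})) {x : Flag G} :
    OnE u v (tot S x) ↔ OnE u v x := by
  by_cases hn : OnE u v x
  · rw [tot_on S hn]
    exact onE_across
  · rw [tot_off S hn]
    exact ⟨fun h => absurd h (not_onE_up _), fun h => absurd h hn⟩

/-- the properties of the corner map used below -/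
structure PC (G : SimpleGraph V) (u v : V) (c : Flag G → Flag G) : Prop where
  invol : ∀ x, c (c x) = x
  ne : ∀ x, c x ≠ x
  fst : ∀ x, (c x).1.fst = x.1.fst
  on : ∀ x, OnE u v (c x) ↔ OnE u v x
  turn : ∀ x, ¬ OnE u v x → (c x).1.snd ≠ x.1.snd
  split : ∀ x, ¬ OnE u v x → (c x).1.snd ≠ (c x.across).1.snd
  cyc : ∀ x y : Flag G, x.1.fst = y.1.fst → x.1.fst ≠ u → x.1.fst ≠ v → Rel Flag.across c x y

theorem PC.isInv {u v : V} {c : Flag G → Flag G} (h : PC G u v c) : IsInv c := ⟨h.invol, h.ne⟩

theorem tot_pc {u v : V} (S : Scheme (G.deleteEdges {s(u, v)})) [Finite V]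
    (h3 : ∀ a, 3 ≤ ((G.deleteEdges {s(u, v)}).neighborSet a).ncard) : PC G u v (tot S) where
  invol x := by
    by_cases hn : OnE u v x
    · rw [tot_on S hn, tot_on S (onE_across.2 hn)]
      exact across_isInv.inv x
    · rw [tot_off S hn, tot_up, S.invol]
      rfl
  ne x := by
    by_cases hn : OnE u v x
    · rw [tot_on S hn]
      exact across_isInv.ne x
    · rw [tot_off S hn]
      intro hc
      apply S.ne (downF x hn)
      apply up_injective
      rw [hc]
      rfl
  fst x := by
    by_cases hn : OnE u v x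
    · rw [tot_on S hn]
      rfl
    · rw [tot_off S hn]
      exact S.fst (downF x hn)
  on x := onE_tot S
  turn x hn := by
    rw [tot_off S hn]
    have hex : ∃ w, (G.deleteEdges {s(u, v)}).Adj x.1.fst w ∧ w ≠ x.1.snd := by
      by_contra hc
      push Not at hc
      have : ((G.deleteEdges {s(u, v)}).neighborSet x.1.fst).ncard ≤ 1 := by
        refine le_trans (Set.ncard_le_ncard (t := {x.1.snd}) (fun z hz => hc z hz)) ?_
        simp
      have := h3 x.1.fst
      omega
    obtain ⟨w, hw, hne⟩ := hex
    exact S.corner_dart_ne (x := downF x hn) hw hne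
  split x hn := by
    rw [tot_off S hn, tot_off S (x := x.across) (fun hc => hn (onE_across.1 hc))]
    exact S.corner_across_ne (x := downF x hn) (h3 _)
  cyc x y hxy hu hv := by
    have key : ∀ z : Flag G, z.1.fst ≠ u → z.1.fst ≠ v → ¬ OnE u v z := by
      rintro z h1 h2 (⟨h5, _⟩ | ⟨h5, _⟩)
      · exact h1 h5
      · exact h2 h5
    have hx := key x hu hv
    have hy := key y (hxy ▸ hu) (hxy ▸ hv)
    have h1 := S.cyclic (downF x hx) (downF y hy) hxy
    have h2 : ∀ a b, Relation.EqvGen (fun x y => y = Flag.across x ∨ y = S.corner x) a b →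
        Rel Flag.across (tot S) (upF a : Flag G) (upF b) := by
      intro a b hab
      induction hab with
      | rel a b hab =>
        rcases hab with hab | hab
        · rw [hab]
          exact rel_fst _ _ (upF a : Flag G)
        · rw [hab, ← tot_up]
          exact rel_snd _ _ (upF a : Flag G)
      | refl a => exact rel_refl _ _ _
      | symm a b _ ih => exact ih.symm
      | trans a b c _ _ ih1 ih2 => exact ih1.trans ih2
    exact h2 _ _ h1

/-- the number of classes -/
theorem norb_tot [Finite V] {u v : V} (huv : G.Adj u v) (S : Scheme (G.deleteEdges {s(u, v)})) :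
    norb Flag.along (tot S) = norb Flag.along S.corner + 1 := by
  classical
  have hfin : Finite (Flag (G.deleteEdges {s(u, v)})) := by
    have : Finite (G.deleteEdges {s(u, v)}).Dart := by
      refine Finite.of_injective
        (fun d : (G.deleteEdges {s(u, v)}).Dart => d.toProd) ?_
      intro d d' h
      exact SimpleGraph.Dart.ext _ _ h
    infer_instance
  let e : Flag G ≃ Flag (G.deleteEdges {s(u, v)}) ⊕ New :=
    Equiv.ofBijective (delFlag u v) ⟨delFlag_injective huv, delFlag_surjective huv⟩
  have h1 : norb Flag.along (tot S) =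
      norb (Sum.map Flag.along New.end) (Sum.map S.corner New.side) := by
    refine norb_equiv e ?_ ?_
    · intro f
      change delFlag u v f.along = Sum.map Flag.along New.end (delFlag u v f)
      by_cases hn : delE u v f.1.fst f.1.snd
      · have hn' : delE u v f.along.1.fst f.along.1.snd := by
          rcases hn with ⟨h1, h2⟩ | ⟨h1, h2⟩
          · exact Or.inr ⟨h2, h1⟩
          · exact Or.inl ⟨h2, h1⟩
        rw [delFlag_pos hn, delFlag_pos hn']
        change Sum.inr (decide (f.1.snd = v), f.2) = Sum.inr (!decide (f.1.fst = v), f.2)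
        rcases hn with ⟨h1, h2⟩ | ⟨h1, h2⟩
        · simp [h1, h2, huv.ne]
        · simp [h1, h2, huv.ne]
      · have hn' : ¬ delE u v f.along.1.fst f.along.1.snd := delE_symm hn
        rw [delFlag_neg hn, delFlag_neg hn']
        rfl
    · intro f
      change delFlag u v (tot S f) = Sum.map S.corner New.side (delFlag u v f)
      by_cases hn : OnE u v f
      · rw [tot_on S hn, delFlag_pos hn, delFlag_pos (f := f.across) hn]
        rfl
      · rw [tot_off S hn, delFlag_neg hn, delFlag_neg (not_onE_up _)]
        rfl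
  rw [h1, norb_sum, norb_new_side]

theorem rel_up {u v : V} (S : Scheme (G.deleteEdges {s(u, v)}))
    {x y : Flag (G.deleteEdges {s(u, v)})} (h : S.SameFace x y) :
    Rel Flag.along (tot S) (upF x : Flag G) (upF y) := by
  unfold Scheme.SameFace at h
  induction h with
  | rel a b hab =>
    rcases hab with hab | hab
    · rw [hab]
      exact rel_fst _ _ (upF a : Flag G)
    · rw [hab, ← tot_up]
      exact rel_snd _ _ (upF a : Flag G)
  | refl a => exact rel_refl _ _ _
  | symm a b _ ih => exact ih.symm
  | trans a b c _ _ ih1 ih2 => exact ih1.trans ih2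

/-- the size of a class -/
theorem fsize_tot [Finite V] {u v : V} (S : Scheme (G.deleteEdges {s(u, v)}))
    (x : Flag G) (hn : ¬ OnE u v x) :
    S.fsize (downF x hn) ≤ {y | Rel Flag.along (tot S) x y}.ncard := by
  classical
  have : Finite (Flag G) := by
    have : Finite G.Dart := by
      refine Finite.of_injective (fun d : G.Dart => d.toProd) ?_
      intro d d' h
      exact SimpleGraph.Dart.ext _ _ h
    infer_instance
  unfold Scheme.fsize
  rw [← Set.ncard_image_of_injective _ (up_injective (G := G) (u := u) (v := v))]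
  refine Set.ncard_le_ncard ?_ (Set.toFinite _)
  rintro _ ⟨y, hy, rfl⟩
  exact rel_up S hy

/-- walking along a face -/
def nx (c : Flag G → Flag G) (x : Flag G) : Flag G := c x.along

theorem nx_up {u v : V} (S : Scheme (G.deleteEdges {s(u, v)}))
    (x : Flag (G.deleteEdges {s(u, v)})) : nx (tot S) (upF x : Flag G) = upF (S.next x) :=
  tot_up S x.along

theorem nx_up_iter {u v : V} (S : Scheme (G.deleteEdges {s(u, v)})) (j : ℕ) :
    ∀ x : Flag (G.deleteEdges {s(u, v)}), (nx (tot S))^[j] (upF x : Flag G) =
      upF (S.next^[j] x) := by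
  induction j with
  | zero => intro x; rfl
  | succ j ih =>
    intro x
    rw [Function.iterate_succ_apply, Function.iterate_succ_apply, nx_up, ih]

end Pool.Agent.H20.Hop
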