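import Mathlib
import Pool.Agent.H20.Hop.Pc

set_option autoImplicit false

/-!
The number of flags in long faces.
-/

namespace Pool.Agent.H20.Hop

open SimpleGraph

variable {V : Type*} {G : SimpleGraph V}

theorem finite_flag_g [Finite V] (H : SimpleGraph V) : Finite (Flag H) := by
  have : Finite H.Dart := by
    refine Finite.of_injective (fun d : H.Dart => d.toProd) ?_
    intro d d' h
    exact SimpleGraph.Dart.ext _ _ h
  infer_instance

theorem Scheme.bad_count [Finite V] {H : SimpleGraph V} (S : Scheme H)
    (h3 : ∀ v, 3 ≤ (H.neighborSet v).ncard)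
    (htf : ∀ u v w, H.Adj u v → H.Adj v w → ¬ H.Adj w u) :
    40 * norb Flag.along S.corner + {x | S.next^[4] x ≠ x}.ncard ≤ 20 * Nat.card H.edgeSet := by
  classical
  have h2 : ∀ v, 2 ≤ (H.neighborSet v).ncard := fun v => le_trans (by norm_num) (h3 v)
  have := finite_flag_g H
  have := Fintype.ofFinite (Flag H)
  have main := count_weight' (Flag.along : Flag H → Flag H) S.corner
    (fun y => 5 - if S.next^[4] y ≠ y then 1 else 0) 40 (fun x => by
      have hset : (Finset.univ.filter (fun y => Rel Flag.along S.corner x y)).card = S.fsize x := by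
        unfold Scheme.fsize
        rw [← Set.ncard_coe_finset]
        congr 1
        ext y
        simp only [Finset.coe_filter, Finset.mem_univ, true_and, Set.mem_ofPred_eq]
        rfl
      rw [← Finset.sum_filter]
      by_cases hall : ∀ y, Rel Flag.along S.corner x y → S.next^[4] y = y
      · have e1 : ∑ y ∈ Finset.univ.filter (fun y => Rel Flag.along S.corner x y),
            ((5 : ℤ) - if S.next^[4] y ≠ y then 1 else 0) =
            ∑ y ∈ Finset.univ.filter (fun y => Rel Flag.along S.corner x y), (5 : ℤ) := by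
          refine Finset.sum_congr rfl (fun y hy => ?_)
          rw [if_neg (not_not.2 (hall y (Finset.mem_filter.1 hy).2))]
          norm_num
        rw [e1, Finset.sum_const, nsmul_eq_mul, hset]
        have := S.eight_le_fsize h2 htf x
        have : (8 : ℤ) ≤ (S.fsize x : ℤ) := by exact_mod_cast this
        linarith
      · push Not at hall
        obtain ⟨y, hy, hyn⟩ := hall
        have h10 := S.ten_le_fsize h2 htf hyn
        have hxy : S.fsize x = S.fsize y := by
          unfold Scheme.fsize
          congr 1
          ext z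
          exact ⟨fun hz => hy.symm.trans hz, fun hz => hy.trans hz⟩
        have e1 : ∑ y ∈ Finset.univ.filter (fun y => Rel Flag.along S.corner x y), (4 : ℤ) ≤
            ∑ y ∈ Finset.univ.filter (fun y => Rel Flag.along S.corner x y),
            ((5 : ℤ) - if S.next^[4] y ≠ y then 1 else 0) := by
          refine Finset.sum_le_sum (fun y _ => ?_)
          split_ifs <;> norm_num
        rw [Finset.sum_const, nsmul_eq_mul, hset, hxy] at e1
        have : (10 : ℤ) ≤ (S.fsize y : ℤ) := by exact_mod_cast h10
        linarith)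
  rw [Finset.sum_sub_distrib, Finset.sum_const, Finset.card_univ, nsmul_eq_mul,
    ← Finset.sum_filter, Finset.sum_const, nsmul_eq_mul, mul_one] at main
  have hcard : (Fintype.card (Flag H) : ℤ) = 4 * Nat.card H.edgeSet := by
    rw [← Nat.card_eq_fintype_card, card_flag]
    push_cast
    ring
  rw [hcard] at main
  have hg : {x | S.next^[4] x ≠ x}.ncard = (Finset.univ.filter (fun y => S.next^[4] y ≠ y)).card := by
    rw [← Set.ncard_coe_finset]
    congr 1
    ext y
    simp
  rw [hg]
  have : (40 : ℤ) * (norb Flag.along S.corner : ℤ) +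
      ((Finset.univ.filter (fun y => S.next^[4] y ≠ y)).card : ℤ) ≤
      20 * (Nat.card H.edgeSet : ℤ) := by linarith
  exact_mod_cast this

theorem Hopper.iso_del [Finite V] {k : ℕ} (h : Hopper G k) {u v : V} (huv : G.Adj u v) :
    Nat.card {x : V // ∀ w, ¬ (G.deleteEdges {s(u, v)}).Adj x w} = 0 := by
  rw [Nat.card_eq_zero]
  left
  constructor
  rintro ⟨x, hx⟩
  have h3 := h.three_le_del huv x
  have h0 : (G.deleteEdges {s(u, v)}).neighborSet x = ∅ := by
    ext w
    simp only [SimpleGraph.mem_neighborSet, Set.mem_empty_iff_false, iff_false]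
    exact hx w
  rw [h0, Set.ncard_empty] at h3
  omega

theorem Hopper.tf_del [Finite V] {k : ℕ} (h : Hopper G k) {u v : V} (a b c : V)
    (hab : (G.deleteEdges {s(u, v)}).Adj a b) (hbc : (G.deleteEdges {s(u, v)}).Adj b c) :
    ¬ (G.deleteEdges {s(u, v)}).Adj c a := by
  intro hca
  exact h.triangleFree (SimpleGraph.deleteEdges_adj.1 hab).1
    (SimpleGraph.deleteEdges_adj.1 hca).1.symm (SimpleGraph.deleteEdges_adj.1 hbc).1

/-- the number of flags in faces which are not quadrangles -/
theorem Hopper.bad_le [Finite V] {k : ℕ} (h : Hopper G k) {u v : V} (huv : G.Adj u v)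
    (S : Scheme (G.deleteEdges {s(u, v)})) (hS : S.EulerGenusLE k) :
    {x : Flag G | ¬ OnE u v x ∧ (nx (tot S))^[4] x ≠ x}.ncard + 60 ≤ 40 * k := by
  classical
  have := finite_flag_g G
  have := finite_flag_g (G.deleteEdges {s(u, v)})
  have h1 := S.bad_count (h.three_le_del huv) (fun a b c hab hbc => h.tf_del a b c hab hbc)
  have hcomp : 1 ≤ Nat.card (G.deleteEdges {s(u, v)}).ConnectedComponent := by
    have : Nonempty (G.deleteEdges {s(u, v)}).ConnectedComponent :=
      ⟨(G.deleteEdges {s(u, v)}).connectedComponentMk u⟩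
    exact Nat.one_le_iff_ne_zero.2 Finite.card_pos.ne'
  have hedge := card_edge_del huv
  have hvert := h.two_mul_card_le
  have hsub : {x : Flag G | ¬ OnE u v x ∧ (nx (tot S))^[4] x ≠ x}.ncard ≤
      {x | S.next^[4] x ≠ x}.ncard := by
    refine le_trans (Set.ncard_le_ncard (t := upF '' {x | S.next^[4] x ≠ x}) ?_ (Set.toFinite _))
      (Set.ncard_image_le (Set.toFinite _))
    rintro x ⟨hx, hx4⟩
    refine ⟨downF x hx, ?_, rfl⟩
    intro hc
    apply hx4
    have := nx_up_iter S 4 (downF x hx)
    rw [hc] at this
    exact this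
  have hS' := hS
  unfold Scheme.EulerGenusLE at hS'
  rw [S.numFaces_eq, h.iso_del huv] at hS'
  push_cast at hS'
  omega

end Pool.Agent.H20.Hop
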