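import Mathlib
import Pool.Agent.H20.Hop.PcB

set_option autoImplicit false

/-!
Gluing two embeddings: inside a set `W` of vertices an embedding all of whose faces at `W` are
quadrangles, outside another one which agrees with it on the quadrangles across the boundary.
-/

namespace Pool.Agent.H20.Hop

open SimpleGraph

variable {V : Type*} {G : SimpleGraph V}

/-- the number of classes as a sum of reciprocals -/
theorem norb_eq_sum {Ω : Type*} [Fintype Ω] (a b : Ω → Ω) :
    (norb a b : ℚ) = ∑ x, (1 : ℚ) / ({y | Rel a b x y}.ncard : ℚ) := by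
  classical
  let r : Ω → Ω → Prop := fun x y => y = a x ∨ y = b x
  have : Fintype (Quot r) := Fintype.ofFinite _
  have hrel : ∀ x y, Quot.mk r x = Quot.mk r y ↔ Rel a b x y := fun x y => Quot.eq
  have h1 : (norb a b : ℚ) = ∑ _q : Quot r, (1 : ℚ) := by
    rw [Finset.sum_const, Finset.card_univ, nsmul_eq_mul, mul_one]
    unfold norb
    rw [Nat.card_eq_fintype_card]
  rw [h1, ← Finset.sum_fiberwise Finset.univ (fun y => Quot.mk r y)
    (fun x => (1 : ℚ) / ({y | Rel a b x y}.ncard : ℚ))]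
  refine Finset.sum_congr rfl (fun q _ => ?_)
  obtain ⟨x0, rfl⟩ := Quot.exists_rep q
  have e : ∀ x ∈ Finset.univ.filter (fun y => Quot.mk r y = Quot.mk r x0),
      {y | Rel a b x y}.ncard = (Finset.univ.filter (fun y => Quot.mk r y = Quot.mk r x0)).card := by
    intro x hx
    rw [Finset.mem_filter] at hx
    have hx0 := (hrel _ _).1 hx.2
    rw [← Set.ncard_coe_finset]
    congr 1
    ext y
    simp only [Finset.coe_filter, Finset.mem_univ, true_and, Set.mem_ofPred_eq]
    rw [hrel]
    exact ⟨fun h => h.symm.trans hx0, fun h => hx0.trans h.symm⟩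
  rw [Finset.sum_congr rfl (fun x hx => by rw [e x hx]), Finset.sum_const, nsmul_eq_mul]
  have hpos : 0 < (Finset.univ.filter (fun y => Quot.mk r y = Quot.mk r x0)).card :=
    Finset.card_pos.2 ⟨x0, by simp⟩
  have hpos' : ((Finset.univ.filter (fun y => Quot.mk r y = Quot.mk r x0)).card : ℚ) ≠ 0 := by
    exact_mod_cast hpos.ne'
  field_simp

/-- a face which closes after four steps has at most eight flags -/
theorem class_eight [Finite V] {c : Flag G → Flag G} (hc : IsInv c) (y : Flag G)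
    (h4 : (nx c)^[4] y = y) : {z | Rel Flag.along c y z}.ncard ≤ 8 := by
  classical
  have := finite_flag_g G
  let f : Fin 4 × Bool → Flag G := fun p =>
    if p.2 then ((nx c)^[p.1.1] y).along else (nx c)^[p.1.1] y
  have hsub : {z | Rel Flag.along c y z} ⊆ Set.range f := by
    intro z hz
    have key := Rel.mem_of_closed (a := Flag.along) (b := c)
      (C := fun z => ∃ i : ℕ, i < 4 ∧ (z = (nx c)^[i] y ∨ z = ((nx c)^[i] y).along))
      along_isInv hc
      (by
        rintro z ⟨i, hi, rfl | rfl⟩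
        · exact ⟨i, hi, Or.inr rfl⟩
        · exact ⟨i, hi, Or.inl (along_isInv.inv _)⟩)
      (by
        rintro z ⟨i, hi, rfl | rfl⟩
        · rcases Nat.eq_zero_or_pos i with rfl | h0
          · refine ⟨3, by norm_num, Or.inr ?_⟩
            change c y = _
            conv_lhs => rw [← h4]
            rw [Function.iterate_succ_apply']
            change c (c _) = _
            rw [hc.inv]
          · obtain ⟨j, rfl⟩ : ∃ j, i = j + 1 := ⟨i - 1, by omega⟩
            refine ⟨j, by omega, Or.inr ?_⟩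
            rw [Function.iterate_succ_apply']
            change c (c _) = _
            rw [hc.inv]
        · by_cases h3 : i = 3
          · subst h3
            refine ⟨0, by norm_num, Or.inl ?_⟩
            have : c ((nx c)^[3] y).along = (nx c)^[4] y := by
              rw [Function.iterate_succ_apply' (nx c) 3 y]
              rfl
            rw [this, h4]
            rfl
          · refine ⟨i + 1, by omega, Or.inl ?_⟩
            rw [Function.iterate_succ_apply' (nx c) i y]
            rfl) hz ⟨0, by norm_num, Or.inl rfl⟩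
    obtain ⟨i, hi, rfl | rfl⟩ := key
    · exact ⟨(⟨i, hi⟩, false), by simp [f]⟩
    · exact ⟨(⟨i, hi⟩, true), by simp [f]⟩
  refine le_trans (Set.ncard_le_ncard hsub (Set.toFinite _)) ?_
  rw [← Set.image_univ]
  refine le_trans (Set.ncard_image_le (Set.toFinite _)) ?_
  rw [Set.ncard_univ, Nat.card_eq_fintype_card, Fintype.card_prod, Fintype.card_fin,
    Fintype.card_bool]

open Classical in
/-- the glued corner map -/
noncomputable def mixC (W : Set V) (c1 c2 : Flag G → Flag G) (x : Flag G) : Flag G :=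
  if x.1.fst ∈ W then c1 x else c2 x

theorem mixC_in {W : Set V} {c1 c2 : Flag G → Flag G} {x : Flag G} (h : x.1.fst ∈ W) :
    mixC W c1 c2 x = c1 x := by
  unfold mixC
  rw [if_pos h]

theorem mixC_out {W : Set V} {c1 c2 : Flag G → Flag G} {x : Flag G} (h : x.1.fst ∉ W) :
    mixC W c1 c2 x = c2 x := by
  unfold mixC
  rw [if_neg h]

theorem mixC_isInv {W : Set V} {c1 c2 : Flag G → Flag G} (h1 : IsInv c1) (h2 : IsInv c2)
    (f1 : ∀ x, (c1 x).1.fst = x.1.fst) (f2 : ∀ x, (c2 x).1.fst = x.1.fst) :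
    IsInv (mixC W c1 c2) := by
  refine ⟨fun x => ?_, fun x => ?_⟩
  · by_cases hx : x.1.fst ∈ W
    · rw [mixC_in hx, mixC_in (by rw [f1]; exact hx), h1.inv]
    · rw [mixC_out hx, mixC_out (by rw [f2]; exact hx), h2.inv]
  · by_cases hx : x.1.fst ∈ W
    · rw [mixC_in hx]
      exact h1.ne x
    · rw [mixC_out hx]
      exact h2.ne x

theorem ncard_onE [Finite V] {u v : V} (huv : G.Adj u v) :
    {x : Flag G | OnE u v x}.ncard ≤ 4 := by
  classical
  let f : Bool × Bool → Flag G := fun p =>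
    if p.1 then (⟨(u, v), huv⟩, p.2) else (⟨(v, u), huv.symm⟩, p.2)
  have hsub : {x : Flag G | OnE u v x} ⊆ Set.range f := by
    rintro x (⟨h1, h2⟩ | ⟨h1, h2⟩)
    · refine ⟨(true, x.2), ?_⟩
      simp only [f, if_true]
      exact Prod.ext (del_dart_ext h1.symm h2.symm) rfl
    · refine ⟨(false, x.2), ?_⟩
      simp only [f]
      exact Prod.ext (del_dart_ext h1.symm h2.symm) rfl
  refine le_trans (Set.ncard_le_ncard hsub (Set.toFinite _)) ?_
  rw [← Set.image_univ]
  refine le_trans (Set.ncard_image_le (Set.toFinite _)) ?_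
  rw [Set.ncard_univ, Nat.card_eq_fintype_card, Fintype.card_prod, Fintype.card_bool]

theorem norb_mix [Finite V] {c1 c2 : Flag G → Flag G} (h1 : IsInv c1) (h2 : IsInv c2)
    (f1 : ∀ x, (c1 x).1.fst = x.1.fst) (f2 : ∀ x, (c2 x).1.fst = x.1.fst) {W : Set V} {u v : V}
    (huv : G.Adj u v) (hu : u ∈ W) (hv : v ∈ W)
    (Hq : ∀ y : Flag G, y.1.fst ∈ W → (nx c1)^[4] y = y)
    (Hag : ∀ z : Flag G, z.1.fst ∉ W → (∃ y : Flag G, y.1.fst ∈ W ∧ Rel Flag.along c1 z y) →
      c2 z = c1 z)
    (H8 : ∀ x, ¬ OnE u v x → 8 ≤ {y | Rel Flag.along c2 x y}.ncard)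
    (H4 : ∀ x, OnE u v x → 4 ≤ {y | Rel Flag.along c2 x y}.ncard) :
    norb Flag.along c2 ≤ norb Flag.along (mixC W c1 c2) := by
  classical
  have := finite_flag_g G
  have := Fintype.ofFinite (Flag G)
  have hm := mixC_isInv (W := W) h1 h2 f1 f2
  -- faces touching `W`
  have C1 : ∀ x, (∃ y : Flag G, y.1.fst ∈ W ∧ Rel Flag.along (mixC W c1 c2) x y) →
      {y | Rel Flag.along (mixC W c1 c2) x y}.ncard ≤ 8 := by
    rintro x ⟨y, hy, hxy⟩
    refine le_trans (Set.ncard_le_ncard (t := {z | Rel Flag.along c1 y z}) ?_ (Set.toFinite _))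
      (class_eight h1 y (Hq y hy))
    intro z hz
    have hyz : Rel Flag.along (mixC W c1 c2) y z := hxy.symm.trans hz
    exact Rel.mem_of_closed (C := fun z => Rel Flag.along c1 y z) along_isInv hm
      (fun z hz => hz.trans (rel_fst _ _ _))
      (fun z hz => by
        by_cases hzW : z.1.fst ∈ W
        · rw [mixC_in hzW]
          exact hz.trans (rel_snd _ _ _)
        · rw [mixC_out hzW, Hag z hzW ⟨y, hy, hz.symm⟩]
          exact hz.trans (rel_snd _ _ _)) hyz (rel_refl _ _ _)
  have C2 : ∀ x, ¬ (∃ y : Flag G, y.1.fst ∈ W ∧ Rel Flag.along (mixC W c1 c2) x y) →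
      {y | Rel Flag.along (mixC W c1 c2) x y}.ncard ≤ {y | Rel Flag.along c2 x y}.ncard := by
    intro x hx
    refine Set.ncard_le_ncard ?_ (Set.toFinite _)
    intro z hz
    exact (Rel.mem_of_closed
      (C := fun z => Rel Flag.along (mixC W c1 c2) x z ∧ Rel Flag.along c2 x z) along_isInv hm
      (fun z hz => ⟨hz.1.trans (rel_fst _ _ _), hz.2.trans (rel_fst _ _ _)⟩)
      (fun z hz => by
        refine ⟨hz.1.trans (rel_snd _ _ _), ?_⟩
        have hzW : z.1.fst ∉ W := fun hc => hx ⟨z, hc, hz.1⟩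
        rw [mixC_out hzW]
        exact hz.2.trans (rel_snd _ _ _)) hz ⟨rel_refl _ _ _, rel_refl _ _ _⟩).2
  have hpos' : ∀ x, 1 ≤ {y | Rel Flag.along (mixC W c1 c2) x y}.ncard := by
    intro x
    rw [Nat.one_le_iff_ne_zero]
    exact Set.ncard_ne_zero_of_mem (a := x) (rel_refl _ _ _) (Set.toFinite _)
  have hpos2 : ∀ x, 1 ≤ {y | Rel Flag.along c2 x y}.ncard := by
    intro x
    rw [Nat.one_le_iff_ne_zero]
    exact Set.ncard_ne_zero_of_mem (a := x) (rel_refl _ _ _) (Set.toFinite _)
  have key : ∀ x, (1 : ℚ) / ({y | Rel Flag.along c2 x y}.ncard : ℚ) ≤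
      1 / ({y | Rel Flag.along (mixC W c1 c2) x y}.ncard : ℚ) +
        (if OnE u v x then 1 / 8 else 0) := by
    intro x
    have p1 : (0 : ℚ) < ({y | Rel Flag.along (mixC W c1 c2) x y}.ncard : ℚ) := by
      exact_mod_cast hpos' x
    by_cases hE : OnE u v x
    · rw [if_pos hE]
      have hxW : x.1.fst ∈ W := by
        rcases hE with ⟨h5, _⟩ | ⟨h5, _⟩
        · rw [h5]; exact hu
        · rw [h5]; exact hv
      have e1 := C1 x ⟨x, hxW, rel_refl _ _ _⟩
      have e2 := H4 x hE
      have e3 : (1 : ℚ) / ({y | Rel Flag.along c2 x y}.ncard : ℚ) ≤ 1 / 4 :=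
        one_div_le_one_div_of_le (by norm_num) (by exact_mod_cast e2)
      have e4 : (1 : ℚ) / 8 ≤ 1 / ({y | Rel Flag.along (mixC W c1 c2) x y}.ncard : ℚ) :=
        one_div_le_one_div_of_le p1 (by exact_mod_cast e1)
      linarith
    · rw [if_neg hE, add_zero]
      refine one_div_le_one_div_of_le p1 ?_
      by_cases ht : ∃ y : Flag G, y.1.fst ∈ W ∧ Rel Flag.along (mixC W c1 c2) x y
      · exact_mod_cast le_trans (C1 x ht) (H8 x hE)
      · exact_mod_cast C2 x ht
  have hsum : (norb Flag.along c2 : ℚ) ≤ (norb Flag.along (mixC W c1 c2) : ℚ) + 1 / 2 := by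
    rw [norb_eq_sum, norb_eq_sum]
    refine le_trans (Finset.sum_le_sum (fun x _ => key x)) ?_
    rw [Finset.sum_add_distrib]
    refine add_le_add le_rfl ?_
    rw [← Finset.sum_filter, Finset.sum_const, nsmul_eq_mul]
    have h5 : (Finset.univ.filter (fun x : Flag G => OnE u v x)).card ≤ 4 := by
      have h6 := ncard_onE huv
      have h7 : {x : Flag G | OnE u v x}.ncard =
          (Finset.univ.filter (fun x : Flag G => OnE u v x)).card := by
        rw [← Set.ncard_coe_finset]
        congr 1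
        ext y
        simp
      omega
    have h8 : ((Finset.univ.filter (fun x : Flag G => OnE u v x)).card : ℚ) ≤ 4 := by
      exact_mod_cast h5
    linarith
  by_contra hlt
  push Not at hlt
  have : (norb Flag.along (mixC W c1 c2) : ℚ) + 1 ≤ (norb Flag.along c2 : ℚ) := by
    exact_mod_cast hlt
  linarith

theorem card_comp_le [Finite V] (u v : V) :
    Nat.card G.ConnectedComponent ≤ Nat.card (G.deleteEdges {s(u, v)}).ConnectedComponent := by
  refine Nat.card_le_card_of_surjective
    (ConnectedComponent.map (Hom.ofLE (SimpleGraph.deleteEdges_le _))) ?_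
  intro C
  refine C.ind (fun x => ?_)
  exact ⟨(G.deleteEdges {s(u, v)}).connectedComponentMk x, rfl⟩

/-- gluing gives an embedding of small genus -/
theorem Hopper.glue [Finite V] {k : ℕ} (h : Hopper G k) {u v p q : V} (huv : G.Adj u v)
    (S : Scheme (G.deleteEdges {s(u, v)})) (hS : S.EulerGenusLE k) {c1 c2 : Flag G → Flag G}
    (h1 : PC G p q c1) (h2 : PC G u v c2)
    (hn : norb Flag.along c2 = norb Flag.along S.corner + 1)
    (H8 : ∀ x, ¬ OnE u v x → 8 ≤ {y | Rel Flag.along c2 x y}.ncard)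
    (H4 : ∀ x, OnE u v x → 4 ≤ {y | Rel Flag.along c2 x y}.ncard)
    {W : Set V} (hu : u ∈ W) (hv : v ∈ W) (hp : p ∉ W) (hq : q ∉ W)
    (Hq : ∀ y : Flag G, y.1.fst ∈ W → (nx c1)^[4] y = y)
    (Hag : ∀ z : Flag G, z.1.fst ∉ W → (∃ y : Flag G, y.1.fst ∈ W ∧ Rel Flag.along c1 z y) →
      c2 z = c1 z) : False := by
  classical
  have hm := mixC_isInv (W := W) h1.isInv h2.isInv h1.fst h2.fst
  have hnorb := norb_mix h1.isInv h2.isInv h1.fst h2.fst huv hu hv Hq Hag H8 H4
  have conv1 : ∀ a b, Rel Flag.across c1 a b → (a.1.fst = b.1.fst ∧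
      (a.1.fst ∈ W → Rel Flag.across (mixC W c1 c2) a b)) := by
    intro a b hab
    induction hab with
    | rel a b hab =>
      rcases hab with hab | hab
      · rw [hab]
        exact ⟨rfl, fun _ => rel_fst _ _ _⟩
      · rw [hab]
        refine ⟨(h1.fst a).symm, fun ha => ?_⟩
        rw [← mixC_in (c1 := c1) (c2 := c2) ha]
        exact rel_snd _ _ _
    | refl a => exact ⟨rfl, fun _ => rel_refl _ _ _⟩
    | symm a b _ ih => exact ⟨ih.1.symm, fun hb => (ih.2 (ih.1 ▸ hb)).symm⟩
    | trans a b c _ _ ih1 ih2 =>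
      exact ⟨ih1.1.trans ih2.1, fun ha => (ih1.2 ha).trans (ih2.2 (ih1.1 ▸ ha))⟩
  have conv2 : ∀ a b, Rel Flag.across c2 a b → (a.1.fst = b.1.fst ∧
      (a.1.fst ∉ W → Rel Flag.across (mixC W c1 c2) a b)) := by
    intro a b hab
    induction hab with
    | rel a b hab =>
      rcases hab with hab | hab
      · rw [hab]
        exact ⟨rfl, fun _ => rel_fst _ _ _⟩
      · rw [hab]
        refine ⟨(h2.fst a).symm, fun ha => ?_⟩
        rw [← mixC_out (c1 := c1) (c2 := c2) ha]
        exact rel_snd _ _ _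
    | refl a => exact ⟨rfl, fun _ => rel_refl _ _ _⟩
    | symm a b _ ih => exact ⟨ih.1.symm, fun hb => (ih.2 (ih.1 ▸ hb)).symm⟩
    | trans a b c _ _ ih1 ih2 =>
      exact ⟨ih1.1.trans ih2.1, fun ha => (ih1.2 ha).trans (ih2.2 (ih1.1 ▸ ha))⟩
  let S' : Scheme G :=
    { corner := mixC W c1 c2
      invol := hm.inv
      ne := hm.ne
      fst := fun x => by
        by_cases hx : x.1.fst ∈ W
        · rw [mixC_in hx, h1.fst]
        · rw [mixC_out hx, h2.fst]
      cyclic := fun f g hfg => by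
        by_cases hx : f.1.fst ∈ W
        · exact (conv1 f g (h1.cyc f g hfg (fun hc => hp (hc ▸ hx)) (fun hc => hq (hc ▸ hx)))).2 hx
        · exact (conv2 f g (h2.cyc f g hfg (fun hc => hx (hc ▸ hu)) (fun hc => hx (hc ▸ hv)))).2
            hx }
  apply h.notEmb
  refine ⟨S', Or.inl ?_⟩
  change S'.EulerGenusLE k
  have hS' := hS
  unfold Scheme.EulerGenusLE at hS' ⊢
  rw [S.numFaces_eq, h.iso_del huv] at hS'
  rw [S'.numFaces_eq]
  have hc := card_comp_le (G := G) u v
  have he := card_edge_del huv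
  have hnn : norb Flag.along S'.corner = norb Flag.along (mixC W c1 c2) := rfl
  rw [hnn]
  push_cast at hS' ⊢
  omega

end Pool.Agent.H20.Hop
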