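import Mathlib
import Pool.Agent.H20.Hop.Glue

set_option autoImplicit false

/-!
Two embeddings at a vertex of degree four all of whose corners are in quadrangles.
-/

namespace Pool.Agent.H20.Hop

open SimpleGraph

variable {V : Type*} {G : SimpleGraph V}

theorem nx_fst {c : Flag G → Flag G} (hf : ∀ x, (c x).1.fst = x.1.fst) (x : Flag G) :
    (nx c x).1.fst = x.1.snd := hf x.along

/-- the two neighbours next to an edge in a quadrangle are adjacent -/
theorem ql {c : Flag G → Flag G} (hi : ∀ x, c (c x) = x) (hf : ∀ x, (c x).1.fst = x.1.fst)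
    {x : Flag G} (h4 : (nx c)^[4] x = x) : G.Adj (c x).1.snd (c x.along).1.snd := by
  have h4' : nx c (nx c (nx c (nx c x))) = x := h4
  set y1 := nx c x with hy1
  set y2 := nx c y1 with hy2
  set y3 := nx c y2 with hy3
  have h5 : y3.along = c x := by
    have : c (c y3.along) = c x := congrArg c h4'
    rw [hi] at this
    exact this
  have h6 : (c x).1.snd = y2.1.snd := by
    rw [← h5]
    change y3.1.fst = y2.1.snd
    exact nx_fst hf y2
  have h7 : y2.1.fst = y1.1.snd := nx_fst hf y1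
  have h8 := y2.1.adj
  rw [h7] at h8
  rw [h6]
  exact h8.symm

theorem Hopper.eq_of_common [Finite V] {k : ℕ} (h : Hopper G k) {a b z p p' : V}
    (ha4 : (G.neighborSet a).ncard = 4) (hab : a ≠ b) (haz : G.Adj a z) (hbz : G.Adj b z)
    (hap : G.Adj a p) (hbp : G.Adj b p) (hap' : G.Adj a p') (hbp' : G.Adj b p') (hpz : p ≠ z)
    (hp'z : p' ≠ z) : p = p' := by
  by_contra hne
  have h1 := h.common_le_two hab ha4
  have h2 : 2 < (G.neighborSet a ∩ G.neighborSet b).ncard :=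
    (Set.two_lt_ncard (Set.toFinite _)).2
      ⟨z, ⟨haz, hbz⟩, p, ⟨hap, hbp⟩, p', ⟨hap', hbp'⟩, hpz.symm, hp'z.symm, hne⟩
  omega

variable {u v p q : V} {c1 ce : Flag G → Flag G}

theorem eq_step [Finite V] {k : ℕ} (h : Hopper G k) (h1 : PC G p q c1) (he : PC G u v ce)
    {x y : Flag G} (hxy : x.1 = y.1) (hx4 : (nx c1)^[4] x = x) (hy4 : (nx ce)^[4] y = y)
    (hx : ¬ OnE p q x) (hy : ¬ OnE u v y) (ha4 : (G.neighborSet x.1.snd).ncard = 4)
    (hb : (c1 x).1.snd = (ce y).1.snd) : (c1 x.along).1.snd = (ce y.along).1.snd := by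
  have q1 := ql h1.invol h1.fst hx4
  have q2 := ql he.invol he.fst hy4
  have e1 : (c1 x).1.fst = x.1.fst := h1.fst x
  have e2 : (c1 x.along).1.fst = x.1.snd := h1.fst x.along
  have e3 : (ce y.along).1.fst = x.1.snd := by rw [hxy]; exact he.fst y.along
  have a1 := (c1 x).1.adj
  rw [e1] at a1
  have a2 := (c1 x.along).1.adj
  rw [e2] at a2
  have a3 := (ce y.along).1.adj
  rw [e3] at a3
  have t1 : (c1 x.along).1.snd ≠ x.1.fst :=
    h1.turn x.along (fun hc => hx (onE_along.1 hc))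
  have t2 : (ce y.along).1.snd ≠ x.1.fst := by
    rw [hxy]
    exact he.turn y.along (fun hc => hy (onE_along.1 hc))
  rw [← hb] at q2
  exact h.eq_of_common ha4 (h1.turn x hx).symm x.1.adj.symm a1.symm a2 q1 a3 q2 t1 t2

/-- the same two corners at the edge -/
def AgF (c1 ce : Flag G → Flag G) (x : Flag G) : Prop :=
  ((c1 x).1.snd = (ce x).1.snd ∧ (c1 x.across).1.snd = (ce x.across).1.snd) ∨
    ((c1 x).1.snd = (ce x.across).1.snd ∧ (c1 x.across).1.snd = (ce x).1.snd)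

/-- a vertex of degree four, not on the deleted edge, with all corners in quadrangles -/
def Clean (u v : V) (c : Flag G → Flag G) (z : V) : Prop :=
  z ≠ u ∧ z ≠ v ∧ (G.neighborSet z).ncard = 4 ∧ ∀ x : Flag G, x.1.fst = z → (nx c)^[4] x = x

theorem Clean.notOn {c : Flag G → Flag G} {z : V} (h : Clean u v c z) {x : Flag G}
    (hx : x.1.fst = z) : ¬ OnE u v x := by
  rintro (⟨h1, _⟩ | ⟨h1, _⟩)
  · exact h.1 (hx ▸ h1)
  · exact h.2.1 (hx ▸ h1)

theorem agf_along [Finite V] {k : ℕ} (h : Hopper G k) (h1 : PC G p q c1) (he : PC G u v ce)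
    {x : Flag G} (k1 : Clean p q c1 x.1.fst) (ke : Clean u v ce x.1.fst)
    (ha4 : (G.neighborSet x.1.snd).ncard = 4) (hx : AgF c1 ce x) : AgF c1 ce x.along := by
  have n1 : ¬ OnE p q x := k1.notOn rfl
  have ne : ¬ OnE u v x := ke.notOn rfl
  have f1 := k1.2.2.2 x rfl
  have f2 := k1.2.2.2 x.across rfl
  have g1 := ke.2.2.2 x rfl
  have g2 := ke.2.2.2 x.across rfl
  rcases hx with ⟨e1, e2⟩ | ⟨e1, e2⟩
  · exact Or.inl ⟨eq_step h h1 he rfl f1 g1 n1 ne ha4 e1,
      eq_step h h1 he (x := x.across) (y := x.across) rfl f2 g2 n1 ne ha4 e2⟩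
  · exact Or.inr ⟨eq_step h h1 he (x := x) (y := x.across) rfl f1 g2 n1 ne ha4 e1,
      eq_step h h1 he (x := x.across) (y := x) rfl f2 g1 n1 ne ha4 e2⟩

/-- `a` and `b` are opposite neighbours of `z` -/
def Opp (c : Flag G → Flag G) (z a b : V) : Prop :=
  G.Adj z a ∧ G.Adj z b ∧ a ≠ b ∧
    ∀ x : Flag G, x.1.fst = z → x.1.snd = a → (c x).1.snd ≠ b

theorem Opp.symm {c : Flag G → Flag G} (hi : ∀ x, c (c x) = x)
    (hf : ∀ x, (c x).1.fst = x.1.fst) {z a b : V} (h : Opp c z a b) : Opp c z b a := by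
  refine ⟨h.2.1, h.1, h.2.2.1.symm, fun x hx hxb hc => ?_⟩
  refine h.2.2.2 (c x) ((hf x).trans hx) hc ?_
  rw [hi]
  exact hxb

theorem flag_cases' {x y : Flag G} (h1 : y.1.fst = x.1.fst) (h2 : y.1.snd = x.1.snd) :
    y = x ∨ y = Flag.across x := by
  have h : y.1 = x.1 := del_dart_ext h1 h2
  rcases hb : y.2 with _ | _ <;> rcases hb' : x.2 with _ | _
  · exact Or.inl (Prod.ext h (by rw [hb, hb']))
  · exact Or.inr (Prod.ext h (by simp [Flag.across, hb, hb']))
  · exact Or.inr (Prod.ext h (by simp [Flag.across, hb, hb']))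
  · exact Or.inl (Prod.ext h (by rw [hb, hb']))

theorem opp_iff {c : Flag G → Flag G} {x : Flag G} {b : V} :
    Opp c x.1.fst x.1.snd b ↔ G.Adj x.1.fst b ∧ b ≠ x.1.snd ∧ b ≠ (c x).1.snd ∧
      b ≠ (c x.across).1.snd := by
  constructor
  · rintro ⟨_, h2, h3, h4⟩
    exact ⟨h2, h3.symm, (h4 x rfl rfl).symm, (h4 x.across rfl rfl).symm⟩
  · rintro ⟨h1, h2, h3, h4⟩
    refine ⟨x.1.adj, h1, h2.symm, fun y hy1 hy2 => ?_⟩
    rcases flag_cases' hy1 hy2 with rfl | rfl
    · exact h3.symm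
    · exact h4.symm

/-- the fourth neighbour -/
theorem opp_ncard [Finite V] {c : Flag G → Flag G} (h : PC G u v c) {x : Flag G}
    (hx : ¬ OnE u v x) (h4 : (G.neighborSet x.1.fst).ncard = 4) :
    {b | Opp c x.1.fst x.1.snd b}.ncard = 1 := by
  have e : {b | Opp c x.1.fst x.1.snd b} =
      ((G.neighborSet x.1.fst \ {x.1.snd}) \ {(c x).1.snd}) \ {(c x.across).1.snd} := by
    ext b
    simp only [Set.mem_ofPred_eq, opp_iff, Set.mem_sdiff, mem_neighborSet,
      Set.mem_singleton_iff]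
    tauto
  have a1 := (c x).1.adj
  rw [h.fst x] at a1
  have a2 := (c x.across).1.adj
  rw [h.fst x.across] at a2
  have t1 := h.turn x hx
  have t2 : (c x.across).1.snd ≠ x.1.snd := h.turn x.across hx
  have t3 := h.split x hx
  have m1 : x.1.snd ∈ G.neighborSet x.1.fst := x.1.adj
  have m2 : (c x).1.snd ∈ G.neighborSet x.1.fst \ {x.1.snd} := ⟨a1, t1⟩
  have m3 : (c x.across).1.snd ∈ (G.neighborSet x.1.fst \ {x.1.snd}) \ {(c x).1.snd} :=
    ⟨⟨a2, t2⟩, t3.symm⟩
  have n1 := Set.ncard_sdiff_singleton_add_one m1 (Set.toFinite _)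
  have n2 := Set.ncard_sdiff_singleton_add_one m2 (Set.toFinite _)
  have n3 := Set.ncard_sdiff_singleton_add_one m3 (Set.toFinite _)
  rw [e]
  omega

theorem opp_exists [Finite V] {c : Flag G → Flag G} (h : PC G u v c) {x : Flag G}
    (hx : ¬ OnE u v x) (h4 : (G.neighborSet x.1.fst).ncard = 4) :
    ∃ b, Opp c x.1.fst x.1.snd b := by
  obtain ⟨b, hb⟩ := Set.ncard_eq_one.1 (opp_ncard h hx h4)
  have : b ∈ {b | Opp c x.1.fst x.1.snd b} := by rw [hb]; rfl
  exact ⟨b, this⟩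

theorem opp_unique [Finite V] {c : Flag G → Flag G} (h : PC G u v c) {z a b b' : V}
    (hz : Clean u v c z) (hb : Opp c z a b) (hb' : Opp c z a b') : b = b' := by
  let x : Flag G := (⟨(z, a), hb.1⟩, false)
  have h1 := opp_ncard h (x := x) (hz.notOn rfl) hz.2.2.1
  obtain ⟨t, ht⟩ := Set.ncard_eq_one.1 h1
  have e1 : b ∈ {b | Opp c x.1.fst x.1.snd b} := hb
  have e2 : b' ∈ {b | Opp c x.1.fst x.1.snd b} := hb'
  rw [ht, Set.mem_singleton_iff] at e1 e2
  rw [e1, e2]

theorem agf_of_opp [Finite V] (h1 : PC G p q c1) (he : PC G u v ce) {x : Flag G} {b : V}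
    (k1 : Clean p q c1 x.1.fst) (ke : Clean u v ce x.1.fst) (o1 : Opp c1 x.1.fst x.1.snd b)
    (oe : Opp ce x.1.fst x.1.snd b) : AgF c1 ce x := by
  have n1 : ¬ OnE p q x := k1.notOn rfl
  have ne : ¬ OnE u v x := ke.notOn rfl
  have e1 := opp_iff.1 o1
  have e2 := opp_iff.1 oe
  have key : ∀ d, G.Adj x.1.fst d → d ≠ x.1.snd → d ≠ b → d = (c1 x).1.snd ∨
      d = (c1 x.across).1.snd := by
    intro d hd1 hd2 hd3
    by_contra hcon
    push Not at hcon
    exact hd3 (opp_unique h1 k1 (opp_iff.2 ⟨hd1, hd2, hcon.1, hcon.2⟩) o1)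
  have a1 := (ce x).1.adj
  rw [he.fst x] at a1
  have a2 := (ce x.across).1.adj
  rw [he.fst x.across] at a2
  have t1 := he.turn x ne
  have t2 : (ce x.across).1.snd ≠ x.1.snd := he.turn x.across ne
  have t3 := he.split x ne
  rcases key _ a1 t1 e2.2.2.1.symm with f1 | f1 <;> rcases key _ a2 t2 e2.2.2.2.symm with f2 | f2
  · exact absurd (f1.trans f2.symm) t3
  · exact Or.inl ⟨f1.symm, f2.symm⟩
  · exact Or.inr ⟨f2.symm, f1.symm⟩
  · exact absurd (f1.trans f2.symm) t3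

theorem opp_of_agf {x : Flag G} {b : V} (hx : AgF c1 ce x)
    (o1 : Opp c1 x.1.fst x.1.snd b) : Opp ce x.1.fst x.1.snd b := by
  rw [opp_iff] at o1 ⊢
  obtain ⟨e1, e2, e3, e4⟩ := o1
  rcases hx with ⟨f1, f2⟩ | ⟨f1, f2⟩
  · exact ⟨e1, e2, f1 ▸ e3, f2 ▸ e4⟩
  · exact ⟨e1, e2, f2 ▸ e4, f1 ▸ e3⟩

/-- agreement at one edge of a clean vertex gives agreement at all its edges -/
theorem agf_all [Finite V] (h1 : PC G p q c1) (he : PC G u v ce) {x y : Flag G}
    (k1 : Clean p q c1 x.1.fst) (ke : Clean u v ce x.1.fst) (hx : AgF c1 ce x)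
    (hy : y.1.fst = x.1.fst) : AgF c1 ce y := by
  obtain ⟨b, hb1⟩ := opp_exists h1 (x := x) (k1.notOn rfl) k1.2.2.1
  have hbe := opp_of_agf hx hb1
  have k1' : Clean p q c1 y.1.fst := hy ▸ k1
  have ke' : Clean u v ce y.1.fst := hy ▸ ke
  rw [← hy] at hb1 hbe
  by_cases hya : y.1.snd = x.1.snd
  · rw [← hya] at hb1 hbe
    exact agf_of_opp h1 he k1' ke' hb1 hbe
  by_cases hyb : y.1.snd = b
  · have s1 := hb1.symm h1.invol h1.fst
    have se := hbe.symm he.invol he.fst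
    rw [← hyb] at s1 se
    exact agf_of_opp h1 he k1' ke' s1 se
  · obtain ⟨r, hr1⟩ := opp_exists h1 (x := y) (k1'.notOn rfl) k1'.2.2.1
    obtain ⟨r', hre⟩ := opp_exists he (x := y) (ke'.notOn rfl) ke'.2.2.1
    have n1 : r ≠ x.1.snd := by
      intro hc
      rw [hc] at hr1
      exact hyb (opp_unique h1 k1' (hr1.symm h1.invol h1.fst) hb1)
    have n2 : r ≠ b := by
      intro hc
      rw [hc] at hr1
      exact hya (opp_unique h1 k1' (hr1.symm h1.invol h1.fst) (hb1.symm h1.invol h1.fst))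
    have n1' : r' ≠ x.1.snd := by
      intro hc
      rw [hc] at hre
      exact hyb (opp_unique he ke' (hre.symm he.invol he.fst) hbe)
    have n2' : r' ≠ b := by
      intro hc
      rw [hc] at hre
      exact hya (opp_unique he ke' (hre.symm he.invol he.fst) (hbe.symm he.invol he.fst))
    have m1 : x.1.snd ∈ G.neighborSet y.1.fst := hb1.1
    have m2 : b ∈ G.neighborSet y.1.fst \ {x.1.snd} := ⟨hb1.2.1, hb1.2.2.1.symm⟩
    have m3 : y.1.snd ∈ (G.neighborSet y.1.fst \ {x.1.snd}) \ {b} :=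
      ⟨⟨y.1.adj, hya⟩, hyb⟩
    have c1' := Set.ncard_sdiff_singleton_add_one m1 (Set.toFinite _)
    have c2' := Set.ncard_sdiff_singleton_add_one m2 (Set.toFinite _)
    have c3' := Set.ncard_sdiff_singleton_add_one m3 (Set.toFinite _)
    have h4 := k1'.2.2.1
    have hle : (((G.neighborSet y.1.fst \ {x.1.snd}) \ {b}) \ {y.1.snd}).ncard ≤ 1 := by omega
    rw [Set.ncard_le_one (Set.toFinite _)] at hle
    have hrr : r = r' := hle r ⟨⟨⟨hr1.2.1, n1⟩, n2⟩, hr1.2.2.1.symm⟩ r'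
      ⟨⟨⟨hre.2.1, n1'⟩, n2'⟩, hre.2.2.1.symm⟩
    rw [← hrr] at hre
    exact agf_of_opp h1 he k1' ke' hr1 hre

/-- at a clean vertex where the embeddings do not agree any two neighbours have another common
neighbour -/
theorem k4 [Finite V] (h1 : PC G p q c1) (he : PC G u v ce) {z a b : V}
    (k1 : Clean p q c1 z) (ke : Clean u v ce z) (hno : ∀ x : Flag G, x.1.fst = z → ¬ AgF c1 ce x)
    (ha : G.Adj z a) (hb : G.Adj z b) (hab : a ≠ b) : ∃ r, r ≠ z ∧ G.Adj a r ∧ G.Adj b r := by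
  let x0 : Flag G := (⟨(z, a), ha⟩, false)
  have main : ∀ (u v : V) (c : Flag G → Flag G), PC G u v c → Clean u v c z → ¬ Opp c z a b →
      ∃ r, r ≠ z ∧ G.Adj a r ∧ G.Adj b r := by
    intro u v c hc kc hno
    have : ∃ x : Flag G, x.1.fst = z ∧ x.1.snd = a ∧ (c x).1.snd = b := by
      by_contra hcon
      push Not at hcon
      exact hno ⟨ha, hb, hab, hcon⟩
    obtain ⟨x, hx1, hx2, hx3⟩ := this
    have q1 := ql hc.invol hc.fst (kc.2.2.2 x hx1)
    have a1 := (c x.along).1.adj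
    rw [hc.fst x.along] at a1
    refine ⟨(c x.along).1.snd, ?_, ?_, ?_⟩
    · have := hc.turn x.along (fun hh => kc.notOn hx1 (onE_along.1 hh))
      intro hcon
      apply this
      rw [hcon, ← hx1]
      rfl
    · rw [← hx2]
      exact a1
    · rw [← hx3]
      exact q1
  by_cases o1 : Opp c1 z a b
  · by_cases oe : Opp ce z a b
    · exact absurd (agf_of_opp h1 he (x := x0) k1 ke o1 oe) (hno x0 rfl)
    · exact main u v ce he ke oe
  · exact main p q c1 h1 k1 o1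

end Pool.Agent.H20.Hop
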