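import Mathlib
import Pool.Agent.H20.Hop.Local

set_option autoImplicit false

/-!
Matching the names of the sides of two embeddings which agree.
-/

namespace Pool.Agent.H20.Hop

open SimpleGraph

variable {V : Type*} {G : SimpleGraph V}

/-- exchange the sides of the edges with `s = true` -/
def flipF (s : Flag G → Bool) (x : Flag G) : Flag G := (x.1, xor x.2 (s x))

theorem flip_false {s : Flag G → Bool} {x : Flag G} (h : s x = false) : flipF s x = x := by
  unfold flipF
  rw [h, Bool.xor_false]

theorem flip_true {s : Flag G → Bool} {x : Flag G} (h : s x = true) : flipF s x = x.across := by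
  unfold flipF
  rw [h, Bool.xor_true]
  rfl

theorem flip_along {s : Flag G → Bool} (h1 : ∀ x, s x.along = s x) (x : Flag G) :
    flipF s x.along = (flipF s x).along := by
  unfold flipF
  rw [h1]
  rfl

theorem flip_across {s : Flag G → Bool} (h2 : ∀ x, s x.across = s x) (x : Flag G) :
    flipF s x.across = (flipF s x).across := by
  unfold flipF
  rw [h2]
  change (x.1, xor (!x.2) (s x)) = (x.1, !(xor x.2 (s x)))
  rcases s x with _ | _ <;> rcases x.2 with _ | _ <;> rfl

theorem s_flip {s : Flag G → Bool} (h2 : ∀ x, s x.across = s x) (x : Flag G) :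
    s (flipF s x) = s x := by
  rcases hs : s x with _ | _
  · rw [flip_false hs, hs]
  · rw [flip_true hs, h2, hs]

theorem flip_flip {s : Flag G → Bool} (h2 : ∀ x, s x.across = s x) (x : Flag G) :
    flipF s (flipF s x) = x := by
  rcases hs : s x with _ | _
  · rw [flip_false hs, flip_false hs]
  · rw [flip_true hs, flip_true (by rw [h2, hs])]
    exact across_isInv.inv x

/-- the corner map with renamed sides -/
def conjF (s : Flag G → Bool) (c : Flag G → Flag G) (x : Flag G) : Flag G := flipF s (c (flipF s x))

variable {u v p q : V} {c1 ce : Flag G → Flag G}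

theorem flip_conj {s : Flag G → Bool} (h2 : ∀ x, s x.across = s x) (c : Flag G → Flag G)
    (x : Flag G) : flipF s (conjF s c x) = c (flipF s x) := flip_flip h2 _

/-- as a permutation -/
def flipE (s : Flag G → Bool) (h2 : ∀ x, s x.across = s x) : Flag G ≃ Flag G where
  toFun := flipF s
  invFun := flipF s
  left_inv := flip_flip h2
  right_inv := flip_flip h2

theorem conj_pc {s : Flag G → Bool} (h2 : ∀ x, s x.across = s x)
    (he : PC G u v ce) : PC G u v (conjF s ce) where
  invol x := by
    unfold conjF
    rw [flip_flip h2, he.invol, flip_flip h2]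
  ne x hc := by
    apply he.ne (flipF s x)
    rw [← flip_conj h2 ce x, hc]
  fst x := he.fst (flipF s x)
  on x := he.on (flipF s x)
  turn x hx := he.turn (flipF s x) hx
  split x hx := by
    have := he.split (flipF s x) hx
    rw [← flip_across h2] at this
    exact this
  cyc x y hxy hu hv := by
    have := he.cyc (flipF s x) (flipF s y) hxy hu hv
    exact (rel_equiv (flipE s h2) (a := Flag.across) (b := conjF s ce) (a' := Flag.across)
      (b' := ce) (fun x => flip_across h2 x) (fun x => flip_conj h2 ce x)).2 this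

theorem conj_norb {s : Flag G → Bool} (h1 : ∀ x, s x.along = s x) (h2 : ∀ x, s x.across = s x)
    (c : Flag G → Flag G) : norb Flag.along (conjF s c) = norb Flag.along c :=
  norb_equiv (flipE s h2) (fun x => flip_along h1 x) (fun x => flip_conj h2 c x)

theorem conj_class [Finite V] {s : Flag G → Bool} (h1 : ∀ x, s x.along = s x)
    (h2 : ∀ x, s x.across = s x) (c : Flag G → Flag G) (x : Flag G) :
    {y | Rel Flag.along c (flipF s x) y}.ncard ≤ {y | Rel Flag.along (conjF s c) x y}.ncard := by
  have := finite_flag_g G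
  rw [← Set.ncard_image_of_injective _ (flipE s h2).injective]
  refine Set.ncard_le_ncard ?_ (Set.toFinite _)
  rintro _ ⟨y, hy, rfl⟩
  refine (rel_equiv (flipE s h2) (a := Flag.along) (b := conjF s c) (a' := Flag.along)
      (b' := c) (fun x => flip_along h1 x) (fun x => flip_conj h2 c x)).2 ?_
  have e : (flipE s h2) ((flipE s h2) y) = y := flip_flip h2 y
  rw [e]
  exact hy

/-- the label -/
noncomputable def lab (c1 ce : Flag G → Flag G) (x : Flag G) : Bool := by
  classical
  exact decide ((c1 x).1.snd ≠ (ce x).1.snd)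

theorem lab_false {x : Flag G} : lab c1 ce x = false ↔ (c1 x).1.snd = (ce x).1.snd := by
  unfold lab
  simp

theorem lab_true {x : Flag G} : lab c1 ce x = true ↔ (c1 x).1.snd ≠ (ce x).1.snd := by
  unfold lab
  simp

theorem lab_across (he : PC G u v ce) {x : Flag G} (ke : Clean u v ce x.1.fst)
    (hx : AgF c1 ce x) : lab c1 ce x.across = lab c1 ce x := by
  have t := he.split x (ke.notOn rfl)
  rcases hx with ⟨e1, e2⟩ | ⟨e1, e2⟩
  · rw [lab_false.2 e1, lab_false.2 e2]
  · have f1 : lab c1 ce x = true := lab_true.2 (by rw [e1]; exact t.symm)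
    have f2 : lab c1 ce x.across = true := lab_true.2 (by rw [e2]; exact t)
    rw [f1, f2]

theorem lab_along [Finite V] {k : ℕ} (h : Hopper G k) (h1 : PC G p q c1) (he : PC G u v ce)
    {x : Flag G} (k1 : Clean p q c1 x.1.fst) (ke : Clean u v ce x.1.fst)
    (k1' : Clean p q c1 x.1.snd) (ke' : Clean u v ce x.1.snd) :
    lab c1 ce x.along = lab c1 ce x := by
  have key : lab c1 ce x.along = false ↔ lab c1 ce x = false := by
    rw [lab_false, lab_false]
    constructor
    · intro e
      exact eq_step h h1 he (x := x.along) (y := x.along) rfl (k1'.2.2.2 _ rfl)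
        (ke'.2.2.2 _ rfl) (k1'.notOn rfl) (ke'.notOn rfl) k1.2.2.1 e
    · intro e
      exact eq_step h h1 he (x := x) (y := x) rfl (k1.2.2.2 _ rfl)
        (ke.2.2.2 _ rfl) (k1.notOn rfl) (ke.notOn rfl) k1'.2.2.1 e
  rcases ha : lab c1 ce x.along with _ | _ <;> rcases hb : lab c1 ce x with _ | _
  · rfl
  · rw [key.1 ha] at hb
    exact hb
  · rw [key.2 hb] at ha
    exact ha.symm
  · rfl

open Classical in
/-- the label of the edges at `U` -/
noncomputable def labU (U : Set V) (c1 ce : Flag G → Flag G) (x : Flag G) : Bool :=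
  if x.1.fst ∈ U then lab c1 ce x else if x.1.snd ∈ U then lab c1 ce x.along else false

theorem exists_label [Finite V] {k : ℕ} (h : Hopper G k) (h1 : PC G p q c1) (he : PC G u v ce)
    {U : Set V} (hU1 : ∀ z ∈ U, Clean p q c1 z) (hUe : ∀ z ∈ U, Clean u v ce z)
    (hag : ∀ z ∈ U, ∀ x : Flag G, x.1.fst = z → AgF c1 ce x) :
    ∃ s : Flag G → Bool, (∀ x, s x.along = s x) ∧ (∀ x, s x.across = s x) ∧
      ∀ x : Flag G, x.1.fst ∈ U → conjF s ce x = c1 x := by
  classical
  have sa : ∀ x : Flag G, labU U c1 ce x.along = labU U c1 ce x := by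
    intro x
    unfold labU
    have e1 : x.along.1.fst = x.1.snd := rfl
    have e2 : x.along.1.snd = x.1.fst := rfl
    have e3 : x.along.along = x := along_isInv.inv x
    rw [e1, e2, e3]
    by_cases hf : x.1.fst ∈ U <;> by_cases hs : x.1.snd ∈ U
    · rw [if_pos hs, if_pos hf]
      exact lab_along h h1 he (hU1 _ hf) (hUe _ hf) (hU1 _ hs) (hUe _ hs)
    · rw [if_neg hs, if_pos hf, if_pos hf]
    · rw [if_pos hs, if_neg hf, if_pos hs]
    · rw [if_neg hs, if_neg hf, if_neg hf, if_neg hs]
  have sc : ∀ x : Flag G, labU U c1 ce x.across = labU U c1 ce x := by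
    intro x
    unfold labU
    have e1 : x.across.1.fst = x.1.fst := rfl
    have e2 : x.across.1.snd = x.1.snd := rfl
    have e3 : x.across.along = x.along.across := rfl
    rw [e1, e2, e3]
    by_cases hf : x.1.fst ∈ U
    · rw [if_pos hf, if_pos hf]
      exact lab_across he (hUe _ hf) (hag _ hf x rfl)
    · rw [if_neg hf, if_neg hf]
      by_cases hs : x.1.snd ∈ U
      · rw [if_pos hs, if_pos hs]
        exact lab_across he (x := x.along) (hUe _ hs) (hag _ hs x.along rfl)
      · rw [if_neg hs, if_neg hs]
  have hp := conj_pc (ce := ce) sc he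
  refine ⟨labU U c1 ce, sa, sc, ?_⟩
  have star : ∀ x : Flag G, x.1.fst ∈ U →
      (conjF (labU U c1 ce) ce x).1.snd = (c1 x).1.snd := by
    intro x hx
    change (ce (flipF (labU U c1 ce) x)).1.snd = (c1 x).1.snd
    have e1 : labU U c1 ce x = lab c1 ce x := by
      unfold labU
      rw [if_pos hx]
    rcases hs : lab c1 ce x with _ | _
    · rw [flip_false (e1.trans hs)]
      exact (lab_false.1 hs).symm
    · rw [flip_true (e1.trans hs)]
      rcases hag _ hx x rfl with ⟨e2, _⟩ | ⟨e2, _⟩
      · exact absurd e2 (lab_true.1 hs)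
      · exact e2.symm
  intro x hx
  have f1 : (conjF (labU U c1 ce) ce x).1.fst = (c1 x).1.fst := by
    rw [hp.fst, h1.fst]
  rcases flag_cases' f1 (star x hx) with f2 | f2
  · exact f2
  · exfalso
    have hw : (c1 x).across.1.fst ∈ U := by
      change (c1 x).1.fst ∈ U
      rw [h1.fst]
      exact hx
    have g1 := star _ hw
    rw [← f2, hp.invol] at g1
    have g2 := h1.split (c1 x) (by
      rw [h1.on]
      exact (hU1 _ hx).notOn rfl)
    rw [h1.invol] at g2
    apply g2
    rw [g1, f2]

end Pool.Agent.H20.Hop
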