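import Mathlib
import Pool.Agent.H20.Hop.Relabel

set_option autoImplicit false

/-!
Neighbourhoods, and the region in which two clean embeddings do not agree.
-/

namespace Pool.Agent.H20.Hop

open SimpleGraph

variable {V : Type*} {G : SimpleGraph V}

/-- the vertices at distance at most `i` from `A` -/
def nb (G : SimpleGraph V) (A : Set V) : ℕ → Set V
  | 0 => A
  | i + 1 => nb G A i ∪ {w | ∃ z ∈ nb G A i, G.Adj z w}

theorem nb_succ (A : Set V) (i : ℕ) : nb G A i ⊆ nb G A (i + 1) := Set.subset_union_left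

theorem nb_mono (A : Set V) {i j : ℕ} (h : i ≤ j) : nb G A i ⊆ nb G A j := by
  induction j, h using Nat.le_induction with
  | base => exact subset_rfl
  | succ j _ ih => exact ih.trans (nb_succ A j)

theorem nb_adj {A : Set V} {i : ℕ} {z w : V} (hz : z ∈ nb G A i) (h : G.Adj z w) :
    w ∈ nb G A (i + 1) := Or.inr ⟨z, hz, h⟩

theorem nb_trans {A : Set V} {i j : ℕ} {z w : V} (hz : z ∈ nb G A i) (hw : w ∈ nb G {z} j) :
    w ∈ nb G A (i + j) := by
  induction j generalizing w with
  | zero =>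
    have : w = z := hw
    rw [this]
    exact hz
  | succ j ih =>
    rcases hw with hw | ⟨w', hw', hadj⟩
    · exact nb_mono A (by omega) (ih hw)
    · exact nb_adj (ih hw') hadj

theorem nb_symm {j : ℕ} {z w : V} (hw : w ∈ nb G {z} j) : z ∈ nb G {w} j := by
  induction j generalizing w with
  | zero =>
    have : w = z := hw
    rw [this]
    rfl
  | succ j ih =>
    rcases hw with hw | ⟨w', hw', hadj⟩
    · exact nb_succ _ _ (ih hw)
    · have h1 : w' ∈ nb G {w} 1 := nb_adj (i := 0) rfl hadj.symm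
      have := nb_trans h1 (ih hw')
      rwa [add_comm] at this

theorem nb_single {A : Set V} {i : ℕ} {w : V} (hw : w ∈ nb G A i) :
    ∃ a ∈ A, w ∈ nb G {a} i := by
  induction i generalizing w with
  | zero => exact ⟨w, hw, rfl⟩
  | succ i ih =>
    rcases hw with hw | ⟨w', hw', hadj⟩
    · obtain ⟨a, ha, h⟩ := ih hw
      exact ⟨a, ha, nb_succ _ _ h⟩
    · obtain ⟨a, ha, h⟩ := ih hw'
      exact ⟨a, ha, nb_adj h hadj⟩

variable {u v p q : V} {c1 ce : Flag G → Flag G}

/-- disagreement spreads -/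
theorem disagree_spread [Finite V] {k : ℕ} (h : Hopper G k) (h1 : PC G p q c1)
    (he : PC G u v ce) {z : V} (hc1 : ∀ w ∈ nb G {z} 4, Clean p q c1 w)
    (hce : ∀ w ∈ nb G {z} 4, Clean u v ce w) (hz : ∀ x : Flag G, x.1.fst = z → ¬ AgF c1 ce x)
    {i : ℕ} (hi : i ≤ 4) : ∀ w ∈ nb G {z} i, ∀ x : Flag G, x.1.fst = w → ¬ AgF c1 ce x := by
  induction i with
  | zero =>
    intro w hw
    have : w = z := hw
    rw [this]
    exact hz
  | succ i ih =>
    intro w hw x hx hag
    have hw4 : w ∈ nb G {z} 4 := nb_mono _ hi hw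
    rcases hw with hw | ⟨w', hw', hadj⟩
    · exact ih (by omega) w hw x hx hag
    · have hw'4 : w' ∈ nb G {z} 4 := nb_mono _ (by omega) hw'
      let y : Flag G := (⟨(w, w'), hadj.symm⟩, false)
      have hy : AgF c1 ce y := agf_all h1 he (x := x) (hx ▸ hc1 w hw4) (hx ▸ hce w hw4) hag
        (by rw [hx])
      have := agf_along h h1 he (x := y) (hc1 w hw4) (hce w hw4) (hc1 w' hw'4).2.2.1 hy
      exact ih (by omega) w' hw' y.along rfl this

/-- the balls with a shift -/
def bn (G : SimpleGraph V) (z : V) : ℕ → Set V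
  | 0 => ∅
  | i + 1 => nb G {z} i

theorem bn_succ (z : V) (i : ℕ) : bn G z i ⊆ bn G z (i + 1) := by
  cases i with
  | zero => exact Set.empty_subset _
  | succ i => exact nb_succ _ _

theorem bn_adj {z w y : V} {i : ℕ} (hw : w ∈ bn G z i) (h : G.Adj w y) : y ∈ bn G z (i + 1) := by
  cases i with
  | zero => exact absurd hw (Set.notMem_empty _)
  | succ i => exact nb_adj hw h

/-- the layers of a region in which any two neighbours of a vertex have another common
neighbour -/
theorem layer_count [Finite V] {k : ℕ} (h : Hopper G k) {z : V}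
    (h4 : ∀ w ∈ nb G {z} 4, (G.neighborSet w).ncard = 4)
    (hK : ∀ w ∈ nb G {z} 4, ∀ a b, G.Adj w a → G.Adj w b → a ≠ b →
      ∃ r, r ≠ w ∧ G.Adj a r ∧ G.Adj b r) {n : ℕ} (hn : n ≤ 4) :
    ∀ w ∈ bn G z (n + 1), w ∉ bn G z n → n ≤ {y | G.Adj w y ∧ y ∈ bn G z n}.ncard := by
  classical
  induction n with
  | zero => intro w _ _; exact Nat.zero_le _
  | succ n ih =>
    intro w hw hwn
    have hw' : w ∈ nb G {z} (n + 1) := hw
    rcases hw' with hw' | ⟨w', hw', hadj⟩
    · exact absurd hw' hwn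
    have hw'1 : w' ∈ bn G z (n + 1) := hw'
    have hw'n : w' ∉ bn G z n := fun hc => hwn (bn_adj hc hadj)
    have hw'4 : w' ∈ nb G {z} 4 := nb_mono _ (by omega) hw'
    have hP := ih (by omega) w' hw'1 hw'n
    have hex : ∀ y, ∃ r, (G.Adj w' y ∧ y ∈ bn G z n) → (r ≠ w' ∧ G.Adj w r ∧ G.Adj y r) := by
      intro y
      by_cases hy : G.Adj w' y ∧ y ∈ bn G z n
      · obtain ⟨r, hr⟩ := hK w' hw'4 w y hadj hy.1 (fun hc => hwn (hc ▸ bn_succ z n hy.2))
        exact ⟨r, fun _ => hr⟩
      · exact ⟨y, fun hc => absurd hc hy⟩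
    choose R hR using hex
    have hinj : Set.InjOn R {y | G.Adj w' y ∧ y ∈ bn G z n} := by
      intro y hy y' hy' hyy
      by_contra hne
      have r1 := hR y hy
      have r2 := hR y' hy'
      rw [← hyy] at r2
      have c3 := h.common_le_two (a := w') (w := R y) r1.1.symm (h4 w' hw'4)
      have c4 : 2 < (G.neighborSet w' ∩ G.neighborSet (R y)).ncard := by
        refine (Set.two_lt_ncard (Set.toFinite _)).2
          ⟨w, ⟨hadj, r1.2.1.symm⟩, y, ⟨hy.1, r1.2.2.symm⟩, y', ⟨hy'.1, r2.2.2.symm⟩, ?_, ?_, hne⟩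
        · intro hc
          exact hwn (hc ▸ bn_succ z n hy.2)
        · intro hc
          exact hwn (hc ▸ bn_succ z n hy'.2)
      omega
    have hsub : insert w' (R '' {y | G.Adj w' y ∧ y ∈ bn G z n}) ⊆
        {y | G.Adj w y ∧ y ∈ bn G z (n + 1)} := by
      rintro y (rfl | ⟨t, ht, rfl⟩)
      · exact ⟨hadj.symm, hw'1⟩
      · exact ⟨(hR t ht).2.1, bn_adj ht.2 (hR t ht).2.2⟩
    have hnot : w' ∉ R '' {y | G.Adj w' y ∧ y ∈ bn G z n} := by
      rintro ⟨t, ht, hc⟩
      exact (hR t ht).1 hc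
    have e1 := Set.ncard_le_ncard hsub (Set.toFinite _)
    rw [Set.ncard_insert_of_notMem hnot (Set.toFinite _), Set.ncard_image_of_injOn hinj] at e1
    omega

theorem closed_region [Finite V] {k : ℕ} (h : Hopper G k) {z : V}
    (h4 : ∀ w ∈ nb G {z} 4, (G.neighborSet w).ncard = 4)
    (hK : ∀ w ∈ nb G {z} 4, ∀ a b, G.Adj w a → G.Adj w b → a ≠ b →
      ∃ r, r ≠ w ∧ G.Adj a r ∧ G.Adj b r) (i : ℕ) : nb G {z} i ⊆ nb G {z} 4 := by
  have h5 : nb G {z} 5 ⊆ nb G {z} 4 := by
    intro w hw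
    rcases hw with hw | ⟨w', hw', hadj⟩
    · exact hw
    · by_cases h3 : w' ∈ nb G {z} 3
      · exact nb_adj h3 hadj
      · have h6 := layer_count h h4 hK (n := 4) le_rfl w' hw' h3
        have h7 : {y | G.Adj w' y ∧ y ∈ bn G z 4} ⊆ G.neighborSet w' := fun y hy => hy.1
        have h8 := Set.eq_of_subset_of_ncard_le h7 (by rw [h4 w' hw']; exact h6) (Set.toFinite _)
        have h9 : w ∈ {y | G.Adj w' y ∧ y ∈ bn G z 4} := by rw [h8]; exact hadj
        exact nb_succ _ _ h9.2
  induction i with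
  | zero => exact nb_mono _ (by omega)
  | succ i ih =>
    intro w hw
    rcases hw with hw | ⟨w', hw', hadj⟩
    · exact ih hw
    · exact h5 (nb_adj (ih hw') hadj)

/-- if all vertices near `z` are clean for both embeddings and the component of `z` is not, then
the embeddings agree at `z` -/
theorem agree_of_clean [Finite V] {k : ℕ} (h : Hopper G k) (h1 : PC G p q c1)
    (he : PC G u v ce) {z : V} (hc1 : ∀ w ∈ nb G {z} 4, Clean p q c1 w)
    (hce : ∀ w ∈ nb G {z} 4, Clean u v ce w) {i : ℕ} {a : V} (ha : a ∈ nb G {z} i)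
    (hna : ¬ Clean u v ce a) : ∀ x : Flag G, x.1.fst = z → AgF c1 ce x := by
  by_contra hcon
  push Not at hcon
  obtain ⟨x, hx, hnx⟩ := hcon
  have hz0 : z ∈ nb G {z} 4 := nb_mono _ (Nat.zero_le 4) (rfl : z ∈ nb G {z} 0)
  have hz : ∀ y : Flag G, y.1.fst = z → ¬ AgF c1 ce y := by
    intro y hy hag
    exact hnx (agf_all h1 he (x := y) (hy ▸ hc1 z hz0) (hy ▸ hce z hz0) hag (by rw [hx, hy]))
  have hcl := closed_region h (z := z) (fun w hw => (hc1 w hw).2.2.1)
    (fun w hw a b hwa hwb hab => k4 h1 he (hc1 w hw) (hce w hw)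
      (disagree_spread h h1 he hc1 hce hz le_rfl w hw) hwa hwb hab) i
  exact hna (hce a (hcl ha))

/-- growth of neighbourhoods -/
theorem Hopper.growth [Finite V] {k : ℕ} (h : Hopper G k) (A : Set V) (i : ℕ) :
    (nb G A i).ncard + k ≤ 5 ^ i * (A.ncard + k) := by
  classical
  have := Fintype.ofFinite V
  have hdeg : ∀ x, (G.neighborSet x).ncard = G.degree x := by
    intro x
    rw [← Nat.card_coe_set_eq, Nat.card_eq_fintype_card, G.card_neighborSet_eq_degree]
  have hstep : ∀ X : Finset V, ∑ z ∈ X, G.degree z + 6 ≤ 4 * X.card + 4 * k := by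
    intro X
    have hle := h.card_edge_le
    have h1 := G.sum_degrees_eq_twice_card_edges
    rw [Nat.card_eq_fintype_card, Nat.card_eq_fintype_card, ← edgeFinset_card] at hle
    have h2 : ∑ z ∈ X, G.degree z + ∑ z ∈ Xᶜ, G.degree z = ∑ z, G.degree z :=
      Finset.sum_add_sum_compl X _
    have h3 : ∑ _z ∈ Xᶜ, 4 ≤ ∑ z ∈ Xᶜ, G.degree z := by
      refine Finset.sum_le_sum (fun x _ => ?_)
      rw [← hdeg]
      exact h.four_le x
    rw [Finset.sum_const, smul_eq_mul] at h3
    have h4 : X.card + Xᶜ.card = Fintype.card V := Finset.card_add_card_compl X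
    omega
  have hone : ∀ X : Set V, {w | ∃ z ∈ X, G.Adj z w}.ncard ≤ 4 * X.ncard + 4 * k := by
    intro X
    have e1 : {w | ∃ z ∈ X, G.Adj z w} = ↑(X.toFinset.biUnion (fun z => G.neighborFinset z)) := by
      ext w
      simp
    have e2 := hstep X.toFinset
    have e3 : (X.toFinset.biUnion (fun z => G.neighborFinset z)).card ≤
        ∑ z ∈ X.toFinset, (G.neighborFinset z).card := Finset.card_biUnion_le
    have e4 : ∑ z ∈ X.toFinset, (G.neighborFinset z).card = ∑ z ∈ X.toFinset, G.degree z :=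
      Finset.sum_congr rfl (fun z _ => G.card_neighborFinset_eq_degree z)
    rw [e1, Set.ncard_coe_finset]
    have e5 : X.ncard = X.toFinset.card := by
      rw [← Set.ncard_coe_finset, Set.coe_toFinset]
    omega
  induction i with
  | zero =>
    change A.ncard + k ≤ 5 ^ 0 * (A.ncard + k)
    omega
  | succ i ih =>
    have e1 : (nb G A (i + 1)).ncard ≤ (nb G A i).ncard +
        {w | ∃ z ∈ nb G A i, G.Adj z w}.ncard := Set.ncard_union_le _ _
    have e2 := hone (nb G A i)
    rw [pow_succ]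
    nlinarith

end Pool.Agent.H20.Hop
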