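import Mathlib
import Pool.Agent.H20.Hop.FinA

set_option autoImplicit false

/-!
The case of `2n` edges.
-/

namespace Pool.Agent.H20.Hop

open SimpleGraph

variable {V : Type*} {G : SimpleGraph V}

/-- deleting an edge of a hopper leaves all degrees at least three -/
private theorem Hopper.three_le_delete [Finite V] {k : ℕ} (h : Hopper G k) (u v w : V) :
    3 ≤ ((G.deleteEdges {s(u, v)}).neighborSet w).ncard := by
  classical
  have h4 := h.four_le w
  -- the neighbour of `w` which may be lost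
  let z : V := if w = u then v else u
  have hsub : G.neighborSet w ⊆ insert z ((G.deleteEdges {s(u, v)}).neighborSet w) := by
    intro y hy
    rw [mem_neighborSet] at hy
    by_cases he : s(w, y) = s(u, v)
    · left
      rw [Sym2.eq_iff] at he
      by_cases hw : w = u
      · have hz : z = v := if_pos hw
        rw [hz]
        rcases he with ⟨_, h2⟩ | ⟨h1, h2⟩
        · exact h2
        · rw [h2, ← h1, hw]
      · have hz : z = u := if_neg hw
        rw [hz]
        rcases he with ⟨h1, _⟩ | ⟨_, h2⟩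
        · exact absurd h1 hw
        · exact h2
    · right
      rw [mem_neighborSet, deleteEdges_adj]
      exact ⟨hy, he⟩
  have h5 := Set.ncard_le_ncard hsub (Set.toFinite _)
  have h6 := Set.ncard_insert_le z ((G.deleteEdges {s(u, v)}).neighborSet w)
  omega

/-- one quad gives a pair -/
private theorem Hopper.pair_of_quad [Finite V] {k : ℕ} (h : Hopper G k) {u v : V}
    (S : Scheme (G.deleteEdges {s(u, v)}))
    {x : Flag (G.deleteEdges {s(u, v)})} (h1 : S.next^[4] x = x) :
    ((S.next (S.next x)).1.snd, (S.next x).1.snd) ∈ Pairs G x.1.fst x.1.snd ∧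
      (G.deleteEdges {s(u, v)}).Adj x.1.fst (S.next (S.next x)).1.snd ∧
        (G.deleteEdges {s(u, v)}).Adj x.1.snd (S.next x).1.snd ∧
        (G.deleteEdges {s(u, v)}).Adj (S.next (S.next x)).1.snd (S.next x).1.snd := by
  have h2 : ∀ w, 2 ≤ ((G.deleteEdges {s(u, v)}).neighborSet w).ncard := fun w =>
    le_trans (by norm_num) (h.three_le_delete u v w)
  have e4 : S.next (S.next (S.next (S.next x))) = x := h1
  have a1 : (G.deleteEdges {s(u, v)}).Adj x.1.snd (S.next x).1.snd := by
    have := (S.next x).1.adj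
    rw [S.next_fst] at this
    exact this
  have a2 : (G.deleteEdges {s(u, v)}).Adj (S.next x).1.snd (S.next (S.next x)).1.snd := by
    have := (S.next (S.next x)).1.adj
    rw [S.next_fst] at this
    exact this
  have e5 : (S.next (S.next (S.next x))).1.snd = x.1.fst := by
    rw [← S.next_fst, e4]
  have a3 : (G.deleteEdges {s(u, v)}).Adj (S.next (S.next x)).1.snd x.1.fst := by
    have := (S.next (S.next (S.next x))).1.adj
    rw [S.next_fst, e5] at this
    exact this
  have n1 : (S.next x).1.snd ≠ x.1.fst := by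
    have := S.iter_two_fst_ne h2 x
    rw [show S.next^[2] x = S.next (S.next x) from rfl, S.next_fst] at this
    exact this
  have n2 : (S.next (S.next x)).1.snd ≠ x.1.snd := by
    have := S.iter_two_fst_ne h2 (S.next x)
    rw [show S.next^[2] (S.next x) = S.next (S.next (S.next x)) from rfl, S.next_fst,
      S.next_fst] at this
    exact this
  have hle : G.deleteEdges {s(u, v)} ≤ G := deleteEdges_le _
  exact ⟨⟨hle a3.symm, n2, hle a1, n1, hle a2.symm⟩, a3.symm, a1, a2.symm⟩

/-- If both sides of the edge `ab` of `G - uv` are 4-cycles, these give two pairs of `Pairs G a b`,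
different from each other (`corner_across_ne`), and none of them uses the edge `uv`. -/
theorem Hopper.two_pairs_of_quads [Finite V] {k : ℕ} (h : Hopper G k) {u v : V}
    (huv : G.Adj u v) (S : Scheme (G.deleteEdges {s(u, v)}))
    {x : Flag (G.deleteEdges {s(u, v)})} (h1 : S.next^[4] x = x)
    (h2 : S.next^[4] x.across = x.across) :
    ∃ c c' : V × V, c ≠ c' ∧ c ∈ Pairs G x.1.fst x.1.snd ∧ c' ∈ Pairs G x.1.fst x.1.snd ∧
      (∀ d, d = c ∨ d = c' → (G.deleteEdges {s(u, v)}).Adj x.1.fst d.1 ∧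
        (G.deleteEdges {s(u, v)}).Adj x.1.snd d.2 ∧ (G.deleteEdges {s(u, v)}).Adj d.1 d.2) := by
  obtain ⟨p1, p2⟩ := h.pair_of_quad S h1
  obtain ⟨q1, q2⟩ := h.pair_of_quad S h2
  refine ⟨_, _, ?_, p1, q1, ?_⟩
  · intro he
    have h3 := congrArg Prod.snd he
    exact S.corner_across_ne (x := x.along) (h.three_le_delete u v _) h3
  · rintro d (rfl | rfl)
    · exact p2
    · exact q2

/-- a third pair is too much -/
private theorem Hopper.exists_long [Finite V] (h : Hopper G 2)
    (hm : Nat.card G.edgeSet = 2 * Nat.card V) {u v : V} (huv : G.Adj u v)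
    (S : Scheme (G.deleteEdges {s(u, v)})) {a b : V} (hab : (G.deleteEdges {s(u, v)}).Adj a b)
    {c : V × V} (hc : c ∈ Pairs G a b)
    (hn : ¬ ((G.deleteEdges {s(u, v)}).Adj a c.1 ∧ (G.deleteEdges {s(u, v)}).Adj b c.2 ∧
      (G.deleteEdges {s(u, v)}).Adj c.1 c.2)) :
    ∃ x : Flag (G.deleteEdges {s(u, v)}), x.1.fst = a ∧ x.1.snd = b ∧ S.next^[4] x ≠ x := by
  by_contra hno
  push Not at hno
  have h1 := hno (⟨(a, b), hab⟩, true) rfl rfl
  have h2 := hno (Flag.across (⟨(a, b), hab⟩, true)) rfl rfl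
  obtain ⟨d, d', hne, hd, hd', hall⟩ := h.two_pairs_of_quads huv S h1 h2
  have hdc : c ≠ d := by
    rintro rfl
    exact hn (hall _ (Or.inl rfl))
  have hdc' : c ≠ d' := by
    rintro rfl
    exact hn (hall _ (Or.inr rfl))
  have hle := (h.pairs_even hm (u := a) (v := b) (deleteEdges_le _ hab)).2
  have hsub : ({c, d, d'} : Set (V × V)) ⊆ Pairs G a b := by
    rintro y (rfl | rfl | rfl)
    · exact hc
    · exact hd
    · exact hd'
  have h3 := Set.ncard_le_ncard hsub (Set.toFinite _)
  have h4 : ({c, d, d'} : Set (V × V)).ncard = 3 := by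
    rw [Set.ncard_eq_three]
    exact ⟨c, d, d', hdc, hdc', hne, rfl⟩
  omega

/-- The case of `2n` edges is impossible. Let `(a, b) ∈ Pairs G u v`. By `two_pairs_of_quads` and
`pairs_even` each of the edges `ua`, `vb`, `ab` has a side in a face of length at least five of the
embedding of `G - uv`; by `disjoint_D` these three faces are different; `euler_del`. -/
theorem Hopper.even_false [Finite V] (h : Hopper G 2)
    (hm : Nat.card G.edgeSet = 2 * Nat.card V) : False := by
  classical
  obtain ⟨u, v, huv⟩ := h.exists_adj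
  obtain ⟨S, hS⟩ := h.del u v huv
  obtain ⟨⟨a, b⟩, hua, hav, hvb, hbu, hab⟩ := (h.pairs_even hm huv).1
  simp only at hua hav hvb hbu hab
  have nuv : ¬ (G.deleteEdges {s(u, v)}).Adj u v := by
    rw [deleteEdges_adj]
    exact fun h => h.2 rfl
  have nvu : ¬ (G.deleteEdges {s(u, v)}).Adj v u := fun h => nuv h.symm
  have hua' : (G.deleteEdges {s(u, v)}).Adj u a := by
    rw [deleteEdges_adj]
    refine ⟨hua, ?_⟩
    rw [Set.mem_singleton_iff, Sym2.eq_iff]
    rintro (⟨_, h2⟩ | ⟨h1, _⟩)
    · exact hav h2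
    · exact huv.ne h1
  have hvb' : (G.deleteEdges {s(u, v)}).Adj v b := by
    rw [deleteEdges_adj]
    refine ⟨hvb, ?_⟩
    rw [Set.mem_singleton_iff, Sym2.eq_iff]
    rintro (⟨h1, _⟩ | ⟨_, h2⟩)
    · exact huv.ne h1.symm
    · exact hbu h2
  have hab' : (G.deleteEdges {s(u, v)}).Adj a b := by
    rw [deleteEdges_adj]
    refine ⟨hab, ?_⟩
    rw [Set.mem_singleton_iff, Sym2.eq_iff]
    rintro (⟨h1, _⟩ | ⟨h1, _⟩)
    · exact hua.ne h1.symm
    · exact hav h1
  obtain ⟨x1, x1a, x1b, x1c⟩ := h.exists_long hm huv S hua' (c := (v, b))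
    ⟨huv, hav.symm, hab, hbu, hvb⟩ (fun hh => nuv hh.1)
  obtain ⟨x2, x2a, x2b, x2c⟩ := h.exists_long hm huv S hvb' (c := (u, a))
    ⟨huv.symm, hbu.symm, hab.symm, hav, hua⟩ (fun hh => nvu hh.1)
  obtain ⟨x3, x3a, x3b, x3c⟩ := h.exists_long hm huv S hab' (c := (u, v))
    ⟨hua.symm, hbu.symm, hvb.symm, hav.symm, huv⟩ (fun hh => nuv hh.2.2)
  have hD := Set.disjoint_left.1 (h.disjoint_D huv S hS)
  have n12 : ¬ S.SameFace x1 x2 := fun hs =>
    hD ⟨x1, x2, x1a, x2a, hs⟩ (self_mem_D S hvb')
  have n13 : ¬ S.SameFace x1 x3 := fun hs =>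
    hD (a := b) ⟨x1, x3.along, x1a, x3b, hs.trans (rel_fst _ _ _)⟩ (mem_D_of_adj S hvb')
  have n23 : ¬ S.SameFace x2 x3 := fun hs =>
    hD (mem_D_of_adj S hua') ⟨x2, x3, x2a, x3a, hs⟩
  have hrefl : ∀ x, S.SameFace x x := fun x => rel_refl _ _ x
  have e12 : x1 ≠ x2 := fun he => n12 (he ▸ hrefl x1)
  have e13 : x1 ≠ x3 := fun he => n13 (he ▸ hrefl x1)
  have e23 : x2 ≠ x3 := fun he => n23 (he ▸ hrefl x2)
  have key := h.euler_del huv S hS {x1, x2, x3}
    (by
      intro x hx
      simp only [Finset.mem_insert, Finset.mem_singleton] at hx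
      rcases hx with rfl | rfl | rfl
      · exact x1c
      · exact x2c
      · exact x3c)
    (by
      intro x hx y hy hxy hs
      simp only [Finset.mem_insert, Finset.mem_singleton] at hx hy
      rcases hx with rfl | rfl | rfl <;> rcases hy with rfl | rfl | rfl
      · exact hxy rfl
      · exact n12 hs
      · exact n13 hs
      · exact n12 hs.symm
      · exact hxy rfl
      · exact n23 hs
      · exact n13 hs.symm
      · exact n23 hs.symm
      · exact hxy rfl)
  have hcard : ({x1, x2, x3} : Finset (Flag (G.deleteEdges {s(u, v)}))).card = 3 :=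
    Finset.card_eq_three.2 ⟨x1, x2, x3, e12, e13, e23, rfl⟩
  rw [hcard] at key
  omega

end Pool.Agent.H20.Hop
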