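import Mathlib
import Pool.Agent.H20.Hop.Dset

set_option autoImplicit false

/-!
Seven vertices near `u`.
-/

namespace Pool.Agent.H20.Hop

open SimpleGraph

variable {V : Type*} {G : SimpleGraph V}

namespace DsetCAux

/-- the vertex opposite to a corner -/
private def opp {H : SimpleGraph V} (S : Scheme H) (x : Flag H) : V := (S.next x).1.snd

private theorem opp_corner {H : SimpleGraph V} (S : Scheme H) (h4 : ∀ x, S.next^[4] x = x)
    (x : Flag H) : opp S (S.corner x) = opp S x := by
  have e1 : S.next (S.next (S.next (S.next x))) = x := h4 x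
  -- the last step comes from `along (corner x)`
  have e2 : S.next (S.next (S.next x)) = Flag.along (S.corner x) := by
    have h1 : S.corner (Flag.along (S.next (S.next (S.next x)))) = x := e1
    have h2 := congrArg S.corner h1
    rw [S.invol] at h2
    rw [← h2, along_isInv.inv]
  have e3 : S.corner (Flag.along (S.corner x)) = Flag.along (S.next (S.next x)) := by
    rw [← e2]
    show S.corner (S.corner (Flag.along (S.next (S.next x)))) = _
    rw [S.invol]
  show (S.corner (Flag.along (S.corner x))).1.snd = _
  rw [e3]
  show (S.next (S.next x)).1.fst = _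
  rw [S.next_fst]
  rfl

private theorem opp_across_ne [Finite V] {H : SimpleGraph V} (S : Scheme H)
    (h3 : ∀ w, 3 ≤ (H.neighborSet w).ncard) (x : Flag H) : opp S x ≠ opp S x.across :=
  S.corner_across_ne (x := Flag.along x) (h3 _)

private theorem opp_mem {H : SimpleGraph V} (S : Scheme H) (x : Flag H) :
    opp S x ∈ S.D x.1.fst := by
  refine ⟨x, S.next^[2] x, rfl, ?_, S.sameFace_iter x 2⟩
  exact S.next_fst (S.next x)

private theorem opp_ne [Finite V] {H : SimpleGraph V} (S : Scheme H)
    (h3 : ∀ w, 3 ≤ (H.neighborSet w).ncard) (x : Flag H) : opp S x ≠ x.1.fst := by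
  have h1 := S.iter_two_fst_ne (fun w => le_trans (by norm_num) (h3 w)) x
  have h2 : (S.next^[2] x).1.fst = opp S x := S.next_fst (S.next x)
  rwa [h2] at h1

private theorem adj_opp {H : SimpleGraph V} (S : Scheme H) (x : Flag H) :
    H.Adj x.1.snd (opp S x) := by
  have h1 := (S.next x).1.adj
  rw [S.next_fst] at h1
  exact h1

private theorem flag_eq {H : SimpleGraph V} {x y : Flag H} (h1 : y.1.fst = x.1.fst)
    (h2 : y.1.snd = x.1.snd) : y = x ∨ y = Flag.across x := by
  have h : y.1 = x.1 := SimpleGraph.Dart.ext _ _ (Prod.ext h1 h2)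
  rcases hb : y.2 with _ | _ <;> rcases hb' : x.2 with _ | _
  · exact Or.inl (Prod.ext h (by rw [hb, hb']))
  · exact Or.inr (Prod.ext h (by simp [Flag.across, hb, hb']))
  · exact Or.inr (Prod.ext h (by simp [Flag.across, hb, hb']))
  · exact Or.inl (Prod.ext h (by rw [hb, hb']))

private theorem seven_gen [Finite V] {H : SimpleGraph V} (S : Scheme H)
    (h4 : ∀ x, S.next^[4] x = x) (h3 : ∀ w, 3 ≤ (H.neighborSet w).ncard) {u : V}
    (hu : (H.neighborSet u).ncard = 3)
    (tri : ∀ p q, H.Adj u p → H.Adj u q → ¬ H.Adj p q) : 7 ≤ (S.D u).ncard := by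
  classical
  obtain ⟨a1, ha1⟩ : (H.neighborSet u).Nonempty := by
    rw [← Set.ncard_pos (Set.toFinite _)]; omega
  rw [mem_neighborSet] at ha1
  let x : Flag H := (⟨(u, a1), ha1⟩, true)
  have hxf : x.1.fst = u := rfl
  have hxs : x.1.snd = a1 := rfl
  let y : Flag H := S.corner x
  let z : Flag H := S.corner x.across
  have hyf : y.1.fst = u := S.fst x
  have hzf : z.1.fst = u := S.fst x.across
  have h3u : 3 ≤ (H.neighborSet x.1.fst).ncard := h3 _
  obtain ⟨w, hw, hwa⟩ : ∃ w, H.Adj u w ∧ w ≠ a1 := by
    by_contra hn
    push Not at hn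
    have : (H.neighborSet u).ncard ≤ 1 := by
      refine le_trans (Set.ncard_le_ncard (t := {a1}) (fun z hz => hn z hz)) ?_
      simp
    omega
  have n12 : y.1.snd ≠ a1 := S.corner_dart_ne (x := x) (w := w) hw hwa
  have n13 : z.1.snd ≠ a1 := S.corner_dart_ne (x := x.across) (w := w) hw hwa
  have n23 : y.1.snd ≠ z.1.snd := S.corner_across_ne (x := x) h3u
  have hay : H.Adj u y.1.snd := by
    have := y.1.adj
    rwa [hyf] at this
  have haz : H.Adj u z.1.snd := by
    have := z.1.adj
    rwa [hzf] at this
  -- all neighbours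
  have hall : H.neighborSet u = {a1, y.1.snd, z.1.snd} := by
    symm
    refine Set.eq_of_subset_of_ncard_le ?_ ?_ (Set.toFinite _)
    · rintro t (rfl | rfl | rfl)
      · exact ha1
      · exact hay
      · exact haz
    · rw [hu, Set.ncard_insert_of_notMem, Set.ncard_insert_of_notMem, Set.ncard_singleton]
      · simpa using n23
      · rintro (h | h)
        · exact n12 h.symm
        · exact n13 h.symm
  -- the third corner
  have hcx : S.corner x = y := rfl
  have hcy : S.corner y = x := S.invol x
  have hcx' : S.corner x.across = z := rfl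
  have hcz : S.corner z = x.across := S.invol _
  have hyac : ∀ t : Flag H, Flag.across (Flag.across t) = t := fun t => across_isInv.inv t
  have hthird : S.corner y.across = z.across := by
    set t := S.corner y.across with ht
    have htf : t.1.fst = u := by rw [ht, S.fst]; exact hyf
    have hct : S.corner t = y.across := by rw [ht, S.invol]
    have hta : t.1.snd ∈ H.neighborSet u := by
      have := t.1.adj
      rw [htf] at this
      exact this
    rw [hall] at hta
    have hyx : y.across ≠ y := across_isInv.ne y
    have hne1 : t ≠ x := fun h => by rw [h, hcx] at hct; exact hyx hct.symm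
    have hne2 : t ≠ x.across := fun h => by
      rw [h, hcx'] at hct
      exact n23 (congrArg (fun r : Flag H => r.1.snd) hct).symm
    have hne3 : t ≠ y := fun h => by
      rw [h, hcy] at hct
      exact n12 (congrArg (fun r : Flag H => r.1.snd) hct).symm
    have hne4 : t ≠ y.across := fun h => by
      rw [h] at hct
      exact S.ne _ hct
    have hne5 : t ≠ z := fun h => by
      rw [h, hcz] at hct
      exact n12 (congrArg (fun r : Flag H => r.1.snd) hct).symm
    rcases hta with h | h | h
    · exfalso
      rcases flag_eq (x := x) (y := t) htf h with h' | h'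
      · exact hne1 h'
      · exact hne2 h'
    · exfalso
      rcases flag_eq (x := y) (y := t) (by rw [htf, hyf]) h with h' | h'
      · exact hne3 h'
      · exact hne4 h'
    · rcases flag_eq (x := z) (y := t) (by rw [htf, hzf]) h with h' | h'
      · exact absurd h' hne5
      · exact h'
  -- the opposite vertices
  let c1 : V := opp S x
  let c2 : V := opp S x.across
  let c3 : V := opp S y.across
  have d12 : c1 ≠ c2 := opp_across_ne S h3 x
  have e1 : c1 = opp S y := (opp_corner S h4 x).symm
  have d13 : c1 ≠ c3 := by rw [e1]; exact opp_across_ne S h3 y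
  have e2 : c2 = opp S z := (opp_corner S h4 x.across).symm
  have e3 : c3 = opp S z.across := by
    have := opp_corner S h4 y.across
    rw [hthird] at this
    exact this.symm
  have d23 : c2 ≠ c3 := by rw [e2, e3]; exact opp_across_ne S h3 z
  have hc : ∀ t : Flag H, t.1.fst = u → opp S t ≠ u ∧
      ∀ r, H.Adj u r → opp S t ≠ r := by
    intro t ht
    refine ⟨?_, ?_⟩
    · have := opp_ne S h3 t
      rwa [ht] at this
    · intro r hr h
      have h1 := adj_opp S t
      rw [h] at h1
      have h2 := t.1.adj
      rw [ht] at h2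
      exact tri _ _ h2 hr h1
  have hyaf : y.across.1.fst = u := hyf
  have k1 := hc x rfl
  have k2 := hc x.across rfl
  have k3 := hc y.across hyaf
  have m : ∀ t : Flag H, t.1.fst = u → opp S t ∈ S.D u := by
    intro t ht
    have := opp_mem S t
    rwa [ht] at this
  have hsub : (insert u (insert a1 (insert y.1.snd (insert z.1.snd (insert c1 (insert c2
      ({c3} : Set V))))))) ⊆ S.D u := by
    rintro t (rfl | rfl | rfl | rfl | rfl | rfl | rfl)
    · exact self_mem_D S ha1
    · exact mem_D_of_adj S ha1
    · exact mem_D_of_adj S hay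
    · exact mem_D_of_adj S haz
    · exact m x rfl
    · exact m x.across rfl
    · exact m y.across hyaf
  have hle := Set.ncard_le_ncard hsub (Set.toFinite _)
  rw [Set.ncard_insert_of_notMem, Set.ncard_insert_of_notMem, Set.ncard_insert_of_notMem,
    Set.ncard_insert_of_notMem, Set.ncard_insert_of_notMem, Set.ncard_insert_of_notMem,
    Set.ncard_singleton] at hle
  · exact hle
  · simpa using d23
  · rintro (h | h)
    · exact d12 h
    · exact d13 h
  · rintro (h | h | h)
    · exact k1.2 _ haz h.symm
    · exact k2.2 _ haz h.symm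
    · exact k3.2 _ haz h.symm
  · rintro (h | h | h | h)
    · exact n23 h
    · exact k1.2 _ hay h.symm
    · exact k2.2 _ hay h.symm
    · exact k3.2 _ hay h.symm
  · rintro (h | h | h | h | h)
    · exact n12 h.symm
    · exact n13 h.symm
    · exact k1.2 _ ha1 h.symm
    · exact k2.2 _ ha1 h.symm
    · exact k3.2 _ ha1 h.symm
  · rintro (h | h | h | h | h | h)
    · exact ha1.ne h
    · exact hay.ne h
    · exact haz.ne h
    · exact k1.1 h.symm
    · exact k2.1 h.symm
    · exact k3.1 h.symm

private theorem nbr_fst {u v : V} (huv : G.Adj u v) :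
    (G.deleteEdges {s(u, v)}).neighborSet u = G.neighborSet u \ {v} := by
  ext z
  simp only [mem_neighborSet, deleteEdges_adj, Set.mem_singleton_iff, Set.mem_sdiff]
  refine and_congr_right (fun hz => not_congr ?_)
  rw [Sym2.eq_iff]
  constructor
  · rintro (h | h)
    · exact h.2
    · exact absurd h.1 huv.ne
  · intro h; exact Or.inl ⟨rfl, h⟩

private theorem nbr_snd {u v : V} (huv : G.Adj u v) :
    (G.deleteEdges {s(u, v)}).neighborSet v = G.neighborSet v \ {u} := by
  rw [Sym2.eq_swap]
  exact nbr_fst huv.symm

private theorem three_le [Finite V] {k : ℕ} (h : Hopper G k) {u v : V} (huv : G.Adj u v) (w : V) :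
    3 ≤ ((G.deleteEdges {s(u, v)}).neighborSet w).ncard := by
  have h4 := h.four_le w
  by_cases h1 : w = u
  · subst h1
    rw [nbr_fst huv]
    have := Set.ncard_sdiff_singleton_add_one (s := G.neighborSet w) (a := v) huv (Set.toFinite _)
    omega
  by_cases h2 : w = v
  · subst h2
    rw [nbr_snd huv]
    have := Set.ncard_sdiff_singleton_add_one (s := G.neighborSet w) (a := u) huv.symm
      (Set.toFinite _)
    omega
  rw [DsetAux.neighborSet_del h1 h2]
  omega

end DsetCAux

/-- If all faces of the embedding of `G - uv` are 4-cycles and `u` has degree four, then at least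
seven vertices share a face with `u`. -/
theorem Hopper.seven_le_D [Finite V] {k : ℕ} (h : Hopper G k) {u v : V} (huv : G.Adj u v)
    (S : Scheme (G.deleteEdges {s(u, v)})) (h4 : ∀ x, S.next^[4] x = x)
    (hu : (G.neighborSet u).ncard = 4) : 7 ≤ (S.D u).ncard := by
  refine DsetCAux.seven_gen S h4 (DsetCAux.three_le h huv) ?_ ?_
  · rw [DsetCAux.nbr_fst huv]
    have := Set.ncard_sdiff_singleton_add_one (s := G.neighborSet u) (a := v) huv (Set.toFinite _)
    omega
  · intro p q hp hq hpq
    exact h.triangleFree (deleteEdges_adj.1 hp).1 (deleteEdges_adj.1 hq).1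
      (deleteEdges_adj.1 hpq).1

theorem Hopper.seven_le_D' [Finite V] {k : ℕ} (h : Hopper G k) {u v : V} (huv : G.Adj u v)
    (S : Scheme (G.deleteEdges {s(u, v)})) (h4 : ∀ x, S.next^[4] x = x)
    (hv : (G.neighborSet v).ncard = 4) : 7 ≤ (S.D v).ncard := by
  refine DsetCAux.seven_gen S h4 (DsetCAux.three_le h huv) ?_ ?_
  · rw [DsetCAux.nbr_snd huv]
    have := Set.ncard_sdiff_singleton_add_one (s := G.neighborSet v) (a := u) huv.symm
      (Set.toFinite _)
    omega
  · intro p q hp hq hpq
    exact h.triangleFree (deleteEdges_adj.1 hp).1 (deleteEdges_adj.1 hq).1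
      (deleteEdges_adj.1 hpq).1

end Pool.Agent.H20.Hop
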