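import Mathlib
import Pool.Agent.H20.Hop.FinA
import Pool.Agent.H20.Hop.DsetC

set_option autoImplicit false

/-!
The case of `2n + 1` edges.
-/

namespace Pool.Agent.H20.Hop

open SimpleGraph

variable {V : Type*} {G : SimpleGraph V}

/-- With `2n + 1` edges all faces of the embedding of `G - uv` are 4-cycles. -/
theorem Hopper.odd_quads [Finite V] (h : Hopper G 2)
    (hm : Nat.card G.edgeSet = 2 * Nat.card V + 1) {u v : V} (huv : G.Adj u v)
    (S : Scheme (G.deleteEdges {s(u, v)})) (hS : S.EulerGenusLE 2)
    (x : Flag (G.deleteEdges {s(u, v)})) : S.next^[4] x = x := by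
  classical
  by_contra hx
  have h1 := h.euler_del huv S hS {x} (by
    intro y hy
    rw [Finset.mem_singleton] at hy
    rw [hy]
    exact hx) (by
    intro y hy z hz hyz
    rw [Finset.mem_singleton] at hy hz
    exact absurd (hy.trans hz.symm) hyz)
  rw [Finset.card_singleton] at h1
  omega

/-- With `2n + 1` edges: an edge between vertices of degree four has a neighbour of degree at least
five at `u` (`contr_count` gives `T.card ≥ 4`, `match_left`). -/
theorem Hopper.odd_big [Finite V] (h : Hopper G 2)
    (hm : Nat.card G.edgeSet = 2 * Nat.card V + 1) {u v : V} (huv : G.Adj u v)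
    (hu : (G.neighborSet u).ncard = 4) (hv : (G.neighborSet v).ncard = 4) :
    ∃ a, G.Adj u a ∧ 5 ≤ (G.neighborSet a).ncard := by
  classical
  by_contra hcon
  push Not at hcon
  have hdeg : ∀ a, G.Adj u a → (G.neighborSet a).ncard = 4 := by
    intro a ha
    have h1 := hcon a ha
    have h2 := h.four_le a
    omega
  obtain ⟨T, Q, r, hT, -, -, hcount⟩ := h.contr_count huv hu hv
  have hT4 : 4 ≤ T.card := by omega
  have hle : T.card ≤ (G.neighborSet u \ {v}).ncard := by
    rw [← Set.ncard_coe_finset]
    refine Set.ncard_le_ncard_of_injOn Prod.fst ?_ ?_ (Set.toFinite _)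
    · intro c hc
      have hc' := hT c hc
      exact ⟨hc'.1, hc'.2.1⟩
    · intro c hc c' hc' hcc
      have h1 := hT c hc
      have h2 := hT c' hc'
      have h3 : (c.1, c.2) ∈ Pairs G u v := h1
      have h4 : (c.1, c'.2) ∈ Pairs G u v := by rw [hcc]; exact h2
      exact Prod.ext hcc (h.match_left huv (hdeg _ h1.1) h3 h4)
  have h5 : (G.neighborSet u \ {v}).ncard + 1 = (G.neighborSet u).ncard :=
    Set.ncard_sdiff_singleton_add_one huv (Set.toFinite _)
  omega

private theorem sum_ncard [Fintype V] :
    ∑ v, (G.neighborSet v).ncard = 2 * Nat.card G.edgeSet := by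
  classical
  rw [Nat.card_eq_fintype_card, ← edgeFinset_card, ← G.sum_degrees_eq_twice_card_edges]
  refine Finset.sum_congr rfl (fun v _ => ?_)
  rw [Set.ncard_eq_toFinset_card']
  rfl

/-- the vertices of degree at least five -/
private theorem big_bound [Fintype V] [DecidableEq V] (h : Hopper G 2)
    (hm : Nat.card G.edgeSet = 2 * Nat.card V + 1)
    (B : Finset V) (hB : ∀ v, v ∈ B ↔ 5 ≤ (G.neighborSet v).ncard) :
    B.card ≤ 2 ∧ ∑ v ∈ B, (G.neighborSet v).ncard = 4 * B.card + 2 := by
  have h1 : ∑ v, (G.neighborSet v).ncard = 2 * Nat.card G.edgeSet := sum_ncard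
  have h2 : ∑ v, (G.neighborSet v).ncard =
      ∑ v ∈ B, (G.neighborSet v).ncard + ∑ v ∈ Bᶜ, (G.neighborSet v).ncard :=
    (Finset.sum_add_sum_compl B _).symm
  have h3 : ∑ v ∈ Bᶜ, (G.neighborSet v).ncard = 4 * Bᶜ.card := by
    rw [Finset.sum_congr rfl (g := fun _ => 4), Finset.sum_const, smul_eq_mul, mul_comm]
    intro v hv
    rw [Finset.mem_compl, hB] at hv
    have := h.four_le v
    omega
  have h4 : B.card + Bᶜ.card = Nat.card V := by
    rw [Finset.card_add_card_compl, Nat.card_eq_fintype_card]
  have h5 : 5 * B.card ≤ ∑ v ∈ B, (G.neighborSet v).ncard := by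
    rw [mul_comm, ← smul_eq_mul, ← Finset.sum_const]
    exact Finset.sum_le_sum (fun v hv => (hB v).1 hv)
  constructor <;> omega

/-- With `2n + 1` edges there are at most twelve vertices: the sum of `degree - 4` is two, so there
are at most two vertices of degree at least five, with together at most ten neighbours, and every
vertex of degree four has such a neighbour. -/
theorem Hopper.odd_card_le [Finite V] (h : Hopper G 2)
    (hm : Nat.card G.edgeSet = 2 * Nat.card V + 1) : Nat.card V ≤ 12 := by
  classical
  have := Fintype.ofFinite V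
  let B : Finset V := Finset.univ.filter (fun v => 5 ≤ (G.neighborSet v).ncard)
  have hB : ∀ v, v ∈ B ↔ 5 ≤ (G.neighborSet v).ncard := fun v => by simp [B]
  obtain ⟨h1, h2⟩ := big_bound h hm B hB
  have hcov : ∀ u : V, u ∈ B ∨ ∃ a ∈ B, G.Adj a u := by
    intro u
    by_cases hu : u ∈ B
    · exact Or.inl hu
    · right
      have hu4 : (G.neighborSet u).ncard = 4 := by
        rw [hB] at hu
        have := h.four_le u
        omega
      obtain ⟨w, hw⟩ := h.noIsol u
      by_cases hwB : w ∈ B
      · exact ⟨w, hwB, hw.symm⟩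
      · have hw4 : (G.neighborSet w).ncard = 4 := by
          rw [hB] at hwB
          have := h.four_le w
          omega
        obtain ⟨a, ha, ha5⟩ := h.odd_big hm hw hu4 hw4
        exact ⟨a, (hB a).2 ha5, ha.symm⟩
  have hsub : (Finset.univ : Finset V) ⊆
      B ∪ B.biUnion (fun a => (G.neighborSet a).toFinset) := by
    intro u _
    rw [Finset.mem_union, Finset.mem_biUnion]
    rcases hcov u with hu | ⟨a, ha, hau⟩
    · exact Or.inl hu
    · right
      exact ⟨a, ha, by rw [Set.mem_toFinset]; exact hau⟩
  have h3 := Finset.card_le_card hsub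
  have h4 := Finset.card_union_le B (B.biUnion (fun a => (G.neighborSet a).toFinset))
  have h5 : (B.biUnion (fun a => (G.neighborSet a).toFinset)).card ≤
      ∑ a ∈ B, (G.neighborSet a).ncard := by
    refine Finset.card_biUnion_le.trans (Finset.sum_le_sum (fun a _ => ?_))
    rw [Set.ncard_eq_toFinset_card']
  rw [Finset.card_univ, ← Nat.card_eq_fintype_card] at h3
  omega

/-- The case of `2n + 1` edges is impossible (`seven_le_D`, `seven_le_D'`, `disjoint_D` for an edge
between two vertices of degree four). -/
theorem Hopper.odd_false [Finite V] (h : Hopper G 2)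
    (hm : Nat.card G.edgeSet = 2 * Nat.card V + 1) : False := by
  classical
  have := Fintype.ofFinite V
  have h12 := h.odd_card_le hm
  let B : Finset V := Finset.univ.filter (fun v => 5 ≤ (G.neighborSet v).ncard)
  have hB : ∀ v, v ∈ B ↔ 5 ≤ (G.neighborSet v).ncard := fun v => by simp [B]
  obtain ⟨h1, h2⟩ := big_bound h hm B hB
  -- at least five vertices
  have h5 : 5 ≤ Nat.card V := by
    obtain ⟨u, v, huv⟩ := h.exists_adj
    have h4 := h.four_le u
    have h6 : (insert u (G.neighborSet u)).ncard = (G.neighborSet u).ncard + 1 :=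
      Set.ncard_insert_of_notMem (fun he => G.loopless.irrefl u he) (Set.toFinite _)
    have h7 : (insert u (G.neighborSet u)).ncard ≤ (Set.univ : Set V).ncard :=
      Set.ncard_le_ncard (Set.subset_univ _) (Set.toFinite _)
    rw [Set.ncard_univ] at h7
    omega
  -- an edge between two vertices of degree four
  have hex : ∃ u v, G.Adj u v ∧ u ∉ B ∧ v ∉ B := by
    by_contra hcon
    push Not at hcon
    have hsub : G.edgeFinset ⊆ B.biUnion (fun a => G.incidenceFinset a) := by
      intro e he
      rw [Finset.mem_biUnion]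
      induction e using Sym2.ind with
      | _ x y =>
        have hxy : G.Adj x y := by
          rw [mem_edgeFinset] at he
          exact he
        by_cases hx : x ∈ B
        · refine ⟨x, hx, ?_⟩
          rw [mem_incidenceFinset]
          exact ⟨hxy, Sym2.mem_mk_left x y⟩
        · have hy := hcon x y hxy hx
          refine ⟨y, hy, ?_⟩
          rw [mem_incidenceFinset]
          exact ⟨hxy, Sym2.mem_mk_right x y⟩
    have h6 := Finset.card_le_card hsub
    have h7 : (B.biUnion (fun a => G.incidenceFinset a)).card ≤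
        ∑ a ∈ B, (G.neighborSet a).ncard := by
      refine Finset.card_biUnion_le.trans (Finset.sum_le_sum (fun a _ => ?_))
      rw [card_incidenceFinset_eq_degree, Set.ncard_eq_toFinset_card']
      exact le_of_eq rfl
    have h8 : G.edgeFinset.card = Nat.card G.edgeSet := by
      rw [edgeFinset_card, Nat.card_eq_fintype_card]
    omega
  obtain ⟨u, v, huv, hu, hv⟩ := hex
  have hu4 : (G.neighborSet u).ncard = 4 := by
    rw [hB] at hu
    have := h.four_le u
    omega
  have hv4 : (G.neighborSet v).ncard = 4 := by
    rw [hB] at hv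
    have := h.four_le v
    omega
  obtain ⟨S, hS⟩ := h.del u v huv
  have hq := h.odd_quads hm huv S hS
  have h7 := h.seven_le_D huv S hq hu4
  have h7' := h.seven_le_D' huv S hq hv4
  have hd := h.disjoint_D huv S hS
  have hun := Set.ncard_union_eq hd (Set.toFinite _) (Set.toFinite _)
  have hle : (S.D u ∪ S.D v).ncard ≤ (Set.univ : Set V).ncard :=
    Set.ncard_le_ncard (Set.subset_univ _) (Set.toFinite _)
  rw [Set.ncard_univ] at hle
  omega

end Pool.Agent.H20.Hop
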