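import Mathlib
import Pool.Agent.H20.Hop.FinB
import Pool.Agent.H20.Hop.FinC

set_option autoImplicit false

/-!
No hopper for `k <= 2`.
-/

namespace Pool.Agent.H20.Hop

open SimpleGraph

variable {V : Type*} {G : SimpleGraph V}

theorem Hopper.three_le [Finite V] {k : ℕ} (h : Hopper G k) : 3 ≤ k := by
  have h2 := h.two_le
  by_contra hk
  have hk2 : k = 2 := by omega
  subst hk2
  rcases h.card_edge_cases with hm | hm
  · exact h.even_false hm
  · exact h.odd_false hm

end Pool.Agent.H20.Hop
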