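import Mathlib
import Pool.Agent.H20.Hop.Layer
import Pool.Agent.H20.Hop.Main

set_option autoImplicit false

/-!
A common obstruction of `N_k` and `N_{k+1}` has at most `5 ^ (441 k)` vertices.
-/

namespace Pool.Agent.H20.Hop

open SimpleGraph

variable {V : Type*} {G : SimpleGraph V}

/-- the vertices which are not clean -/
theorem Hopper.unclean [Finite V] {k : ℕ} (h : Hopper G k) {u v : V} (huv : G.Adj u v)
    (S : Scheme (G.deleteEdges {s(u, v)})) (hS : S.EulerGenusLE k) :
    {z | ¬ Clean u v (tot S) z}.ncard + 64 ≤ 44 * k := by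
  classical
  have := finite_flag_g G
  have h1 := h.bad_le huv S hS
  have h2 := h.card_big
  have hsub : {z | ¬ Clean u v (tot S) z} ⊆
      insert u (insert v ({z | (G.neighborSet z).ncard ≠ 4} ∪
        (fun x : Flag G => x.1.fst) '' {x | ¬ OnE u v x ∧ (nx (tot S))^[4] x ≠ x})) := by
    intro z hz
    by_cases e1 : z = u
    · exact Or.inl e1
    by_cases e2 : z = v
    · exact Or.inr (Or.inl e2)
    by_cases e3 : (G.neighborSet z).ncard = 4
    · refine Or.inr (Or.inr (Or.inr ?_))
      have : ∃ x : Flag G, x.1.fst = z ∧ (nx (tot S))^[4] x ≠ x := by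
        by_contra hcon
        push Not at hcon
        exact hz ⟨e1, e2, e3, hcon⟩
      obtain ⟨x, hx, hx4⟩ := this
      refine ⟨x, ⟨?_, hx4⟩, hx⟩
      rintro (⟨f1, _⟩ | ⟨f1, _⟩)
      · exact e1 (hx ▸ f1)
      · exact e2 (hx ▸ f1)
    · exact Or.inr (Or.inr (Or.inl e3))
  have e1 := Set.ncard_le_ncard hsub (Set.toFinite _)
  have e2 := Set.ncard_insert_le u (insert v ({z | (G.neighborSet z).ncard ≠ 4} ∪
        (fun x : Flag G => x.1.fst) '' {x | ¬ OnE u v x ∧ (nx (tot S))^[4] x ≠ x}))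
  have e3 := Set.ncard_insert_le v ({z | (G.neighborSet z).ncard ≠ 4} ∪
        (fun x : Flag G => x.1.fst) '' {x | ¬ OnE u v x ∧ (nx (tot S))^[4] x ≠ x})
  have e4 := Set.ncard_union_le {z | (G.neighborSet z).ncard ≠ 4}
        ((fun x : Flag G => x.1.fst) '' {x | ¬ OnE u v x ∧ (nx (tot S))^[4] x ≠ x})
  have e5 := Set.ncard_image_le (f := fun x : Flag G => x.1.fst)
    (Set.toFinite {x | ¬ OnE u v x ∧ (nx (tot S))^[4] x ≠ x})
  omega

/-- the vertices of a quadrangle are near each other -/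
theorem quad_near {c : Flag G → Flag G} (hc : IsInv c) (hf : ∀ x, (c x).1.fst = x.1.fst)
    {y : Flag G} (h4 : (nx c)^[4] y = y) {z : Flag G} (hz : Rel Flag.along c y z) :
    z.1.fst ∈ nb G {y.1.fst} 2 := by
  have h4' : nx c (nx c (nx c (nx c y))) = y := h4
  have m0 : y.1.fst ∈ nb G {y.1.fst} 0 := rfl
  have v1 : (nx c y).1.fst = y.1.snd := nx_fst hf y
  have v2 : (nx c (nx c y)).1.fst = (nx c y).1.snd := nx_fst hf _
  have v3 : (nx c (nx c (nx c y))).1.fst = (nx c (nx c y)).1.snd := nx_fst hf _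
  have v4 : (nx c (nx c (nx c (nx c y)))).1.fst = (nx c (nx c (nx c y))).1.snd := nx_fst hf _
  rw [h4'] at v4
  have m1 : (nx c y).1.fst ∈ nb G {y.1.fst} 1 := by
    rw [v1]
    exact nb_adj m0 y.1.adj
  have m2 : (nx c (nx c y)).1.fst ∈ nb G {y.1.fst} 2 := by
    rw [v2]
    exact nb_adj m1 (nx c y).1.adj
  have m3 : (nx c (nx c (nx c y))).1.fst ∈ nb G {y.1.fst} 1 := by
    refine nb_adj m0 ?_
    rw [v4]
    exact (nx c (nx c (nx c y))).1.adj.symm
  have all : ∀ i, i < 4 → ((nx c)^[i] y).1.fst ∈ nb G {y.1.fst} 2 := by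
    intro i hi
    have : i = 0 ∨ i = 1 ∨ i = 2 ∨ i = 3 := by omega
    rcases this with rfl | rfl | rfl | rfl
    · exact nb_mono _ (by omega) m0
    · exact nb_mono _ (by omega) m1
    · exact m2
    · exact nb_mono _ (by omega) m3
  have key := Rel.mem_of_closed (a := Flag.along) (b := c)
    (C := fun z => ∃ i : ℕ, i < 4 ∧ (z = (nx c)^[i] y ∨ z = ((nx c)^[i] y).along))
    along_isInv hc
    (by
      rintro z ⟨i, hi, rfl | rfl⟩
      · exact ⟨i, hi, Or.inr rfl⟩
      · exact ⟨i, hi, Or.inl (along_isInv.inv _)⟩)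
    (by
      rintro z ⟨i, hi, rfl | rfl⟩
      · rcases Nat.eq_zero_or_pos i with rfl | h0
        · refine ⟨3, by norm_num, Or.inr ?_⟩
          change c y = _
          conv_lhs => rw [← h4]
          rw [Function.iterate_succ_apply']
          change c (c _) = _
          rw [hc.inv]
        · obtain ⟨j, rfl⟩ : ∃ j, i = j + 1 := ⟨i - 1, by omega⟩
          refine ⟨j, by omega, Or.inr ?_⟩
          rw [Function.iterate_succ_apply']
          change c (c _) = _
          rw [hc.inv]
      · by_cases h3 : i = 3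
        · subst h3
          refine ⟨0, by norm_num, Or.inl ?_⟩
          have : c ((nx c)^[3] y).along = (nx c)^[4] y := by
            rw [Function.iterate_succ_apply' (nx c) 3 y]
            rfl
          rw [this, h4]
          rfl
        · refine ⟨i + 1, by omega, Or.inl ?_⟩
          rw [Function.iterate_succ_apply' (nx c) i y]
          rfl) hz ⟨0, by norm_num, Or.inl rfl⟩
  obtain ⟨i, hi, rfl | rfl⟩ := key
  · exact all i hi
  · have e : (((nx c)^[i] y).along).1.fst = ((nx c)^[i + 1] y).1.fst := by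
      rw [Function.iterate_succ_apply' (nx c) i y]
      exact (nx_fst hf _).symm
    rw [e]
    by_cases h3 : i = 3
    · subst h3
      rw [h4]
      exact nb_mono _ (by omega) m0
    · exact all (i + 1) (by omega)

theorem four_class [Finite V] {u v : V} (S : Scheme (G.deleteEdges {s(u, v)})) {x : Flag G}
    (hx : OnE u v x) : 4 ≤ {y | Rel Flag.along (tot S) x y}.ncard := by
  classical
  have := finite_flag_g G
  have hsub : insert x (insert x.across (insert x.along {x.across.along})) ⊆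
      {y | Rel Flag.along (tot S) x y} := by
    have r1 : Rel Flag.along (tot S) x x.across := by
      have := rel_snd Flag.along (tot S) x
      rwa [tot_on S hx] at this
    rintro y (rfl | rfl | rfl | rfl)
    · exact rel_refl _ _ _
    · exact r1
    · exact rel_fst _ _ _
    · exact r1.trans (rel_fst _ _ _)
  have d1 : x ≠ x.across := fun hc => across_isInv.ne x hc.symm
  have d2 : x ≠ x.along := fun hc => along_isInv.ne x hc.symm
  have d3 : x ≠ x.across.along := by
    intro hc
    exact x.1.adj.ne (congrArg (fun z : Flag G => z.1.fst) hc)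
  have d4 : x.across ≠ x.along := by
    intro hc
    exact x.1.adj.ne (congrArg (fun z : Flag G => z.1.fst) hc)
  have d5 : x.across ≠ x.across.along := fun hc => along_isInv.ne x.across hc.symm
  have d6 : x.along ≠ x.across.along := by
    intro hc
    exact across_isInv.ne x.along hc.symm
  have e := Set.ncard_le_ncard hsub (Set.toFinite _)
  rw [Set.ncard_insert_of_notMem (by
      rintro (hc | hc | hc)
      · exact d1 hc
      · exact d2 hc
      · exact d3 hc) (Set.toFinite _),
    Set.ncard_insert_of_notMem (by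
      rintro (hc | hc)
      · exact d4 hc
      · exact d5 hc) (Set.toFinite _),
    Set.ncard_insert_of_notMem (by
      intro hc
      exact d6 hc) (Set.toFinite _), Set.ncard_singleton] at e
  exact e

/-- one of many disjoint layers avoids a small set -/
theorem exists_free [Finite V] (A B : Set V) (b : ℕ) (hB : B.ncard ≤ b) :
    ∃ t ≤ b, ∀ w ∈ nb G A (10 * t + 10), w ∉ nb G A (10 * t) → w ∉ B := by
  classical
  by_contra hcon
  push Not at hcon
  have hex : ∀ t : Fin (b + 1), ∃ w, w ∈ nb G A (10 * t.1 + 10) ∧ w ∉ nb G A (10 * t.1) ∧ w ∈ B := by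
    intro t
    obtain ⟨w, h1, h2, h3⟩ := hcon t.1 (by omega)
    exact ⟨w, h1, h2, h3⟩
  choose f hf using hex
  have hlt : ∀ s t : Fin (b + 1), s.1 < t.1 → f s ≠ f t := by
    intro s t hst hc
    apply (hf t).2.1
    rw [← hc]
    exact nb_mono A (by omega) (hf s).1
  have hinj : Function.Injective f := by
    intro s t hst
    by_contra hne
    rcases lt_trichotomy s.1 t.1 with h1 | h1 | h1
    · exact hlt s t h1 hst
    · exact hne (Fin.ext h1)
    · exact hlt t s h1 hst.symm
  have h1 : (Set.range f).ncard ≤ B.ncard :=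
    Set.ncard_le_ncard (by rintro _ ⟨t, rfl⟩; exact (hf t).2.2) (Set.toFinite _)
  rw [← Set.image_univ, Set.ncard_image_of_injective _ hinj, Set.ncard_univ,
    Nat.card_eq_fintype_card, Fintype.card_fin] at h1
  omega

/-- the main theorem for hoppers: every vertex is near the unclean vertices of one embedding -/
theorem Hopper.near [Finite V] {k : ℕ} (h : Hopper G k) {p q : V} (hpq : G.Adj p q)
    (S1 : Scheme (G.deleteEdges {s(p, q)})) (b : ℕ) (hb : b + 64 = 44 * k) (x : V) :
    x ∈ nb G {z | ¬ Clean p q (tot S1) z} (10 * b + 11) := by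
  classical
  by_contra hfar
  obtain ⟨y, hxy⟩ := h.noIsol x
  obtain ⟨S2, hS2⟩ := h.del x y hxy
  have h1 : PC G p q (tot S1) := tot_pc S1 (h.three_le_del hpq)
  have he : PC G x y (tot S2) := tot_pc S2 (h.three_le_del hxy)
  have hBe := h.unclean hxy S2 hS2
  obtain ⟨t, ht, hfree⟩ := exists_free (G := G) {x, y} {z | ¬ Clean x y (tot S2) z} b (by omega)
  -- near `x` everything is clean for the first embedding
  have hclean1 : ∀ w ∈ nb G {x, y} (10 * b + 10), Clean p q (tot S1) w := by
    intro w hw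
    by_contra hnc
    apply hfar
    obtain ⟨a, ha, hwa⟩ := nb_single hw
    have hax : a ∈ nb G {x} 1 := by
      rcases ha with rfl | ha
      · exact nb_succ _ _ (rfl : a ∈ nb G {a} 0)
      · have : a = y := ha
        rw [this]
        exact nb_adj (i := 0) rfl hxy
    have hwx : w ∈ nb G {x} (1 + (10 * b + 10)) := nb_trans hax hwa
    have hxw := nb_symm hwx
    have hw0 : w ∈ nb G {z | ¬ Clean p q (tot S1) z} 0 := hnc
    have := nb_trans hw0 hxw
    exact nb_mono _ (by omega) this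
  set j := 10 * t + 4 with hj
  have hjb : j + 6 ≤ 10 * b + 10 := by omega
  have hU : ∀ z ∈ nb G {x, y} (j + 2), z ∉ nb G {x, y} j → ∀ w ∈ nb G {z} 4,
      w ∈ nb G {x, y} (j + 6) ∧ w ∉ nb G {x, y} (10 * t) := by
    intro z hz hzj w hw
    have h5 : w ∈ nb G {x, y} (j + 2 + 4) := nb_trans hz hw
    refine ⟨h5, fun hc => hzj ?_⟩
    have h6 : z ∈ nb G {x, y} (10 * t + 4) := nb_trans hc (nb_symm hw)
    exact h6
  have hU1 : ∀ z ∈ nb G {x, y} (j + 2) \ nb G {x, y} j, ∀ w ∈ nb G {z} 4,
      Clean p q (tot S1) w := by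
    rintro z ⟨hz, hzj⟩ w hw
    exact hclean1 w (nb_mono _ hjb (hU z hz hzj w hw).1)
  have hUe : ∀ z ∈ nb G {x, y} (j + 2) \ nb G {x, y} j, ∀ w ∈ nb G {z} 4,
      Clean x y (tot S2) w := by
    rintro z ⟨hz, hzj⟩ w hw
    have h5 := hU z hz hzj w hw
    exact not_not.1 (hfree w h5.1 h5.2)
  have hself : ∀ z : V, z ∈ nb G {z} 4 := fun z => nb_mono _ (Nat.zero_le 4) (rfl : z ∈ nb G {z} 0)
  have hag : ∀ z ∈ nb G {x, y} (j + 2) \ nb G {x, y} j, ∀ f : Flag G, f.1.fst = z →
      AgF (tot S1) (tot S2) f := by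
    intro z hz
    obtain ⟨a, ha, hza⟩ := nb_single hz.1
    refine agree_of_clean h h1 he (hU1 z hz) (hUe z hz) (nb_symm hza) ?_
    rintro ⟨n1, n2, _⟩
    rcases ha with ha | ha
    · exact n1 ha
    · exact n2 ha
  obtain ⟨s, sa, sc, hs⟩ := exists_label h h1 he (U := nb G {x, y} (j + 2) \ nb G {x, y} j)
    (fun z hz => hU1 z hz z (hself z)) (fun z hz => hUe z hz z (hself z)) hag
  have hxW : x ∈ nb G {x, y} j := nb_mono _ (Nat.zero_le j) (Or.inl rfl : x ∈ nb G {x, y} 0)
  have hyW : y ∈ nb G {x, y} j := nb_mono _ (Nat.zero_le j) (Or.inr rfl : y ∈ nb G {x, y} 0)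
  have hW1 : ∀ w ∈ nb G {x, y} j, Clean p q (tot S1) w :=
    fun w hw => hclean1 w (nb_mono _ (by omega) hw)
  refine h.glue (p := p) (q := q) (c1 := tot S1) (c2 := conjF s (tot S2)) hxy S2 hS2 h1
    (conj_pc sc he) ?_ ?_ ?_ (W := nb G {x, y} j) hxW hyW (fun hc => (hW1 p hc).1 rfl)
    (fun hc => (hW1 q hc).2.1 rfl) ?_ ?_
  · rw [conj_norb sa sc, norb_tot hxy]
  · intro f hf
    refine le_trans ?_ (conj_class sa sc (tot S2) f)
    refine le_trans ?_ (fsize_tot S2 (flipF s f) hf)
    refine S2.eight_le_fsize (fun v => le_trans (by norm_num) (h.three_le_del hxy v))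
      (fun a b c hab hbc => h.tf_del a b c hab hbc) _
  · intro f hf
    exact le_trans (four_class S2 (x := flipF s f) hf) (conj_class sa sc (tot S2) f)
  · intro f hf
    exact (hW1 _ hf).2.2.2 f rfl
  · rintro z hz ⟨f, hf, hzf⟩
    refine hs z ⟨?_, hz⟩
    have h5 := quad_near h1.isInv h1.fst ((hW1 _ hf).2.2.2 f rfl) hzf.symm
    exact nb_trans hf h5

/-- the bound -/
theorem Hopper.card_le [Finite V] {k : ℕ} (h : Hopper G k) : Nat.card V ≤ 5 ^ (441 * k) := by
  classical
  have hk := h.three_le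
  obtain ⟨p, q, hpq⟩ := h.exists_adj
  obtain ⟨S1, hS1⟩ := h.del p q hpq
  have hB := h.unclean hpq S1 hS1
  obtain ⟨b, hb⟩ : ∃ b, b + 64 = 44 * k := ⟨44 * k - 64, by omega⟩
  have huniv : nb G {z | ¬ Clean p q (tot S1) z} (10 * b + 11) = Set.univ := by
    ext x
    simp only [Set.mem_univ, iff_true]
    exact h.near hpq S1 b hb x
  have hg := h.growth {z | ¬ Clean p q (tot S1) z} (10 * b + 11)
  rw [huniv, Set.ncard_univ] at hg
  have e1 : {z | ¬ Clean p q (tot S1) z}.ncard + k ≤ 5 ^ (k + 3) := by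
    have h2 : k + 1 ≤ 2 ^ k := Nat.lt_two_pow_self
    have h3 : 2 ^ k ≤ 5 ^ k := Nat.pow_le_pow_left (by norm_num) k
    have h4 : 5 ^ (k + 3) = 125 * 5 ^ k := by rw [pow_add]; ring
    omega
  have e2 : 5 ^ (10 * b + 11) * ({z | ¬ Clean p q (tot S1) z}.ncard + k) ≤
      5 ^ (10 * b + 11) * 5 ^ (k + 3) := Nat.mul_le_mul_left _ e1
  rw [← pow_add] at e2
  have e3 : 5 ^ (10 * b + 11 + (k + 3)) ≤ 5 ^ (441 * k) :=
    Nat.pow_le_pow_right (by norm_num) (by omega)
  omega

end Pool.Agent.H20.Hop
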