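import Mathlib
import Pool.Agent.H20.Hop.Layer

set_option autoImplicit false

/-!
Straight walks in a region of clean vertices: every vertex is reached from the unclean ones by a
walk with at most one turn.
-/

namespace Pool.Agent.H20.Hop

open SimpleGraph

variable {V : Type*} {G : SimpleGraph V}

/-- go on straight -/
def st (c : Flag G → Flag G) (y : Flag G) : Flag G := c (nx c y).across

/-- the opposite edge of a quadrangle -/
def par (c : Flag G → Flag G) (y : Flag G) : Flag G := nx c (c y)

variable {u v : V} {c : Flag G → Flag G}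

theorem st_fst (hf : ∀ x, (c x).1.fst = x.1.fst) (y : Flag G) : (st c y).1.fst = y.1.snd := by
  have h1 : (st c y).1.fst = (nx c y).across.1.fst := hf _
  rw [h1]
  exact nx_fst hf y

theorem par_eq (hi : ∀ x, c (c x) = x) {y : Flag G} (h4 : (nx c)^[4] y = y) :
    par c y = (nx c (nx c y)).along := by
  have h4' : c (nx c (nx c (nx c y))).along = y := h4
  have h5 : (nx c (nx c (nx c y))).along = c y := by
    have := congrArg c h4'
    rwa [hi] at this
  change c (c y).along = _
  rw [← h5, along_isInv.inv]
  change c (c _) = _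
  rw [hi]

theorem st_par (hi : ∀ x, c (c x) = x) {y : Flag G} (h4 : (nx c)^[4] y = y) :
    st c (par c y) = par c (st c y) := by
  have e1 : st c (par c y) = c (c (par c y).along).across := rfl
  have e2 : par c (st c y) = c (c (c (nx c y).across)).along := rfl
  rw [e1, e2, par_eq hi h4, along_isInv.inv, hi]
  have e3 : c (nx c (nx c y)) = (nx c y).along := by
    change c (c _) = _
    rw [hi]
  rw [e3]
  rfl

theorem par_snd (hi : ∀ x, c (c x) = x) (hf : ∀ x, (c x).1.fst = x.1.fst) {y : Flag G}
    (h4 : (nx c)^[4] y = y) : (par c y).1.snd = (nx c y).1.snd := by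
  rw [par_eq hi h4]
  exact nx_fst hf _

theorem par_nx (hi : ∀ x, c (c x) = x) (y : Flag G) : par c (nx c y) = c y := by
  change c (c (c y.along)).along = _
  rw [hi, along_isInv.inv]

theorem par_across (y : Flag G) : par c (nx c y).across = nx c (st c y) := rfl

theorem par_iter (hi : ∀ x, c (c x) = x) {y : Flag G} (i : ℕ)
    (h4 : ∀ j < i, (nx c)^[4] ((st c)^[j] y) = (st c)^[j] y) :
    par c ((st c)^[i] y) = (st c)^[i] (par c y) := by
  induction i with
  | zero => rfl
  | succ i ih =>
    rw [Function.iterate_succ_apply', Function.iterate_succ_apply',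
      ← ih (fun j hj => h4 j (by omega))]
    exact (st_par hi (h4 i (by omega))).symm

/-- the straight continuation is opposite -/
theorem st_opp [Finite V] (h : PC G u v c) {y : Flag G} (hc : Clean u v c y.1.snd) :
    Opp c y.1.snd y.1.fst (st c y).1.snd := by
  obtain ⟨w, hw⟩ := opp_exists h (x := y.along) (hc.notOn rfl) hc.2.2.1
  have hw' : Opp c y.1.snd y.1.fst w := hw
  have a1 := (st c y).1.adj
  rw [st_fst h.fst y] at a1
  have hg : (nx c y).1.fst = y.1.snd := nx_fst h.fst y
  have hon : ¬ OnE u v (nx c y) := hc.notOn hg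
  have hcg : c (nx c y) = y.along := h.invol _
  have x1 : (st c y).1.snd ≠ y.1.fst := by
    have := h.split (nx c y) hon
    rw [hcg] at this
    exact this.symm
  have x2 : (st c y).1.snd ≠ (nx c y).1.snd := h.turn (nx c y).across hon
  have x3 : (nx c y).1.snd ≠ y.1.fst := h.turn y.along (hc.notOn rfl)
  have x4 : (st c y).1.snd ≠ (c y.along.across).1.snd := by
    intro hcon
    have o1 := (opp_iff (c := c) (x := y.along) (b := w)).1 hw
    have o2 : Opp c (nx c y).1.fst (nx c y).1.snd w := by
      rw [opp_iff, hg]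
      refine ⟨o1.1, o1.2.2.1, ?_, ?_⟩
      · rw [hcg]
        exact o1.2.1
      · intro hh
        exact o1.2.2.2 (hh.trans hcon)
    rw [hg] at o2
    exact x3 (opp_unique h hc (o2.symm h.invol h.fst) (hw'.symm h.invol h.fst))
  have o3 : Opp c y.along.1.fst y.along.1.snd (st c y).1.snd :=
    opp_iff.2 ⟨a1, x1, x2, x4⟩
  exact o3

/-- the four neighbours of a clean vertex -/
theorem nb_cases [Finite V] (h : PC G u v c) {y : Flag G} (hc : Clean u v c y.1.snd) {w : V}
    (hw : G.Adj y.1.snd w) : w = y.1.fst ∨ w = (st c y).1.snd ∨ w = (nx c y).1.snd ∨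
      w = (nx c y.across).1.snd := by
  by_cases h1 : w = y.1.fst
  · exact Or.inl h1
  by_cases h2 : w = (nx c y).1.snd
  · exact Or.inr (Or.inr (Or.inl h2))
  by_cases h3 : w = (nx c y.across).1.snd
  · exact Or.inr (Or.inr (Or.inr h3))
  have o : Opp c y.along.1.fst y.along.1.snd w := opp_iff.2 ⟨hw, h1, h2, h3⟩
  exact Or.inr (Or.inl (opp_unique h hc o (st_opp h hc)))

theorem st_across [Finite V] (h : PC G u v c) {y : Flag G} (hc : Clean u v c y.1.snd) :
    st c y.across = (st c y).across := by
  have o1 := st_opp h hc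
  have o2 := st_opp h (y := y.across) hc
  have e1 : (st c y.across).1.snd = (st c y).1.snd := opp_unique h hc o2 o1
  have e2 : (st c y.across).1.fst = (st c y).1.fst := by
    rw [st_fst h.fst, st_fst h.fst]
    rfl
  rcases flag_cases' e2 e1 with e3 | e3
  · exfalso
    have e4 := congrArg c e3
    change c (c _) = c (c _) at e4
    rw [h.invol, h.invol] at e4
    have e5 : nx c y.across = nx c y := across_isInv.inv (nx c y.across) ▸
      across_isInv.inv (nx c y) ▸ congrArg Flag.across e4
    have e6 := congrArg c e5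
    change c (c _) = c (c _) at e6
    rw [h.invol, h.invol] at e6
    exact across_isInv.ne y.along e6
  · exact e3

theorem across_iter [Finite V] (h : PC G u v c) {y : Flag G} (i : ℕ)
    (hc : ∀ j < i, Clean u v c ((st c)^[j] y).1.snd) :
    (st c)^[i] y.across = ((st c)^[i] y).across := by
  induction i with
  | zero => rfl
  | succ i ih =>
    rw [Function.iterate_succ_apply', Function.iterate_succ_apply',
      ih (fun j hj => hc j (by omega))]
    exact st_across h (hc i (by omega))

theorem snd_iter (hf : ∀ x, (c x).1.fst = x.1.fst) (y : Flag G) (i : ℕ) :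
    ((st c)^[i] y).1.snd ∈ nb G {y.1.snd} i := by
  induction i with
  | zero => rfl
  | succ i ih =>
    rw [Function.iterate_succ_apply']
    refine nb_adj ih ?_
    have := (st c ((st c)^[i] y)).1.adj
    rw [st_fst hf] at this
    exact this

theorem fst_iter (hf : ∀ x, (c x).1.fst = x.1.fst) (y : Flag G) (i : ℕ) :
    ((st c)^[i] y).1.fst ∈ nb G {y.1.fst} i := by
  cases i with
  | zero => rfl
  | succ i =>
    rw [Function.iterate_succ_apply', st_fst hf]
    have h1 : y.1.snd ∈ nb G {y.1.fst} 1 := nb_adj (i := 0) rfl y.1.adj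
    have := nb_trans h1 (snd_iter hf y i)
    rwa [add_comm] at this

theorem snd_iter_from (hf : ∀ x, (c x).1.fst = x.1.fst) (y : Flag G) {i b : ℕ} (hib : i ≤ b) :
    ((st c)^[b] y).1.snd ∈ nb G {((st c)^[i] y).1.snd} (b - i) := by
  have := snd_iter hf ((st c)^[i] y) (b - i)
  rwa [← Function.iterate_add_apply, Nat.sub_add_cancel hib] at this

/-- reached by a walk with at most one turn -/
def Rp (c : Flag G → Flag G) (B : Set V) (w : V) (n : ℕ) : Prop :=
  ∃ y0 : Flag G, y0.1.fst ∈ B ∧ ((∃ a, a + 1 = n ∧ w = ((st c)^[a] y0).1.snd) ∨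
    ∃ a b, ∃ y1 : Flag G, (y1 = (st c)^[a] y0 ∨ y1 = ((st c)^[a] y0).across) ∧ a + b + 2 = n ∧
      w = ((st c)^[b] (nx c y1)).1.snd)

theorem rp_all [Finite V] (h : PC G u v c) {B : Set V} (hB : ∀ z, z ∉ B → Clean u v c z)
    (n : ℕ) : ∀ w ∈ nb G B (n + 1), w ∉ nb G B n → Rp c B w (n + 1) := by
  have hf := h.fst
  have hi := h.invol
  induction n with
  | zero =>
    intro w hw hwn
    rcases hw with hw | ⟨z, hz, hadj⟩
    · exact absurd hw hwn
    · exact ⟨(⟨(z, w), hadj⟩, false), hz, Or.inl ⟨0, rfl, rfl⟩⟩
  | succ n ih =>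
    intro w hw hwn
    rcases hw with hw | ⟨w', hw', hadj⟩
    · exact absurd hw hwn
    have hw'n : w' ∉ nb G B n := fun hc => hwn (nb_adj hc hadj)
    have hclean' : Clean u v c w' := hB w' (fun hc => hw'n (nb_mono B (Nat.zero_le n) hc))
    obtain ⟨y0, hy0, ⟨a, ha, hwa⟩ | ⟨a, b, y1, hy1, hab, hwb⟩⟩ := ih w' hw' hw'n
    · -- no turn yet
      have hc : Clean u v c ((st c)^[a] y0).1.snd := hwa ▸ hclean'
      rw [hwa] at hadj
      rcases nb_cases h hc hadj with e | e | e | e
      · exfalso
        apply hwn
        rw [e]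
        have h5 : ((st c)^[a] y0).1.fst ∈ nb G B (0 + a) :=
          nb_trans (i := 0) hy0 (fst_iter hf y0 a)
        exact nb_mono B (by omega) h5
      · refine ⟨y0, hy0, Or.inl ⟨a + 1, by omega, ?_⟩⟩
        rw [Function.iterate_succ_apply']
        exact e
      · exact ⟨y0, hy0, Or.inr ⟨a, 0, (st c)^[a] y0, Or.inl rfl, by omega, e⟩⟩
      · exact ⟨y0, hy0, Or.inr ⟨a, 0, ((st c)^[a] y0).across, Or.inr rfl, by omega, e⟩⟩
    · -- one turn
      have f1 : y1.1.fst ∈ nb G B a := by
        have h5 : ((st c)^[a] y0).1.fst ∈ nb G B (0 + a) :=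
          nb_trans (i := 0) hy0 (fst_iter hf y0 a)
        rw [zero_add] at h5
        rcases hy1 with hy1 | hy1
        · rw [hy1]; exact h5
        · rw [hy1]; exact h5
      have f2 : y1.1.snd ∈ nb G B (a + 1) := nb_adj f1 y1.1.adj
      have hYf : (nx c y1).1.fst = y1.1.snd := nx_fst hf y1
      have hYs : (nx c y1).1.snd ∈ nb G {y1.1.snd} 1 := by
        have := (nx c y1).1.adj
        rw [hYf] at this
        exact nb_adj (i := 0) rfl this
      have cl1 : Clean u v c y1.1.snd := by
        refine hB _ (fun hc => hw'n ?_)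
        have h5 : w' ∈ nb G {y1.1.snd} (1 + b) := by
          rw [hwb]
          exact nb_trans hYs (snd_iter hf _ b)
        have h6 : w' ∈ nb G B (0 + (1 + b)) := nb_trans (i := 0) hc h5
        exact nb_mono B (by omega) h6
      have cl2 : ∀ j ≤ b, Clean u v c ((st c)^[j] (nx c y1)).1.snd := by
        intro j hj
        refine hB _ (fun hc => hw'n ?_)
        have h5 := snd_iter_from hf (nx c y1) hj
        rw [← hwb] at h5
        have h6 : w' ∈ nb G B (0 + (b - j)) := nb_trans (i := 0) hc h5
        exact nb_mono B (by omega) h6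
      have cl3 : ∀ j ≤ b, Clean u v c ((st c)^[j] (nx c y1)).1.fst := by
        intro j hj
        cases j with
        | zero =>
          have : ((st c)^[0] (nx c y1)).1.fst = y1.1.snd := hYf
          rw [this]
          exact cl1
        | succ j =>
          rw [Function.iterate_succ_apply', st_fst hf]
          exact cl2 j (by omega)
      have hq : ∀ j ≤ b, (nx c)^[4] ((st c)^[j] (nx c y1)) = (st c)^[j] (nx c y1) :=
        fun j hj => (cl3 j hj).2.2.2 _ rfl
      rw [hwb] at hadj
      rcases nb_cases h (cl2 b le_rfl) hadj with e | e | e | e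
      · exfalso
        apply hwn
        rw [e]
        have h5 : (nx c y1).1.fst ∈ nb G B (a + 1) := by rw [hYf]; exact f2
        have h6 : ((st c)^[b] (nx c y1)).1.fst ∈ nb G B (a + 1 + b) :=
          nb_trans h5 (fst_iter hf _ b)
        exact nb_mono B (by omega) h6
      · refine ⟨y0, hy0, Or.inr ⟨a, b + 1, y1, hy1, by omega, ?_⟩⟩
        rw [Function.iterate_succ_apply']
        exact e
      · exfalso
        apply hwn
        rw [← par_snd hi hf (hq b le_rfl), par_iter hi b (fun j hj => hq j (by omega)),
          par_nx hi] at e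
        rw [e]
        have h5 : (c y1).1.snd ∈ nb G B (a + 1) := by
          have := (c y1).1.adj
          rw [hf] at this
          exact nb_adj f1 this
        have h6 : ((st c)^[b] (c y1)).1.snd ∈ nb G B (a + 1 + b) :=
          nb_trans h5 (snd_iter hf _ b)
        exact nb_mono B (by omega) h6
      · have hac := across_iter h (y := nx c y1) b (fun j hj => cl2 j (by omega))
        have hac' : ∀ j ≤ b, (st c)^[j] (nx c y1).across = ((st c)^[j] (nx c y1)).across :=
          fun j hj => across_iter h (y := nx c y1) j (fun i hij => cl2 i (by omega))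
        have hq' : ∀ j ≤ b, (nx c)^[4] ((st c)^[j] (nx c y1).across) =
            (st c)^[j] (nx c y1).across := by
          intro j hj
          rw [hac' j hj]
          exact (cl3 j hj).2.2.2 _ rfl
        rw [← hac, ← par_snd hi hf (hq' b le_rfl), par_iter hi b (fun j hj => hq' j (by omega)),
          par_across] at e
        refine ⟨y0, hy0, Or.inr ⟨a + 1, b, st c y1, ?_, by omega, e⟩⟩
        rcases hy1 with hy1 | hy1
        · left
          rw [Function.iterate_succ_apply', hy1]
        · right
          rw [Function.iterate_succ_apply', hy1]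
          refine st_across h ?_
          rw [hy1] at cl1
          exact cl1

end Pool.Agent.H20.Hop
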