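import Mathlib
import Pool.Agent.H20.Hop.Bound
import Pool.Agent.H20.Hop.Straight

set_option autoImplicit false

/-!
A common obstruction of `N_k` and `N_{k+1}` has at most `2.1 * 10 ^ 8 * k ^ 3` vertices.
-/

namespace Pool.Agent.H20.Hop

open SimpleGraph

variable {V : Type*} {G : SimpleGraph V}

/-- the flags at a set of vertices -/
theorem Hopper.flags_le [Finite V] {k : ℕ} (h : Hopper G k) (B : Set V) :
    {y : Flag G | y.1.fst ∈ B}.ncard + 12 ≤ 8 * B.ncard + 8 * k := by
  classical
  have := Fintype.ofFinite V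
  have := finite_flag_g G
  have := Fintype.ofFinite (Flag G)
  have hdeg : ∀ x, (G.neighborSet x).ncard = G.degree x := by
    intro x
    rw [← Nat.card_coe_set_eq, Nat.card_eq_fintype_card, G.card_neighborSet_eq_degree]
  have hstep : ∑ z ∈ B.toFinset, G.degree z + 6 ≤ 4 * B.toFinset.card + 4 * k := by
    have hle := h.card_edge_le
    have h1 := G.sum_degrees_eq_twice_card_edges
    rw [Nat.card_eq_fintype_card, Nat.card_eq_fintype_card, ← edgeFinset_card] at hle
    have h2 : ∑ z ∈ B.toFinset, G.degree z + ∑ z ∈ B.toFinsetᶜ, G.degree z = ∑ z, G.degree z :=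
      Finset.sum_add_sum_compl B.toFinset _
    have h3 : ∑ _z ∈ B.toFinsetᶜ, 4 ≤ ∑ z ∈ B.toFinsetᶜ, G.degree z := by
      refine Finset.sum_le_sum (fun x _ => ?_)
      rw [← hdeg]
      exact h.four_le x
    rw [Finset.sum_const, smul_eq_mul] at h3
    have h4 : B.toFinset.card + B.toFinsetᶜ.card = Fintype.card V :=
      Finset.card_add_card_compl B.toFinset
    omega
  have e5 : B.ncard = B.toFinset.card := by
    rw [← Set.ncard_coe_finset, Set.coe_toFinset]
  have e6 : {y : Flag G | y.1.fst ∈ B}.ncard =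
      (Finset.univ.filter (fun y : Flag G => y.1.fst ∈ B)).card := by
    rw [← Set.ncard_coe_finset]
    congr 1
    ext y
    simp
  have e7 : (Finset.univ.filter (fun y : Flag G => y.1.fst ∈ B)).card =
      ∑ z ∈ B.toFinset, ((Finset.univ.filter (fun y : Flag G => y.1.fst ∈ B)).filter
        (fun y => y.1.fst = z)).card := by
    refine Finset.card_eq_sum_card_fiberwise (fun y hy => ?_)
    rw [Finset.mem_coe, Finset.mem_filter] at hy
    exact Finset.mem_coe.2 (Set.mem_toFinset.2 hy.2)
  have e8 : ∀ z ∈ B.toFinset, ((Finset.univ.filter (fun y : Flag G => y.1.fst ∈ B)).filter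
        (fun y => y.1.fst = z)).card ≤ G.degree z * 2 := by
    intro z _
    have h1 : ((G.neighborFinset z) ×ˢ (Finset.univ : Finset Bool)).card = G.degree z * 2 := by
      rw [Finset.card_product, G.card_neighborFinset_eq_degree, Finset.card_univ,
        Fintype.card_bool]
    rw [← h1]
    refine Finset.card_le_card_of_injOn (fun y : Flag G => (y.1.snd, y.2)) ?_ ?_
    · intro y hy
      rw [Finset.mem_coe, Finset.mem_filter] at hy
      rw [Finset.mem_coe, Finset.mem_product]
      refine ⟨?_, Finset.mem_univ _⟩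
      rw [mem_neighborFinset, ← hy.2]
      exact y.1.adj
    · intro y hy y' hy' hyy
      rw [Finset.mem_coe, Finset.mem_filter] at hy hy'
      have h2 : y.1.snd = y'.1.snd := congrArg (fun t : V × Bool => t.1) hyy
      have h3 : y.2 = y'.2 := congrArg (fun t : V × Bool => t.2) hyy
      exact Prod.ext (del_dart_ext (hy.2.trans hy'.2.symm) h2) h3
  have e9 := Finset.sum_le_sum e8
  rw [← Finset.sum_mul] at e9
  omega

/-- counting walks with at most one turn -/
theorem count_rp [Finite V] {c : Flag G → Flag G} {B : Set V} {R : ℕ}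
    (hall : ∀ w, w ∈ B ∨ ∃ n < R, Rp c B w (n + 1)) :
    Nat.card V ≤ B.ncard + {y : Flag G | y.1.fst ∈ B}.ncard * R +
      {y : Flag G | y.1.fst ∈ B}.ncard * (R * (R * 2)) := by
  classical
  have := Fintype.ofFinite V
  have := finite_flag_g G
  have := Fintype.ofFinite (Flag G)
  set F := Finset.univ.filter (fun y : Flag G => y.1.fst ∈ B) with hF
  have e6 : {y : Flag G | y.1.fst ∈ B}.ncard = F.card := by
    rw [← Set.ncard_coe_finset]
    congr 1
    ext y
    simp [hF]
  have e5 : B.ncard = B.toFinset.card := by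
    rw [← Set.ncard_coe_finset, Set.coe_toFinset]
  let S1 := (F ×ˢ Finset.range R).image (fun p => ((st c)^[p.2] p.1).1.snd)
  let S2 := (F ×ˢ (Finset.range R ×ˢ (Finset.range R ×ˢ (Finset.univ : Finset Bool)))).image
    (fun p => ((st c)^[p.2.2.1] (nx c (if p.2.2.2 then ((st c)^[p.2.1] p.1).across else
      (st c)^[p.2.1] p.1))).1.snd)
  have hcov : (Finset.univ : Finset V) ⊆ B.toFinset ∪ (S1 ∪ S2) := by
    intro w _
    rcases hall w with hw | ⟨n, hn, y0, hy0, ⟨a, ha, hwa⟩ | ⟨a, b, y1, hy1, hab, hwb⟩⟩
    · exact Finset.mem_union_left _ (Set.mem_toFinset.2 hw)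
    · refine Finset.mem_union_right _ (Finset.mem_union_left _ ?_)
      refine Finset.mem_image.2 ⟨(y0, a), ?_, hwa.symm⟩
      rw [Finset.mem_product]
      exact ⟨by simp [hF, hy0], Finset.mem_range.2 (by omega)⟩
    · refine Finset.mem_union_right _ (Finset.mem_union_right _ ?_)
      have haR : a < R := by omega
      have hbR : b < R := by omega
      rcases hy1 with hy1 | hy1
      · refine Finset.mem_image.2 ⟨(y0, a, b, false), ?_, ?_⟩
        · rw [Finset.mem_product, Finset.mem_product, Finset.mem_product]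
          exact ⟨by simp [hF, hy0], Finset.mem_range.2 haR, Finset.mem_range.2 hbR,
            Finset.mem_univ _⟩
        · rw [hwb, hy1]
          rfl
      · refine Finset.mem_image.2 ⟨(y0, a, b, true), ?_, ?_⟩
        · rw [Finset.mem_product, Finset.mem_product, Finset.mem_product]
          exact ⟨by simp [hF, hy0], Finset.mem_range.2 haR, Finset.mem_range.2 hbR,
            Finset.mem_univ _⟩
        · rw [hwb, hy1]
          rfl
  have h1 := Finset.card_le_card hcov
  have h2 := Finset.card_union_le B.toFinset (S1 ∪ S2)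
  have h3 := Finset.card_union_le S1 S2
  have h4 : S1.card ≤ F.card * R := by
    refine le_trans Finset.card_image_le ?_
    rw [Finset.card_product, Finset.card_range]
  have h5 : S2.card ≤ F.card * (R * (R * 2)) := by
    refine le_trans Finset.card_image_le ?_
    rw [Finset.card_product, Finset.card_product, Finset.card_product, Finset.card_range,
      Finset.card_univ, Fintype.card_bool]
  rw [Finset.card_univ] at h1
  rw [Nat.card_eq_fintype_card, e5, e6]
  omega

/-- the cubic bound -/
theorem Hopper.card_le_cubic [Finite V] {k : ℕ} (h : Hopper G k) :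
    Nat.card V ≤ 210000000 * k ^ 3 := by
  classical
  have hk := h.three_le
  obtain ⟨p, q, hpq⟩ := h.exists_adj
  obtain ⟨S1, hS1⟩ := h.del p q hpq
  have hB := h.unclean hpq S1 hS1
  obtain ⟨b, hb⟩ : ∃ b, b + 64 = 44 * k := ⟨44 * k - 64, by omega⟩
  set B : Set V := {z | ¬ Clean p q (tot S1) z} with hBdef
  have h1 : PC G p q (tot S1) := tot_pc S1 (h.three_le_del hpq)
  have hall : ∀ w, w ∈ B ∨ ∃ n < 10 * b + 11, Rp (tot S1) B w (n + 1) := by
    intro w
    have hw := h.near hpq S1 b hb w
    by_cases h0 : w ∈ B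
    · exact Or.inl h0
    right
    have hex : ∃ i, w ∈ nb G B i := ⟨_, hw⟩
    have hspec := Nat.find_spec hex
    have hmin := fun m => Nat.find_min hex (m := m)
    have hle := Nat.find_min' hex hw
    rcases hi : Nat.find hex with _ | n
    · rw [hi] at hspec
      exact absurd hspec h0
    · rw [hi] at hspec hle
      refine ⟨n, by omega, rp_all h1 (fun z hz => not_not.1 hz) n w hspec ?_⟩
      exact hmin n (by omega)
  have hcount := count_rp hall
  have hflags := h.flags_le B
  set F := {y : Flag G | y.1.fst ∈ B}.ncard with hF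
  have b1 : B.ncard ≤ 44 * k := by omega
  have b2 : F ≤ 360 * k := by omega
  have b3 : 10 * b + 11 ≤ 440 * k := by omega
  have e1 : F * (10 * b + 11) ≤ 360 * k * (440 * k) := Nat.mul_le_mul b2 b3
  have e2 : F * ((10 * b + 11) * ((10 * b + 11) * 2)) ≤ 360 * k * (440 * k * (440 * k * 2)) :=
    Nat.mul_le_mul b2 (Nat.mul_le_mul b3 (Nat.mul_le_mul b3 le_rfl))
  have e3 : Nat.card V ≤ 44 * k + 360 * k * (440 * k) + 360 * k * (440 * k * (440 * k * 2)) := by
    omega
  have e4 : 1 ≤ k := by omega
  have e5 : k ≤ k ^ 3 := by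
    calc k = k ^ 1 := (pow_one k).symm
      _ ≤ k ^ 3 := Nat.pow_le_pow_right e4 (by norm_num)
  have e6 : k ^ 2 ≤ k ^ 3 := Nat.pow_le_pow_right e4 (by norm_num)
  have e7 : 360 * k * (440 * k) = 158400 * k ^ 2 := by ring
  have e8 : 360 * k * (440 * k * (440 * k * 2)) = 139392000 * k ^ 3 := by ring
  rw [e7, e8] at e3
  omega

end Pool.Agent.H20.Hop
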