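import Mathlib
import Pool.Agent.H20.Hop.Cubic

set_option autoImplicit false

/-!
Gluing two embeddings along a layer in which they agree at all but few vertices.
-/

namespace Pool.Agent.H20.Hop

open SimpleGraph

variable {V : Type*} {G : SimpleGraph V}

/-- the glued embedding has fewer faces -/
theorem Hopper.glue_false [Finite V] {k : ℕ} (h : Hopper G k) {u v p q : V} (huv : G.Adj u v)
    (S : Scheme (G.deleteEdges {s(u, v)})) (hS : S.EulerGenusLE k) {c1 c2 : Flag G → Flag G}
    (h1 : PC G p q c1) (h2 : PC G u v c2)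
    (hn : norb Flag.along c2 = norb Flag.along S.corner + 1)
    {W : Set V} (hu : u ∈ W) (hv : v ∈ W) (hp : p ∉ W) (hq : q ∉ W)
    (hnorb : norb Flag.along c2 ≤ norb Flag.along (mixC W c1 c2)) : False := by
  classical
  have hm := mixC_isInv (W := W) h1.isInv h2.isInv h1.fst h2.fst
  have conv1 : ∀ a b, Rel Flag.across c1 a b → (a.1.fst = b.1.fst ∧
      (a.1.fst ∈ W → Rel Flag.across (mixC W c1 c2) a b)) := by
    intro a b hab
    induction hab with
    | rel a b hab =>
      rcases hab with hab | hab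
      · rw [hab]
        exact ⟨rfl, fun _ => rel_fst _ _ _⟩
      · rw [hab]
        refine ⟨(h1.fst a).symm, fun ha => ?_⟩
        rw [← mixC_in (c1 := c1) (c2 := c2) ha]
        exact rel_snd _ _ _
    | refl a => exact ⟨rfl, fun _ => rel_refl _ _ _⟩
    | symm a b _ ih => exact ⟨ih.1.symm, fun hb => (ih.2 (ih.1 ▸ hb)).symm⟩
    | trans a b c _ _ ih1 ih2 =>
      exact ⟨ih1.1.trans ih2.1, fun ha => (ih1.2 ha).trans (ih2.2 (ih1.1 ▸ ha))⟩
  have conv2 : ∀ a b, Rel Flag.across c2 a b → (a.1.fst = b.1.fst ∧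
      (a.1.fst ∉ W → Rel Flag.across (mixC W c1 c2) a b)) := by
    intro a b hab
    induction hab with
    | rel a b hab =>
      rcases hab with hab | hab
      · rw [hab]
        exact ⟨rfl, fun _ => rel_fst _ _ _⟩
      · rw [hab]
        refine ⟨(h2.fst a).symm, fun ha => ?_⟩
        rw [← mixC_out (c1 := c1) (c2 := c2) ha]
        exact rel_snd _ _ _
    | refl a => exact ⟨rfl, fun _ => rel_refl _ _ _⟩
    | symm a b _ ih => exact ⟨ih.1.symm, fun hb => (ih.2 (ih.1 ▸ hb)).symm⟩
    | trans a b c _ _ ih1 ih2 =>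
      exact ⟨ih1.1.trans ih2.1, fun ha => (ih1.2 ha).trans (ih2.2 (ih1.1 ▸ ha))⟩
  let S' : Scheme G :=
    { corner := mixC W c1 c2
      invol := hm.inv
      ne := hm.ne
      fst := fun x => by
        by_cases hx : x.1.fst ∈ W
        · rw [mixC_in hx, h1.fst]
        · rw [mixC_out hx, h2.fst]
      cyclic := fun f g hfg => by
        by_cases hx : f.1.fst ∈ W
        · exact (conv1 f g (h1.cyc f g hfg (fun hc => hp (hc ▸ hx)) (fun hc => hq (hc ▸ hx)))).2 hx
        · exact (conv2 f g (h2.cyc f g hfg (fun hc => hx (hc ▸ hu)) (fun hc => hx (hc ▸ hv)))).2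
            hx }
  apply h.notEmb
  refine ⟨S', Or.inl ?_⟩
  change S'.EulerGenusLE k
  have hS' := hS
  unfold Scheme.EulerGenusLE at hS' ⊢
  rw [S.numFaces_eq, h.iso_del huv] at hS'
  rw [S'.numFaces_eq]
  have hc := card_comp_le (G := G) u v
  have he := card_edge_del huv
  have hnn : norb Flag.along S'.corner = norb Flag.along (mixC W c1 c2) := rfl
  rw [hnn]
  push_cast at hS' ⊢
  omega

/-- the flags at vertices of degree four -/
theorem flags_four [Finite V] {D : Set V} (h4 : ∀ z ∈ D, (G.neighborSet z).ncard = 4) :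
    {f : Flag G | f.1.fst ∈ D}.ncard ≤ 8 * D.ncard := by
  classical
  have := Fintype.ofFinite V
  have := finite_flag_g G
  have := Fintype.ofFinite (Flag G)
  have e5 : D.ncard = D.toFinset.card := by
    rw [← Set.ncard_coe_finset, Set.coe_toFinset]
  have e6 : {y : Flag G | y.1.fst ∈ D}.ncard =
      (Finset.univ.filter (fun y : Flag G => y.1.fst ∈ D)).card := by
    rw [← Set.ncard_coe_finset]
    congr 1
    ext y
    simp
  have e7 : (Finset.univ.filter (fun y : Flag G => y.1.fst ∈ D)).card =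
      ∑ z ∈ D.toFinset, ((Finset.univ.filter (fun y : Flag G => y.1.fst ∈ D)).filter
        (fun y => y.1.fst = z)).card := by
    refine Finset.card_eq_sum_card_fiberwise (fun y hy => ?_)
    rw [Finset.mem_coe, Finset.mem_filter] at hy
    exact Finset.mem_coe.2 (Set.mem_toFinset.2 hy.2)
  have e8 : ∀ z ∈ D.toFinset, ((Finset.univ.filter (fun y : Flag G => y.1.fst ∈ D)).filter
        (fun y => y.1.fst = z)).card ≤ 8 := by
    intro z hz
    have hd : G.degree z = 4 := by
      rw [← h4 z (Set.mem_toFinset.1 hz), ← Nat.card_coe_set_eq, Nat.card_eq_fintype_card,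
        G.card_neighborSet_eq_degree]
    have h1 : ((G.neighborFinset z) ×ˢ (Finset.univ : Finset Bool)).card = 8 := by
      rw [Finset.card_product, G.card_neighborFinset_eq_degree, Finset.card_univ,
        Fintype.card_bool, hd]
    rw [← h1]
    refine Finset.card_le_card_of_injOn (fun y : Flag G => (y.1.snd, y.2)) ?_ ?_
    · intro y hy
      rw [Finset.mem_coe, Finset.mem_filter] at hy
      rw [Finset.mem_coe, Finset.mem_product]
      refine ⟨?_, Finset.mem_univ _⟩
      rw [mem_neighborFinset, ← hy.2]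
      exact y.1.adj
    · intro y hy y' hy' hyy
      rw [Finset.mem_coe, Finset.mem_filter] at hy hy'
      have h2 : y.1.snd = y'.1.snd := congrArg (fun t : V × Bool => t.1) hyy
      have h3 : y.2 = y'.2 := congrArg (fun t : V × Bool => t.2) hyy
      exact Prod.ext (del_dart_ext (hy.2.trans hy'.2.symm) h2) h3
  have e9 := Finset.sum_le_card_nsmul _ _ _ e8
  rw [smul_eq_mul] at e9
  omega

/-- counting the faces of the glued embedding when the two embeddings agree at the outer boundary
of `W` except at `D` -/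
theorem norb_defect [Finite V] {c1 c2 : Flag G → Flag G} (h1 : IsInv c1) (h2 : IsInv c2)
    (f1 : ∀ x, (c1 x).1.fst = x.1.fst) (f2 : ∀ x, (c2 x).1.fst = x.1.fst) {W D : Set V} {u v : V}
    (huv : G.Adj u v) (hu : u ∈ W) (hv : v ∈ W)
    (Hq : ∀ y : Flag G, y.1.fst ∈ W → (nx c1)^[4] y = y)
    (HqD : ∀ y : Flag G, y.1.fst ∈ D → (nx c1)^[4] y = y)
    (Hag : ∀ z : Flag G, z.1.fst ∉ W → (∃ y : Flag G, y.1.fst ∈ W ∧ Rel Flag.along c1 z y) →
      z.1.fst ∉ D → c2 z = c1 z)
    (H8 : ∀ x, ¬ OnE u v x → 8 ≤ {y | Rel Flag.along c2 x y}.ncard)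
    (H4 : ∀ x, OnE u v x → 4 ≤ {y | Rel Flag.along c2 x y}.ncard)
    (hD4 : ∀ z ∈ D, (G.neighborSet z).ncard = 4) :
    40 * norb Flag.along c2 +
      {f : Flag G | f.1.fst ∈ W ∧ ¬ OnE u v f ∧ 10 ≤ {y | Rel Flag.along c2 f y}.ncard}.ncard ≤
      40 * norb Flag.along (mixC W c1 c2) + 20 + 640 * D.ncard := by
  classical
  have := finite_flag_g G
  have := Fintype.ofFinite (Flag G)
  have hm := mixC_isInv (W := W) h1 h2 f1 f2
  let Phi : Flag G → Prop := fun f => ∃ y : Flag G, y.1.fst ∈ W ∧ Rel Flag.along c1 f y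
  let Dis : Flag G → Prop := fun f => ∃ z : Flag G, z.1.fst ∈ D ∧ Rel Flag.along c1 f z
  let Ext : Flag G → Prop := fun f => ∃ z : Flag G, z.1.fst ∈ D ∧ Rel Flag.along c2 f z
  let Bad : Flag G → Prop := fun f => f.1.fst ∈ W ∧ ¬ OnE u v f ∧
    10 ≤ {y | Rel Flag.along c2 f y}.ncard
  -- good quadrangles
  have C1 : ∀ x, Phi x → ¬ Dis x → {y | Rel Flag.along (mixC W c1 c2) x y}.ncard ≤ 8 := by
    rintro x ⟨y, hy, hxy⟩ hnd
    refine le_trans (Set.ncard_le_ncard (t := {z | Rel Flag.along c1 y z}) ?_ (Set.toFinite _))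
      (class_eight h1 y (Hq y hy))
    intro z hz
    exact hxy.symm.trans (Rel.mem_of_closed (C := fun z => Rel Flag.along c1 x z) along_isInv hm
      (fun z hz => hz.trans (rel_fst _ _ _))
      (fun z hz => by
        by_cases hzW : z.1.fst ∈ W
        · rw [mixC_in hzW]
          exact hz.trans (rel_snd _ _ _)
        · rw [mixC_out hzW, Hag z hzW ⟨y, hy, hz.symm.trans hxy⟩ (fun hc => hnd ⟨z, hc, hz⟩)]
          exact hz.trans (rel_snd _ _ _)) hz (rel_refl _ _ _))
  have C2 : ∀ x, ¬ (∃ y : Flag G, y.1.fst ∈ W ∧ Rel Flag.along c2 x y) →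
      {y | Rel Flag.along (mixC W c1 c2) x y}.ncard ≤ {y | Rel Flag.along c2 x y}.ncard := by
    intro x hx
    refine Set.ncard_le_ncard ?_ (Set.toFinite _)
    intro z hz
    exact Rel.mem_of_closed
      (C := fun z => Rel Flag.along c2 x z) along_isInv hm
      (fun z hz => hz.trans (rel_fst _ _ _))
      (fun z hz => by
        have hzW : z.1.fst ∉ W := fun hc => hx ⟨z, hc, hz⟩
        rw [mixC_out hzW]
        exact hz.trans (rel_snd _ _ _)) hz (rel_refl _ _ _)
  -- other classes meet `D`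
  have C3 : ∀ x, (∃ y : Flag G, y.1.fst ∈ W ∧ Rel Flag.along c2 x y) → ¬ Phi x → Ext x := by
    rintro x ⟨w, hw, hxw⟩ hnp
    by_contra hne
    apply hnp
    have hcl := Rel.mem_of_closed (a := Flag.along) (b := c2)
      (C := fun z => Rel Flag.along c2 x z ∧ Phi z) along_isInv h2
      (by
        rintro z ⟨hz, y, hy, hzy⟩
        exact ⟨hz.trans (rel_fst _ _ _), y, hy, (rel_fst _ _ _).symm.trans hzy⟩)
      (by
        rintro z ⟨hz, y, hy, hzy⟩
        refine ⟨hz.trans (rel_snd _ _ _), ?_⟩
        by_cases hzW : z.1.fst ∈ W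
        · exact ⟨c2 z, by rw [f2]; exact hzW, rel_refl _ _ _⟩
        · rw [Hag z hzW ⟨y, hy, hzy⟩ (fun hc => hne ⟨z, hc, hz⟩)]
          exact ⟨y, hy, (rel_snd _ _ _).symm.trans hzy⟩) hxw.symm ⟨hxw, w, hw, rel_refl _ _ _⟩
    exact hcl.2
  have hpos' : ∀ x, 1 ≤ {y | Rel Flag.along (mixC W c1 c2) x y}.ncard := by
    intro x
    rw [Nat.one_le_iff_ne_zero]
    exact Set.ncard_ne_zero_of_mem (a := x) (rel_refl _ _ _) (Set.toFinite _)
  have hpos2 : ∀ x, 1 ≤ {y | Rel Flag.along c2 x y}.ncard := by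
    intro x
    rw [Nat.one_le_iff_ne_zero]
    exact Set.ncard_ne_zero_of_mem (a := x) (rel_refl _ _ _) (Set.toFinite _)
  have key : ∀ x, (1 : ℚ) / ({y | Rel Flag.along c2 x y}.ncard : ℚ) +
        (if Bad x then 1 / 40 else 0) ≤
      1 / ({y | Rel Flag.along (mixC W c1 c2) x y}.ncard : ℚ) +
        (if OnE u v x then 1 / 8 else 0) + (if Dis x then 1 / 8 else 0) +
        (if Ext x then (1 : ℚ) / ({y | Rel Flag.along c2 x y}.ncard : ℚ) else 0) := by
    intro x
    have p1 : (0 : ℚ) < ({y | Rel Flag.along (mixC W c1 c2) x y}.ncard : ℚ) := by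
      exact_mod_cast hpos' x
    have p2 : (0 : ℚ) < ({y | Rel Flag.along c2 x y}.ncard : ℚ) := by
      exact_mod_cast hpos2 x
    have p1' : (0 : ℚ) ≤ 1 / ({y | Rel Flag.along (mixC W c1 c2) x y}.ncard : ℚ) := by
      positivity
    have p2' : (0 : ℚ) ≤ 1 / ({y | Rel Flag.along c2 x y}.ncard : ℚ) := by positivity
    have i1 : (0 : ℚ) ≤ (if OnE u v x then 1 / 8 else 0) := by split_ifs <;> norm_num
    have i2 : (0 : ℚ) ≤ (if Dis x then 1 / 8 else 0) := by split_ifs <;> norm_num
    have i3 : (0 : ℚ) ≤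
        (if Ext x then (1 : ℚ) / ({y | Rel Flag.along c2 x y}.ncard : ℚ) else 0) := by
      split_ifs
      · exact p2'
      · exact le_rfl
    -- the bound for the flags at quadrangles of `c1` touching `W`
    have hloc : (1 : ℚ) / ({y | Rel Flag.along c2 x y}.ncard : ℚ) +
        (if Bad x then 1 / 40 else 0) ≤ 1 / 8 + (if OnE u v x then 1 / 8 else 0) := by
      by_cases hB : Bad x
      · rw [if_pos hB, if_neg hB.2.1]
        have e3 : (1 : ℚ) / ({y | Rel Flag.along c2 x y}.ncard : ℚ) ≤ 1 / 10 :=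
          one_div_le_one_div_of_le (by norm_num) (by exact_mod_cast hB.2.2)
        linarith
      · rw [if_neg hB]
        by_cases hE : OnE u v x
        · rw [if_pos hE]
          have e3 : (1 : ℚ) / ({y | Rel Flag.along c2 x y}.ncard : ℚ) ≤ 1 / 4 :=
            one_div_le_one_div_of_le (by norm_num) (by exact_mod_cast H4 x hE)
          linarith
        · rw [if_neg hE]
          have e3 : (1 : ℚ) / ({y | Rel Flag.along c2 x y}.ncard : ℚ) ≤ 1 / 8 :=
            one_div_le_one_div_of_le (by norm_num) (by exact_mod_cast H8 x hE)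
          linarith
    by_cases hP : Phi x
    · by_cases hDs : Dis x
      · rw [if_pos hDs]
        linarith
      · have e4 : (1 : ℚ) / 8 ≤ 1 / ({y | Rel Flag.along (mixC W c1 c2) x y}.ncard : ℚ) :=
          one_div_le_one_div_of_le p1 (by exact_mod_cast C1 x hP hDs)
        linarith
    · have hxW : x.1.fst ∉ W := fun hc => hP ⟨x, hc, rel_refl _ _ _⟩
      have hB : ¬ Bad x := fun hc => hxW hc.1
      rw [if_neg hB, add_zero]
      by_cases hO : ∃ y : Flag G, y.1.fst ∈ W ∧ Rel Flag.along c2 x y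
      · have hE := C3 x hO hP
        rw [if_pos hE]
        linarith
      · have e5 : (1 : ℚ) / ({y | Rel Flag.along c2 x y}.ncard : ℚ) ≤
            1 / ({y | Rel Flag.along (mixC W c1 c2) x y}.ncard : ℚ) :=
          one_div_le_one_div_of_le p1 (by exact_mod_cast C2 x hO)
        linarith
  have hsum := Finset.sum_le_sum (fun x (_ : x ∈ (Finset.univ : Finset (Flag G))) => key x)
  rw [Finset.sum_add_distrib, Finset.sum_add_distrib, Finset.sum_add_distrib,
    Finset.sum_add_distrib, ← norb_eq_sum, ← norb_eq_sum] at hsum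
  set DF : Finset (Flag G) := Finset.univ.filter (fun f : Flag G => f.1.fst ∈ D) with hDF
  have hDFc : DF.card ≤ 8 * D.ncard := by
    have e1 := flags_four hD4
    have e2 : {f : Flag G | f.1.fst ∈ D}.ncard = DF.card := by
      rw [← Set.ncard_coe_finset]
      congr 1
      ext y
      simp [hDF]
    omega
  have t1 : ∑ x : Flag G, (if Bad x then (1 : ℚ) / 40 else 0) =
      ({f : Flag G | f.1.fst ∈ W ∧ ¬ OnE u v f ∧
        10 ≤ {y | Rel Flag.along c2 f y}.ncard}.ncard : ℚ) / 40 := by
    rw [← Finset.sum_filter, Finset.sum_const, nsmul_eq_mul]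
    have e2 : {f : Flag G | f.1.fst ∈ W ∧ ¬ OnE u v f ∧
        10 ≤ {y | Rel Flag.along c2 f y}.ncard}.ncard = (Finset.univ.filter Bad).card := by
      rw [← Set.ncard_coe_finset]
      congr 1
      ext y
      simp [Bad]
    rw [e2]
    ring
  have t2 : ∑ x : Flag G, (if OnE u v x then (1 : ℚ) / 8 else 0) ≤ 1 / 2 := by
    rw [← Finset.sum_filter, Finset.sum_const, nsmul_eq_mul]
    have h6 := ncard_onE huv
    have h7 : {x : Flag G | OnE u v x}.ncard =
        (Finset.univ.filter (fun x : Flag G => OnE u v x)).card := by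
      rw [← Set.ncard_coe_finset]
      congr 1
      ext y
      simp
    rw [h7] at h6
    have h8 : ((Finset.univ.filter (fun x : Flag G => OnE u v x)).card : ℚ) ≤ 4 := by
      exact_mod_cast h6
    linarith
  have t3 : ∑ x : Flag G, (if Dis x then (1 : ℚ) / 8 else 0) ≤ 8 * D.ncard := by
    rw [← Finset.sum_filter, Finset.sum_const, nsmul_eq_mul]
    have e1 : (Finset.univ.filter Dis) ⊆
        DF.biUnion (fun g => Finset.univ.filter (fun f => Rel Flag.along c1 g f)) := by
      intro f hf
      obtain ⟨z, hz, hfz⟩ := (Finset.mem_filter.1 hf).2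
      refine Finset.mem_biUnion.2 ⟨z, by simp [hDF, hz], ?_⟩
      rw [Finset.mem_filter]
      exact ⟨Finset.mem_univ _, hfz.symm⟩
    have e2 : ∀ g ∈ DF, (Finset.univ.filter (fun f => Rel Flag.along c1 g f)).card ≤ 8 := by
      intro g hg
      rw [hDF, Finset.mem_filter] at hg
      have e3 := class_eight h1 g (HqD g hg.2)
      have e4 : {z | Rel Flag.along c1 g z}.ncard =
          (Finset.univ.filter (fun f => Rel Flag.along c1 g f)).card := by
        rw [← Set.ncard_coe_finset]
        congr 1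
        ext y
        simp
      omega
    have e5 := Finset.card_le_card e1
    have e6 := Finset.card_biUnion_le_card_mul DF
      (fun g => Finset.univ.filter (fun f => Rel Flag.along c1 g f)) 8 e2
    have e7 : (Finset.univ.filter Dis).card ≤ 64 * D.ncard := by omega
    have e8 : ((Finset.univ.filter Dis).card : ℚ) ≤ 64 * (D.ncard : ℚ) := by exact_mod_cast e7
    linarith
  have t4 : ∑ x : Flag G,
      (if Ext x then (1 : ℚ) / ({y | Rel Flag.along c2 x y}.ncard : ℚ) else 0) ≤
      8 * D.ncard := by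
    have e1 : ∀ x : Flag G,
        (if Ext x then (1 : ℚ) / ({y | Rel Flag.along c2 x y}.ncard : ℚ) else 0) ≤
        ∑ g ∈ DF, (if Rel Flag.along c2 g x then
          (1 : ℚ) / ({y | Rel Flag.along c2 x y}.ncard : ℚ) else 0) := by
      intro x
      have p2 : (0 : ℚ) ≤ (1 : ℚ) / ({y | Rel Flag.along c2 x y}.ncard : ℚ) := by positivity
      by_cases hE : Ext x
      · rw [if_pos hE]
        obtain ⟨z, hz, hxz⟩ := hE
        have hzF : z ∈ DF := by simp [hDF, hz]
        have := Finset.single_le_sum (f := fun g => if Rel Flag.along c2 g x then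
          (1 : ℚ) / ({y | Rel Flag.along c2 x y}.ncard : ℚ) else 0)
          (fun g _ => by
            by_cases hg : Rel Flag.along c2 g x
            · simp only [if_pos hg]; exact p2
            · simp only [if_neg hg]; exact le_rfl) hzF
        simp only [if_pos hxz.symm] at this
        exact this
      · rw [if_neg hE]
        refine Finset.sum_nonneg (fun g _ => ?_)
        by_cases hg : Rel Flag.along c2 g x
        · rw [if_pos hg]; exact p2
        · rw [if_neg hg]
    refine le_trans (Finset.sum_le_sum (fun x _ => e1 x)) ?_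
    rw [Finset.sum_comm]
    have e2 : ∀ g ∈ DF, ∑ x : Flag G, (if Rel Flag.along c2 g x then
          (1 : ℚ) / ({y | Rel Flag.along c2 x y}.ncard : ℚ) else 0) ≤ 1 := by
      intro g _
      rw [← Finset.sum_filter]
      have e3 : ∀ x ∈ Finset.univ.filter (fun x => Rel Flag.along c2 g x),
          (1 : ℚ) / ({y | Rel Flag.along c2 x y}.ncard : ℚ) =
          1 / ({y | Rel Flag.along c2 g y}.ncard : ℚ) := by
        intro x hx
        have hgx := (Finset.mem_filter.1 hx).2
        have : {y | Rel Flag.along c2 x y} = {y | Rel Flag.along c2 g y} := by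
          ext y
          exact ⟨fun hh => hgx.trans hh, fun hh => hgx.symm.trans hh⟩
        rw [this]
      rw [Finset.sum_congr rfl e3, Finset.sum_const, nsmul_eq_mul]
      have e4 : {y | Rel Flag.along c2 g y}.ncard =
          (Finset.univ.filter (fun x => Rel Flag.along c2 g x)).card := by
        rw [← Set.ncard_coe_finset]
        congr 1
        ext y
        simp
      rw [← e4]
      have p2 : (0 : ℚ) < ({y | Rel Flag.along c2 g y}.ncard : ℚ) := by exact_mod_cast hpos2 g
      rw [mul_one_div, div_self p2.ne']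
    refine le_trans (Finset.sum_le_card_nsmul _ _ _ e2) ?_
    rw [nsmul_eq_mul, mul_one]
    exact_mod_cast hDFc
  rw [t1] at hsum
  have hfin : (40 : ℚ) * (norb Flag.along c2 : ℚ) +
      ({f : Flag G | f.1.fst ∈ W ∧ ¬ OnE u v f ∧
        10 ≤ {y | Rel Flag.along c2 f y}.ncard}.ncard : ℚ) ≤
      40 * (norb Flag.along (mixC W c1 c2) : ℚ) + 20 + 640 * (D.ncard : ℚ) := by
    linarith
  exact_mod_cast hfin

end Pool.Agent.H20.Hop
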