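import Mathlib
import Pool.Agent.H20.Hop.Defect

set_option autoImplicit false

/-!
A common obstruction of `N_k` and `N_{k+1}` has `O(k (log k)^2)` vertices.
-/

namespace Pool.Agent.H20.Hop

open SimpleGraph

variable {V : Type*} {G : SimpleGraph V}

theorem step_four [Finite V] {X : Set V} (h4 : ∀ z ∈ X, (G.neighborSet z).ncard = 4) :
    (X ∪ {w | ∃ z ∈ X, G.Adj z w}).ncard ≤ 5 * X.ncard := by
  classical
  have := Fintype.ofFinite V
  have e1 : {w | ∃ z ∈ X, G.Adj z w} = ↑(X.toFinset.biUnion (fun z => G.neighborFinset z)) := by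
    ext w
    simp
  have e3 : (X.toFinset.biUnion (fun z => G.neighborFinset z)).card ≤ X.toFinset.card * 4 := by
    refine Finset.card_biUnion_le_card_mul _ _ 4 (fun z hz => ?_)
    rw [G.card_neighborFinset_eq_degree, ← h4 z (Set.mem_toFinset.1 hz), ← Nat.card_coe_set_eq,
      Nat.card_eq_fintype_card, G.card_neighborSet_eq_degree]
  have e5 : X.ncard = X.toFinset.card := by
    rw [← Set.ncard_coe_finset, Set.coe_toFinset]
  have e6 := Set.ncard_union_le X {w | ∃ z ∈ X, G.Adj z w}
  have e7 : {w | ∃ z ∈ X, G.Adj z w}.ncard =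
      (X.toFinset.biUnion (fun z => G.neighborFinset z)).card := by
    rw [e1, Set.ncard_coe_finset]
  omega

theorem ball_four [Finite V] {w : V} (h4 : ∀ z ∈ nb G {w} 3, (G.neighborSet z).ncard = 4) :
    (nb G {w} 4).ncard ≤ 625 := by
  have key : ∀ i ≤ 4, (nb G {w} i).ncard ≤ 5 ^ i := by
    intro i
    induction i with
    | zero =>
      intro _
      change ({w} : Set V).ncard ≤ 5 ^ 0
      rw [Set.ncard_singleton]
      norm_num
    | succ i ih =>
      intro hi
      have h1 := step_four (X := nb G {w} i)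
        (fun z hz => h4 z (nb_mono _ (by omega) hz))
      have h2 := ih (by omega)
      rw [pow_succ]
      have h3 : (nb G {w} (i + 1)).ncard ≤ 5 * (nb G {w} i).ncard := h1
      omega
  have := key 4 le_rfl
  norm_num at this
  exact this

/-- the unclean vertices (for the embedding of `G - xy`) near `xy` -/
def uncl (G : SimpleGraph V) (x y : V) (c : Flag G → Flag G) (t : ℕ) : Set V :=
  {z | z ∈ nb G {x, y} t ∧ z ≠ x ∧ z ≠ y ∧ ¬ Clean x y c z}

theorem uncl_mono (x y : V) (c : Flag G → Flag G) {s t : ℕ} (h : s ≤ t) :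
    uncl G x y c s ⊆ uncl G x y c t := by
  rintro z ⟨h1, h2⟩
  exact ⟨nb_mono _ h h1, h2⟩

/-- the inequality at one layer -/
theorem Hopper.layer_core [Finite V] {k : ℕ} (h : Hopper G k) {p q : V} (hpq : G.Adj p q)
    (S1 : Scheme (G.deleteEdges {s(p, q)})) {x y : V} (hxy : G.Adj x y)
    (S2 : Scheme (G.deleteEdges {s(x, y)})) (hS2 : S2.EulerGenusLE k) {R0 : ℕ}
    (hclean1 : ∀ w ∈ nb G {x, y} R0, Clean p q (tot S1) w) {j : ℕ} (hj : 4 ≤ j)
    (hjR : j + 10 ≤ R0) :
    (uncl G x y (tot S2) j).ncard + 20 + 400000 * (uncl G x y (tot S2) (j - 4)).ncard ≤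
      400000 * (uncl G x y (tot S2) (j + 6)).ncard ∧
    (uncl G x y (tot S2) j).ncard + 20 ≤
      640 * (nb G {x, y} (j + 2) \ nb G {x, y} j).ncard := by
  classical
  have := Fintype.ofFinite V
  have h1 : PC G p q (tot S1) := tot_pc S1 (h.three_le_del hpq)
  have he : PC G x y (tot S2) := tot_pc S2 (h.three_le_del hxy)
  set U : Set V := {z | z ∈ nb G {x, y} R0 ∧ Clean x y (tot S2) z ∧
    ∀ f : Flag G, f.1.fst = z → AgF (tot S1) (tot S2) f} with hU
  obtain ⟨s, sa, sc, hs⟩ := exists_label h h1 he (U := U)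
    (fun z hz => hclean1 z hz.1) (fun z hz => hz.2.1) (fun z hz => hz.2.2)
  have hp2 := conj_pc (ce := tot S2) sc he
  set W : Set V := nb G {x, y} j with hW
  set D : Set V := (nb G {x, y} (j + 2) \ nb G {x, y} j) \ U with hD
  have hxW : x ∈ W := nb_mono _ (Nat.zero_le j) (Or.inl rfl : x ∈ nb G {x, y} 0)
  have hyW : y ∈ W := nb_mono _ (Nat.zero_le j) (Or.inr rfl : y ∈ nb G {x, y} 0)
  have hW1 : ∀ w ∈ W, Clean p q (tot S1) w := fun w hw => hclean1 w (nb_mono _ (by omega) hw)
  have hD1 : ∀ w ∈ D, Clean p q (tot S1) w :=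
    fun w hw => hclean1 w (nb_mono _ (by omega) hw.1.1)
  have hcount := norb_defect (c1 := tot S1) (c2 := conjF s (tot S2)) h1.isInv hp2.isInv h1.fst
    hp2.fst (W := W) (D := D) hxy hxW hyW
    (fun f hf => (hW1 _ hf).2.2.2 f rfl) (fun f hf => (hD1 _ hf).2.2.2 f rfl)
    (by
      rintro z hz ⟨f, hf, hzf⟩ hzD
      have h5 := quad_near h1.isInv h1.fst ((hW1 _ hf).2.2.2 f rfl) hzf.symm
      have h6 : z.1.fst ∈ nb G {x, y} (j + 2) := nb_trans hf h5
      have h7 : z.1.fst ∈ U := by
        by_contra hc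
        exact hzD ⟨⟨h6, hz⟩, hc⟩
      exact hs z h7)
    (by
      intro f hf
      refine le_trans ?_ (conj_class sa sc (tot S2) f)
      refine le_trans ?_ (fsize_tot S2 (flipF s f) hf)
      exact S2.eight_le_fsize (fun v => le_trans (by norm_num) (h.three_le_del hxy v))
        (fun a b c hab hbc => h.tf_del a b c hab hbc) _)
    (by
      intro f hf
      exact le_trans (four_class S2 (x := flipF s f) hf) (conj_class sa sc (tot S2) f))
    (fun z hz => (hD1 z hz).2.2.1)
  have hlt : ¬ norb Flag.along (conjF s (tot S2)) ≤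
      norb Flag.along (mixC W (tot S1) (conjF s (tot S2))) := by
    intro hle
    exact h.glue_false (p := p) (q := q) hxy S2 hS2 h1 hp2
      (by rw [conj_norb sa sc, norb_tot hxy]) hxW hyW (fun hc => (hW1 p hc).1 rfl)
      (fun hc => (hW1 q hc).2.1 rfl) hle
  -- bad flags
  have hbad : (uncl G x y (tot S2) j).ncard ≤
      {f : Flag G | f.1.fst ∈ W ∧ ¬ OnE x y f ∧
        10 ≤ {y | Rel Flag.along (conjF s (tot S2)) f y}.ncard}.ncard := by
    have := finite_flag_g G
    have hex : ∀ z, ∃ g : Flag G, z ∈ uncl G x y (tot S2) j →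
        (g.1.fst = z ∧ (nx (tot S2))^[4] g ≠ g) := by
      intro z
      by_cases hz : z ∈ uncl G x y (tot S2) j
      · have : ∃ g : Flag G, g.1.fst = z ∧ (nx (tot S2))^[4] g ≠ g := by
          by_contra hcon
          push Not at hcon
          exact hz.2.2.2 ⟨hz.2.1, hz.2.2.1, (hW1 z hz.1).2.2.1, hcon⟩
        obtain ⟨g, hg⟩ := this
        exact ⟨g, fun _ => hg⟩
      · exact ⟨(⟨(x, y), hxy⟩, false), fun hc => absurd hc hz⟩
    choose g hg using hex
    refine Set.ncard_le_ncard_of_injOn (fun z => flipF s (g z)) ?_ ?_ (Set.toFinite _)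
    · intro z hz
      obtain ⟨g1, g2⟩ := hg z hz
      have hn : ¬ OnE x y (g z) := by
        rintro (⟨f1, _⟩ | ⟨f1, _⟩)
        · exact hz.2.1 (g1 ▸ f1)
        · exact hz.2.2.1 (g1 ▸ f1)
      refine ⟨?_, hn, ?_⟩
      · change (g z).1.fst ∈ W
        rw [g1]
        exact hz.1
      · have e1 := conj_class sa sc (tot S2) (flipF s (g z))
        rw [flip_flip sc] at e1
        refine le_trans ?_ e1
        refine le_trans ?_ (fsize_tot S2 (g z) hn)
        refine S2.ten_le_fsize (fun v => le_trans (by norm_num) (h.three_le_del hxy v))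
          (fun a b c hab hbc => h.tf_del a b c hab hbc) ?_
        intro hc
        apply g2
        have := nx_up_iter S2 4 (downF (g z) hn)
        rw [hc] at this
        exact this
    · intro z hz z' hz' hzz
      have e1 := congrArg (fun f : Flag G => f.1.fst) hzz
      change (g z).1.fst = (g z').1.fst at e1
      rw [(hg z hz).1, (hg z' hz').1] at e1
      exact e1
  -- the defect set
  set Bl : Set V := uncl G x y (tot S2) (j + 6) \ uncl G x y (tot S2) (j - 4) with hBl
  have hBlc : Bl.ncard + (uncl G x y (tot S2) (j - 4)).ncard =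
      (uncl G x y (tot S2) (j + 6)).ncard :=
    Set.ncard_sdiff_add_ncard_of_subset (uncl_mono x y _ (by omega)) (Set.toFinite _)
  have hDBl : D ⊆ ↑(Bl.toFinset.biUnion (fun w => (nb G {w} 4).toFinset)) := by
    intro z hz
    have hz2 : z ∈ nb G {x, y} (j + 2) := hz.1.1
    have hball : ∀ w ∈ nb G {z} 4, w ∈ nb G {x, y} (j + 6) := by
      intro w hw
      have : w ∈ nb G {x, y} (j + 2 + 4) := nb_trans hz2 hw
      exact this
    have hex : ∃ w ∈ nb G {z} 4, ¬ Clean x y (tot S2) w := by
      by_contra hcon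
      push Not at hcon
      apply hz.2
      refine ⟨nb_mono _ (by omega) hz2, hcon z (nb_mono _ (Nat.zero_le 4)
        (rfl : z ∈ nb G {z} 0)), ?_⟩
      obtain ⟨a, ha, hza⟩ := nb_single hz2
      refine agree_of_clean h h1 he
        (fun w hw => hclean1 w (nb_mono _ (by omega) (hball w hw))) hcon (nb_symm hza) ?_
      rintro ⟨n1, n2, _⟩
      rcases ha with ha | ha
      · exact n1 ha
      · exact n2 ha
    obtain ⟨w, hw, hwn⟩ := hex
    have hwj : w ∉ nb G {x, y} (j - 4) := by
      intro hc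
      apply hz.1.2
      have : z ∈ nb G {x, y} (j - 4 + 4) := nb_trans hc (nb_symm hw)
      rwa [Nat.sub_add_cancel hj] at this
    have hx0 : x ∈ nb G {x, y} (j - 4) :=
      nb_mono _ (Nat.zero_le _) (Or.inl rfl : x ∈ nb G {x, y} 0)
    have hy0 : y ∈ nb G {x, y} (j - 4) :=
      nb_mono _ (Nat.zero_le _) (Or.inr rfl : y ∈ nb G {x, y} 0)
    rw [Finset.coe_biUnion, Set.mem_iUnion₂]
    refine ⟨w, ?_, ?_⟩
    · rw [Finset.mem_coe, Set.mem_toFinset]
      exact ⟨⟨hball w hw, fun hc => hwj (hc ▸ hx0), fun hc => hwj (hc ▸ hy0), hwn⟩,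
        fun hc => hwj hc.1⟩
    · rw [Finset.mem_coe, Set.mem_toFinset]
      exact nb_symm hw
  have hDc : D.ncard ≤ Bl.ncard * 625 := by
    refine le_trans (Set.ncard_le_ncard hDBl (Set.toFinite _)) ?_
    rw [Set.ncard_coe_finset]
    have e1 : Bl.ncard = Bl.toFinset.card := by
      rw [← Set.ncard_coe_finset, Set.coe_toFinset]
    rw [e1]
    refine Finset.card_biUnion_le_card_mul _ _ 625 (fun w hw => ?_)
    have hw' : w ∈ nb G {x, y} (j + 6) := (Set.mem_toFinset.1 hw).1.1
    have e2 := ball_four (G := G) (w := w) (fun z hz => by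
      have : z ∈ nb G {x, y} (j + 6 + 3) := nb_trans hw' hz
      exact (hclean1 z (nb_mono _ (by omega) this)).2.2.1)
    have e3 : (nb G {w} 4).ncard = (nb G {w} 4).toFinset.card := by
      rw [← Set.ncard_coe_finset, Set.coe_toFinset]
    omega
  have hDlayer : D.ncard ≤ (nb G {x, y} (j + 2) \ W).ncard :=
    Set.ncard_le_ncard Set.sdiff_subset (Set.toFinite _)
  constructor
  · omega
  · omega

theorem Hopper.layer_ineq [Finite V] {k : ℕ} (h : Hopper G k) {p q : V} (hpq : G.Adj p q)
    (S1 : Scheme (G.deleteEdges {s(p, q)})) {x y : V} (hxy : G.Adj x y)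
    (S2 : Scheme (G.deleteEdges {s(x, y)})) (hS2 : S2.EulerGenusLE k) {R0 : ℕ}
    (hclean1 : ∀ w ∈ nb G {x, y} R0, Clean p q (tot S1) w) {j : ℕ} (hj : 4 ≤ j)
    (hjR : j + 10 ≤ R0) :
    (uncl G x y (tot S2) j).ncard + 20 + 400000 * (uncl G x y (tot S2) (j - 4)).ncard ≤
      400000 * (uncl G x y (tot S2) (j + 6)).ncard :=
  (h.layer_core hpq S1 hxy S2 hS2 hclean1 hj hjR).1

/-- exponential growth -/
theorem seq_growth (M : ℕ) (hM : 0 < M) (a : ℕ → ℕ) (T : ℕ)
    (ha : ∀ t < T, a t + 20 + M * a t ≤ M * a (t + 1)) (hmono : ∀ s t, s ≤ t → a s ≤ a t) (i : ℕ)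
    (hi : 1 + M * i ≤ T) : 2 ^ i ≤ a (1 + M * i) := by
  induction i with
  | zero =>
    have h0 := ha 0 (by omega)
    simp only [mul_zero, add_zero, pow_zero]
    by_contra hc
    have : a 1 = 0 := by omega
    rw [zero_add, this] at h0
    omega
  | succ i ih =>
    have e0 : M * (i + 1) = M * i + M := by ring
    have hi' : 1 + M * i ≤ T := by omega
    have h1 := ih hi'
    set b := 1 + M * i with hb
    have key : ∀ r, r ≤ M → M * a b + r * a b ≤ M * a (b + r) := by
      intro r
      induction r with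
      | zero => intro _; simp
      | succ r ihr =>
        intro hr
        have h2 := ihr (by omega)
        have h3 := ha (b + r) (by omega)
        have h4 := hmono b (b + r) (by omega)
        have e1 : (r + 1) * a b = r * a b + a b := by ring
        have e2 : b + (r + 1) = b + r + 1 := by omega
        rw [e1, e2]
        omega
    have h5 := key M le_rfl
    have e3 : 1 + M * (i + 1) = b + M := by omega
    rw [e3, pow_succ]
    have h6 : M * (2 * a b) ≤ M * a (b + M) := by
      calc M * (2 * a b) = M * a b + M * a b := by ring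
        _ ≤ M * a (b + M) := h5
    have h7 := Nat.le_of_mul_le_mul_left h6 hM
    omega

/-- every vertex is near the unclean ones -/
theorem Hopper.near_log [Finite V] {k : ℕ} (h : Hopper G k) {p q : V} (hpq : G.Adj p q)
    (S1 : Scheme (G.deleteEdges {s(p, q)})) (L : ℕ) (hL : 44 * k < 2 ^ L) (x : V) :
    x ∈ nb G {z | ¬ Clean p q (tot S1) z} (4000000 * L + 15) := by
  classical
  by_contra hfar
  obtain ⟨y, hxy⟩ := h.noIsol x
  obtain ⟨S2, hS2⟩ := h.del x y hxy
  have hBe := h.unclean hxy S2 hS2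
  have hclean1 : ∀ w ∈ nb G {x, y} (4000000 * L + 14), Clean p q (tot S1) w := by
    intro w hw
    by_contra hnc
    apply hfar
    obtain ⟨a, ha, hwa⟩ := nb_single hw
    have hax : a ∈ nb G {x} 1 := by
      rcases ha with rfl | ha
      · exact nb_succ _ _ (rfl : a ∈ nb G {a} 0)
      · have : a = y := ha
        rw [this]
        exact nb_adj (i := 0) rfl hxy
    have hwx : w ∈ nb G {x} (1 + (4000000 * L + 14)) := nb_trans hax hwa
    have hxw := nb_symm hwx
    have hw0 : w ∈ nb G {z | ¬ Clean p q (tot S1) z} 0 := hnc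
    have := nb_trans hw0 hxw
    exact nb_mono _ (by omega) this
  have hgr := seq_growth 400000 (by norm_num)
    (fun t => (uncl G x y (tot S2) (10 * t)).ncard) (1 + 400000 * L)
    (by
      intro t ht
      have h1 := h.layer_ineq hpq S1 hxy S2 hS2 hclean1 (j := 10 * t + 4) (by omega) (by omega)
      have e1 : 10 * t + 4 - 4 = 10 * t := by omega
      have e2 : 10 * t + 4 + 6 = 10 * (t + 1) := by ring
      rw [e1, e2] at h1
      have h2 : (uncl G x y (tot S2) (10 * t)).ncard ≤ (uncl G x y (tot S2) (10 * t + 4)).ncard :=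
        Set.ncard_le_ncard (uncl_mono x y _ (by omega)) (Set.toFinite _)
      change (uncl G x y (tot S2) (10 * t)).ncard + 20 +
        400000 * (uncl G x y (tot S2) (10 * t)).ncard ≤
        400000 * (uncl G x y (tot S2) (10 * (t + 1))).ncard
      omega)
    (fun s t hst => Set.ncard_le_ncard (uncl_mono x y _ (by omega)) (Set.toFinite _)) L le_rfl
  have hle : (uncl G x y (tot S2) (10 * (1 + 400000 * L))).ncard ≤
      {z | ¬ Clean x y (tot S2) z}.ncard :=
    Set.ncard_le_ncard (fun z hz => hz.2.2.2) (Set.toFinite _)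
  have hgr' : 2 ^ L ≤ (uncl G x y (tot S2) (10 * (1 + 400000 * L))).ncard := hgr
  omega

/-- the bound -/
theorem Hopper.card_le_log [Finite V] {k : ℕ} (h : Hopper G k) :
    Nat.card V ≤ 20000000000000000 * k * (Nat.log 2 (44 * k) + 1) ^ 2 := by
  classical
  have hk := h.three_le
  obtain ⟨p, q, hpq⟩ := h.exists_adj
  obtain ⟨S1, hS1⟩ := h.del p q hpq
  have hB := h.unclean hpq S1 hS1
  set L := Nat.log 2 (44 * k) + 1 with hLdef
  have hL : 44 * k < 2 ^ L := Nat.lt_pow_succ_log_self (by norm_num) _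
  have hL1 : 1 ≤ L := by omega
  set B : Set V := {z | ¬ Clean p q (tot S1) z} with hBdef
  have h1 : PC G p q (tot S1) := tot_pc S1 (h.three_le_del hpq)
  have hall : ∀ w, w ∈ B ∨ ∃ n < 4000000 * L + 15, Rp (tot S1) B w (n + 1) := by
    intro w
    have hw := h.near_log hpq S1 L hL w
    by_cases h0 : w ∈ B
    · exact Or.inl h0
    right
    have hex : ∃ i, w ∈ nb G B i := ⟨_, hw⟩
    have hspec := Nat.find_spec hex
    have hmin := fun m => Nat.find_min hex (m := m)
    have hle := Nat.find_min' hex hw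
    rcases hi : Nat.find hex with _ | n
    · rw [hi] at hspec
      exact absurd hspec h0
    · rw [hi] at hspec hle
      refine ⟨n, by omega, rp_all h1 (fun z hz => not_not.1 hz) n w hspec ?_⟩
      exact hmin n (by omega)
  have hcount := count_rp hall
  have hflags := h.flags_le B
  set F := {y : Flag G | y.1.fst ∈ B}.ncard with hF
  have b1 : B.ncard ≤ 44 * k := by omega
  have b2 : F ≤ 360 * k := by omega
  have b3 : 4000000 * L + 15 ≤ 4000015 * L := by omega
  have e1 : F * (4000000 * L + 15) ≤ 360 * k * (4000015 * L) := Nat.mul_le_mul b2 b3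
  have e2 : F * ((4000000 * L + 15) * ((4000000 * L + 15) * 2)) ≤
      360 * k * (4000015 * L * (4000015 * L * 2)) :=
    Nat.mul_le_mul b2 (Nat.mul_le_mul b3 (Nat.mul_le_mul b3 le_rfl))
  have e3 : Nat.card V ≤ 44 * k + 360 * k * (4000015 * L) +
      360 * k * (4000015 * L * (4000015 * L * 2)) := by
    omega
  have e5 : k ≤ k * L ^ 2 := Nat.le_mul_of_pos_right k (by positivity)
  have e6 : k * L ≤ k * L ^ 2 := by
    refine Nat.mul_le_mul_left k ?_
    calc L = L ^ 1 := (pow_one L).symm
      _ ≤ L ^ 2 := Nat.pow_le_pow_right hL1 (by norm_num)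
  have e7 : 360 * k * (4000015 * L) = 1440005400 * (k * L) := by ring
  have e8 : 360 * k * (4000015 * L * (4000015 * L * 2)) = 11520086400162000 * (k * L ^ 2) := by ring
  have e9 : 20000000000000000 * k * L ^ 2 = 20000000000000000 * (k * L ^ 2) := by ring
  rw [e7, e8] at e3
  rw [e9]
  omega

end Pool.Agent.H20.Hop
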