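import Mathlib
import Pool.Agent.H20.Hop.NearLin

set_option autoImplicit false

/-!
A common obstruction of `N_k` and `N_{k+1}` has `O(k)` vertices.
-/

namespace Pool.Agent.H20.Hop

open SimpleGraph

variable {V : Type*} {G : SimpleGraph V}

theorem rp_loc [Finite V] {u v : V} {c : Flag G → Flag G} (h : PC G u v c) {B : Set V} {R0 : ℕ}
    (hB : ∀ z ∈ nb G B R0, Clean u v c z) (n : ℕ) (hn : n + 1 ≤ R0) :
    ∀ w ∈ nb G B (n + 1), w ∉ nb G B n → Rp c B w (n + 1) := by
  have hf := h.fst
  have hi := h.invol
  induction n with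
  | zero =>
    intro w hw hwn
    rcases hw with hw | ⟨z, hz, hadj⟩
    · exact absurd hw hwn
    · exact ⟨(⟨(z, w), hadj⟩, false), hz, Or.inl ⟨0, rfl, rfl⟩⟩
  | succ n ih =>
    intro w hw hwn
    rcases hw with hw | ⟨w', hw', hadj⟩
    · exact absurd hw hwn
    have hw'n : w' ∉ nb G B n := fun hc => hwn (nb_adj hc hadj)
    have hclean' : Clean u v c w' := hB w' (nb_mono B (by omega) hw')
    obtain ⟨y0, hy0, ⟨a, ha, hwa⟩ | ⟨a, b, y1, hy1, hab, hwb⟩⟩ := ih (by omega) w' hw' hw'n
    · -- no turn yet
      have hc : Clean u v c ((st c)^[a] y0).1.snd := hwa ▸ hclean'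
      rw [hwa] at hadj
      rcases nb_cases h hc hadj with e | e | e | e
      · exfalso
        apply hwn
        rw [e]
        have h5 : ((st c)^[a] y0).1.fst ∈ nb G B (0 + a) :=
          nb_trans (i := 0) hy0 (fst_iter hf y0 a)
        exact nb_mono B (by omega) h5
      · refine ⟨y0, hy0, Or.inl ⟨a + 1, by omega, ?_⟩⟩
        rw [Function.iterate_succ_apply']
        exact e
      · exact ⟨y0, hy0, Or.inr ⟨a, 0, (st c)^[a] y0, Or.inl rfl, by omega, e⟩⟩
      · exact ⟨y0, hy0, Or.inr ⟨a, 0, ((st c)^[a] y0).across, Or.inr rfl, by omega, e⟩⟩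
    · -- one turn
      have f1 : y1.1.fst ∈ nb G B a := by
        have h5 : ((st c)^[a] y0).1.fst ∈ nb G B (0 + a) :=
          nb_trans (i := 0) hy0 (fst_iter hf y0 a)
        rw [zero_add] at h5
        rcases hy1 with hy1 | hy1
        · rw [hy1]; exact h5
        · rw [hy1]; exact h5
      have f2 : y1.1.snd ∈ nb G B (a + 1) := nb_adj f1 y1.1.adj
      have hYf : (nx c y1).1.fst = y1.1.snd := nx_fst hf y1
      have hYs : (nx c y1).1.snd ∈ nb G {y1.1.snd} 1 := by
        have := (nx c y1).1.adj
        rw [hYf] at this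
        exact nb_adj (i := 0) rfl this
      have cl1 : Clean u v c y1.1.snd := hB _ (nb_mono B (by omega) f2)
      have cl2 : ∀ j ≤ b, Clean u v c ((st c)^[j] (nx c y1)).1.snd := by
        intro j hj
        have h5 : ((st c)^[j] (nx c y1)).1.snd ∈ nb G B (a + 1 + (1 + j)) :=
          nb_trans f2 (nb_trans hYs (snd_iter hf _ j))
        exact hB _ (nb_mono B (by omega) h5)
      have cl3 : ∀ j ≤ b, Clean u v c ((st c)^[j] (nx c y1)).1.fst := by
        intro j hj
        cases j with
        | zero =>
          have : ((st c)^[0] (nx c y1)).1.fst = y1.1.snd := hYf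
          rw [this]
          exact cl1
        | succ j =>
          rw [Function.iterate_succ_apply', st_fst hf]
          exact cl2 j (by omega)
      have hq : ∀ j ≤ b, (nx c)^[4] ((st c)^[j] (nx c y1)) = (st c)^[j] (nx c y1) :=
        fun j hj => (cl3 j hj).2.2.2 _ rfl
      rw [hwb] at hadj
      rcases nb_cases h (cl2 b le_rfl) hadj with e | e | e | e
      · exfalso
        apply hwn
        rw [e]
        have h5 : (nx c y1).1.fst ∈ nb G B (a + 1) := by rw [hYf]; exact f2
        have h6 : ((st c)^[b] (nx c y1)).1.fst ∈ nb G B (a + 1 + b) :=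
          nb_trans h5 (fst_iter hf _ b)
        exact nb_mono B (by omega) h6
      · refine ⟨y0, hy0, Or.inr ⟨a, b + 1, y1, hy1, by omega, ?_⟩⟩
        rw [Function.iterate_succ_apply']
        exact e
      · exfalso
        apply hwn
        rw [← par_snd hi hf (hq b le_rfl), par_iter hi b (fun j hj => hq j (by omega)),
          par_nx hi] at e
        rw [e]
        have h5 : (c y1).1.snd ∈ nb G B (a + 1) := by
          have := (c y1).1.adj
          rw [hf] at this
          exact nb_adj f1 this
        have h6 : ((st c)^[b] (c y1)).1.snd ∈ nb G B (a + 1 + b) :=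
          nb_trans h5 (snd_iter hf _ b)
        exact nb_mono B (by omega) h6
      · have hac := across_iter h (y := nx c y1) b (fun j hj => cl2 j (by omega))
        have hac' : ∀ j ≤ b, (st c)^[j] (nx c y1).across = ((st c)^[j] (nx c y1)).across :=
          fun j hj => across_iter h (y := nx c y1) j (fun i hij => cl2 i (by omega))
        have hq' : ∀ j ≤ b, (nx c)^[4] ((st c)^[j] (nx c y1).across) =
            (st c)^[j] (nx c y1).across := by
          intro j hj
          rw [hac' j hj]
          exact (cl3 j hj).2.2.2 _ rfl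
        rw [← hac, ← par_snd hi hf (hq' b le_rfl), par_iter hi b (fun j hj => hq' j (by omega)),
          par_across] at e
        refine ⟨y0, hy0, Or.inr ⟨a + 1, b, st c y1, ?_, by omega, e⟩⟩
        rcases hy1 with hy1 | hy1
        · left
          rw [Function.iterate_succ_apply', hy1]
        · right
          rw [Function.iterate_succ_apply', hy1]
          refine st_across h ?_
          rw [hy1] at cl1
          exact cl1

/-- the size of a layer of a clean region -/
theorem layer_size [Finite V] {u v : V} {c : Flag G → Flag G} (h : PC G u v c) {B : Set V}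
    {R0 : ℕ} (hB : ∀ z ∈ nb G B R0, Clean u v c z) (hB2 : B.ncard ≤ 2) (n : ℕ) (hn : n + 1 ≤ R0) :
    (nb G B (n + 1) \ nb G B n).ncard ≤ 48 * (n + 1) := by
  classical
  have := Fintype.ofFinite V
  have := finite_flag_g G
  have := Fintype.ofFinite (Flag G)
  set F := Finset.univ.filter (fun y : Flag G => y.1.fst ∈ B) with hF
  have e6 : {y : Flag G | y.1.fst ∈ B}.ncard = F.card := by
    rw [← Set.ncard_coe_finset]
    congr 1
    ext y
    simp [hF]
  have hFc : F.card ≤ 16 := by
    have h1 := flags_four (G := G) (D := B)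
      (fun z hz => (hB z (nb_mono B (Nat.zero_le R0) hz)).2.2.1)
    omega
  let S1 := F.image (fun p => ((st c)^[n] p).1.snd)
  let S2 := (F ×ˢ (Finset.range n ×ˢ (Finset.univ : Finset Bool))).image
    (fun p => ((st c)^[n - 1 - p.2.1] (nx c (if p.2.2 then ((st c)^[p.2.1] p.1).across else
      (st c)^[p.2.1] p.1))).1.snd)
  have hcov : (nb G B (n + 1) \ nb G B n) ⊆ ↑(S1 ∪ S2) := by
    rintro w ⟨hw, hwn⟩
    obtain ⟨y0, hy0, ⟨a, ha, hwa⟩ | ⟨a, b, y1, hy1, hab, hwb⟩⟩ := rp_loc h hB n hn w hw hwn
    · refine Finset.mem_union_left _ ?_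
      have : a = n := by omega
      rw [this] at hwa
      exact Finset.mem_image.2 ⟨y0, by simp [hF, hy0], hwa.symm⟩
    · refine Finset.mem_union_right _ ?_
      have haR : a < n := by omega
      have hbn : b = n - 1 - a := by omega
      rw [hbn] at hwb
      rcases hy1 with hy1 | hy1
      · refine Finset.mem_image.2 ⟨(y0, a, false), ?_, ?_⟩
        · rw [Finset.mem_product, Finset.mem_product]
          exact ⟨by simp [hF, hy0], Finset.mem_range.2 haR, Finset.mem_univ _⟩
        · rw [hwb, hy1]
          rfl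
      · refine Finset.mem_image.2 ⟨(y0, a, true), ?_, ?_⟩
        · rw [Finset.mem_product, Finset.mem_product]
          exact ⟨by simp [hF, hy0], Finset.mem_range.2 haR, Finset.mem_univ _⟩
        · rw [hwb, hy1]
          rfl
  refine le_trans (Set.ncard_le_ncard hcov (Set.toFinite _)) ?_
  rw [Set.ncard_coe_finset]
  have h3 := Finset.card_union_le S1 S2
  have h4 : S1.card ≤ F.card := Finset.card_image_le
  have h5 : S2.card ≤ F.card * (n * 2) := by
    refine le_trans Finset.card_image_le ?_
    rw [Finset.card_product, Finset.card_product, Finset.card_range,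
      Finset.card_univ, Fintype.card_bool]
  have h6 : F.card * (n * 2) ≤ 16 * (n * 2) := Nat.mul_le_mul_right _ hFc
  omega

/-- every vertex is within a fixed distance of the unclean ones -/
theorem Hopper.near_const [Finite V] {k : ℕ} (h : Hopper G k) {p q : V} (hpq : G.Adj p q)
    (S1 : Scheme (G.deleteEdges {s(p, q)})) (x : V) :
    x ∈ nb G {z | ¬ Clean p q (tot S1) z} 176000025 := by
  classical
  by_contra hfar
  obtain ⟨y, hxy⟩ := h.noIsol x
  obtain ⟨S2, hS2⟩ := h.del x y hxy
  have h1 : PC G p q (tot S1) := tot_pc S1 (h.three_le_del hpq)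
  have hclean1 : ∀ w ∈ nb G {x, y} 176000024, Clean p q (tot S1) w := by
    intro w hw
    by_contra hnc
    apply hfar
    obtain ⟨a, ha, hwa⟩ := nb_single hw
    have hax : a ∈ nb G {x} 1 := by
      rcases ha with rfl | ha
      · exact nb_succ _ _ (rfl : a ∈ nb G {a} 0)
      · have : a = y := ha
        rw [this]
        exact nb_adj (i := 0) rfl hxy
    have hwx : w ∈ nb G {x} (1 + 176000024) := nb_trans hax hwa
    have hxw := nb_symm hwx
    have hw0 : w ∈ nb G {z | ¬ Clean p q (tot S1) z} 0 := hnc
    have := nb_trans hw0 hxw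
    exact nb_mono _ (by omega) this
  have hgr := seq_growth 400000 (by norm_num)
    (fun t => (uncl G x y (tot S2) (10 * t)).ncard) (1 + 400000 * 44)
    (by
      intro t ht
      have h1 := h.layer_ineq hpq S1 hxy S2 hS2 hclean1 (j := 10 * t + 4) (by omega) (by omega)
      have e1 : 10 * t + 4 - 4 = 10 * t := by omega
      have e2 : 10 * t + 4 + 6 = 10 * (t + 1) := by ring
      rw [e1, e2] at h1
      have h2 : (uncl G x y (tot S2) (10 * t)).ncard ≤ (uncl G x y (tot S2) (10 * t + 4)).ncard :=
        Set.ncard_le_ncard (uncl_mono x y _ (by omega)) (Set.toFinite _)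
      change (uncl G x y (tot S2) (10 * t)).ncard + 20 +
        400000 * (uncl G x y (tot S2) (10 * t)).ncard ≤
        400000 * (uncl G x y (tot S2) (10 * (t + 1))).ncard
      omega)
    (fun s t hst => Set.ncard_le_ncard (uncl_mono x y _ (by omega)) (Set.toFinite _)) 44 le_rfl
  have hgr' : 2 ^ 44 ≤ (uncl G x y (tot S2) 176000010).ncard := hgr
  have hlay := (h.layer_core hpq S1 hxy S2 hS2 hclean1 (j := 176000010) (by norm_num)
    (by norm_num)).2
  have hB2 : ({x, y} : Set V).ncard ≤ 2 := by
    have := Set.ncard_insert_le x {y}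
    rw [Set.ncard_singleton] at this
    exact this
  have l1 := layer_size h1 hclean1 hB2 176000010 (by norm_num)
  have l2 := layer_size h1 hclean1 hB2 176000011 (by norm_num)
  have hsub : nb G {x, y} 176000012 \ nb G {x, y} 176000010 ⊆
      (nb G {x, y} 176000011 \ nb G {x, y} 176000010) ∪
        (nb G {x, y} 176000012 \ nb G {x, y} 176000011) := by
    rintro z ⟨hz1, hz2⟩
    by_cases hz : z ∈ nb G {x, y} 176000011
    · exact Or.inl ⟨hz, hz2⟩
    · exact Or.inr ⟨hz1, hz⟩
  have l3 := (Set.ncard_le_ncard hsub (Set.toFinite _)).trans (Set.ncard_union_le _ _)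
  have l1' : (nb G {x, y} 176000011 \ nb G {x, y} 176000010).ncard ≤ 48 * (176000010 + 1) := l1
  have l2' : (nb G {x, y} 176000012 \ nb G {x, y} 176000011).ncard ≤ 48 * (176000011 + 1) := l2
  have hlay' : (uncl G x y (tot S2) 176000010).ncard + 20 ≤
      640 * (nb G {x, y} 176000012 \ nb G {x, y} 176000010).ncard := hlay
  norm_num at hgr' l1' l2'
  omega

/-- the linear bound -/
theorem Hopper.card_le_linear [Finite V] {k : ℕ} (h : Hopper G k) :
    Nat.card V ≤ 30000000000000000000 * k := by
  classical
  have hk := h.three_le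
  obtain ⟨p, q, hpq⟩ := h.exists_adj
  obtain ⟨S1, hS1⟩ := h.del p q hpq
  have hB := h.unclean hpq S1 hS1
  set B : Set V := {z | ¬ Clean p q (tot S1) z} with hBdef
  have h1 : PC G p q (tot S1) := tot_pc S1 (h.three_le_del hpq)
  have hall : ∀ w, w ∈ B ∨ ∃ n < 176000025, Rp (tot S1) B w (n + 1) := by
    intro w
    have hw := h.near_const hpq S1 w
    by_cases h0 : w ∈ B
    · exact Or.inl h0
    right
    have hex : ∃ i, w ∈ nb G B i := ⟨_, hw⟩
    have hspec := Nat.find_spec hex
    have hmin := fun m => Nat.find_min hex (m := m)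
    have hle := Nat.find_min' hex hw
    rcases hi : Nat.find hex with _ | n
    · rw [hi] at hspec
      exact absurd hspec h0
    · rw [hi] at hspec hle
      refine ⟨n, by omega, rp_all h1 (fun z hz => not_not.1 hz) n w hspec ?_⟩
      exact hmin n (by omega)
  have hcount := count_rp hall
  have hflags := h.flags_le B
  set F := {y : Flag G | y.1.fst ∈ B}.ncard with hF
  norm_num at hcount
  omega

end Pool.Agent.H20.Hop
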